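import Pool.Agent.Lib_MP_36b788s.Rot2
import Pool.Agent.Lib_MP_36b788.LogZ

/-!
# ZPOW: power moments of `ζ = ‖e + √h ξ‖`, elementary facts on one step of a site

PROOF.
* `noise_ae`: `IsNoise.bdd` and `h^{3/8} ≤ 1/10` (`LogZ_ell`); triangle inequality, for all unit `e` at once.
* `zeta_pow`: `taylor_t` with `F t = (1+t)^{q/2}-1` (on `t ≤ -1` any value), `a = q/2`, `b = q(q-2)/8`: `aN+4b = (q/2)(N+q-2)`; `ζ^q = (ζ²)^{q/2}`.
  Remainder: `|F t - at - bt²| ≤ K|t|³` for `|t| ≤ 1/2`, `K = |(q/2)(q/2-1)(q/2-2)|2^{|q/2-3|}` (Taylor with third derivative `(q/2)(q/2-1)(q/2-2)(1+t)^{q/2-3}`,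
  `(1+t)^s ≤ 2^{|s|}` for `1/2 ≤ 1+t ≤ 3/2`; three times `F - at - bt²` has vanishing derivatives at `0` of order `0,1,2`: integrate/mean value theorem three
  times).
* `zeta_pow_int`: bounded a.e. and measurable.
* `zeta_iso`: isotropy: `L = rotQ e e'`, `‖e'+√hLξ‖ = ‖L(e+√hξ)‖ = ‖e+√hξ‖`, `ν.map L = ν`.
* `hat_step`: `norm_hat` (`hat β h g ξ` with `g = ‖g‖ uni g`), `psi_eq`, `psi_pos`: `t(1+ht^β) = v`.
* `hat_uni`: `hat g ξ = J(‖g‖v) = (psi(‖g‖‖v‖)/(‖g‖‖v‖))‖g‖v`, positive multiple of `v = uni g+√hξ`.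
* `hat_inv`: if `ht^β > 1` (`t = ‖hat‖`) then `2t < t(1+ht^β) = ‖g‖ζ ≤ 1.1‖g‖`, `t < ‖g‖`, `ht^β ≤ h‖g‖^β ≤ 1`, contradiction.
* `hat_half`: `t(1+ht^β) ≤ 2t`.
-/

open MeasureTheory ProbabilityTheory Dyn
open scoped ENNReal

namespace DynS

variable {N : ℕ}

theorem noise_ae {h : ℝ} (hh : 0 < h) (hh1 : h < 1 / 1000) {ν : Measure (E N)}
    (hν : IsNoise h ν) : ∀ᵐ ξ ∂ν, Real.sqrt h * ‖ξ‖ ≤ 1 / 10 ∧ ∀ e : E N, ‖e‖ = 1 →
      9 / 10 ≤ ‖e + Real.sqrt h • ξ‖ ∧ ‖e + Real.sqrt h • ξ‖ ≤ 11 / 10 := by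
  obtain ⟨-, hl1, -, -, -⟩ := LogZ_ell hh hh1
  filter_upwards [hν.bdd] with ξ hξ
  refine ⟨hξ.trans hl1, fun e he => ?_⟩
  have h2 := abs_norm_sub_norm_le (e + Real.sqrt h • ξ) e
  rw [he, add_sub_cancel_left, norm_smul, Real.norm_eq_abs, abs_of_nonneg (Real.sqrt_nonneg h)]
    at h2
  have h3 := abs_le.1 (h2.trans (hξ.trans hl1))
  constructor
  · linarith [h3.1]
  · linarith [h3.2]

/-- powers of numbers between `1/2` and `3/2` -/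
private theorem Zpow_rpow_le {u : ℝ} (h1 : 1 / 2 ≤ u) (h2 : u ≤ 3 / 2) (r : ℝ) :
    u ^ r ≤ 2 ^ |r| := by
  have hu : 0 < u := by linarith
  have hlog : |Real.log u| ≤ Real.log 2 := by
    rw [abs_le]
    constructor
    · have := Real.log_le_log (by norm_num : (0 : ℝ) < 1 / 2) h1
      rw [one_div, Real.log_inv] at this
      exact this
    · exact Real.log_le_log hu (by linarith)
  rw [Real.rpow_def_of_pos hu, Real.rpow_def_of_pos (by norm_num : (0 : ℝ) < 2)]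
  apply Real.exp_le_exp.2
  calc Real.log u * r ≤ |Real.log u * r| := le_abs_self _
    _ = |Real.log u| * |r| := abs_mul _ _
    _ ≤ Real.log 2 * |r| := mul_le_mul_of_nonneg_right hlog (abs_nonneg r)

/-- one step of the Taylor estimate -/
private theorem Zpow_mv {g g' : ℝ → ℝ} {K : ℝ} {n : ℕ} (hK : 0 ≤ K) (h0 : g 0 = 0)
    (hd : ∀ x : ℝ, |x| ≤ 1 / 2 → HasDerivAt g (g' x) x)
    (hb : ∀ x : ℝ, |x| ≤ 1 / 2 → |g' x| ≤ K * |x| ^ n) :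
    ∀ x : ℝ, |x| ≤ 1 / 2 → |g x| ≤ K * |x| ^ (n + 1) := by
  intro x hx
  have key := Convex.norm_image_sub_le_of_norm_hasDerivWithin_le (f := g) (f' := g')
    (s := Set.Icc (-|x|) |x|) (C := K * |x| ^ n) (x := 0) (y := x)
    (fun y hy => (hd y ((abs_le.2 hy).trans hx)).hasDerivWithinAt)
    (fun y hy => by
      rw [Real.norm_eq_abs]
      refine (hb y ((abs_le.2 hy).trans hx)).trans ?_
      exact mul_le_mul_of_nonneg_left (pow_le_pow_left₀ (abs_nonneg y) (abs_le.2 hy) n) hK)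
    (convex_Icc _ _) ⟨by linarith [abs_nonneg x], abs_nonneg x⟩
    ⟨neg_abs_le x, le_abs_self x⟩
  rw [h0, sub_zero, sub_zero, Real.norm_eq_abs, Real.norm_eq_abs] at key
  rw [pow_succ, ← mul_assoc]
  exact key

/-- second order expansion of a power -/
private theorem Zpow_taylor (s : ℝ) : ∃ K : ℝ, 0 ≤ K ∧ ∀ t : ℝ, |t| ≤ 1 / 2 →
    |(1 + t) ^ s - 1 - s * t - s * (s - 1) / 2 * t ^ 2| ≤ K * |t| ^ 3 := by
  refine ⟨|s * (s - 1) * (s - 2)| * 2 ^ |s - 3|, by positivity, ?_⟩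
  set K : ℝ := |s * (s - 1) * (s - 2)| * 2 ^ |s - 3| with hKdef
  have hK : 0 ≤ K := by positivity
  have hder : ∀ (r : ℝ) (x : ℝ), |x| ≤ 1 / 2 →
      HasDerivAt (fun t : ℝ => (1 + t) ^ r) (r * (1 + x) ^ (r - 1)) x := by
    intro r x hx
    have hx1 := (abs_le.1 hx).1
    have h1 : HasDerivAt (fun t : ℝ => 1 + t) 1 x := (hasDerivAt_id x).const_add 1
    have h2 := h1.rpow_const (p := r) (Or.inl (by linarith : (1 + x : ℝ) ≠ 0) )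
    refine h2.congr_deriv ?_
    ring
  have s3 : ∀ x : ℝ, |x| ≤ 1 / 2 → |s * (s - 1) * ((s - 2) * (1 + x) ^ (s - 2 - 1))| ≤
      K * |x| ^ 0 := by
    intro x hx
    have hx1 := abs_le.1 hx
    have hp : 0 < 1 + x := by linarith [hx1.1]
    have e1 : s * (s - 1) * ((s - 2) * (1 + x) ^ (s - 2 - 1)) =
        (s * (s - 1) * (s - 2)) * (1 + x) ^ (s - 3) := by
      rw [show s - 2 - 1 = s - 3 by ring]
      ring
    rw [e1, abs_mul, abs_of_pos (Real.rpow_pos_of_pos hp _), pow_zero, mul_one, hKdef]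
    exact mul_le_mul_of_nonneg_left (Zpow_rpow_le (by linarith [hx1.1]) (by linarith [hx1.2]) _)
      (abs_nonneg _)
  have s2 : ∀ x : ℝ, |x| ≤ 1 / 2 → |s * (s - 1) * ((1 + x) ^ (s - 2) - 1)| ≤ K * |x| ^ 1 := by
    refine Zpow_mv (g := fun x => s * (s - 1) * ((1 + x) ^ (s - 2) - 1)) hK ?_ ?_ s3
    · simp
    · intro x hx
      exact ((hder (s - 2) x hx).sub_const 1).const_mul (s * (s - 1))
  have s1 : ∀ x : ℝ, |x| ≤ 1 / 2 →
      |s * ((1 + x) ^ (s - 1) - 1 - (s - 1) * x)| ≤ K * |x| ^ 2 := by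
    refine Zpow_mv (g := fun x => s * ((1 + x) ^ (s - 1) - 1 - (s - 1) * x)) hK ?_ ?_ s2
    · simp
    · intro x hx
      have h1 := (((hder (s - 1) x hx).sub_const 1).sub
        ((hasDerivAt_id x).const_mul (s - 1))).const_mul s
      refine h1.congr_deriv ?_
      rw [show s - 1 - 1 = s - 2 by ring]
      ring
  refine Zpow_mv (g := fun t => (1 + t) ^ s - 1 - s * t - s * (s - 1) / 2 * t ^ 2) hK ?_ ?_ s1
  · simp
  · intro x hx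
    have h1 := ((((hder s x hx).sub_const 1).sub ((hasDerivAt_id x).const_mul s))).sub
      (((hasDerivAt_id x).pow 2).const_mul (s * (s - 1) / 2))
    refine h1.congr_deriv ?_
    simp only [id]
    ring

private theorem Zpow_int {h : ℝ} (hh : 0 < h) (hh1 : h < 1 / 1000) {ν : Measure (E N)}
    (hν : IsNoise h ν) (q : ℝ) {e : E N} (he : ‖e‖ = 1) :
    Integrable (fun ξ => ‖e + Real.sqrt h • ξ‖ ^ q) ν := by
  have := hν.prob
  have hc : Continuous fun ξ : E N => ‖e + Real.sqrt h • ξ‖ := by fun_prop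
  refine Integrable.of_bound (hc.measurable.pow_const q).aestronglyMeasurable (2 ^ |q|) ?_
  filter_upwards [noise_ae hh hh1 hν] with ξ hξ
  obtain ⟨h1, h2⟩ := hξ.2 e he
  rw [Real.norm_eq_abs, abs_of_nonneg (Real.rpow_nonneg (norm_nonneg _) _)]
  exact Zpow_rpow_le (by linarith) (by linarith) q

theorem zeta_pow (N : ℕ) (hN : 1 ≤ N) (q : ℝ) :
    ∃ C h0 : ℝ, 0 < C ∧ 0 < h0 ∧ ∀ (h : ℝ) (ν : Measure (E N)), 0 < h → h < h0 → IsNoise h ν →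
      ∀ e : E N, ‖e‖ = 1 →
        |∫ ξ, ‖e + Real.sqrt h • ξ‖ ^ q ∂ν - 1 - q / 2 * (N + q - 2) * h| ≤
          C * h ^ (9 / 8 : ℝ) := by
  obtain ⟨K, hK, hT⟩ := Zpow_taylor (q / 2)
  obtain ⟨C, h0, hC, hh0, key⟩ := taylor_t N hN (q / 2) (q / 2 * (q / 2 - 1) / 2) K hK
  refine ⟨C, min h0 (1 / 1000), hC, lt_min hh0 (by norm_num), ?_⟩
  intro h ν hh hhlt hν e he
  have hp := hν.prob
  have hm : Measurable fun t : ℝ => (1 + t) ^ (q / 2) - 1 :=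
    ((measurable_const.add measurable_id).pow_const _).sub measurable_const
  have h1 := key h ν hh (hhlt.trans_le (min_le_left _ _)) hν e he
    (fun t => (1 + t) ^ (q / 2) - 1) hm (fun t ht => hT t ht)
  have e1 : ∫ ξ, (fun t : ℝ => (1 + t) ^ (q / 2) - 1) (‖e + Real.sqrt h • ξ‖ ^ 2 - 1) ∂ν =
      ∫ ξ, ‖e + Real.sqrt h • ξ‖ ^ q ∂ν - 1 := by
    have e2 : ∀ ξ : E N, (fun t : ℝ => (1 + t) ^ (q / 2) - 1) (‖e + Real.sqrt h • ξ‖ ^ 2 - 1) =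
        ‖e + Real.sqrt h • ξ‖ ^ q - 1 := by
      intro ξ
      simp only
      have hz : (0 : ℝ) ≤ ‖e + Real.sqrt h • ξ‖ := norm_nonneg _
      rw [show (1 : ℝ) + (‖e + Real.sqrt h • ξ‖ ^ 2 - 1) = ‖e + Real.sqrt h • ξ‖ ^ (2 : ℝ) by
        rw [Real.rpow_two]; ring, ← Real.rpow_mul hz]
      congr 2
      ring
    rw [integral_congr_ae (Filter.Eventually.of_forall e2),
      integral_sub (Zpow_int hh (hhlt.trans_le (min_le_right _ _)) hν q he)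
        (integrable_const _), integral_const, probReal_univ, one_smul]
  rw [e1] at h1
  refine le_trans (le_of_eq ?_) h1
  congr 1
  ring

theorem zeta_pow_int {h : ℝ} (hh : 0 < h) (hh1 : h < 1 / 1000) {ν : Measure (E N)}
    (hν : IsNoise h ν) (q : ℝ) {e : E N} (he : ‖e‖ = 1) :
    Integrable (fun ξ => ‖e + Real.sqrt h • ξ‖ ^ q) ν :=
  Zpow_int hh hh1 hν q he

theorem zeta_iso {h : ℝ} {ν : Measure (E N)} (hν : IsNoise h ν) {e e' : E N} (he : ‖e‖ = 1)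
    (he' : ‖e'‖ = 1) {φ : ℝ → ℝ≥0∞} (hφ : Measurable φ) :
    ∫⁻ ξ, φ ‖e' + Real.sqrt h • ξ‖ ∂ν = ∫⁻ ξ, φ ‖e + Real.sqrt h • ξ‖ ∂ν := by
  have hc : Continuous fun ξ : E N => ‖e' + Real.sqrt h • ξ‖ := by fun_prop
  have hm : Measurable fun ξ : E N => φ ‖e' + Real.sqrt h • ξ‖ := hφ.comp hc.measurable
  conv_lhs => rw [← hν.iso (rotQ e e')]
  rw [lintegral_map hm (rotQ e e').continuous.measurable]
  refine lintegral_congr fun ξ => ?_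
  have h1 : e' + Real.sqrt h • rotQ e e' ξ = rotQ e e' (e + Real.sqrt h • ξ) := by
    rw [map_add, map_smul, rotQ_map he he']
  rw [h1, LinearIsometryEquiv.norm_map]

private theorem Zpow_polar {g : E N} (hg : g ≠ 0) : ‖g‖ • uni g = g := by
  have hg0 : ‖g‖ ≠ 0 := norm_ne_zero_iff.2 hg
  unfold uni
  rw [smul_smul, mul_one_div, div_self hg0, one_smul]

theorem hat_step {β h : ℝ} (hβ : 0 < β) (hh : 0 ≤ h) {g : E N} (hg : g ≠ 0) {ξ : E N}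
    (hζ : 0 < ‖uni g + Real.sqrt h • ξ‖) : hat β h g ξ ≠ 0 ∧
      ‖hat β h g ξ‖ * (1 + h * ‖hat β h g ξ‖ ^ β) = ‖g‖ * ‖uni g + Real.sqrt h • ξ‖ := by
  have hg0 : 0 < ‖g‖ := norm_pos_iff.2 hg
  have hv : 0 < ‖g‖ * ‖uni g + Real.sqrt h • ξ‖ := mul_pos hg0 hζ
  have h1 : ‖hat β h g ξ‖ = psi β h (‖g‖ * ‖uni g + Real.sqrt h • ξ‖) := by
    have := norm_hat (N := N) hβ hh (norm_nonneg g) (uni_norm hg) ξ
    rwa [Zpow_polar hg] at this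
  have h2 := psi_pos hβ hh hv
  have h3 := psi_eq hβ hh hv.le
  rw [← h1] at h2 h3
  refine ⟨norm_pos_iff.1 h2, ?_⟩
  rw [Real.rpow_add h2, Real.rpow_one] at h3
  linear_combination h3

theorem hat_uni {β h : ℝ} (hβ : 0 < β) (hh : 0 ≤ h) {g : E N} (hg : g ≠ 0) {ξ : E N}
    (hζ : 0 < ‖uni g + Real.sqrt h • ξ‖) :
    uni (hat β h g ξ) = uni (uni g + Real.sqrt h • ξ) := by
  have hg0 : 0 < ‖g‖ := norm_pos_iff.2 hg
  have hv : 0 < ‖g‖ * ‖uni g + Real.sqrt h • ξ‖ := mul_pos hg0 hζ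
  have h1 := hat_polar (N := N) hβ hh (norm_nonneg g) (uni_norm hg) ξ
  rw [Zpow_polar hg] at h1
  have hc : 0 < psi β h (‖g‖ * ‖uni g + Real.sqrt h • ξ‖) / ‖uni g + Real.sqrt h • ξ‖ :=
    div_pos (psi_pos hβ hh hv) hζ
  rw [h1]
  generalize psi β h (‖g‖ * ‖uni g + Real.sqrt h • ξ‖) / ‖uni g + Real.sqrt h • ξ‖ = c at hc
  unfold uni at hζ ⊢
  generalize (1 / ‖g‖) • g + Real.sqrt h • ξ = w at hζ ⊢
  rw [norm_smul, Real.norm_eq_abs, abs_of_pos hc, smul_smul]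
  congr 1
  field_simp

theorem hat_inv {β h : ℝ} (hβ : 0 < β) (hh : 0 < h) {g : E N} (hg : g ≠ 0) {ξ : E N}
    (hζ : 0 < ‖uni g + Real.sqrt h • ξ‖) (hζ1 : ‖uni g + Real.sqrt h • ξ‖ ≤ 11 / 10)
    (hs : h * ‖g‖ ^ β ≤ 1) : h * ‖hat β h g ξ‖ ^ β ≤ 1 := by
  obtain ⟨-, h2⟩ := hat_step hβ hh.le hg hζ
  by_contra hcon
  rw [not_le] at hcon
  have ht : 0 ≤ ‖hat β h g ξ‖ := norm_nonneg _
  have hg0 : 0 < ‖g‖ := norm_pos_iff.2 hg
  have h3 : 2 * ‖hat β h g ξ‖ ≤ ‖g‖ * ‖uni g + Real.sqrt h • ξ‖ := by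
    rw [← h2]
    nlinarith
  have h4 : ‖g‖ * ‖uni g + Real.sqrt h • ξ‖ ≤ ‖g‖ * (11 / 10) :=
    mul_le_mul_of_nonneg_left hζ1 hg0.le
  have h5 : ‖hat β h g ξ‖ ≤ ‖g‖ := by linarith
  have h6 : h * ‖hat β h g ξ‖ ^ β ≤ h * ‖g‖ ^ β :=
    mul_le_mul_of_nonneg_left (Real.rpow_le_rpow ht h5 hβ.le) hh.le
  linarith

theorem hat_half {β h : ℝ} (hβ : 0 < β) (hh : 0 < h) {g : E N} (hg : g ≠ 0) {ξ : E N}
    (hζ : 0 < ‖uni g + Real.sqrt h • ξ‖) (hζ1 : ‖uni g + Real.sqrt h • ξ‖ ≤ 11 / 10)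
    (hs : h * ‖g‖ ^ β ≤ 1) :
    ‖g‖ * ‖uni g + Real.sqrt h • ξ‖ / 2 ≤ ‖hat β h g ξ‖ ∧
      ‖hat β h g ξ‖ ≤ ‖g‖ * ‖uni g + Real.sqrt h • ξ‖ := by
  obtain ⟨-, h2⟩ := hat_step hβ hh.le hg hζ
  have h3 := hat_inv hβ hh hg hζ hζ1 hs
  have ht : 0 ≤ ‖hat β h g ξ‖ := norm_nonneg _
  have h4 : 0 ≤ h * ‖hat β h g ξ‖ ^ β := mul_nonneg hh.le (Real.rpow_nonneg ht _)
  constructor
  · rw [← h2]
    nlinarith
  · rw [← h2]
    nlinarith

end DynS
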