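import Pool.Agent.Lib_MP_36b788s.Mk
import Pool.Agent.Lib_MP_36b788.NMom

/-!
# Rotated pair steps

`rotQ e e' = rfl1 (e+e') ∘ rfl1 e` takes the unit vector `e` to the unit vector `e'`.

PROOF.
* `rfl1_apply`: `Submodule.reflection_orthogonal_apply`, `Submodule.reflection_singleton_apply`.
* `rotQ_map`: `rfl1 e e = -e`; `rfl1 (e+e') (-e) = -e + (2⟪e+e',e⟫/‖e+e'‖²)(e+e') = e'` as `‖e+e'‖² = 2⟪e+e',e⟫` (both `2+2c`);
  if `e+e' = 0` then `rfl1 0 = id` and the value is `-e = e'`.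
* measurability: `(a,v) ↦ rfl1 a v` is measurable by the formula `rfl1_apply`.
* `rotN_preserving`: `MeasureTheory.measurePreserving_pi` for `ν` and `L = rotQ (uni (G x)) (uni (G' x))` (`ν.map L = ν`).
* `rotQ_cos`: with `c = ⟪e,e'⟫`: for `e+e' ≠ 0`, `rotQ e e' v = v - 2⟪e,v⟫e - (2⟪e+e',v-2⟪e,v⟫e⟫/‖e+e'‖²)(e+e')`, `‖e+e'‖² = 2(1+c)`,
  `⟪e+e', v-2⟪e,v⟫e⟫ = ⟪e',v⟫ - (1+2c)⟪e,v⟫`. So `⟪v,Qv⟫ = ‖v‖² - 2⟪e,v⟫² - (⟪e',v⟫-(1+2c)⟪e,v⟫)(⟪e,v⟫+⟪e',v⟫)/(1+c)`, multiply by `1+c`:
  `(1+c)(‖v‖²-⟪v,Qv⟫) = 2(1+c)a² + (b-(1+2c)a)(a+b) = a² - 2cab + b²`, `a = ⟪e,v⟫`, `b = ⟪e',v⟫`.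
* `rotQ_cos_opp`: `e' = -e`: `Qv = v - 2⟪e,v⟫e`.
* `rotQ_cos_le2`: `N ≥ 2`: if `e' ≠ ±e` then `e' = c e + s f`, `f` unit, `f ⊥ e`, `c²+s² = 1`; `b = ca + s⟪f,v⟫`, so
  `a²-2cab+b² = s²(a²+⟪f,v⟫²) = (1-c)(1+c)(a²+⟪f,v⟫²)` and `1+c > 0`: equality. If `e' = e`: any unit `f ⊥ e`, `Q = id` by `rotQ_cos` (`2(‖v‖²-⟪v,Qv⟫)
  = 0`). If `e' = -e`: any unit `f ⊥ e`: `2a² ≤ 2(a²+⟪f,v⟫²)`.
* `rotQ_cos_le`: `≤ (1-c)‖v‖²`: `a²-2cab+b² ≤ (1-c²)‖v‖²` is the Gram determinant inequality of `e, e', v` (or from the plane form above for `N ≥ 2`;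
  direct: `w = v - ae`, `⟪e',w⟫ = b-ca`, `e'-ce ⊥ e` has square norm `1-c²`, `⟪e'-ce,w⟫ = b-ca` so `(b-ca)² ≤ (1-c²)‖w‖² = (1-c²)(‖v‖²-a²)`,
  and `a²-2cab+b² = (b-ca)²+(1-c²)a²`). For `e+e' = 0`: `2a² ≤ 2‖v‖²`.
* `hat_rot`: `hat_polar`/`hat_isometry`: with `g = ‖g‖e`, `g' = ‖g'‖e'`, `Q e = e'`: `hat β h g' (Qξ) = Q (hat β h (‖g'‖e) ξ)`.
* `hat2_dist`: `J_nonexp`: `‖hat g ξ - hat g'(Qξ)‖ ≤ ‖r v - r' Q v‖`, `v = e+√hξ`, `r = ‖g‖`, `r' = ‖g'‖`;
  `‖rv-r'Qv‖² = (r-r')²‖v‖²+2rr'(‖v‖²-⟪v,Qv⟫) ≤ ((r-r')²+2rr'(1-c))‖v‖² = ‖g-g'‖²‖v‖²`.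
* `hat2_dist_all`: if one of them is `0`: `hat β h 0 ξ = 0`, `‖hat β h g ξ‖ ≤ ‖g‖‖uni g+√hξ‖ ≤ ‖g‖(1+√h‖ξ‖)` (`J_nonexp` with `J_zero`), `Q` isometry.
-/

open MeasureTheory ProbabilityTheory Dyn
open scoped ENNReal

namespace DynS

variable {N d : ℕ} {ι : Type} [Fintype ι]

theorem rfl1_apply (a v : E N) : rfl1 a v = v - (2 * inner ℝ a v / ‖a‖ ^ 2) • a := by
  unfold rfl1
  rw [Submodule.reflection_orthogonal_apply, Submodule.reflection_singleton_apply, neg_sub]
  congr 1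
  rw [← smul_assoc]
  congr 1
  rw [nsmul_eq_mul]
  push_cast
  simp only [RCLike.ofReal_real_eq_id, id_eq]
  ring

private theorem Rot2_ns {e e' : E N} (he : ‖e‖ = 1) (he' : ‖e'‖ = 1) :
    ‖e + e'‖ ^ 2 = 2 * (1 + inner ℝ e e') := by
  rw [norm_add_sq_real, he, he']
  ring

private theorem Rot2_apply (e e' v : E N) :
    rotQ e e' v = rfl1 (e + e') (rfl1 e v) := rfl

private theorem Rot2_self {e : E N} (he : ‖e‖ = 1) (v : E N) :
    rfl1 e v = v - (2 * inner ℝ e v) • e := by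
  rw [rfl1_apply, he]
  simp

theorem rotQ_map {e e' : E N} (he : ‖e‖ = 1) (he' : ‖e'‖ = 1) : rotQ e e' e = e' := by
  rw [Rot2_apply, Rot2_self he, rfl1_apply]
  have h1 : e - (2 * inner ℝ e e) • e = -e := by
    rw [real_inner_self_eq_norm_sq, he]
    norm_num
    rw [two_smul]
    abel
  rw [h1]
  by_cases h : e + e' = 0
  · rw [h, smul_zero, sub_zero]
    exact (eq_neg_of_add_eq_zero_right h).symm
  · have h2 : ‖e + e'‖ ^ 2 ≠ 0 := by
      have := norm_ne_zero_iff.2 h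
      positivity
    have h3 : 2 * inner ℝ (e + e') (-e) / ‖e + e'‖ ^ 2 = (-1 : ℝ) := by
      rw [div_eq_iff h2, Rot2_ns he he', inner_neg_right, inner_add_left,
        real_inner_self_eq_norm_sq, he, real_inner_comm e' e]
      ring
    rw [h3]
    rw [neg_one_smul]
    abel

private theorem Rot2_rfl_meas :
    Measurable (fun q : E N × E N => rfl1 q.1 q.2) := by
  have h1 : (fun q : E N × E N => rfl1 q.1 q.2) =
      fun q => q.2 - (2 * inner ℝ q.1 q.2 / ‖q.1‖ ^ 2) • q.1 := by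
    funext q
    exact rfl1_apply q.1 q.2
  rw [h1]
  exact measurable_snd.sub ((((measurable_fst.inner measurable_snd).const_mul _).div
    (measurable_fst.norm.pow_const 2)).smul measurable_fst)

theorem measurable_rotQ : Measurable (fun q : (E N × E N) × E N => rotQ q.1.1 q.1.2 q.2) := by
  have ha : Measurable fun q : (E N × E N) × E N => q.1.1 := measurable_fst.comp measurable_fst
  have hb : Measurable fun q : (E N × E N) × E N => q.1.2 := measurable_snd.comp measurable_fst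
  have h0 : Measurable fun q : (E N × E N) × E N => (q.1.1, q.2) := ha.prodMk measurable_snd
  have h2 := Rot2_rfl_meas.comp h0
  have h3 := Rot2_rfl_meas.comp ((ha.add hb).prodMk h2)
  exact h3

theorem measurable_uni : Measurable (uni : E N → E N) := by
  unfold uni
  exact (measurable_const.div measurable_norm).smul measurable_id

theorem uni_norm {g : E N} (hg : g ≠ 0) : ‖uni g‖ = 1 := by
  have h1 : 0 < ‖g‖ := norm_pos_iff.2 hg
  unfold uni
  rw [norm_smul, Real.norm_of_nonneg (by positivity)]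
  field_simp

theorem measurable_rotN : Measurable (fun q : ((ι → E N) × (ι → E N)) × (ι → E N) =>
    rotN q.1.1 q.1.2 q.2) := by
  refine measurable_pi_lambda _ fun x => ?_
  have ha : Measurable fun q : ((ι → E N) × (ι → E N)) × (ι → E N) => q.1.1 x :=
    (measurable_pi_apply x).comp (measurable_fst.comp measurable_fst)
  have hb : Measurable fun q : ((ι → E N) × (ι → E N)) × (ι → E N) => q.1.2 x :=
    (measurable_pi_apply x).comp (measurable_snd.comp measurable_fst)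
  have hc : Measurable fun q : ((ι → E N) × (ι → E N)) × (ι → E N) => q.2 x :=
    (measurable_pi_apply x).comp measurable_snd
  have ha' := measurable_uni.comp ha
  have hb' := measurable_uni.comp hb
  have h1 := measurable_rotQ.comp ((ha'.prodMk hb').prodMk hc)
  exact h1

theorem measurable_stp2 (net : Net ι d) {β h : ℝ} (hβ : 0 < β) (hh : 0 ≤ h) (k : ℝ) :
    Measurable (fun q : ((ι → E N) × (ι → E N)) × (ι → E N) => stp2 net β h k q.1 q.2) := by
  have hs := (stp_continuous (N := N) hβ hh k net).measurable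
  have ha : Measurable fun q : ((ι → E N) × (ι → E N)) × (ι → E N) => (q.1.1, q.2) :=
    (measurable_fst.comp measurable_fst).prodMk measurable_snd
  have hb : Measurable fun q : ((ι → E N) × (ι → E N)) × (ι → E N) => q.1.2 :=
    measurable_snd.comp measurable_fst
  have hb' := hb.prodMk (measurable_rotN (N := N) (ι := ι))
  have h1 := hs.comp ha
  have h2 := hs.comp hb'
  have h3 := h1.prodMk h2
  exact h3

theorem measurable_hat2 {β h : ℝ} (hβ : 0 < β) (hh : 0 ≤ h) :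
    Measurable (fun q : (E N × E N) × E N => hat2 β h q.1 q.2) := by
  have hs := (hat_continuous (N := N) hβ hh).measurable
  have ha : Measurable fun q : (E N × E N) × E N => q.1.1 := measurable_fst.comp measurable_fst
  have hb : Measurable fun q : (E N × E N) × E N => q.1.2 := measurable_snd.comp measurable_fst
  have hc : Measurable fun q : (E N × E N) × E N => q.2 := measurable_snd
  have ha' := measurable_uni.comp ha
  have hb' := measurable_uni.comp hb
  have hr := measurable_rotQ.comp ((ha'.prodMk hb').prodMk hc)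
  have h1 := hs.comp (ha.prodMk hc)
  have h2 := hs.comp (hb.prodMk hr)
  have h3 := h1.prodMk h2
  exact h3

theorem rotQ_preserving {ν : Measure (E N)} (hiso : ∀ L : E N ≃ₗᵢ[ℝ] E N, ν.map L = ν)
    (e e' : E N) : MeasurePreserving (rotQ e e') ν ν :=
  ⟨(rotQ e e').continuous.measurable, hiso _⟩

theorem rotN_preserving {ν : Measure (E N)} [IsProbabilityMeasure ν]
    (hiso : ∀ L : E N ≃ₗᵢ[ℝ] E N, ν.map L = ν) (G G' : ι → E N) :
    MeasurePreserving (rotN G G') (pim ι ν) (pim ι ν) := by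
  unfold rotN pim
  exact measurePreserving_pi _ _ fun x => rotQ_preserving hiso (uni (G x)) (uni (G' x))

/-- the second component of the rotated pair step has the law of an ordinary step -/
theorem stp2_snd (net : Net ι d) {β h : ℝ} (hβ : 0 < β) (hh : 0 ≤ h) (k : ℝ) {ν : Measure (E N)}
    [IsProbabilityMeasure ν] (hiso : ∀ L : E N ≃ₗᵢ[ℝ] E N, ν.map L = ν)
    (p : (ι → E N) × (ι → E N)) {φ : (ι → E N) → ℝ≥0∞} (hφ : Measurable φ) :
    ∫⁻ ξ, φ (stp2 net β h k p ξ).2 ∂(pim ι ν) = ∫⁻ ξ, φ (stp net β h k p.2 ξ) ∂(pim ι ν) := by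
  have hs := (stp_continuous (N := N) hβ hh k net).measurable
  have h0 : Measurable fun ξ : ι → E N => (p.2, ξ) := measurable_const.prodMk measurable_id
  have h1 := hφ.comp (hs.comp h0)
  have h2 := (rotN_preserving hiso p.1 p.2).lintegral_comp h1
  exact h2

theorem hat2_snd {β h : ℝ} (hβ : 0 < β) (hh : 0 ≤ h) {ν : Measure (E N)}
    (hiso : ∀ L : E N ≃ₗᵢ[ℝ] E N, ν.map L = ν)
    (q : E N × E N) {φ : E N → ℝ≥0∞} (hφ : Measurable φ) :
    ∫⁻ ξ, φ (hat2 β h q ξ).2 ∂ν = ∫⁻ ξ, φ (hat β h q.2 ξ) ∂ν := by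
  have hs := (hat_continuous (N := N) hβ hh).measurable
  have h0 : Measurable fun ξ : E N => (q.2, ξ) := measurable_const.prodMk measurable_id
  have h1 := hφ.comp (hs.comp h0)
  have h2 := (rotQ_preserving hiso (uni q.1) (uni q.2)).lintegral_comp h1
  exact h2

theorem rotQ_cos {e e' : E N} (he : ‖e‖ = 1) (he' : ‖e'‖ = 1) (hne : e + e' ≠ 0) (v : E N) :
    (1 + inner ℝ e e') * (‖v‖ ^ 2 - inner ℝ v (rotQ e e' v)) =
      (inner ℝ e v) ^ 2 - 2 * inner ℝ e e' * inner ℝ e v * inner ℝ e' v + (inner ℝ e' v) ^ 2 := by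
  have h2 : ‖e + e'‖ ^ 2 ≠ 0 := by
    have := norm_ne_zero_iff.2 hne
    positivity
  have hns := Rot2_ns he he'
  have hc : 1 + inner ℝ e e' ≠ 0 := by
    intro h0
    rw [h0, mul_zero] at hns
    exact h2 hns
  rw [Rot2_apply, Rot2_self he, rfl1_apply, hns]
  have h3 : inner ℝ (e + e') (v - (2 * inner ℝ e v) • e) =
      inner ℝ e' v - (1 + 2 * inner ℝ e e') * inner ℝ e v := by
    rw [inner_add_left, inner_sub_right, inner_sub_right, real_inner_smul_right,
      real_inner_smul_right, real_inner_self_eq_norm_sq, he, real_inner_comm e' e]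
    ring
  rw [h3, inner_sub_right, inner_sub_right, real_inner_smul_right, real_inner_smul_right,
    real_inner_self_eq_norm_sq, inner_add_right, real_inner_comm v e, real_inner_comm v e']
  field_simp
  ring

theorem rotQ_cos_opp {e : E N} (he : ‖e‖ = 1) (v : E N) :
    ‖v‖ ^ 2 - inner ℝ v (rotQ e (-e) v) = 2 * (inner ℝ e v) ^ 2 := by
  have h1 : rotQ e (-e) v = v - (2 * inner ℝ e v) • e := by
    rw [Rot2_apply, Rot2_self he, rfl1_apply, add_neg_cancel]
    simp
  rw [h1, inner_sub_right, real_inner_smul_right, real_inner_self_eq_norm_sq,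
    real_inner_comm v e]
  ring

theorem rotQ_cos_nonneg (e e' v : E N) : 0 ≤ ‖v‖ ^ 2 - inner ℝ v (rotQ e e' v) := by
  have h1 := real_inner_le_norm v (rotQ e e' v)
  rw [LinearIsometryEquiv.norm_map] at h1
  nlinarith

/-- the Gram determinant inequality -/
private theorem Rot2_gram {e e' : E N} (he : ‖e‖ = 1) (he' : ‖e'‖ = 1) (v : E N) :
    (inner ℝ e v) ^ 2 - 2 * inner ℝ e e' * inner ℝ e v * inner ℝ e' v + (inner ℝ e' v) ^ 2 ≤
      (1 - (inner ℝ e e') ^ 2) * ‖v‖ ^ 2 := by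
  set c : ℝ := inner ℝ e e' with hc
  set a : ℝ := inner ℝ e v with ha
  set b : ℝ := inner ℝ e' v with hb
  have h1 : inner ℝ (e' - c • e) (v - a • e) = b - c * a := by
    rw [inner_sub_left, inner_sub_right, inner_sub_right, real_inner_smul_left,
      real_inner_smul_left, real_inner_smul_right, real_inner_smul_right,
      real_inner_self_eq_norm_sq, he, real_inner_comm e e', ← hc, ← ha, ← hb]
    ring
  have h2 : ‖e' - c • e‖ ^ 2 = 1 - c ^ 2 := by
    rw [norm_sub_sq_real, he', real_inner_smul_right, norm_smul, he, real_inner_comm e e', ← hc,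
      mul_one, Real.norm_eq_abs, sq_abs]
    ring
  have h3 : ‖v - a • e‖ ^ 2 = ‖v‖ ^ 2 - a ^ 2 := by
    rw [norm_sub_sq_real, real_inner_smul_right, norm_smul, he, real_inner_comm e v, ← ha,
      mul_one, Real.norm_eq_abs, sq_abs]
    ring
  have h4 := abs_real_inner_le_norm (e' - c • e) (v - a • e)
  rw [h1] at h4
  have h5 : (b - c * a) ^ 2 ≤ (1 - c ^ 2) * (‖v‖ ^ 2 - a ^ 2) := by
    rw [← h2, ← h3, ← mul_pow, ← sq_abs (b - c * a)]
    exact pow_le_pow_left₀ (abs_nonneg _) h4 2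
  nlinarith

theorem rotQ_cos_le {e e' : E N} (he : ‖e‖ = 1) (he' : ‖e'‖ = 1) (v : E N) :
    ‖v‖ ^ 2 - inner ℝ v (rotQ e e' v) ≤ (1 - inner ℝ e e') * ‖v‖ ^ 2 := by
  by_cases hne : e + e' = 0
  · have h1 : e' = -e := (eq_neg_of_add_eq_zero_right hne)
    rw [h1, rotQ_cos_opp he, inner_neg_right, real_inner_self_eq_norm_sq, he]
    have h2 := abs_real_inner_le_norm e v
    rw [he, one_mul] at h2
    have h3 : (inner ℝ e v : ℝ) ^ 2 ≤ ‖v‖ ^ 2 := by
      rw [← sq_abs (inner ℝ e v : ℝ)]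
      exact pow_le_pow_left₀ (abs_nonneg _) h2 2
    linarith
  · have h1 := rotQ_cos he he' hne v
    have h2 := Rot2_gram he he' v
    have hns := Rot2_ns he he'
    have hp : 0 < 1 + inner ℝ e e' := by
      have h3 : 0 < ‖e + e'‖ ^ 2 := by
        have := norm_pos_iff.2 hne
        positivity
      rw [hns] at h3
      linarith
    have h3 : (1 + inner ℝ e e') * (‖v‖ ^ 2 - inner ℝ v (rotQ e e' v)) ≤
        (1 + inner ℝ e e') * ((1 - inner ℝ e e') * ‖v‖ ^ 2) := by
      rw [h1]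
      refine h2.trans (le_of_eq ?_)
      ring
    exact le_of_mul_le_mul_left h3 hp

/-- a unit vector orthogonal to `e` -/
private theorem Rot2_orth (hN : 2 ≤ N) (e : E N) : ∃ f : E N, ‖f‖ = 1 ∧ inner ℝ e f = 0 := by
  have h1 : (ℝ ∙ e)ᗮ ≠ ⊥ := by
    intro h0
    have h2 := Submodule.finrank_add_finrank_orthogonal (ℝ ∙ e)
    rw [h0, finrank_bot, add_zero, finrank_euclideanSpace, Fintype.card_fin] at h2
    have h3 := finrank_span_le_card (R := ℝ) ({e} : Set (E N))
    simp only [Set.toFinset_singleton, Finset.card_singleton] at h3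
    omega
  obtain ⟨w, hw, hw0⟩ := Submodule.exists_mem_ne_zero_of_ne_bot h1
  have h2 : 0 < ‖w‖ := norm_pos_iff.2 hw0
  refine ⟨(1 / ‖w‖) • w, ?_, ?_⟩
  · rw [norm_smul, Real.norm_of_nonneg (by positivity)]
    field_simp
  · rw [real_inner_smul_right, Submodule.mem_orthogonal_singleton_iff_inner_right.1 hw, mul_zero]

theorem rotQ_cos_le2 (hN : 2 ≤ N) {e e' : E N} (he : ‖e‖ = 1) (he' : ‖e'‖ = 1) :
    ∃ f : E N, ‖f‖ = 1 ∧ inner ℝ e f = 0 ∧ ∀ v : E N,
      ‖v‖ ^ 2 - inner ℝ v (rotQ e e' v) ≤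
        (1 - inner ℝ e e') * ((inner ℝ e v) ^ 2 + (inner ℝ f v) ^ 2) := by
  by_cases hne : e + e' = 0
  · have h1 : e' = -e := (eq_neg_of_add_eq_zero_right hne)
    obtain ⟨f, hf, hef⟩ := Rot2_orth hN e
    refine ⟨f, hf, hef, fun v => ?_⟩
    rw [h1, rotQ_cos_opp he, inner_neg_right, real_inner_self_eq_norm_sq, he]
    have := sq_nonneg (inner ℝ f v : ℝ)
    linarith
  · set c : ℝ := inner ℝ e e' with hc
    have hns := Rot2_ns he he'
    have hp : 0 < 1 + c := by
      have h3 : 0 < ‖e + e'‖ ^ 2 := by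
        have := norm_pos_iff.2 hne
        positivity
      rw [hns] at h3
      linarith
    have h2 : ‖e' - c • e‖ ^ 2 = 1 - c ^ 2 := by
      rw [norm_sub_sq_real, he', real_inner_smul_right, norm_smul, he, real_inner_comm e e', ← hc,
        mul_one, Real.norm_eq_abs, sq_abs]
      ring
    by_cases h0 : e' - c • e = 0
    · obtain ⟨f, hf, hef⟩ := Rot2_orth hN e
      refine ⟨f, hf, hef, fun v => ?_⟩
      rw [h0] at h2
      have h3 : (1 - c) * (1 + c) = 0 := by
        have : ‖(0 : E N)‖ ^ 2 = 0 := by simp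
        rw [this] at h2
        linarith
      have h4 : 1 - c = 0 := by
        rcases mul_eq_zero.1 h3 with h | h
        · exact h
        · exact absurd h hp.ne'
      have h5 : e' = e := by
        have h6 : c = 1 := by linarith
        rw [h6, one_smul] at h0
        exact sub_eq_zero.1 h0
      have h6 := rotQ_cos he he' hne v
      rw [h4, zero_mul]
      rw [← hc] at h6
      have h7 : c = 1 := by linarith
      rw [h7] at h6
      have h8 : (inner ℝ e' v : ℝ) = inner ℝ e v := by rw [h5]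
      rw [h8] at h6
      nlinarith
    · have hs : 0 < ‖e' - c • e‖ := norm_pos_iff.2 h0
      set s : ℝ := ‖e' - c • e‖ with hsd
      refine ⟨(1 / s) • (e' - c • e), ?_, ?_, fun v => ?_⟩
      · rw [norm_smul, Real.norm_of_nonneg (by positivity), ← hsd]
        field_simp
      · rw [real_inner_smul_right, inner_sub_right, real_inner_smul_right,
          real_inner_self_eq_norm_sq, he, ← hc]
        ring
      · have h6 := rotQ_cos he he' hne v
        have h7 : inner ℝ ((1 / s) • (e' - c • e)) v = (1 / s) * (inner ℝ e' v - c * inner ℝ e v) := by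
          rw [real_inner_smul_left, inner_sub_left, real_inner_smul_left]
        rw [h7, mul_pow, div_pow, one_pow, h2]
        have hc1 : 0 < 1 - c := by
          have h8 : 0 < s ^ 2 := by positivity
          rw [h2] at h8
          nlinarith
        rw [← hc] at h6
        have h8 : ‖v‖ ^ 2 - inner ℝ v (rotQ e e' v) = ((inner ℝ e v) ^ 2 -
            2 * c * inner ℝ e v * inner ℝ e' v + (inner ℝ e' v) ^ 2) / (1 + c) := by
          rw [eq_div_iff hp.ne', ← h6]
          ring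
        rw [h8, div_le_iff₀ hp]
        have h9 : 1 - c ^ 2 = (1 - c) * (1 + c) := by ring
        rw [h9]
        apply le_of_eq
        field_simp
        ring

private theorem Rot2_uni (g : E N) : ‖g‖ • uni g = g := by
  by_cases hg : g = 0
  · rw [hg]
    simp
  · unfold uni
    have : ‖g‖ ≠ 0 := norm_ne_zero_iff.2 hg
    rw [smul_smul, mul_one_div_cancel this, one_smul]

/-- in polar form both components are images of the same vector `e + √h ξ` -/
theorem hat_rot {β h : ℝ} {g g' : E N} (hg : g ≠ 0) (hg' : g' ≠ 0) (ξ : E N) :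
    hat β h g' (rotQ (uni g) (uni g') ξ) =
      rotQ (uni g) (uni g') (hat β h (‖g'‖ • uni g) ξ) := by
  rw [← hat_isometry, map_smul, rotQ_map (uni_norm hg) (uni_norm hg'), Rot2_uni]

private theorem Rot2_J {β h : ℝ} {r : ℝ} (hr : 0 ≤ r) {e : E N} (he : ‖e‖ = 1) (ξ : E N) :
    hat β h (r • e) ξ = J β h (r • (e + Real.sqrt h • ξ)) := by
  unfold hat
  rw [norm_smul, he, mul_one, Real.norm_of_nonneg hr, smul_add, smul_smul, mul_comm r]

theorem hat2_dist {β h : ℝ} (hβ : 0 < β) (hh : 0 ≤ h) {g g' : E N} (hg : g ≠ 0) (hg' : g' ≠ 0)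
    (ξ : E N) : ‖hat β h g ξ - hat β h g' (rotQ (uni g) (uni g') ξ)‖ ≤
      ‖uni g + Real.sqrt h • ξ‖ * ‖g - g'‖ := by
  have he := uni_norm hg
  have he' := uni_norm hg'
  set e := uni g with hed
  set e' := uni g' with hed'
  set v := e + Real.sqrt h • ξ with hv
  have h1 : hat β h g ξ = J β h (‖g‖ • v) := by
    have h2 := Rot2_J (β := β) (h := h) (norm_nonneg g) he ξ
    rwa [hed, Rot2_uni, ← hed] at h2
  have h2 : hat β h g' (rotQ e e' ξ) = J β h (‖g'‖ • rotQ e e' v) := by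
    rw [hed, hed', hat_rot hg hg', ← hed, ← hed', Rot2_J (norm_nonneg g') he, ← J_isometry,
      map_smul]
  rw [h1, h2]
  refine (J_nonexp hβ hh _ _).trans ?_
  have h3 : ‖‖g‖ • v - ‖g'‖ • rotQ e e' v‖ ^ 2 ≤ (‖v‖ * ‖g - g'‖) ^ 2 := by
    have h4 := rotQ_cos_le he he' v
    have h5 : inner ℝ g g' = ‖g‖ * ‖g'‖ * inner ℝ e e' := by
      conv_lhs => rw [← Rot2_uni g, ← Rot2_uni g']
      rw [real_inner_smul_left, real_inner_smul_right, ← hed, ← hed']
      ring
    rw [norm_sub_sq_real, mul_pow, norm_sub_sq_real g g', h5, norm_smul, norm_smul,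
      LinearIsometryEquiv.norm_map, real_inner_smul_left, real_inner_smul_right, norm_norm,
      norm_norm]
    have h6 : 0 ≤ ‖g‖ * ‖g'‖ := by positivity
    have h7 := mul_le_mul_of_nonneg_left h4 h6
    nlinarith
  exact le_of_sq_le_sq h3 (by positivity)

theorem hat2_dist_all {β h : ℝ} (hβ : 0 < β) (hh : 0 ≤ h) (g g' ξ : E N) :
    ‖hat β h g ξ - hat β h g' (rotQ (uni g) (uni g') ξ)‖ ≤
      (1 + Real.sqrt h * ‖ξ‖) * ‖g - g'‖ := by
  have hb : ∀ a η : E N, ‖hat β h a η‖ ≤ (1 + Real.sqrt h * ‖η‖) * ‖a‖ := by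
    intro a η
    have h1 := J_nonexp hβ hh (a + (Real.sqrt h * ‖a‖) • η) 0
    rw [J_zero, sub_zero, sub_zero] at h1
    unfold hat
    refine h1.trans ((norm_add_le _ _).trans ?_)
    rw [norm_smul, Real.norm_of_nonneg (by positivity)]
    linarith
  by_cases hg : g = 0
  · rw [hg, hat_zero, zero_sub, norm_neg, zero_sub, norm_neg]
    have h1 := hb g' (rotQ (uni 0) (uni g') ξ)
    rwa [LinearIsometryEquiv.norm_map] at h1
  · by_cases hg' : g' = 0
    · rw [hg', hat_zero, sub_zero, sub_zero]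
      exact hb g ξ
    · refine (hat2_dist hβ hh hg hg' ξ).trans ?_
      refine mul_le_mul_of_nonneg_right ?_ (norm_nonneg _)
      refine (norm_add_le _ _).trans ?_
      rw [uni_norm hg, norm_smul, Real.norm_of_nonneg (Real.sqrt_nonneg h)]

end DynS
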