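import Pool.Agent.Lib_MP_36b788s.Pth

/-!
# VAN: mixing if the field vanishes

PROOF. Given `ρ1, ρ2, R, J, CF, δ`. `B = card (boxS d R)` bounds the number of `x ∈ boxS d L` with `l1 x 0 ≤ R` (each `|x_i| ≤ l1 x 0 ≤ R`, injection
`x ↦ x` into `boxS d R`). `ε = δ/(2·J·CF·B+1)`, `T0 = max` of the two times of the hypothesis for `ρ1, ρ2` with `ε`, `L0 = R`. For `L ≥ R`, `Sm`: use the
hypothesis with horizon `2Sm`, `h0` = minimum of the two and of `nuT_noise`. Fix `h, n1, n2, M, F, I`. `c i = F i 0` (`0` the zero configuration).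
`ψ_i G = ‖F i G - c i‖ₑ`, zero for `i ∉ I`, else `≤ Σ_{x, l1 x 0 ≤ R} ofReal CF * ofReal (min 1 ‖G x‖)`.
For `a = 1,2`: `∫⁻‖Φ-∏c‖ₑ dchainLaw_a na ≤ Σ_{i<M}∫⁻ev … ψ_i i dlaw_a na` (`pathE_tele`, `chainLaw_law`) `= Σ_{i<M}∫⁻ψ_i dlaw_a(na+i)` (`law_time`)
`≤ Σ_{i∈I, i<M}Σ_x CF ε ≤ ofReal (J·CF·B·ε)`; here `(na+i)h ≤ 2Sm` and `(na+i)h ≥ ih ≥ T0`.
Then `∫∫‖Φ G-Φ G'‖ ≤ ∫‖Φ-∏c‖dlaw1+∫‖Φ-∏c‖dlaw2 ≤ 2·J·CF·B·ε ≤ δ` (triangle inequality, all functions bounded by `2`, measurable: `pathE_facts`; probability: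
`chainLaw_prob`).
-/

open MeasureTheory ProbabilityTheory Dyn
open scoped ENNReal

namespace DynS

private theorem Van_card (d L R : ℕ) :
    ((Finset.univ : Finset (boxS d L)).filter (fun x : boxS d L => l1 (x : Fin d → ℤ) 0 ≤ R)).card ≤
      (boxS d R).card := by
  classical
  refine Finset.card_le_card_of_injOn (fun x : boxS d L => (x : Fin d → ℤ)) ?_ ?_
  · intro x hx
    simp only [Finset.coe_filter, Finset.mem_univ, true_and, Set.mem_ofPred_eq] at hx
    have h1 : ∀ i, (((x : Fin d → ℤ) i - (0 : Fin d → ℤ) i).natAbs) ≤ R := by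
      intro i
      refine le_trans ?_ hx
      unfold l1
      exact Finset.single_le_sum (f := fun i => ((x : Fin d → ℤ) i - (0 : Fin d → ℤ) i).natAbs)
        (fun _ _ => Nat.zero_le _) (Finset.mem_univ i)
    have h2 : (x : Fin d → ℤ) ∈ boxS d R := by
      unfold boxS
      rw [Finset.mem_Icc]
      constructor
      · intro i
        have := h1 i
        simp only [Pi.zero_apply, sub_zero] at this
        show -(R : ℤ) ≤ (x : Fin d → ℤ) i
        omega
      · intro i
        have := h1 i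
        simp only [Pi.zero_apply, sub_zero] at this
        show (x : Fin d → ℤ) i ≤ (R : ℤ)
        omega
    exact h2
  · intro x _ y _ hxy
    exact Subtype.ext hxy

/-- one side -/
private theorem Van_side {N d : ℕ} {β k h : ℝ} (hβ : 0 < β) (hh : 0 < h) {L R J : ℕ} {CF ε T0 Sm : ℝ}
    (hCF : 0 ≤ CF) (hε : 0 < ε) {ν : Measure (E N)} [IsProbabilityMeasure ν]
    (ρ : Measure (E N)) [IsProbabilityMeasure ρ]
    (H : ∀ n : ℕ, T0 ≤ n * h → n * h ≤ 2 * Sm → ∀ x : boxS d L,
      ∫⁻ G, ENNReal.ofReal (min 1 ‖G x‖)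
        ∂(chainLaw (boxNet d L) β h k ν (Measure.pi (fun _ => ρ)) n) ≤ ENNReal.ofReal ε)
    (n M : ℕ) (hn : n * h ≤ Sm) (hM : M * h ≤ Sm)
    (F : ℕ → (boxS d L → E N) → ℂ) (I : Finset ℕ) (hI : I.card ≤ J)
    (hm : ∀ i, Measurable (F i)) (hb : ∀ i G, ‖F i G‖ ≤ 1) (hout : ∀ i, i ∉ I → F i = fun _ => 1)
    (hin : ∀ i ∈ I, T0 ≤ i * h ∧ ∀ G G' : boxS d L → E N, ‖F i G - F i G'‖ ≤
        CF * ∑ x : boxS d L, (if l1 (x : Fin d → ℤ) 0 ≤ R then min 1 ‖G x - G' x‖ else 0)) :
    ∫ G, ‖pathE (boxNet d L) β h k ν ((List.range M).map F) G - ∏ i ∈ Finset.range M, F i 0‖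
      ∂(chainLaw (boxNet d L) β h k ν (Measure.pi (fun _ => ρ)) n) ≤
      J * (CF * ((boxS d R).card * ε)) := by
  classical
  set net := boxNet d L with hnet
  set m0 : Measure (boxS d L → E N) := Measure.pi (fun _ => ρ) with hm0
  set P : ℂ := ∏ i ∈ Finset.range M, F i 0 with hP
  have hprob := chainLaw_prob (net := net) (k := k) hβ hh.le (ν := ν) m0 n
  have hfacts := pathE_facts (net := net) (k := k) hβ hh.le (ν := ν) ((List.range M).map F)
    (fun f hf => by
      obtain ⟨i, _, rfl⟩ := List.mem_map.1 hf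
      exact hm i)
    (fun f hf => by
      obtain ⟨i, _, rfl⟩ := List.mem_map.1 hf
      exact hb i)
  have hpim : IsProbabilityMeasure (pim (boxS d L) ν) := by
    unfold pim; infer_instance
  have hstp : Measurable (fun q : (boxS d L → E N) × (boxS d L → E N) =>
      stp net β h k q.1 q.2) := (stp_continuous hβ hh.le k net).measurable
  have hψm : ∀ i, Measurable (fun G : boxS d L → E N => ‖F i G - F i 0‖ₑ) := fun i =>
    ((hm i).sub_const _).enorm
  have hmain : ∫⁻ G, ‖pathE net β h k ν ((List.range M).map F) G - P‖ₑ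
      ∂(chainLaw net β h k ν m0 n) ≤ ENNReal.ofReal (J * (CF * ((boxS d R).card * ε))) := by
    have e1 : ∫⁻ G, ‖pathE net β h k ν ((List.range M).map F) G - P‖ₑ
        ∂(chainLaw net β h k ν m0 n) ≤
        ∫⁻ G, ∑ i ∈ Finset.range M, ev (stp net β h k) (pim (boxS d L) ν)
          (fun G => ‖F i G - F i 0‖ₑ) i G ∂(chainLaw net β h k ν m0 n) :=
      lintegral_mono fun G => pathE_tele net hβ hh.le M F (fun i => F i 0) hm hb
        (fun i => hb i 0) G
    have e2 : ∫⁻ G, ∑ i ∈ Finset.range M, ev (stp net β h k) (pim (boxS d L) ν)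
          (fun G => ‖F i G - F i 0‖ₑ) i G ∂(chainLaw net β h k ν m0 n) =
        ∑ i ∈ Finset.range M, ∫⁻ G, ‖F i G - F i 0‖ₑ ∂(chainLaw net β h k ν m0 (n + i)) := by
      rw [lintegral_finsetSum _ (fun i _ => ev_meas hstp (hψm i) i)]
      refine Finset.sum_congr rfl fun i _ => ?_
      rw [chainLaw_law, chainLaw_law]
      exact law_time hstp m0 (hψm i) n i
    have e3 : ∀ i ∈ Finset.range M, ∫⁻ G, ‖F i G - F i 0‖ₑ ∂(chainLaw net β h k ν m0 (n + i)) ≤
        if i ∈ I then ENNReal.ofReal (CF * ((boxS d R).card * ε)) else 0 := by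
      intro i hi
      have hi' := Finset.mem_range.1 hi
      by_cases hiI : i ∈ I
      · rw [if_pos hiI]
        obtain ⟨hT, hLip⟩ := hin i hiI
        have b1 : T0 ≤ ((n + i : ℕ) : ℝ) * h := by
          push_cast
          nlinarith [mul_nonneg (Nat.cast_nonneg n : (0 : ℝ) ≤ n) hh.le]
        have b2 : ((n + i : ℕ) : ℝ) * h ≤ 2 * Sm := by
          push_cast
          have : (i : ℝ) * h ≤ M * h := by
            have : (i : ℝ) ≤ M := by exact_mod_cast hi'.le
            exact mul_le_mul_of_nonneg_right this hh.le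
          nlinarith
        have b3 := H (n + i) b1 b2
        calc ∫⁻ G, ‖F i G - F i 0‖ₑ ∂(chainLaw net β h k ν m0 (n + i))
            ≤ ∫⁻ G, ENNReal.ofReal CF * ∑ x : boxS d L, (if l1 (x : Fin d → ℤ) 0 ≤ R then
                ENNReal.ofReal (min 1 ‖G x‖) else 0) ∂(chainLaw net β h k ν m0 (n + i)) := by
              refine lintegral_mono fun G => ?_
              have := hLip G 0
              rw [← ofReal_norm]
              refine le_trans (ENNReal.ofReal_le_ofReal this) ?_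
              rw [ENNReal.ofReal_mul hCF, ENNReal.ofReal_sum_of_nonneg]
              · refine mul_le_mul_right (Finset.sum_le_sum fun x _ => ?_) _
                split_ifs
                · simp
                · simp
              · intro x _
                split_ifs
                · positivity
                · exact le_rfl
          _ = ENNReal.ofReal CF * ∑ x : boxS d L, ∫⁻ G, (if l1 (x : Fin d → ℤ) 0 ≤ R then
                ENNReal.ofReal (min 1 ‖G x‖) else 0) ∂(chainLaw net β h k ν m0 (n + i)) := by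
              have hmx : ∀ x : boxS d L, Measurable (fun G : boxS d L → E N =>
                  (if l1 (x : Fin d → ℤ) 0 ≤ R then ENNReal.ofReal (min 1 ‖G x‖) else 0)) := by
                intro x
                split_ifs
                · exact (measurable_const.min (measurable_pi_apply x).norm).ennreal_ofReal
                · exact measurable_const
              rw [lintegral_const_mul _ (Finset.measurable_sum _ fun x _ => hmx x),
                lintegral_finsetSum _ (fun x _ => hmx x)]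
          _ ≤ ENNReal.ofReal CF * ∑ x : boxS d L, (if l1 (x : Fin d → ℤ) 0 ≤ R then
                ENNReal.ofReal ε else 0) := by
              refine mul_le_mul_right (Finset.sum_le_sum fun x _ => ?_) _
              split_ifs
              · exact b3 x
              · simp
          _ ≤ ENNReal.ofReal (CF * ((boxS d R).card * ε)) := by
              rw [ENNReal.ofReal_mul hCF]
              refine mul_le_mul_right ?_ _
              rw [← Finset.sum_filter, Finset.sum_const, nsmul_eq_mul,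
                ENNReal.ofReal_mul (Nat.cast_nonneg _), ENNReal.ofReal_natCast]
              refine mul_le_mul_left ?_ _
              exact_mod_cast Van_card d L R
      · rw [if_neg hiI, hout i hiI]
        simp
    have e4 : ∑ i ∈ Finset.range M, (if i ∈ I then ENNReal.ofReal (CF * ((boxS d R).card * ε))
        else 0) ≤ ENNReal.ofReal (J * (CF * ((boxS d R).card * ε))) := by
      rw [← Finset.sum_filter, Finset.sum_const, nsmul_eq_mul,
        ENNReal.ofReal_mul (Nat.cast_nonneg _), ENNReal.ofReal_natCast]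
      refine mul_le_mul_left ?_ _
      have h1 : ((Finset.range M).filter (fun i => i ∈ I)).card ≤ J :=
        le_trans (Finset.card_le_card fun i hi => (Finset.mem_filter.1 hi).2) hI
      exact_mod_cast h1
    exact (e1.trans_eq e2).trans ((Finset.sum_le_sum e3).trans e4)
  rw [integral_norm_eq_lintegral_enorm (hfacts.1.sub_const _).aestronglyMeasurable]
  exact ENNReal.toReal_le_of_le_ofReal (by positivity) hmain

theorem cmix_of_vanish (N d : ℕ) (β k : ℝ) (hN : 1 ≤ N) (hβ : 0 < β)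
    (H : ∀ (ρ : Measure (E N)) [IsProbabilityMeasure ρ], ρ {0} = 0 →
      Integrable (fun x : E N => ‖x‖ ^ 2) ρ → ∀ ε : ℝ, 0 < ε → ∃ T0 : ℝ, 0 ≤ T0 ∧ ∀ (L : ℕ) (Sm : ℝ),
        0 ≤ Sm → ∃ h0 : ℝ, 0 < h0 ∧ ∀ h, 0 < h → h < h0 → ∀ n : ℕ, T0 ≤ n * h → n * h ≤ Sm →
          ∀ x : boxS d L, ∫⁻ G, ENNReal.ofReal (min 1 ‖G x‖)
            ∂(chainLaw (boxNet d L) β h k (nuT N h) (Measure.pi (fun _ => ρ)) n) ≤
              ENNReal.ofReal ε) :
    CMix N d β k (fun h => nuT N h) := by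
  intro ρ1 ρ2 _ _ h10 h20 h12 h22 R J CF δ hCF hδ
  set B : ℝ := ((boxS d R).card : ℝ) with hB
  have hB0 : 0 ≤ B := Nat.cast_nonneg _
  have hJ0 : (0 : ℝ) ≤ J := Nat.cast_nonneg _
  have hD : 0 < 2 * (J * (CF * B)) + 1 := by positivity
  set ε : ℝ := δ / (2 * (J * (CF * B)) + 1) with hεd
  have hε : 0 < ε := div_pos hδ hD
  obtain ⟨T1, hT1, H1⟩ := H ρ1 h10 h12 ε hε
  obtain ⟨T2, hT2, H2⟩ := H ρ2 h20 h22 ε hε
  refine ⟨max T1 T2, R, le_trans hT1 (le_max_left _ _), le_rfl, fun _ => rfl, ?_⟩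
  intro L _ _ Sm hSm
  obtain ⟨a1, ha1, H1⟩ := H1 L (2 * Sm) (by positivity)
  obtain ⟨a2, ha2, H2⟩ := H2 L (2 * Sm) (by positivity)
  obtain ⟨a3, ha3, H3⟩ := nuT_noise N hN
  refine ⟨min a1 (min a2 a3), lt_min ha1 (lt_min ha2 ha3), ?_⟩
  intro h hh hlt n1 n2 M hn1 hn2 hM F I hI hm hb hout hin
  have hl1 : h < a1 := lt_of_lt_of_le hlt (min_le_left _ _)
  have hl2 : h < a2 := lt_of_lt_of_le hlt (le_trans (min_le_right _ _) (min_le_left _ _))
  have hl3 : h < a3 := lt_of_lt_of_le hlt (le_trans (min_le_right _ _) (min_le_right _ _))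
  have hν : IsProbabilityMeasure (nuT N h) := (H3 h hh hl3).prob
  have S1 := Van_side (k := k) hβ hh (T0 := max T1 T2) (Sm := Sm) hCF hε (ν := nuT N h) ρ1
    (fun n hn hn' x => H1 h hh hl1 n (le_trans (le_max_left _ _) hn) hn' x)
    n1 M hn1 hM F I hI hm hb hout hin
  have S2 := Van_side (k := k) hβ hh (T0 := max T1 T2) (Sm := Sm) hCF hε (ν := nuT N h) ρ2
    (fun n hn hn' x => H2 h hh hl2 n (le_trans (le_max_right _ _) hn) hn' x)
    n2 M hn2 hM F I hI hm hb hout hin
  have hp1 := chainLaw_prob (net := boxNet d L) (k := k) hβ hh.le (ν := nuT N h)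
    (Measure.pi (fun _ : boxS d L => ρ1)) n1
  have hp2 := chainLaw_prob (net := boxNet d L) (k := k) hβ hh.le (ν := nuT N h)
    (Measure.pi (fun _ : boxS d L => ρ2)) n2
  obtain ⟨f1, f2⟩ := pathE_facts (net := boxNet d L) (k := k) hβ hh.le (ν := nuT N h)
    ((List.range M).map F)
    (fun f hf => by
      obtain ⟨i, _, rfl⟩ := List.mem_map.1 hf
      exact hm i)
    (fun f hf => by
      obtain ⟨i, _, rfl⟩ := List.mem_map.1 hf
      exact hb i)
  show ∫ G, ∫ G', ‖pathE (boxNet d L) β h k (nuT N h) ((List.range M).map F) G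
          - pathE (boxNet d L) β h k (nuT N h) ((List.range M).map F) G'‖
        ∂(chainLaw (boxNet d L) β h k (nuT N h) (Measure.pi (fun _ => ρ2)) n2)
        ∂(chainLaw (boxNet d L) β h k (nuT N h) (Measure.pi (fun _ => ρ1)) n1) ≤ δ
  set Φ := pathE (boxNet d L) β h k (nuT N h) ((List.range M).map F) with hΦ
  set μ1 := chainLaw (boxNet d L) β h k (nuT N h) (Measure.pi (fun _ => ρ1)) n1 with hμ1
  set μ2 := chainLaw (boxNet d L) β h k (nuT N h) (Measure.pi (fun _ => ρ2)) n2 with hμ2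
  set P : ℂ := ∏ i ∈ Finset.range M, F i 0 with hP
  have hPn : ‖P‖ ≤ 1 := by
    rw [hP, norm_prod]
    exact Finset.prod_le_one (fun _ _ => norm_nonneg _) (fun i _ => hb i 0)
  have i1 : Integrable (fun G => ‖Φ G - P‖) μ1 :=
    Integrable.of_bound ((f1.sub_const _).norm).aestronglyMeasurable 2
      (Filter.Eventually.of_forall fun G => by
        rw [Real.norm_eq_abs, abs_of_nonneg (norm_nonneg _)]
        have := norm_sub_le (Φ G) P
        linarith [f2 G])
  have i2 : Integrable (fun G => ‖Φ G - P‖) μ2 :=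
    Integrable.of_bound ((f1.sub_const _).norm).aestronglyMeasurable 2
      (Filter.Eventually.of_forall fun G => by
        rw [Real.norm_eq_abs, abs_of_nonneg (norm_nonneg _)]
        have := norm_sub_le (Φ G) P
        linarith [f2 G])
  have inner : ∀ G, ∫ G', ‖Φ G - Φ G'‖ ∂μ2 ≤ ‖Φ G - P‖ + ∫ G', ‖Φ G' - P‖ ∂μ2 := by
    intro G
    have e : ∫ G', (‖Φ G - P‖ + ‖Φ G' - P‖) ∂μ2 = ‖Φ G - P‖ + ∫ G', ‖Φ G' - P‖ ∂μ2 := by
      rw [integral_add (integrable_const _) i2]
      simp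
    rw [← e]
    refine integral_mono_of_nonneg (Filter.Eventually.of_forall fun G' => norm_nonneg _)
      ((integrable_const _).add i2) (Filter.Eventually.of_forall fun G' => ?_)
    show ‖Φ G - Φ G'‖ ≤ ‖Φ G - P‖ + ‖Φ G' - P‖
    calc ‖Φ G - Φ G'‖ = ‖(Φ G - P) - (Φ G' - P)‖ := by congr 1; ring
      _ ≤ _ := norm_sub_le _ _
  have e1 : ∫ G, ∫ G', ‖Φ G - Φ G'‖ ∂μ2 ∂μ1 ≤
      ∫ G, (‖Φ G - P‖ + ∫ G', ‖Φ G' - P‖ ∂μ2) ∂μ1 := by
    refine integral_mono_of_nonneg
      (Filter.Eventually.of_forall fun G => integral_nonneg fun G' => norm_nonneg _)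
      (i1.add (integrable_const _)) (Filter.Eventually.of_forall inner)
  have e2 : ∫ G, (‖Φ G - P‖ + ∫ G', ‖Φ G' - P‖ ∂μ2) ∂μ1 =
      ∫ G, ‖Φ G - P‖ ∂μ1 + ∫ G', ‖Φ G' - P‖ ∂μ2 := by
    rw [integral_add i1 (integrable_const _)]
    simp
  rw [e2] at e1
  have e3 : (J : ℝ) * (CF * (B * ε)) + J * (CF * (B * ε)) ≤ δ := by
    have h1 : (J : ℝ) * (CF * (B * ε)) + J * (CF * (B * ε)) = (2 * (J * (CF * B))) * ε := by ring
    rw [h1, hεd, mul_div_assoc', div_le_iff₀ hD]
    nlinarith [mul_nonneg hJ0 (mul_nonneg hCF hB0)]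
  linarith

end DynS
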