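import Pool.Agent.Lib_MP_36b788s.SMixA
import Pool.Agent.Lib_MP_36b788s.Van

/-!
# THREE (`N ≥ 3`, `k = 0`)

PROOF.
* `site_mix`: `site_tight` for `ρ1, ρ2` with `ε/4` gives `r1,R1,r2,R2`; `r = min`, `R = max`; `ann_couple` with `ε/2`. Split the double integral: outside the annulus
  `{r ≤ ‖·‖ ≤ R}` for `g` or `g'` the integrand is `≤ 1` (`ev` of a function `≤ 1`), mass `≤ ε/4` each; inside it is `≤ ε/2`.
* `small_three`: given `ρ1, ρ2, R, J, CF, δ` (`k = 0`): `B = card (boxS d R)`, `ε = δ/(J·CF·B+1)`, `T0` of `site_mix`, `L0 = R`; `h0` of `site_mix` and of `nuT_noise`.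
  `pathE_pair`: `‖Φ G-Φ G'‖ₑ ≤ Σ_{i<M}ev (stp2 …) ‖F i p.1-F i p.2‖ₑ i (G,G')`, zero for `i ∉ I`, and for `i ∈ I` at most
  `Σ_{l1 x 0 ≤ R} ofReal CF·ev (hat2) (ofReal(min 1 ‖q.1-q.2‖)) i (G x,G' x)` (`ev_mono`, `ev_sum`, `ev_cmul`, `site_pair`). Integrate: for
  measurable `ψ : E N × E N → ℝ≥0∞`, `∫⁻∫⁻ψ(G x,G' x)dchainLaw₂ dchainLaw₁ = ∫⁻∫⁻ψ dlaw ρ2 dlaw ρ1` (`site_marg` twice), `T0 ≤ ih`. Total `≤ J·CF·B·ε ≤ δ`.
  The real double integral is bounded by the lower integrals (`integral_eq_lintegral_of_nonneg_ae`/`ofReal_integral_norm_eq_lintegral_enorm`, all bounded by `2`).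
-/

open MeasureTheory ProbabilityTheory Dyn
open scoped ENNReal

namespace DynS

private theorem Three_phi {N : ℕ} :
    Measurable (fun q : E N × E N => ENNReal.ofReal (min 1 ‖q.1 - q.2‖)) := by
  fun_prop

theorem site_mix {N : ℕ} (hN : 3 ≤ N) {β : ℝ} (hβ : 0 < β) (ρ1 ρ2 : Measure (E N))
    [IsProbabilityMeasure ρ1] [IsProbabilityMeasure ρ2] (h1 : ρ1 {0} = 0) (h2 : ρ2 {0} = 0)
    {ε : ℝ} (hε : 0 < ε) : ∃ T0 h0 : ℝ, 0 ≤ T0 ∧ 0 < h0 ∧ ∀ (h : ℝ) (ν : Measure (E N)), 0 < h →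
      h < h0 → IsNoise h ν → ∀ n1 n2 n : ℕ, T0 ≤ n * h →
        ∫⁻ g, ∫⁻ g', ev (hat2 β h) ν (fun q => ENNReal.ofReal (min 1 ‖q.1 - q.2‖)) n (g, g')
          ∂(law (hat β h) ν ρ2 n2) ∂(law (hat β h) ν ρ1 n1) ≤ ENNReal.ofReal ε := by
  obtain ⟨r1, R1, k1, hr1, hrR1, hk1, H1⟩ := site_tight hN hβ ρ1 h1 (ε := ε / 4) (by positivity)
  obtain ⟨r2, R2, k2, hr2, hrR2, hk2, H2⟩ := site_tight hN hβ ρ2 h2 (ε := ε / 4) (by positivity)
  obtain ⟨T0, k3, hT0, hk3, H3⟩ := ann_couple hN hβ (r := min r1 r2) (R := max R1 R2)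
    (lt_min hr1 hr2) ((min_le_left _ _).trans (hrR1.trans (le_max_left _ _))) (ε := ε / 2)
    (by positivity)
  refine ⟨T0, min k1 (min k2 k3), hT0, lt_min hk1 (lt_min hk2 hk3), ?_⟩
  intro h ν hh hlt hν n1 n2 n hn
  have hp := hν.prob
  have l1 : h < k1 := lt_of_lt_of_le hlt (min_le_left _ _)
  have l2 : h < k2 := lt_of_lt_of_le hlt ((min_le_right _ _).trans (min_le_left _ _))
  have l3 : h < k3 := lt_of_lt_of_le hlt ((min_le_right _ _).trans (min_le_right _ _))
  have mh := measurable_hat (N := N) (β := β) (h := h) hβ hh.le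
  have p1 : IsProbabilityMeasure (law (hat β h) ν ρ1 n1) := law_prob mh ρ1 n1
  have p2 : IsProbabilityMeasure (law (hat β h) ν ρ2 n2) := law_prob mh ρ2 n2
  set A : Set (E N) := {g | ‖g‖ < min r1 r2 ∨ max R1 R2 < ‖g‖} with hA
  have hAm : MeasurableSet A := by
    refine MeasurableSet.union ?_ ?_
    · exact measurableSet_lt measurable_norm measurable_const
    · exact measurableSet_lt measurable_const measurable_norm
  have a1 : (law (hat β h) ν ρ1 n1) A ≤ ENNReal.ofReal (ε / 4) := by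
    refine (measure_mono ?_).trans (H1 h ν hh l1 hν n1)
    rintro g (hg | hg)
    · exact Or.inl (lt_of_lt_of_le hg (min_le_left _ _))
    · exact Or.inr (lt_of_le_of_lt (le_max_left _ _) hg)
  have a2 : (law (hat β h) ν ρ2 n2) A ≤ ENNReal.ofReal (ε / 4) := by
    refine (measure_mono ?_).trans (H2 h ν hh l2 hν n2)
    rintro g (hg | hg)
    · exact Or.inl (lt_of_lt_of_le hg (min_le_right _ _))
    · exact Or.inr (lt_of_le_of_lt (le_max_right _ _) hg)
  have key : ∀ g g' : E N,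
      ev (hat2 β h) ν (fun q => ENNReal.ofReal (min 1 ‖q.1 - q.2‖)) n (g, g') ≤
        ENNReal.ofReal (ε / 2) + A.indicator 1 g + A.indicator 1 g' := by
    intro g g'
    have b1 : ev (hat2 β h) ν (fun q => ENNReal.ofReal (min 1 ‖q.1 - q.2‖)) n (g, g') ≤ 1 := by
      have e1 := ev_mono (f := hat2 β h) (μ := ν)
        (φ := fun q : E N × E N => ENNReal.ofReal (min 1 ‖q.1 - q.2‖)) (ψ := fun _ => 1)
        (fun q => by
          rw [← ENNReal.ofReal_one]
          exact ENNReal.ofReal_le_ofReal (min_le_left _ _)) n (g, g')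
      rw [ev_const] at e1
      exact e1
    by_cases hg : g ∈ A
    · refine b1.trans ?_
      rw [Set.indicator_of_mem hg]
      exact le_add_right (le_add_left le_rfl)
    · by_cases hg' : g' ∈ A
      · refine b1.trans ?_
        rw [Set.indicator_of_mem hg']
        exact le_add_left le_rfl
      · have c1 : min r1 r2 ≤ ‖g‖ := not_lt.1 fun hc => hg (Or.inl hc)
        have c2 : ‖g‖ ≤ max R1 R2 := not_lt.1 fun hc => hg (Or.inr hc)
        have c3 : min r1 r2 ≤ ‖g'‖ := not_lt.1 fun hc => hg' (Or.inl hc)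
        have c4 : ‖g'‖ ≤ max R1 R2 := not_lt.1 fun hc => hg' (Or.inr hc)
        refine (H3 h ν hh l3 hν n g g' hn c1 c2 c3 c4).trans ?_
        exact le_add_right (le_add_right le_rfl)
  have hi : Measurable (A.indicator (1 : E N → ℝ≥0∞)) := measurable_one.indicator hAm
  have inner : ∀ g : E N, ∫⁻ g', ev (hat2 β h) ν (fun q => ENNReal.ofReal (min 1 ‖q.1 - q.2‖)) n
      (g, g') ∂(law (hat β h) ν ρ2 n2) ≤
        ENNReal.ofReal (ε / 2) + A.indicator 1 g + ENNReal.ofReal (ε / 4) := by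
    intro g
    calc _ ≤ ∫⁻ g', (ENNReal.ofReal (ε / 2) + A.indicator 1 g + A.indicator 1 g')
          ∂(law (hat β h) ν ρ2 n2) := lintegral_mono fun g' => key g g'
      _ = ENNReal.ofReal (ε / 2) + A.indicator 1 g + (law (hat β h) ν ρ2 n2) A := by
          rw [lintegral_add_right _ hi, lintegral_const, measure_univ, mul_one,
            lintegral_indicator_one hAm]
      _ ≤ _ := by gcongr
  calc _ ≤ ∫⁻ g, (ENNReal.ofReal (ε / 2) + A.indicator 1 g + ENNReal.ofReal (ε / 4))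
        ∂(law (hat β h) ν ρ1 n1) := lintegral_mono inner
    _ = ENNReal.ofReal (ε / 2) + (law (hat β h) ν ρ1 n1) A + ENNReal.ofReal (ε / 4) := by
        rw [lintegral_add_right _ measurable_const, lintegral_add_right _ hi, lintegral_const,
          lintegral_const, measure_univ, mul_one, mul_one, lintegral_indicator_one hAm]
    _ ≤ ENNReal.ofReal (ε / 2) + ENNReal.ofReal (ε / 4) + ENNReal.ofReal (ε / 4) := by gcongr
    _ = ENNReal.ofReal ε := by
        rw [← ENNReal.ofReal_add (by positivity) (by positivity),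
          ← ENNReal.ofReal_add (by positivity) (by positivity)]
        congr 1
        ring

private theorem Three_one {N d R : ℕ} {β h : ℝ} (hβ : 0 < β) (hh : 0 ≤ h) {ν : Measure (E N)}
    [IsProbabilityMeasure ν] (ρ1 ρ2 : Measure (E N)) [IsProbabilityMeasure ρ1]
    [IsProbabilityMeasure ρ2] (n1 n2 n : ℕ) (x : boxS d R) :
    ∫⁻ G, ∫⁻ G', ev (hat2 β h) ν (fun q => ENNReal.ofReal (min 1 ‖q.1 - q.2‖)) n (G x, G' x)
      ∂(chainLaw (boxNet d R) β h 0 ν (Measure.pi (fun _ => ρ2)) n2)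
      ∂(chainLaw (boxNet d R) β h 0 ν (Measure.pi (fun _ => ρ1)) n1) =
    ∫⁻ g, ∫⁻ g', ev (hat2 β h) ν (fun q => ENNReal.ofReal (min 1 ‖q.1 - q.2‖)) n (g, g')
          ∂(law (hat β h) ν ρ2 n2) ∂(law (hat β h) ν ρ1 n1) := by
  have mh := measurable_hat (N := N) (β := β) (h := h) hβ hh
  have p2 : IsProbabilityMeasure (law (hat β h) ν ρ2 n2) := law_prob mh ρ2 n2
  have mD : Measurable (ev (hat2 β h) ν (fun q : E N × E N =>
      ENNReal.ofReal (min 1 ‖q.1 - q.2‖)) n) :=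
    ev_meas (measurable_hat2 hβ hh) Three_phi n
  have e1 : ∀ G : boxS d R → E N,
      ∫⁻ G', ev (hat2 β h) ν (fun q => ENNReal.ofReal (min 1 ‖q.1 - q.2‖)) n (G x, G' x)
        ∂(chainLaw (boxNet d R) β h 0 ν (Measure.pi (fun _ => ρ2)) n2) =
      ∫⁻ g', ev (hat2 β h) ν (fun q => ENNReal.ofReal (min 1 ‖q.1 - q.2‖)) n (G x, g')
        ∂(law (hat β h) ν ρ2 n2) := by
    intro G
    exact site_marg (boxNet d R) hβ hh ρ2
      (φ := fun g' => ev (hat2 β h) ν (fun q => ENNReal.ofReal (min 1 ‖q.1 - q.2‖)) n (G x, g'))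
      (mD.comp (measurable_const.prodMk measurable_id)) x n2
  simp only [e1]
  exact site_marg (boxNet d R) hβ hh ρ1
    (φ := fun g => ∫⁻ g', ev (hat2 β h) ν (fun q => ENNReal.ofReal (min 1 ‖q.1 - q.2‖)) n (g, g')
        ∂(law (hat β h) ν ρ2 n2)) (mD.lintegral_prod_right' ) x n1

private theorem Three_m1 {N d L : ℕ} (x : boxS d L) :
    Measurable (fun p : (boxS d L → E N) × (boxS d L → E N) => (p.1 x, p.2 x)) :=
  ((measurable_pi_apply x).comp measurable_fst).prodMk ((measurable_pi_apply x).comp measurable_snd)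

private theorem Three_m2 {N d L : ℕ} (x : boxS d L) :
    Measurable (fun p : (boxS d L → E N) × (boxS d L → E N) =>
      ENNReal.ofReal (min 1 ‖p.1 x - p.2 x‖)) := by
  have h1 : Measurable (fun p : (boxS d L → E N) × (boxS d L → E N) => p.1 x) :=
    (measurable_pi_apply x).comp measurable_fst
  have h2 : Measurable (fun p : (boxS d L → E N) × (boxS d L → E N) => p.2 x) :=
    (measurable_pi_apply x).comp measurable_snd
  exact (measurable_const.min (h1.sub h2).norm).ennreal_ofReal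

private theorem Three_term {N d L R : ℕ} {β h : ℝ} (hβ : 0 < β) (hh : 0 ≤ h) {ν : Measure (E N)}
    [IsProbabilityMeasure ν] {CF : ℝ} (hCF : 0 ≤ CF) (F : (boxS d L → E N) → ℂ)
    (hF : ∀ G G' : boxS d L → E N, ‖F G - F G'‖ ≤
        CF * ∑ x : boxS d L, (if l1 (x : Fin d → ℤ) 0 ≤ R then min 1 ‖G x - G' x‖ else 0))
    (i : ℕ) (G G' : boxS d L → E N) :
    ev (stp2 (boxNet d L) β h 0) (pim (boxS d L) ν) (fun p => ‖F p.1 - F p.2‖ₑ) i (G, G') ≤
      ENNReal.ofReal CF * ∑ x : boxS d L,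
        ev (hat2 β h) ν (fun q => ENNReal.ofReal (min 1 ‖q.1 - q.2‖)) i (G x, G' x) := by
  have hpp : IsProbabilityMeasure (pim (boxS d L) ν) := by
    unfold pim; infer_instance
  have ms := measurable_stp2 (N := N) (boxNet d L) hβ hh 0
  have pt : ∀ p : (boxS d L → E N) × (boxS d L → E N), ‖F p.1 - F p.2‖ₑ ≤
      ENNReal.ofReal CF * ∑ x : boxS d L, ENNReal.ofReal (min 1 ‖p.1 x - p.2 x‖) := by
    intro p
    rw [← ofReal_norm]
    refine (ENNReal.ofReal_le_ofReal (hF p.1 p.2)).trans ?_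
    rw [ENNReal.ofReal_mul hCF]
    refine mul_le_mul_right ?_ _
    rw [ENNReal.ofReal_sum_of_nonneg (fun x _ => by
      split_ifs
      · exact le_min zero_le_one (norm_nonneg _)
      · exact le_rfl)]
    refine Finset.sum_le_sum fun x _ => ENNReal.ofReal_le_ofReal ?_
    split_ifs
    · exact le_rfl
    · exact le_min zero_le_one (norm_nonneg _)
  refine (ev_mono pt i (G, G')).trans (le_of_eq ?_)
  have e1 := ev_cmul (μ := pim (boxS d L) ν) ms (φ := fun p : (boxS d L → E N) × (boxS d L → E N) =>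
    ∑ x : boxS d L, ENNReal.ofReal (min 1 ‖p.1 x - p.2 x‖))
    (Finset.measurable_sum _ fun x _ => Three_m2 x) (ENNReal.ofReal CF) i (G, G')
  have e2 := ev_sum (μ := pim (boxS d L) ν) ms (Finset.univ : Finset (boxS d L))
    (φ := fun (x : boxS d L) (p : (boxS d L → E N) × (boxS d L → E N)) =>
      ENNReal.ofReal (min 1 ‖p.1 x - p.2 x‖)) (fun x => Three_m2 x) i (G, G')
  refine e1.trans ?_
  congr 1
  refine e2.trans ?_
  refine Finset.sum_congr rfl fun x _ => ?_
  exact site_pair (boxNet d L) hβ hh Three_phi x i G G'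

private theorem Three_zero {N d L : ℕ} {β h : ℝ} {ν : Measure (E N)}
    [IsProbabilityMeasure ν] (F : (boxS d L → E N) → ℂ) (hF : F = fun _ => 1)
    (i : ℕ) (G G' : boxS d L → E N) :
    ev (stp2 (boxNet d L) β h 0) (pim (boxS d L) ν) (fun p => ‖F p.1 - F p.2‖ₑ) i (G, G') = 0 := by
  have hpp : IsProbabilityMeasure (pim (boxS d L) ν) := by
    unfold pim; infer_instance
  subst hF
  have e1 : (fun p : (boxS d L → E N) × (boxS d L → E N) => ‖(1 : ℂ) - 1‖ₑ) = fun _ => 0 := by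
    funext p
    simp
  show ev _ _ (fun p : (boxS d L → E N) × (boxS d L → E N) => ‖(1 : ℂ) - 1‖ₑ) i (G, G') = 0
  rw [e1]
  exact ev_const 0 i (G, G')

private theorem Three_sum {N d L : ℕ} (μ1 μ2 : Measure (boxS d L → E N)) [SFinite μ2]
    (S : Finset ℕ) (c : ℝ≥0∞) (D : ℕ → E N × E N → ℝ≥0∞) (mD : ∀ i, Measurable (D i)) :
    ∫⁻ G, ∫⁻ G', (∑ i ∈ S, c * ∑ x : boxS d L, D i (G x, G' x)) ∂μ2 ∂μ1 =
      ∑ i ∈ S, c * ∑ x : boxS d L, ∫⁻ G, ∫⁻ G', D i (G x, G' x) ∂μ2 ∂μ1 := by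
  have mx : ∀ i (x : boxS d L), Measurable (fun q : (boxS d L → E N) × (boxS d L → E N) =>
      D i (q.1 x, q.2 x)) := fun i x => (mD i).comp (Three_m1 x)
  have inner : ∀ G : boxS d L → E N,
      ∫⁻ G', (∑ i ∈ S, c * ∑ x : boxS d L, D i (G x, G' x)) ∂μ2 =
      ∑ i ∈ S, c * ∑ x : boxS d L, ∫⁻ G', D i (G x, G' x) ∂μ2 := by
    intro G
    have mG : ∀ i (x : boxS d L), Measurable (fun G' : boxS d L → E N => D i (G x, G' x)) :=
      fun i x => (mx i x).comp (measurable_const.prodMk measurable_id)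
    rw [lintegral_finsetSum _ (fun i _ => (Finset.measurable_sum _ fun x _ => mG i x).const_mul _)]
    refine Finset.sum_congr rfl fun i _ => ?_
    rw [lintegral_const_mul _ (Finset.measurable_sum _ fun x _ => mG i x),
      lintegral_finsetSum _ (fun x _ => mG i x)]
  have mi : ∀ i (x : boxS d L), Measurable (fun G : boxS d L → E N =>
      ∫⁻ G', D i (G x, G' x) ∂μ2) := fun i x => (mx i x).lintegral_prod_right'
  simp only [inner]
  rw [lintegral_finsetSum _ (fun i _ => (Finset.measurable_sum _ fun x _ => mi i x).const_mul _)]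
  refine Finset.sum_congr rfl fun i _ => ?_
  rw [lintegral_const_mul _ (Finset.measurable_sum _ fun x _ => mi i x),
    lintegral_finsetSum _ (fun x _ => mi i x)]

theorem small_three (N d : ℕ) (β : ℝ) (hN : 3 ≤ N) (hβ : 0 < β) :
    CMix N d β 0 (fun h => nuT N h) := by
  intro ρ1 ρ2 _ _ hρ1 hρ2 _ _ R J CF δ hCF hδ
  set B : ℕ := (boxS d R).card with hB
  have hx0 : 0 ≤ (J : ℝ) * CF * B := by positivity
  set ε : ℝ := δ / ((J : ℝ) * CF * B + 1) with hεd
  have hε : 0 < ε := by positivity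
  obtain ⟨T0, k1, hT0, hk1, H1⟩ := site_mix hN hβ ρ1 ρ2 hρ1 hρ2 hε
  obtain ⟨k2, hk2, H2⟩ := nuT_noise N (by omega)
  refine ⟨T0, R, hT0, le_rfl, fun _ => rfl, ?_⟩
  intro L hL _ Sm _
  obtain rfl : L = R := hL rfl
  refine ⟨min k1 k2, lt_min hk1 hk2, ?_⟩
  intro h hh hlt n1 n2 M _ _ _ F I hI hFm hFb hFI hF
  have l1 : h < k1 := lt_of_lt_of_le hlt (min_le_left _ _)
  have l2 : h < k2 := lt_of_lt_of_le hlt (min_le_right _ _)
  have hν : IsNoise h (nuT N h) := H2 h hh l2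
  have hp := hν.prob
  have q1 : IsProbabilityMeasure (chainLaw (boxNet d L) β h 0 (nuT N h)
    (Measure.pi (fun _ => ρ1)) n1) := chainLaw_prob hβ hh.le _ n1
  have q2 : IsProbabilityMeasure (chainLaw (boxNet d L) β h 0 (nuT N h)
    (Measure.pi (fun _ => ρ2)) n2) := chainLaw_prob hβ hh.le _ n2
  obtain ⟨mP, bP⟩ := pathE_facts (net := boxNet d L) (k := 0) hβ hh.le (ν := nuT N h)
    ((List.range M).map F) (by
      intro f hf
      obtain ⟨i, _, rfl⟩ := List.mem_map.1 hf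
      exact hFm i) (by
      intro f hf
      obtain ⟨i, _, rfl⟩ := List.mem_map.1 hf
      exact hFb i)
  set P := pathE (boxNet d L) β h 0 (nuT N h) ((List.range M).map F) with hP
  set μ1 := chainLaw (boxNet d L) β h 0 (nuT N h) (Measure.pi (fun _ => ρ1)) n1 with hμ1
  set μ2 := chainLaw (boxNet d L) β h 0 (nuT N h) (Measure.pi (fun _ => ρ2)) n2 with hμ2
  -- reduction to lower integrals
  have mj : Measurable (fun q : (boxS d L → E N) × (boxS d L → E N) => ‖P q.1 - P q.2‖ₑ) := by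
    fun_prop
  have b2 : ∀ G, ∫⁻ G', ‖P G - P G'‖ₑ ∂μ2 ≤ 2 := by
    intro G
    calc _ ≤ ∫⁻ _G', (2 : ℝ≥0∞) ∂μ2 := by
          refine lintegral_mono fun G' => ?_
          refine (enorm_sub_le).trans ?_
          have c1 : ‖P G‖ₑ ≤ 1 := by
            rw [← ofReal_norm, ← ENNReal.ofReal_one]
            exact ENNReal.ofReal_le_ofReal (bP G)
          have c2 : ‖P G'‖ₑ ≤ 1 := by
            rw [← ofReal_norm, ← ENNReal.ofReal_one]
            exact ENNReal.ofReal_le_ofReal (bP G')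
          calc _ ≤ (1 : ℝ≥0∞) + 1 := add_le_add c1 c2
            _ = 2 := one_add_one_eq_two
      _ = 2 := by simp
  have step : ∀ G G' : boxS d L → E N, ‖P G - P G'‖ₑ ≤
      ∑ i ∈ Finset.range M ∩ I, ENNReal.ofReal CF * ∑ x : boxS d L,
        ev (hat2 β h) (nuT N h) (fun q => ENNReal.ofReal (min 1 ‖q.1 - q.2‖)) i (G x, G' x) := by
    intro G G'
    refine (pathE_pair (boxNet d L) hβ hh.le hν.iso M F hFm hFb G G').trans ?_
    rw [← Finset.sum_filter_add_sum_filter_not (Finset.range M) (fun i => i ∈ I),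
      Finset.filter_mem_eq_inter]
    rw [Finset.sum_eq_zero (s := (Finset.range M).filter (fun i => ¬ i ∈ I)) fun i hi =>
      Three_zero (F i) (hFI i (Finset.mem_filter.1 hi).2) i G G', add_zero]
    exact Finset.sum_le_sum fun i hi =>
      Three_term hβ hh.le hCF (F i) (hF i (Finset.mem_inter.1 hi).2).2 i G G'
  have main : ∫⁻ G, ∫⁻ G', ‖P G - P G'‖ₑ ∂μ2 ∂μ1 ≤ ENNReal.ofReal δ := by
    calc _ ≤ ∫⁻ G, ∫⁻ G', (∑ i ∈ Finset.range M ∩ I,
            ENNReal.ofReal CF * ∑ x : boxS d L,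
              ev (hat2 β h) (nuT N h) (fun q => ENNReal.ofReal (min 1 ‖q.1 - q.2‖)) i
                (G x, G' x)) ∂μ2 ∂μ1 :=
          lintegral_mono fun G => lintegral_mono fun G' => step G G'
      _ = ∑ i ∈ Finset.range M ∩ I, ENNReal.ofReal CF * ∑ x : boxS d L,
          ∫⁻ G, ∫⁻ G', ev (hat2 β h) (nuT N h) (fun q => ENNReal.ofReal (min 1 ‖q.1 - q.2‖)) i
                (G x, G' x) ∂μ2 ∂μ1 :=
          Three_sum μ1 μ2 _ _ (fun i => ev (hat2 β h) (nuT N h)
            (fun q => ENNReal.ofReal (min 1 ‖q.1 - q.2‖)) i)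
            (fun i => ev_meas (measurable_hat2 hβ hh.le) Three_phi i)
      _ ≤ ∑ _i ∈ Finset.range M ∩ I, ENNReal.ofReal CF * ∑ _x : boxS d L, ENNReal.ofReal ε := by
          refine Finset.sum_le_sum fun i hi => mul_le_mul_right (Finset.sum_le_sum fun x _ => ?_) _
          rw [hμ1, hμ2, Three_one hβ hh.le ρ1 ρ2 n1 n2 i x]
          exact H1 h (nuT N h) hh l1 hν n1 n2 i (hF i (Finset.mem_inter.1 hi).2).1
      _ = ((Finset.range M ∩ I).card : ℝ≥0∞) * (ENNReal.ofReal CF * (B * ENNReal.ofReal ε)) := by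
          rw [Finset.sum_const, nsmul_eq_mul, Finset.sum_const, nsmul_eq_mul, Finset.card_univ,
            Fintype.card_coe]
      _ ≤ (J : ℝ≥0∞) * (ENNReal.ofReal CF * (B * ENNReal.ofReal ε)) := by
          refine mul_le_mul_left ?_ _
          exact_mod_cast (Finset.card_le_card Finset.inter_subset_right).trans hI
      _ = ENNReal.ofReal ((J : ℝ) * CF * B * ε) := by
          rw [ENNReal.ofReal_mul (by positivity), ENNReal.ofReal_mul (by positivity),
            ENNReal.ofReal_mul (by positivity), ENNReal.ofReal_natCast, ENNReal.ofReal_natCast]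
          ring
      _ ≤ ENNReal.ofReal δ := by
          refine ENNReal.ofReal_le_ofReal ?_
          rw [hεd, mul_div_assoc', div_le_iff₀ (by positivity)]
          nlinarith
  have e1 : ∀ G, ∫ G', ‖P G - P G'‖ ∂μ2 = (∫⁻ G', ‖P G - P G'‖ₑ ∂μ2).toReal := by
    intro G
    refine integral_norm_eq_lintegral_enorm ?_
    exact (measurable_const.sub mP).aestronglyMeasurable
  show ∫ G, ∫ G', ‖P G - P G'‖ ∂μ2 ∂μ1 ≤ δ
  simp only [e1]
  rw [integral_toReal (mj.lintegral_prod_right').aemeasurable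
    (Filter.Eventually.of_forall fun G => lt_of_le_of_lt (b2 G) (by norm_num))]
  exact ENNReal.toReal_le_of_le_ofReal hδ.le main

end DynS
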