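import Pool.Agent.Lib_MP_36b788s.Defs
import Pool.Agent.Lib_MP_36b788.PathM

/-!
# TR: from the truncated to the Gaussian noise

PROOF. Given `ρ1, ρ2, R, J, CF, δ`: `T0, L0` of the hypothesis with `δ/2`. For `L, Sm`: `h0'` of the hypothesis and `C` of `tailG_le`; `V = card (boxS d L)`.
`Φ_γ = pathE … stdGaussian …`, `Φ_τ = pathE … nuT …` (both measurable, norm `≤ 1`, `pathE_facts`; `nuT N h` is a probability measure: `Measure.map`
of a measurable map, or `nuT_noise`). `pathE_trunc`: `‖Φ_γ G - Φ_τ G‖ ≤ 2 M V tailG`.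
(1) For `ψ : (ι → E N) → ℝ` measurable with `0 ≤ ψ ≤ 2`: `|∫ψ dchainLaw_γ n - ∫ψ dchainLaw_τ n| ≤ 4(n+1) V tailG` (same initial law): apply `chainLaw_integral` to
`f = (ψ/2 : ℂ)` for both noises; the difference is `∫(pathE_γ - pathE_τ)(replicate n 1 ++ [f]) dm0`, by `pathE_trunc` (`length = n+1`) at most `2(n+1)V tailG`;
multiply by two and take real parts (`integral_ofReal`).
(2) Chain: `∫∫‖Φ_γ G-Φ_γ G'‖dγ2 dγ1 ≤ ∫∫‖Φ_τ G-Φ_τ G'‖dγ2 dγ1 + 4MV tailG`; inner change of law by (1) with `ψ = ‖Φ_τ G-Φ_τ ·‖`: `+ 4(n2+1)V tailG`; outer change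
with `ψ G = ∫‖Φ_τ G-Φ_τ G'‖dτ2` (measurable: `StronglyMeasurable.integral_prod_right`): `+ 4(n1+1)V tailG`. Total error
`≤ (4M+4n1+4n2+8)V C h² ≤ (12Sm+8h)V C h ≤ δ/2` for `h < h0`, `h0 = min(h0', 1, δ/(2(12Sm+8)VC+1))`.
-/

open MeasureTheory ProbabilityTheory Dyn
open scoped ENNReal

namespace DynS

private theorem Tr_prob (N : ℕ) (h : ℝ) : IsProbabilityMeasure (nuT N h) := by
  classical
  unfold nuT
  refine Measure.isProbabilityMeasure_map (Measurable.ite ?_ measurable_id measurable_const).aemeasurable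
  exact measurableSet_le measurable_norm measurable_const

private theorem Tr_law {N d : ℕ} {ι : Type} [Fintype ι] {net : Net ι d} {β h k : ℝ} (hβ : 0 < β)
    (hh : 0 < h) (m0 : Measure (ι → E N)) [IsProbabilityMeasure m0] (n : ℕ) (ψ : (ι → E N) → ℝ)
    (hψ : Measurable ψ) (h0 : ∀ G, 0 ≤ ψ G) (h2 : ∀ G, ψ G ≤ 2) :
    |(∫ G, ψ G ∂(chainLaw net β h k (stdGaussian (E N)) m0 n)) -
      ∫ G, ψ G ∂(chainLaw net β h k (nuT N h) m0 n)| ≤
      4 * (n + 1) * Fintype.card ι * tailG N h := by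
  have hp := Tr_prob N h
  set f : (ι → E N) → ℂ := fun G => ((ψ G / 2 : ℝ) : ℂ) with hf
  have hfm : Measurable f := Complex.measurable_ofReal.comp (hψ.div_const 2)
  have hfb : ∀ G, ‖f G‖ ≤ 1 := by
    intro G
    show ‖((ψ G / 2 : ℝ) : ℂ)‖ ≤ 1
    rw [Complex.norm_real, Real.norm_eq_abs, abs_of_nonneg (by linarith [h0 G])]
    linarith [h2 G]
  set fs : List ((ι → E N) → ℂ) := List.replicate n (fun _ => 1) ++ [f] with hfs
  have hm : ∀ g ∈ fs, Measurable g := by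
    intro g hg
    rw [hfs, List.mem_append] at hg
    rcases hg with hg | hg
    · rw [List.eq_of_mem_replicate hg]
      exact measurable_const
    · rw [List.mem_singleton.1 hg]
      exact hfm
  have hb : ∀ g ∈ fs, ∀ G, ‖g G‖ ≤ 1 := by
    intro g hg
    rw [hfs, List.mem_append] at hg
    rcases hg with hg | hg
    · rw [List.eq_of_mem_replicate hg]
      intro G
      simp
    · rw [List.mem_singleton.1 hg]
      exact hfb
  have hlen : (fs.length : ℝ) = n + 1 := by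
    rw [hfs]
    simp
  have e1 := chainLaw_integral (net := net) (k := k) (ν := stdGaussian (E N)) hβ hh.le m0 n f hfm hfb
  have e2 := chainLaw_integral (net := net) (k := k) (ν := nuT N h) hβ hh.le m0 n f hfm hfb
  rw [← hfs] at e1 e2
  obtain ⟨m1, b1⟩ := pathE_facts (net := net) (k := k) (ν := stdGaussian (E N)) hβ hh.le fs hm hb
  obtain ⟨m2, b2⟩ := pathE_facts (net := net) (k := k) (ν := nuT N h) hβ hh.le fs hm hb
  have i1 : Integrable (pathE net β h k (stdGaussian (E N)) fs) m0 :=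
    Integrable.of_bound m1.aestronglyMeasurable 1 (Filter.Eventually.of_forall b1)
  have i2 : Integrable (pathE net β h k (nuT N h) fs) m0 :=
    Integrable.of_bound m2.aestronglyMeasurable 1 (Filter.Eventually.of_forall b2)
  have e3 : ‖(∫ G, f G ∂(chainLaw net β h k (stdGaussian (E N)) m0 n)) -
      ∫ G, f G ∂(chainLaw net β h k (nuT N h) m0 n)‖ ≤
      2 * (n + 1) * Fintype.card ι * tailG N h := by
    rw [e1, e2, ← integral_sub i1 i2]
    have h3 := norm_integral_le_of_norm_le_const (μ := m0)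
      (f := fun G => pathE net β h k (stdGaussian (E N)) fs G - pathE net β h k (nuT N h) fs G)
      (C := 2 * fs.length * Fintype.card ι * tailG N h)
      (Filter.Eventually.of_forall fun G => pathE_trunc hβ hh fs hm hb G)
    rw [hlen] at h3
    simpa using h3
  have e4 : ∀ μ : Measure (ι → E N), ∫ G, f G ∂μ = (((∫ G, ψ G ∂μ) / 2 : ℝ) : ℂ) := by
    intro μ
    rw [hf, ← integral_div]
    exact integral_ofReal
  rw [e4, e4, ← Complex.ofReal_sub, Complex.norm_real, Real.norm_eq_abs, ← sub_div, abs_div,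
    abs_of_pos (by norm_num : (0 : ℝ) < 2), div_le_iff₀ (by norm_num)] at e3
  linarith

private theorem Tr_add {X : Type} [MeasurableSpace X] (μ : Measure X) [IsProbabilityMeasure μ] {F G : X → ℝ}
    (hF : Integrable F μ) (hG : Integrable G μ) (c : ℝ) (h : ∀ x, F x ≤ G x + c) :
    ∫ x, F x ∂μ ≤ (∫ x, G x ∂μ) + c := by
  calc ∫ x, F x ∂μ ≤ ∫ x, (G x + c) ∂μ := integral_mono hF (hG.add (integrable_const c)) h
    _ = (∫ x, G x ∂μ) + c := by
        rw [integral_add hG (integrable_const c)]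
        simp

private theorem Tr_double {N d : ℕ} {ι : Type} [Fintype ι] {net : Net ι d} {β h k : ℝ} (hβ : 0 < β)
    (hh : 0 < h) (ρ1 ρ2 : Measure (ι → E N)) [IsProbabilityMeasure ρ1] [IsProbabilityMeasure ρ2]
    (n1 n2 : ℕ) (fs : List ((ι → E N) → ℂ)) (hm : ∀ f ∈ fs, Measurable f)
    (hb : ∀ f ∈ fs, ∀ G, ‖f G‖ ≤ 1) :
    ∫ G, ∫ G', ‖pathE net β h k (stdGaussian (E N)) fs G - pathE net β h k (stdGaussian (E N)) fs G'‖
        ∂(chainLaw net β h k (stdGaussian (E N)) ρ2 n2) ∂(chainLaw net β h k (stdGaussian (E N)) ρ1 n1) ≤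
      (∫ G, ∫ G', ‖pathE net β h k (nuT N h) fs G - pathE net β h k (nuT N h) fs G'‖
        ∂(chainLaw net β h k (nuT N h) ρ2 n2) ∂(chainLaw net β h k (nuT N h) ρ1 n1)) +
      (4 * fs.length + 4 * (n1 + 1) + 4 * (n2 + 1)) * Fintype.card ι * tailG N h := by
  have hp := Tr_prob N h
  have pg1 := chainLaw_prob (net := net) (k := k) (ν := stdGaussian (E N)) hβ hh.le ρ1 n1
  have pg2 := chainLaw_prob (net := net) (k := k) (ν := stdGaussian (E N)) hβ hh.le ρ2 n2
  have pt1 := chainLaw_prob (net := net) (k := k) (ν := nuT N h) hβ hh.le ρ1 n1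
  have pt2 := chainLaw_prob (net := net) (k := k) (ν := nuT N h) hβ hh.le ρ2 n2
  obtain ⟨m1, b1⟩ := pathE_facts (net := net) (k := k) (ν := stdGaussian (E N)) hβ hh.le fs hm hb
  obtain ⟨m2, b2⟩ := pathE_facts (net := net) (k := k) (ν := nuT N h) hβ hh.le fs hm hb
  set Pg := pathE net β h k (stdGaussian (E N)) fs with hPg
  set Pt := pathE net β h k (nuT N h) fs with hPt
  set G1 := chainLaw net β h k (stdGaussian (E N)) ρ1 n1 with hG1
  set G2 := chainLaw net β h k (stdGaussian (E N)) ρ2 n2 with hG2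
  set T1 := chainLaw net β h k (nuT N h) ρ1 n1 with hT1
  set T2 := chainLaw net β h k (nuT N h) ρ2 n2 with hT2
  set V : ℝ := (Fintype.card ι : ℝ) with hV
  set t : ℝ := tailG N h with ht
  have hgt : ∀ G, ‖Pg G - Pt G‖ ≤ 2 * fs.length * V * t := fun G => pathE_trunc hβ hh fs hm hb G
  have dm : Measurable fun q : (ι → E N) × (ι → E N) => ‖Pg q.1 - Pg q.2‖ :=
    ((m1.comp measurable_fst).sub (m1.comp measurable_snd)).norm
  have dmt : Measurable fun q : (ι → E N) × (ι → E N) => ‖Pt q.1 - Pt q.2‖ :=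
    ((m2.comp measurable_fst).sub (m2.comp measurable_snd)).norm
  have bg : ∀ G G', ‖Pg G - Pg G'‖ ≤ 2 := fun G G' =>
    (norm_sub_le _ _).trans (by linarith [b1 G, b1 G'])
  have bt : ∀ G G', ‖Pt G - Pt G'‖ ≤ 2 := fun G G' =>
    (norm_sub_le _ _).trans (by linarith [b2 G, b2 G'])
  -- inner integrals
  have ig : ∀ (μ : Measure (ι → E N)) [IsProbabilityMeasure μ] (G : ι → E N),
      Integrable (fun G' => ‖Pg G - Pg G'‖) μ := by
    intro μ _ G
    refine Integrable.of_bound ((dm.comp (measurable_const.prodMk measurable_id)).aestronglyMeasurable) 2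
      (Filter.Eventually.of_forall fun G' => ?_)
    rw [Real.norm_of_nonneg (norm_nonneg _)]
    exact bg G G'
  have it : ∀ (μ : Measure (ι → E N)) [IsProbabilityMeasure μ] (G : ι → E N),
      Integrable (fun G' => ‖Pt G - Pt G'‖) μ := by
    intro μ _ G
    refine Integrable.of_bound ((dmt.comp (measurable_const.prodMk measurable_id)).aestronglyMeasurable) 2
      (Filter.Eventually.of_forall fun G' => ?_)
    rw [Real.norm_of_nonneg (norm_nonneg _)]
    exact bt G G'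
  have mI : ∀ (μ : Measure (ι → E N)) [IsProbabilityMeasure μ],
      Measurable (fun G => ∫ G', ‖Pt G - Pt G'‖ ∂μ) := by
    intro μ _
    exact (StronglyMeasurable.integral_prod_right' (ν := μ) dmt.stronglyMeasurable).measurable
  have mIg : ∀ (μ : Measure (ι → E N)) [IsProbabilityMeasure μ],
      Measurable (fun G => ∫ G', ‖Pg G - Pg G'‖ ∂μ) := by
    intro μ _
    exact (StronglyMeasurable.integral_prod_right' (ν := μ) dm.stronglyMeasurable).measurable
  have nI : ∀ (μ : Measure (ι → E N)) [IsProbabilityMeasure μ] (G : ι → E N),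
      0 ≤ ∫ G', ‖Pt G - Pt G'‖ ∂μ := fun μ _ G => integral_nonneg fun _ => norm_nonneg _
  have bI : ∀ (μ : Measure (ι → E N)) [IsProbabilityMeasure μ] (G : ι → E N),
      ∫ G', ‖Pt G - Pt G'‖ ∂μ ≤ 2 := by
    intro μ _ G
    have h3 := integral_mono (it μ G) (integrable_const (2 : ℝ)) fun G' => bt G G'
    simpa using h3
  have bIg : ∀ (μ : Measure (ι → E N)) [IsProbabilityMeasure μ] (G : ι → E N),
      ∫ G', ‖Pg G - Pg G'‖ ∂μ ≤ 2 := by
    intro μ _ G
    have h3 := integral_mono (ig μ G) (integrable_const (2 : ℝ)) fun G' => bg G G'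
    simpa using h3
  have iI : ∀ (μ μ' : Measure (ι → E N)) [IsProbabilityMeasure μ] [IsProbabilityMeasure μ'],
      Integrable (fun G => ∫ G', ‖Pt G - Pt G'‖ ∂μ) μ' := by
    intro μ μ' _ _
    refine Integrable.of_bound (mI μ).aestronglyMeasurable 2 (Filter.Eventually.of_forall fun G => ?_)
    rw [Real.norm_of_nonneg (nI μ G)]
    exact bI μ G
  have iIg : ∀ (μ μ' : Measure (ι → E N)) [IsProbabilityMeasure μ] [IsProbabilityMeasure μ'],
      Integrable (fun G => ∫ G', ‖Pg G - Pg G'‖ ∂μ) μ' := by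
    intro μ μ' _ _
    refine Integrable.of_bound (mIg μ).aestronglyMeasurable 2 (Filter.Eventually.of_forall fun G => ?_)
    rw [Real.norm_of_nonneg (integral_nonneg fun _ => norm_nonneg _)]
    exact bIg μ G
  -- step 1
  have s1 : ∫ G, ∫ G', ‖Pg G - Pg G'‖ ∂G2 ∂G1 ≤
      (∫ G, ∫ G', ‖Pt G - Pt G'‖ ∂G2 ∂G1) + 4 * fs.length * V * t := by
    have h3 : ∀ G, ∫ G', ‖Pg G - Pg G'‖ ∂G2 ≤ (∫ G', ‖Pt G - Pt G'‖ ∂G2) + 4 * fs.length * V * t := by
      intro G
      have h4 : ∀ G', ‖Pg G - Pg G'‖ ≤ ‖Pt G - Pt G'‖ + 4 * fs.length * V * t := by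
        intro G'
        have h5 : Pg G - Pg G' = (Pt G - Pt G') + ((Pg G - Pt G) - (Pg G' - Pt G')) := by ring
        rw [h5]
        refine (norm_add_le _ _).trans ?_
        have h6 := norm_sub_le (Pg G - Pt G) (Pg G' - Pt G')
        have h7 := hgt G
        have h8 := hgt G'
        linarith
      exact Tr_add G2 (ig G2 G) (it G2 G) _ h4
    exact Tr_add G1 (iIg G2 G1) (iI G2 G1) _ h3
  -- step 2
  have s2 : ∫ G, ∫ G', ‖Pt G - Pt G'‖ ∂G2 ∂G1 ≤
      (∫ G, ∫ G', ‖Pt G - Pt G'‖ ∂T2 ∂G1) + 4 * (n2 + 1) * V * t := by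
    have h3 : ∀ G, ∫ G', ‖Pt G - Pt G'‖ ∂G2 ≤ (∫ G', ‖Pt G - Pt G'‖ ∂T2) + 4 * (n2 + 1) * V * t := by
      intro G
      have h4 := Tr_law (net := net) (k := k) hβ hh ρ2 n2 (fun G' => ‖Pt G - Pt G'‖)
        (dmt.comp (measurable_const.prodMk measurable_id)) (fun _ => norm_nonneg _) (fun G' => bt G G')
      have h5 := (abs_le.1 h4).2
      linarith
    exact Tr_add G1 (iI G2 G1) (iI T2 G1) _ h3
  -- step 3
  have s3 : ∫ G, ∫ G', ‖Pt G - Pt G'‖ ∂T2 ∂G1 ≤
      (∫ G, ∫ G', ‖Pt G - Pt G'‖ ∂T2 ∂T1) + 4 * (n1 + 1) * V * t := by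
    have h4 := Tr_law (net := net) (k := k) hβ hh ρ1 n1 (fun G => ∫ G', ‖Pt G - Pt G'‖ ∂T2)
      (mI T2) (nI T2) (bI T2)
    have h5 := (abs_le.1 h4).2
    linarith
  linarith

theorem cmix_of_trunc (N d : ℕ) (β k : ℝ) (hN : 1 ≤ N) (hβ : 0 < β) (hk : 0 ≤ k)
    (H : CMix N d β k (fun h => nuT N h)) : CMix N d β k (fun _ => stdGaussian (E N)) := by
  intro ρ1 ρ2 _ _ hz1 hz2 hi1 hi2 R J CF δ hCF hδ
  obtain ⟨T0, L0, hT0, hRL, hkL, H1⟩ := H ρ1 ρ2 hz1 hz2 hi1 hi2 R J CF (δ / 2) hCF (by positivity)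
  refine ⟨T0, L0, hT0, hRL, hkL, fun L hL1 hL2 Sm hSm => ?_⟩
  obtain ⟨h0, hh0, H2⟩ := H1 L hL1 hL2 Sm hSm
  obtain ⟨C, hC, HC⟩ := tailG_le N
  set V : ℝ := (Fintype.card (boxS d L) : ℝ) with hV
  have hV0 : 0 ≤ V := Nat.cast_nonneg _
  set A : ℝ := (12 * Sm + 8) * V * C with hA
  have hA0 : 0 ≤ A := by positivity
  refine ⟨min (min h0 1) (δ / (2 * (A + 1))), by positivity, fun h hh hlt => ?_⟩
  have l1' : h < h0 := hlt.trans_le ((min_le_left _ _).trans (min_le_left _ _))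
  have l2 : h < 1 := hlt.trans_le ((min_le_left _ _).trans (min_le_right _ _))
  have l3 : h < δ / (2 * (A + 1)) := hlt.trans_le (min_le_right _ _)
  intro n1 n2 M hn1 hn2 hM F I hI hFm hFb hF1 hF2
  have H3 := H2 h hh l1' n1 n2 M hn1 hn2 hM F I hI hFm hFb hF1 hF2
  have hm : ∀ f ∈ (List.range M).map F, Measurable f := by
    intro f hf
    obtain ⟨i, -, rfl⟩ := List.mem_map.1 hf
    exact hFm i
  have hb : ∀ f ∈ (List.range M).map F, ∀ G, ‖f G‖ ≤ 1 := by
    intro f hf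
    obtain ⟨i, -, rfl⟩ := List.mem_map.1 hf
    exact hFb i
  have H4 := Tr_double (net := boxNet d L) (k := k) hβ hh (Measure.pi (fun _ : boxS d L => ρ1))
    (Measure.pi (fun _ : boxS d L => ρ2)) n1 n2 ((List.range M).map F) hm hb
  have hlen : (((List.range M).map F).length : ℝ) = M := by
    simp
  rw [hlen, ← hV] at H4
  obtain ⟨t0, t1⟩ := HC h hh l2
  have H5 : (4 * (M : ℝ) + 4 * (n1 + 1) + 4 * (n2 + 1)) * V * tailG N h ≤ δ / 2 := by
    have a1 : (4 * (M : ℝ) + 4 * (n1 + 1) + 4 * (n2 + 1)) * V * tailG N h ≤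
        (4 * (M : ℝ) + 4 * (n1 + 1) + 4 * (n2 + 1)) * V * (C * h ^ 2) :=
      mul_le_mul_of_nonneg_left t1 (by positivity)
    have a2 : (4 * (M : ℝ) + 4 * (n1 + 1) + 4 * (n2 + 1)) * V * (C * h ^ 2) =
        (4 * (M * h) + 4 * (n1 * h) + 4 * (n2 * h) + 8 * h) * (V * C) * h := by ring
    have a3 : 4 * (M * h) + 4 * (n1 * h) + 4 * (n2 * h) + 8 * h ≤ 12 * Sm + 8 := by linarith
    have a4 : (4 * (M * h) + 4 * (n1 * h) + 4 * (n2 * h) + 8 * h) * (V * C) * h ≤
        (12 * Sm + 8) * (V * C) * h :=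
      mul_le_mul_of_nonneg_right (mul_le_mul_of_nonneg_right a3 (by positivity)) hh.le
    have a5 : (12 * Sm + 8) * (V * C) * h = A * h := by
      rw [hA]
      ring
    have a6 : A * h ≤ δ / 2 := by
      have a7 : h * (2 * (A + 1)) < δ := (lt_div_iff₀ (by positivity)).1 l3
      nlinarith
    linarith
  linarith

end DynS
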