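import Pool.Agent.Lib_MP_36b788s.Pth

/-!
# SITE: for `k = 0` the sites are independent

PROOF. `stp net β h 0 G ξ x = hat β h (G x) (ξ x)` (`0 * h = 0`, `zero_smul`).
* `site_ev`: `ev_twine` with `g = fun G => G x`: `∫⁻φ(hat (G x)(ξ x))dpim = ∫⁻φ(hat (G x) ξ)dν` (`measurePreserving_eval`).
* `site_marg`: `chainLaw_law`, `law_ev`, `site_ev`, marginal of `Measure.pi`, `law_ev` back.
* `site_pair`: `ev_twine` with `g = fun p => (p.1 x, p.2 x)`, `rotN G G' ξ x = rotQ (uni (G x)) (uni (G' x)) (ξ x)`.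
* `hat2_ev_fst`: `ev_twine` with `g = Prod.fst` (`rfl`), `hat2_ev_snd`: `g = Prod.snd`, `hat2_snd`.
-/

open MeasureTheory ProbabilityTheory Dyn
open scoped ENNReal

namespace DynS

variable {N d : ℕ} {ι : Type} [Fintype ι]

theorem measurable_hat {β h : ℝ} (hβ : 0 < β) (hh : 0 ≤ h) :
    Measurable (fun q : E N × E N => hat β h q.1 q.2) :=
  (hat_continuous hβ hh).measurable

private theorem Site_coord (net : Net ι d) (β h : ℝ) (G ξ : ι → E N) (x : ι) :
    stp net β h 0 G ξ x = hat β h (G x) (ξ x) := by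
  simp [stp]

private theorem Site_pim {ν : Measure (E N)} [IsProbabilityMeasure ν] :
    IsProbabilityMeasure (pim ι ν) := by
  unfold pim
  infer_instance

private theorem Site_eval {ν : Measure (E N)} [IsProbabilityMeasure ν] {φ : E N → ℝ≥0∞}
    (hφ : Measurable φ) (x : ι) : ∫⁻ ξ, φ (ξ x) ∂(pim ι ν) = ∫⁻ ξ, φ ξ ∂ν := by
  unfold pim
  exact (measurePreserving_eval (fun _ : ι => ν) x).lintegral_comp hφ

omit [Fintype ι] in
private theorem Site_app (x : ι) : Measurable (fun G : ι → E N => G x) := measurable_pi_apply x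

private theorem Site_stp (net : Net ι d) {β h : ℝ} (hβ : 0 < β) (hh : 0 ≤ h) (k : ℝ) :
    Measurable (fun q : (ι → E N) × (ι → E N) => stp net β h k q.1 q.2) := by
  apply measurable_pi_iff.mpr
  intro x
  have m1 : Measurable (fun q : (ι → E N) × (ι → E N) => q.1 x) := (Site_app x).comp measurable_fst
  have m2 : Measurable (fun q : (ι → E N) × (ι → E N) => q.2 x) := (Site_app x).comp measurable_snd
  have m3 : Measurable (fun q : (ι → E N) × (ι → E N) => (q.1 x, q.2 x)) := m1.prodMk m2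
  have h1 : Measurable (fun q : (ι → E N) × (ι → E N) => hat β h (q.1 x) (q.2 x)) :=
    Measurable.comp (g := fun q : E N × E N => hat β h q.1 q.2)
      (f := fun q : (ι → E N) × (ι → E N) => (q.1 x, q.2 x)) (measurable_hat hβ hh) m3
  have h2 : Measurable (fun q : (ι → E N) × (ι → E N) => (k * h) • coup net q.1 x) := by
    have h3 : Continuous (fun q : (ι → E N) × (ι → E N) => (k * h) • coup net q.1 x) := by
      unfold coup
      fun_prop
    exact h3.measurable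
  exact h1.add h2

private theorem Site_one (net : Net ι d) {β h : ℝ} (hβ : 0 < β) (hh : 0 ≤ h) {ν : Measure (E N)}
    [IsProbabilityMeasure ν] (x : ι) (ψ : E N → ℝ≥0∞) (hψ : Measurable ψ) (y : ι → E N) :
    ∫⁻ ξ, ψ (stp net β h 0 y ξ x) ∂(pim ι ν) = ∫⁻ ξ, ψ (hat β h (y x) ξ) ∂ν := by
  have h1 : ∀ ξ : ι → E N, ψ (stp net β h 0 y ξ x) = ψ (hat β h (y x) (ξ x)) := by
    intro ξ
    rw [Site_coord]
  rw [lintegral_congr h1]
  have h2 : Measurable (fun v : E N => hat β h (y x) v) :=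
    Measurable.comp (g := fun q : E N × E N => hat β h q.1 q.2) (f := fun v : E N => (y x, v))
      (measurable_hat hβ hh) (measurable_const.prodMk measurable_id)
  exact Site_eval (φ := fun v => ψ (hat β h (y x) v)) (hψ.comp h2) x

theorem site_ev (net : Net ι d) {β h : ℝ} (hβ : 0 < β) (hh : 0 ≤ h) {ν : Measure (E N)}
    [IsProbabilityMeasure ν] {φ : E N → ℝ≥0∞} (hφ : Measurable φ) (x : ι) (n : ℕ) (G : ι → E N) :
    ev (stp net β h 0) (pim ι ν) (fun G => φ (G x)) n G = ev (hat β h) ν φ n (G x) := by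
  have key := ev_twine (X := E N) (Ξ := E N) (Y := ι → E N) (Ξ' := ι → E N) (F := stp net β h 0)
    (μ' := pim ι ν) (f := hat β h) (μ := ν) (fun G : ι → E N => G x) (measurable_hat hβ hh)
    (fun ψ hψ y => Site_one net hβ hh x ψ hψ y) (φ := φ) hφ n G
  exact key

theorem site_marg (net : Net ι d) {β h : ℝ} (hβ : 0 < β) (hh : 0 ≤ h) {ν : Measure (E N)}
    [IsProbabilityMeasure ν] (ρ : Measure (E N)) [IsProbabilityMeasure ρ] {φ : E N → ℝ≥0∞}
    (hφ : Measurable φ) (x : ι) (n : ℕ) :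
    ∫⁻ G, φ (G x) ∂(chainLaw net β h 0 ν (Measure.pi (fun _ => ρ)) n) =
      ∫⁻ g, φ g ∂(law (hat β h) ν ρ n) := by
  have hp : IsProbabilityMeasure (pim ι ν) := Site_pim
  have h1 : ∫⁻ G, φ (G x) ∂(law (stp net β h 0) (pim ι ν) (Measure.pi (fun _ : ι => ρ)) n) =
      ∫⁻ G, ev (stp net β h 0) (pim ι ν) (fun G => φ (G x)) n G ∂(Measure.pi (fun _ : ι => ρ)) :=
    law_ev (f := stp net β h 0) (μ := pim ι ν) (Site_stp net hβ hh 0) (Measure.pi (fun _ : ι => ρ))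
      (φ := fun G : ι → E N => φ (G x)) (hφ.comp (Site_app x)) n
  have h2 : ∫⁻ g, φ g ∂(law (hat β h) ν ρ n) = ∫⁻ g, ev (hat β h) ν φ n g ∂ρ :=
    law_ev (f := hat β h) (μ := ν) (measurable_hat hβ hh) ρ hφ n
  have h3 : ∫⁻ G, ev (stp net β h 0) (pim ι ν) (fun G => φ (G x)) n G ∂(Measure.pi (fun _ : ι => ρ)) =
      ∫⁻ G, ev (hat β h) ν φ n (G x) ∂(Measure.pi (fun _ : ι => ρ)) :=
    lintegral_congr (fun G => site_ev net hβ hh hφ x n G)
  have h4 : ∫⁻ G, ev (hat β h) ν φ n (G x) ∂(pim ι ρ) = ∫⁻ g, ev (hat β h) ν φ n g ∂ρ :=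
    Site_eval (φ := ev (hat β h) ν φ n) (ev_meas (measurable_hat hβ hh) hφ n) x
  rw [chainLaw_law, h1, h3, h2]
  exact h4

private theorem Site_two (net : Net ι d) {β h : ℝ} (hβ : 0 < β) (hh : 0 ≤ h) {ν : Measure (E N)}
    [IsProbabilityMeasure ν] (x : ι) (ψ : E N × E N → ℝ≥0∞) (hψ : Measurable ψ)
    (y : (ι → E N) × (ι → E N)) :
    ∫⁻ ξ, ψ ((stp2 net β h 0 y ξ).1 x, (stp2 net β h 0 y ξ).2 x) ∂(pim ι ν) =
      ∫⁻ ξ, ψ (hat2 β h (y.1 x, y.2 x) ξ) ∂ν := by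
  have h1 : ∀ ξ : ι → E N, ψ ((stp2 net β h 0 y ξ).1 x, (stp2 net β h 0 y ξ).2 x) =
      ψ (hat2 β h (y.1 x, y.2 x) (ξ x)) := by
    intro ξ
    have a1 : (stp2 net β h 0 y ξ).1 x = hat β h (y.1 x) (ξ x) := Site_coord net β h y.1 ξ x
    have a2 : (stp2 net β h 0 y ξ).2 x =
        hat β h (y.2 x) (rotQ (uni (y.1 x)) (uni (y.2 x)) (ξ x)) :=
      Site_coord net β h y.2 (rotN y.1 y.2 ξ) x
    rw [a1, a2]
    rfl
  rw [lintegral_congr h1]
  have h2 : Measurable (fun v : E N => hat2 β h (y.1 x, y.2 x) v) :=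
    Measurable.comp (g := fun q : (E N × E N) × E N => hat2 β h q.1 q.2)
      (f := fun v : E N => ((y.1 x, y.2 x), v))
      (measurable_hat2 hβ hh) (measurable_const.prodMk measurable_id)
  exact Site_eval (φ := fun v => ψ (hat2 β h (y.1 x, y.2 x) v)) (hψ.comp h2) x

theorem site_pair (net : Net ι d) {β h : ℝ} (hβ : 0 < β) (hh : 0 ≤ h) {ν : Measure (E N)}
    [IsProbabilityMeasure ν] {φ : E N × E N → ℝ≥0∞} (hφ : Measurable φ) (x : ι) (n : ℕ)
    (G G' : ι → E N) :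
    ev (stp2 net β h 0) (pim ι ν) (fun p => φ (p.1 x, p.2 x)) n (G, G') =
      ev (hat2 β h) ν φ n (G x, G' x) := by
  have key := ev_twine (X := E N × E N) (Ξ := E N) (Y := (ι → E N) × (ι → E N)) (Ξ' := ι → E N)
    (F := stp2 net β h 0) (μ' := pim ι ν) (f := hat2 β h) (μ := ν)
    (fun p : (ι → E N) × (ι → E N) => (p.1 x, p.2 x)) (measurable_hat2 hβ hh)
    (fun ψ hψ y => Site_two net hβ hh x ψ hψ y) (φ := φ) hφ n (G, G')
  exact key

theorem hat2_ev_fst {β h : ℝ} (hβ : 0 < β) (hh : 0 ≤ h) {ν : Measure (E N)}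
    [IsProbabilityMeasure ν] {φ : E N → ℝ≥0∞} (hφ : Measurable φ) (n : ℕ) (q : E N × E N) :
    ev (hat2 β h) ν (fun q => φ q.1) n q = ev (hat β h) ν φ n q.1 := by
  have key := ev_twine (X := E N) (Ξ := E N) (Y := E N × E N) (Ξ' := E N) (F := hat2 β h) (μ' := ν)
    (f := hat β h) (μ := ν) (fun q : E N × E N => q.1) (measurable_hat hβ hh)
    (fun _ _ _ => rfl) (φ := φ) hφ n q
  exact key

theorem hat2_ev_snd {β h : ℝ} (hβ : 0 < β) (hh : 0 ≤ h) {ν : Measure (E N)}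
    [IsProbabilityMeasure ν] (hiso : ∀ L : E N ≃ₗᵢ[ℝ] E N, ν.map L = ν)
    {φ : E N → ℝ≥0∞} (hφ : Measurable φ) (n : ℕ) (q : E N × E N) :
    ev (hat2 β h) ν (fun q => φ q.2) n q = ev (hat β h) ν φ n q.2 := by
  have key := ev_twine (X := E N) (Ξ := E N) (Y := E N × E N) (Ξ' := E N) (F := hat2 β h) (μ' := ν)
    (f := hat β h) (μ := ν) (fun q : E N × E N => q.2) (measurable_hat hβ hh)
    (fun _ hψ y => hat2_snd hβ hh hiso y hψ) (φ := φ) hφ n q
  exact key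

end DynS
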