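import Pool.Agent.Lib_MP_36b788s.OneC
import Pool.Agent.Lib_MP_36b788s.Two
import Pool.Agent.Lib_MP_36b788s.Three
import Pool.Agent.Lib_MP_36b788s.Tr
import Pool.Agent.Lib_MP_36b788b.MixSde

/-!
# Chapter S, final: the small cases of chain mixing
-/

open MeasureTheory ProbabilityTheory Dyn

namespace DynS

theorem small_N1 (d : ℕ) (β : ℝ) (hβ : 0 < β) : ∃ k1 : ℝ, 0 < k1 ∧ ∀ k : ℝ, 0 ≤ k → k ≤ k1 →
    DynB.ChainMix 1 d β k := by
  obtain ⟨k1, hk1, H⟩ := small_one d β hβ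
  exact ⟨k1, hk1, fun k hk0 hk => cmix_of_trunc 1 d β k le_rfl hβ hk0 (H k hk0 hk)⟩

theorem small_N2 (d : ℕ) (β : ℝ) (hβ : 0 < β) : DynB.ChainMix 2 d β 0 :=
  cmix_of_trunc 2 d β 0 (by norm_num) hβ le_rfl (small_two d β hβ)

theorem small_N3 (N d : ℕ) (β : ℝ) (hN : 3 ≤ N) (hβ : 0 < β) : DynB.ChainMix N d β 0 :=
  cmix_of_trunc N d β 0 (by omega) hβ le_rfl (small_three N d β hN hβ)

end DynS
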