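import Pool.Agent.Lib_MP_36b788s.Ang

/-!
# DL, part A: deterministic contraction of `dL = |log‖q.1‖ - log‖q.2‖|` along the rotated pair step

PROOF. `u = ‖q.1‖, u' = ‖q.2‖ > 0`, `ζ = ‖uni q.1+√hξ‖`, the same for both (`zeta_pair`), `u⁺, u'⁺` the new norms, `u⁺(1+h(u⁺)^β) = uζ`,
`u'⁺(1+h(u'⁺)^β) = u'ζ` (`hat_step`).
* `dl_log`: `θ(a) = log(1+he^{βa})` is monotone with `θ' = βx/(1+x)`, `x = he^{βa}`, `θ'` increasing. With `a = log u⁺ ≥ a' = log u'⁺` (other case symmetric):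
  `log u-log u' = (a-a')+(θ(a)-θ(a')) ≥ (a-a')(1+βx/(1+x))`, `x = h min(u⁺,u'⁺)^β` (mean value theorem). So `dL⁺ ≤ dL·(1+x)/(1+(1+β)x) = (1-βx/(1+(1+β)x))dL`,
  and `x ≤ 1` gives `dL⁺ ≤ (1-(β/(2+β))x)dL` (`1+(1+β)x ≤ 2+β`).
* `dl_det`: on the set `dlA`: `dL⁺ ≤ dL ≤ D0`, so `min(u⁺,u'⁺) ≥ u⁺e^{-D0}`, `u⁺ ≥ uζ/2 ≥ u/4` (`hat_half`, `ζ ≥ 9/10`), `x ≥ h(e^{-D0}u/4)^β = he^{-βD0}4^{-β}u^β`.
* `dl_inv`: invariance of `dlA`: `hat2_ne`, `hat_inv` for both, `dL⁺ ≤ dL`.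
-/

open MeasureTheory ProbabilityTheory Dyn
open scoped ENNReal

namespace DynS

noncomputable section

variable {N : ℕ}

def dL (q : E N × E N) : ℝ := |Real.log ‖q.1‖ - Real.log ‖q.2‖|

/-- the invariant set -/
def dlA (N : ℕ) (β h D0 : ℝ) : Set (E N × E N) :=
  {q | q.1 ≠ 0 ∧ q.2 ≠ 0 ∧ h * ‖q.1‖ ^ β ≤ 1 ∧ h * ‖q.2‖ ^ β ≤ 1 ∧ dL q ≤ D0}

theorem measurable_dL : Measurable (dL (N := N)) := by
  have h1 : Measurable (fun q : E N × E N => Real.log ‖q.1‖ - Real.log ‖q.2‖) :=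
    (Real.measurable_log.comp measurable_fst.norm).sub (Real.measurable_log.comp measurable_snd.norm)
  exact h1.norm

private theorem DLA_exp {x t : ℝ} (hx : 0 ≤ x) :
    x / (1 + x) * t ≤ Real.log (1 + x * Real.exp t) - Real.log (1 + x) := by
  have h0 : (0 : ℝ) < 1 + x := by linarith
  have h1 : 0 < 1 + x * Real.exp t := by positivity
  rw [← Real.log_div h1.ne' h0.ne', Real.le_log_iff_exp_le (div_pos h1 h0)]
  have hl : 0 ≤ x / (1 + x) := div_nonneg hx h0.le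
  have hl' : 0 ≤ 1 / (1 + x) := by positivity
  have hs : x / (1 + x) + 1 / (1 + x) = 1 := by
    field_simp
    ring
  have h2 := convexOn_exp.2 (Set.mem_univ t) (Set.mem_univ (0 : ℝ)) hl hl' hs
  simp only [smul_eq_mul, mul_zero, add_zero, Real.exp_zero, mul_one] at h2
  refine h2.trans (le_of_eq ?_)
  field_simp
  ring

private theorem DLA_core {β h a b u u' z : ℝ} (hβ : 0 < β) (hh : 0 < h) (hb : 0 < b) (hab : b ≤ a)
    (hu : 0 < u) (hu' : 0 < u') (hz : 0 < z) (e1 : a * (1 + h * a ^ β) = u * z)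
    (e2 : b * (1 + h * b ^ β) = u' * z) (hx1 : h * b ^ β ≤ 1) :
    0 ≤ Real.log a - Real.log b ∧
    Real.log a - Real.log b ≤ (1 - β / (2 + β) * (h * b ^ β)) * (Real.log u - Real.log u') ∧
      Real.log a - Real.log b ≤ Real.log u - Real.log u' := by
  have ha : 0 < a := hb.trans_le hab
  have hD : 0 ≤ Real.log a - Real.log b := sub_nonneg.mpr (Real.log_le_log hb hab)
  have hx0 : 0 ≤ h * b ^ β := by positivity
  set x : ℝ := h * b ^ β with hx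
  set D : ℝ := Real.log a - Real.log b with hDd
  have hax : h * a ^ β = x * Real.exp (β * D) := by
    rw [hx, Real.rpow_def_of_pos ha, Real.rpow_def_of_pos hb, mul_assoc, ← Real.exp_add]
    congr 2
    rw [hDd]
    ring
  have l1 : Real.log a + Real.log (1 + h * a ^ β) = Real.log u + Real.log z := by
    rw [← Real.log_mul ha.ne' (by positivity), ← Real.log_mul hu.ne' hz.ne', e1]
  have l2 : Real.log b + Real.log (1 + x) = Real.log u' + Real.log z := by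
    rw [← Real.log_mul hb.ne' (by positivity), ← Real.log_mul hu'.ne' hz.ne', e2]
  have h3 := DLA_exp (t := β * D) hx0
  rw [hax] at l1
  have hU : Real.log u - Real.log u' = D + (Real.log (1 + x * Real.exp (β * D)) - Real.log (1 + x)) := by
    rw [hDd]
    linarith
  have hge : D * (1 + β * x / (1 + x)) ≤ Real.log u - Real.log u' := by
    rw [hU]
    have : D * (1 + β * x / (1 + x)) = D + x / (1 + x) * (β * D) := by ring
    rw [this]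
    linarith
  have hpos : 0 ≤ β * x / (1 + x) := by positivity
  refine ⟨hD, ?_, ?_⟩
  · have hc1 : β / (2 + β) * x ≤ 1 := by
      have : β / (2 + β) ≤ 1 := by
        rw [div_le_one (by linarith)]
        linarith
      calc β / (2 + β) * x ≤ 1 * 1 := mul_le_mul this hx1 hx0 (by norm_num)
        _ = 1 := by norm_num
    have hstep : D ≤ (1 - β / (2 + β) * x) * (D * (1 + β * x / (1 + x))) := by
      have hkey : 1 ≤ (1 - β / (2 + β) * x) * (1 + β * x / (1 + x)) := by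
        have h2 : (0 : ℝ) < 2 + β := by linarith
        have h4 : (0 : ℝ) < 1 + x := by linarith
        have : (1 - β / (2 + β) * x) * (1 + β * x / (1 + x)) - 1 =
            β * x * (1 + β) * (1 - x) / ((2 + β) * (1 + x)) := by
          field_simp
          ring
        have h5 : 0 ≤ β * x * (1 + β) * (1 - x) / ((2 + β) * (1 + x)) := by
          apply div_nonneg _ (by positivity)
          apply mul_nonneg (by positivity)
          linarith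
        linarith
      calc D = D * 1 := (mul_one D).symm
        _ ≤ D * ((1 - β / (2 + β) * x) * (1 + β * x / (1 + x))) := mul_le_mul_of_nonneg_left hkey hD
        _ = _ := by ring
    exact hstep.trans (mul_le_mul_of_nonneg_left hge (by linarith))
  · refine le_trans ?_ hge
    calc D = D * 1 := (mul_one D).symm
      _ ≤ D * (1 + β * x / (1 + x)) := mul_le_mul_of_nonneg_left (by linarith) hD

/-- the equations of one pair step -/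
private theorem DLA_eqs {β h : ℝ} (hβ : 0 < β) (hh : 0 < h) {q : E N × E N} (h1 : q.1 ≠ 0) (h2 : q.2 ≠ 0)
    {ξ : E N} (hζ : 0 < ‖uni q.1 + Real.sqrt h • ξ‖)
    (hζ1 : ‖uni q.1 + Real.sqrt h • ξ‖ ≤ 11 / 10) (hs1 : h * ‖q.1‖ ^ β ≤ 1)
    (hs2 : h * ‖q.2‖ ^ β ≤ 1) :
    (hat2 β h q ξ).1 ≠ 0 ∧ (hat2 β h q ξ).2 ≠ 0 ∧
      ‖(hat2 β h q ξ).1‖ * (1 + h * ‖(hat2 β h q ξ).1‖ ^ β) = ‖q.1‖ * ‖uni q.1 + Real.sqrt h • ξ‖ ∧
      ‖(hat2 β h q ξ).2‖ * (1 + h * ‖(hat2 β h q ξ).2‖ ^ β) = ‖q.2‖ * ‖uni q.1 + Real.sqrt h • ξ‖ ∧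
      h * ‖(hat2 β h q ξ).1‖ ^ β ≤ 1 ∧ h * ‖(hat2 β h q ξ).2‖ ^ β ≤ 1 := by
  have hz : ‖uni q.2 + Real.sqrt h • rotQ (uni q.1) (uni q.2) ξ‖ = ‖uni q.1 + Real.sqrt h • ξ‖ :=
    zeta_pair h1 h2 ξ
  have hζ' : 0 < ‖uni q.2 + Real.sqrt h • rotQ (uni q.1) (uni q.2) ξ‖ := by rw [hz]; exact hζ
  have hζ1' : ‖uni q.2 + Real.sqrt h • rotQ (uni q.1) (uni q.2) ξ‖ ≤ 11 / 10 := by rw [hz]; exact hζ1
  have a1 := hat_step hβ hh.le h1 hζ
  have a2 := hat_step hβ hh.le h2 hζ'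
  rw [hz] at a2
  exact ⟨a1.1, a2.1, a1.2, a2.2, hat_inv hβ hh h1 hζ hζ1 hs1, hat_inv hβ hh h2 hζ' hζ1' hs2⟩

theorem dl_log {β h : ℝ} (hβ : 0 < β) (hh : 0 < h) {q : E N × E N} (h1 : q.1 ≠ 0) (h2 : q.2 ≠ 0)
    {ξ : E N} (hζ : 0 < ‖uni q.1 + Real.sqrt h • ξ‖)
    (hζ1 : ‖uni q.1 + Real.sqrt h • ξ‖ ≤ 11 / 10) (hs1 : h * ‖q.1‖ ^ β ≤ 1)
    (hs2 : h * ‖q.2‖ ^ β ≤ 1) :
    dL (hat2 β h q ξ) ≤ (1 - β / (2 + β) *
      (h * (min ‖(hat2 β h q ξ).1‖ ‖(hat2 β h q ξ).2‖) ^ β)) * dL q ∧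
      dL (hat2 β h q ξ) ≤ dL q := by
  obtain ⟨n1, n2, e1, e2, i1, i2⟩ := DLA_eqs hβ hh h1 h2 hζ hζ1 hs1 hs2
  set a : ℝ := ‖(hat2 β h q ξ).1‖ with ha
  set b : ℝ := ‖(hat2 β h q ξ).2‖ with hb
  have ha0 : 0 < a := norm_pos_iff.mpr n1
  have hb0 : 0 < b := norm_pos_iff.mpr n2
  have hu : 0 < ‖q.1‖ := norm_pos_iff.mpr h1
  have hu' : 0 < ‖q.2‖ := norm_pos_iff.mpr h2
  unfold dL
  rw [← ha, ← hb]
  rcases le_total b a with hab | hab
  · obtain ⟨c0, c1, c2⟩ := DLA_core hβ hh hb0 hab hu hu' hζ e1 e2 i2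
    rw [min_eq_right hab, abs_of_nonneg c0, abs_of_nonneg (c0.trans c2)]
    exact ⟨c1, c2⟩
  · obtain ⟨c0, c1, c2⟩ := DLA_core hβ hh ha0 hab hu' hu hζ e2 e1 i1
    rw [min_eq_left hab, abs_sub_comm, abs_of_nonneg c0, abs_sub_comm (Real.log ‖q.1‖),
      abs_of_nonneg (c0.trans c2)]
    exact ⟨c1, c2⟩

theorem dl_det {β h D0 : ℝ} (hβ : 0 < β) (hh : 0 < h) {q : E N × E N} (hq : q ∈ dlA N β h D0)
    {ξ : E N} (hζ : 9 / 10 ≤ ‖uni q.1 + Real.sqrt h • ξ‖)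
    (hζ1 : ‖uni q.1 + Real.sqrt h • ξ‖ ≤ 11 / 10) :
    dL (hat2 β h q ξ) ≤
      (1 - β / (2 + β) * (Real.exp (-(β * D0)) * (4 : ℝ) ^ (-β)) * (h * ‖q.1‖ ^ β)) * dL q := by
  obtain ⟨h1, h2, hs1, hs2, hD⟩ := hq
  have hζ0 : 0 < ‖uni q.1 + Real.sqrt h • ξ‖ := by linarith
  obtain ⟨n1, n2, e1, e2, i1, i2⟩ := DLA_eqs hβ hh h1 h2 hζ0 hζ1 hs1 hs2
  obtain ⟨d1, d2⟩ := dl_log hβ hh h1 h2 hζ0 hζ1 hs1 hs2
  have dq0 : 0 ≤ dL q := abs_nonneg _
  have hhalf := (hat_half hβ hh h1 hζ0 hζ1 hs1).1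
  refine d1.trans (mul_le_mul_of_nonneg_right ?_ dq0)
  have hu : 0 < ‖q.1‖ := norm_pos_iff.mpr h1
  have hab : ‖(hat2 β h q ξ).1‖ = ‖hat β h q.1 ξ‖ := rfl
  set a : ℝ := ‖(hat2 β h q ξ).1‖ with ha
  set b : ℝ := ‖(hat2 β h q ξ).2‖ with hb
  have ha0 : 0 < a := norm_pos_iff.mpr n1
  have hb0 : 0 < b := norm_pos_iff.mpr n2
  have hDp : |Real.log a - Real.log b| ≤ D0 := d2.trans hD
  have hD0 : 0 ≤ D0 := (abs_nonneg _).trans hDp
  have ha4 : ‖q.1‖ / 4 ≤ a := by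
    rw [hab]
    have : ‖q.1‖ / 4 ≤ ‖q.1‖ * ‖uni q.1 + Real.sqrt h • ξ‖ / 2 := by nlinarith
    exact this.trans hhalf
  have hmin : ‖q.1‖ * Real.exp (-D0) / 4 ≤ min a b := by
    have hexp : Real.exp (-D0) ≤ 1 := Real.exp_le_one_iff.mpr (by linarith)
    have hexp0 := Real.exp_pos (-D0)
    apply le_min
    · nlinarith
    · have hlog : Real.log a - D0 ≤ Real.log b := by
        have := (abs_le.mp hDp).2
        linarith
      have hb' : a * Real.exp (-D0) ≤ b := by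
        have h3 := Real.exp_le_exp.mpr hlog
        rw [Real.exp_log hb0, sub_eq_add_neg, Real.exp_add, Real.exp_log ha0] at h3
        exact h3
      have h4 : ‖q.1‖ * Real.exp (-D0) / 4 ≤ a * Real.exp (-D0) := by
        have := mul_le_mul_of_nonneg_right ha4 hexp0.le
        linarith
      exact h4.trans hb'
  have hpow : (‖q.1‖ * Real.exp (-D0) / 4) ^ β = ‖q.1‖ ^ β * (Real.exp (-(β * D0)) * (4 : ℝ) ^ (-β)) := by
    rw [div_eq_mul_inv, Real.mul_rpow (by positivity) (by positivity),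
      Real.mul_rpow hu.le (Real.exp_pos _).le, Real.rpow_neg (by norm_num), Real.inv_rpow (by norm_num),
      ← Real.exp_mul]
    have : -D0 * β = -(β * D0) := by ring
    rw [this]
    ring
  have hle : ‖q.1‖ ^ β * (Real.exp (-(β * D0)) * (4 : ℝ) ^ (-β)) ≤ (min a b) ^ β := by
    rw [← hpow]
    exact Real.rpow_le_rpow (by positivity) hmin hβ.le
  have hc : 0 ≤ β / (2 + β) := by positivity
  have h5 : β / (2 + β) * (Real.exp (-(β * D0)) * (4 : ℝ) ^ (-β)) * (h * ‖q.1‖ ^ β) ≤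
      β / (2 + β) * (h * (min a b) ^ β) := by
    have : β / (2 + β) * (Real.exp (-(β * D0)) * (4 : ℝ) ^ (-β)) * (h * ‖q.1‖ ^ β) =
        β / (2 + β) * (h * (‖q.1‖ ^ β * (Real.exp (-(β * D0)) * (4 : ℝ) ^ (-β)))) := by ring
    rw [this]
    exact mul_le_mul_of_nonneg_left (mul_le_mul_of_nonneg_left hle hh.le) hc
  linarith

theorem dl_inv {β h D0 : ℝ} (hβ : 0 < β) (hh : 0 < h) (hh1 : h < 1 / 1000) {ν : Measure (E N)}
    (hν : IsNoise h ν) : ∀ q ∈ dlA N β h D0, ∀ᵐ ξ ∂ν, hat2 β h q ξ ∈ dlA N β h D0 := by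
  rintro q ⟨h1, h2, hs1, hs2, hD⟩
  filter_upwards [noise_ae hh hh1 hν] with ξ hξ
  obtain ⟨z1, z2⟩ := hξ.2 (uni q.1) (uni_norm h1)
  have z0 : 0 < ‖uni q.1 + Real.sqrt h • ξ‖ := by linarith
  obtain ⟨n1, n2, e1, e2, i1, i2⟩ := DLA_eqs hβ hh h1 h2 z0 z2 hs1 hs2
  exact ⟨n1, n2, i1, i2, (dl_log hβ hh h1 h2 z0 z2 hs1 hs2).2.trans hD⟩

end

end DynS
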