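import Pool.Agent.Lib_MP_36b788s.Zpow
import Pool.Agent.Lib_MP_36b788s.Site

/-!
# ANG: the angle of the rotated pair contracts for `N ≥ 3`

PROOF. `q.1, q.2 ≠ 0`, `e = uni q.1`, `e' = uni q.2`, `Q = rotQ e e'`, `v = e+√hξ`, `‖v‖ ≥ 9/10` a.e. `Q e = e'`, so `e'+√hQξ = Qv`. `hat_uni` (twice):
`uni (hat2).1 = v/‖v‖`, `uni (hat2).2 = Qv/‖v‖`, `sA(hat2 q ξ) = (‖v‖²-⟪v,Qv⟫)/‖v‖² ≤ (1-c₀)(⟪e,v⟫²+⟪f,v⟫²)/‖v‖²`, `c₀ = ⟪e,e'⟫`, `f` of `rotQ_cos_le2`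
`= (1-c₀)(1-(‖v‖²-⟪e,v⟫²-⟪f,v⟫²)/‖v‖²)`. Now `‖v‖²-⟪e,v⟫²-⟪f,v⟫² = h(‖ξ‖²-⟪e,ξ⟫²-⟪f,ξ⟫²) ≥ 0` (Bessel for the orthonormal pair `e, f`; the component orthogonal to
`e, f` of `v` is `√h` times that of `ξ`) and `‖v‖² ≤ 121/100`, so `≤ (1-c₀)(1-(100/121)h(‖ξ‖²-⟪e,ξ⟫²-⟪f,ξ⟫²))`. Expectation: `noise_sq`: `E⟪e,ξ⟫² = E‖ξ‖²/N`,
`E(‖ξ‖²-⟪e,ξ⟫²-⟪f,ξ⟫²) = (1-2/N)E‖ξ‖² ≥ (N-2)(1-h) ≥ 1-h`, `(100/121)(1-h) ≥ 1/2`.
* `sA_inv`: both components stay nonzero a.e. (`noise_ae`, `hat_step`; for the second one `‖e'+√hQξ‖ = ‖Qv‖ = ‖v‖`).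
-/

open MeasureTheory ProbabilityTheory Dyn
open scoped ENNReal

namespace DynS

noncomputable section

variable {N : ℕ}

def sA (q : E N × E N) : ℝ := 1 - inner ℝ (uni q.1) (uni q.2)

theorem measurable_sA : Measurable (sA (N := N)) := by
  unfold sA
  exact measurable_const.sub ((measurable_uni.comp measurable_fst).inner (measurable_uni.comp measurable_snd))

private theorem Ang_uni_le (g : E N) : ‖uni g‖ ≤ 1 := by
  by_cases hg : g = 0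
  · subst hg
    unfold uni
    simp
  · exact (uni_norm hg).le

private theorem Ang_uni_smul {g : E N} (hg : g ≠ 0) : ‖g‖ • uni g = g := by
  unfold uni
  rw [smul_smul, mul_one_div, div_self (norm_ne_zero_iff.2 hg), one_smul]

theorem sA_nonneg (q : E N × E N) : 0 ≤ sA q ∧ sA q ≤ 2 := by
  have h1 : |inner ℝ (uni q.1) (uni q.2)| ≤ 1 := by
    refine (abs_real_inner_le_norm _ _).trans ?_
    exact mul_le_one₀ (Ang_uni_le _) (norm_nonneg _) (Ang_uni_le _)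
  have h2 := abs_le.1 h1
  unfold sA
  constructor <;> linarith

/-- the same `ζ` for both components -/
theorem zeta_pair {h : ℝ} {g g' : E N} (hg : g ≠ 0) (hg' : g' ≠ 0) (ξ : E N) :
    ‖uni g' + Real.sqrt h • rotQ (uni g) (uni g') ξ‖ = ‖uni g + Real.sqrt h • ξ‖ := by
  have h1 : uni g' + Real.sqrt h • rotQ (uni g) (uni g') ξ = rotQ (uni g) (uni g') (uni g + Real.sqrt h • ξ) := by
    rw [map_add, map_smul, rotQ_map (uni_norm hg) (uni_norm hg')]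
  rw [h1, LinearIsometryEquiv.norm_map]

theorem hat2_ne {β h : ℝ} (hβ : 0 < β) (hh : 0 < h) (hh1 : h < 1 / 1000) {ν : Measure (E N)}
    (hν : IsNoise h ν) {q : E N × E N} (h1 : q.1 ≠ 0) (h2 : q.2 ≠ 0) :
    ∀ᵐ ξ ∂ν, (hat2 β h q ξ).1 ≠ 0 ∧ (hat2 β h q ξ).2 ≠ 0 := by
  filter_upwards [noise_ae hh hh1 hν] with ξ hξ
  have hpos : 0 < ‖uni q.1 + Real.sqrt h • ξ‖ := by
    have := (hξ.2 (uni q.1) (uni_norm h1)).1
    linarith
  refine ⟨(hat_step hβ hh.le h1 hpos).1, ?_⟩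
  refine (hat_step hβ hh.le h2 ?_).1
  rw [zeta_pair h1 h2]
  exact hpos

/-- continuous functions are integrable -/
private theorem Ang_int {h : ℝ} {ν : Measure (E N)} (hh : 0 < h) (hν : IsNoise h ν)
    {f : E N → ℝ} (hf : Continuous f) : Integrable f ν := by
  have := hν.prob
  obtain ⟨C, hC⟩ := (isCompact_closedBall (0 : E N) (h ^ (3 / 8 : ℝ) / Real.sqrt h)).exists_bound_of_continuousOn
    hf.continuousOn
  refine Integrable.of_bound hf.aestronglyMeasurable C ?_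
  filter_upwards [hν.bdd] with ξ hξ
  refine hC ξ ?_
  rw [mem_closedBall_zero_iff, le_div_iff₀ (Real.sqrt_pos.mpr hh), mul_comm]
  exact hξ

/-- Bessel inequality for two vectors -/
private theorem Ang_bessel {e f : E N} (he : ‖e‖ = 1) (hf : ‖f‖ = 1) (hef : inner ℝ e f = 0) (ξ : E N) :
    0 ≤ ‖ξ‖ ^ 2 - (inner ℝ e ξ) ^ 2 - (inner ℝ f ξ) ^ 2 := by
  have h1 : ‖(ξ - (inner ℝ e ξ : ℝ) • e) - (inner ℝ f ξ : ℝ) • f‖ ^ 2 =
      ‖ξ‖ ^ 2 - (inner ℝ e ξ) ^ 2 - (inner ℝ f ξ) ^ 2 := by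
    rw [norm_sub_sq_real, norm_sub_sq_real, inner_sub_left, real_inner_smul_right, real_inner_smul_right,
      real_inner_smul_right, real_inner_smul_left, norm_smul, norm_smul, he, hf, hef, real_inner_comm e ξ,
      real_inner_comm f ξ, mul_one, mul_one, Real.norm_eq_abs, Real.norm_eq_abs, sq_abs, sq_abs]
    ring
  rw [← h1]
  exact sq_nonneg _

/-- the plane part of `e + √h ξ` -/
private theorem Ang_plane {h : ℝ} (hh : 0 < h) {e f : E N} (he : ‖e‖ = 1) (hef : inner ℝ e f = 0) (ξ : E N) :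
    (inner ℝ e (e + Real.sqrt h • ξ)) ^ 2 + (inner ℝ f (e + Real.sqrt h • ξ)) ^ 2 =
      ‖e + Real.sqrt h • ξ‖ ^ 2 - h * (‖ξ‖ ^ 2 - (inner ℝ e ξ) ^ 2 - (inner ℝ f ξ) ^ 2) := by
  have hs : Real.sqrt h ^ 2 = h := Real.sq_sqrt hh.le
  rw [norm_add_sq_real, inner_add_right, inner_add_right, real_inner_smul_right, real_inner_smul_right,
    real_inner_self_eq_norm_sq, norm_smul, he, real_inner_comm e f, hef,
    Real.norm_eq_abs, abs_of_nonneg (Real.sqrt_nonneg h)]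
  have e1 : (Real.sqrt h * ‖ξ‖) ^ 2 = h * ‖ξ‖ ^ 2 := by rw [mul_pow, hs]
  rw [e1]
  linear_combination ((inner ℝ e ξ) ^ 2 + (inner ℝ f ξ) ^ 2) * hs

/-- pointwise bound -/
private theorem Ang_pt {β h : ℝ} (hβ : 0 < β) (hh : 0 < h) {q : E N × E N} (h1 : q.1 ≠ 0) (h2 : q.2 ≠ 0)
    {f : E N} (hf : ‖f‖ = 1) (hef : inner ℝ (uni q.1) f = 0)
    (hcos : ∀ v : E N, ‖v‖ ^ 2 - inner ℝ v (rotQ (uni q.1) (uni q.2) v) ≤
        (1 - inner ℝ (uni q.1) (uni q.2)) * ((inner ℝ (uni q.1) v) ^ 2 + (inner ℝ f v) ^ 2))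
    {ξ : E N} (hlo : 9 / 10 ≤ ‖uni q.1 + Real.sqrt h • ξ‖) (hhi : ‖uni q.1 + Real.sqrt h • ξ‖ ≤ 11 / 10) :
    sA (hat2 β h q ξ) ≤ sA q * (1 - 100 / 121 * (h * (‖ξ‖ ^ 2 - (inner ℝ (uni q.1) ξ) ^ 2 - (inner ℝ f ξ) ^ 2))) ∧
      0 ≤ 1 - 100 / 121 * (h * (‖ξ‖ ^ 2 - (inner ℝ (uni q.1) ξ) ^ 2 - (inner ℝ f ξ) ^ 2)) := by
  set e := uni q.1 with he'
  set e' := uni q.2 with he2'
  have he : ‖e‖ = 1 := uni_norm h1
  have he2 : ‖e'‖ = 1 := uni_norm h2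
  set v := e + Real.sqrt h • ξ with hv
  have hvpos : 0 < ‖v‖ := by linarith
  have hv0 : v ≠ 0 := norm_pos_iff.1 hvpos
  have hQ : e' + Real.sqrt h • rotQ e e' ξ = rotQ e e' v := by
    rw [hv, map_add, map_smul, rotQ_map he he2]
  have hu1 : uni (hat2 β h q ξ).1 = uni v := hat_uni hβ hh.le h1 hvpos
  have hz : 0 < ‖e' + Real.sqrt h • rotQ e e' ξ‖ := by
    rw [hQ, LinearIsometryEquiv.norm_map]; exact hvpos
  have hu2 : uni (hat2 β h q ξ).2 = uni (rotQ e e' v) := by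
    have := hat_uni hβ hh.le h2 (ξ := rotQ e e' ξ) hz
    rw [← he2', hQ] at this
    exact this
  have hpl := Ang_plane hh he hef ξ
  have hbe := Ang_bessel he hf hef ξ
  rw [← hv] at hpl
  set B := ‖ξ‖ ^ 2 - (inner ℝ e ξ) ^ 2 - (inner ℝ f ξ) ^ 2 with hB
  have hvv : 0 < ‖v‖ ^ 2 := by positivity
  have hv2 : ‖v‖ ^ 2 ≤ 121 / 100 := by nlinarith
  have hhB : 0 ≤ h * B := mul_nonneg hh.le hbe
  have hhBv : h * B ≤ ‖v‖ ^ 2 := by
    have : 0 ≤ (inner ℝ e v) ^ 2 + (inner ℝ f v) ^ 2 := by positivity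
    linarith
  have hsA : sA (hat2 β h q ξ) = (‖v‖ ^ 2 - inner ℝ v (rotQ e e' v)) / ‖v‖ ^ 2 := by
    unfold sA
    rw [hu1, hu2]
    unfold uni
    rw [real_inner_smul_left, real_inner_smul_right, LinearIsometryEquiv.norm_map]
    field_simp
  have hc0 : 0 ≤ sA q := (sA_nonneg q).1
  have hc : sA q = 1 - inner ℝ e e' := rfl
  constructor
  · rw [hsA, div_le_iff₀ hvv]
    refine (hcos v).trans ?_
    rw [← hc, hpl, mul_assoc]
    refine mul_le_mul_of_nonneg_left ?_ hc0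
    have : 100 / 121 * (h * B) * ‖v‖ ^ 2 ≤ h * B := by
      have : 100 / 121 * ‖v‖ ^ 2 ≤ 1 := by linarith
      nlinarith
    nlinarith
  · linarith

theorem ang_drift {β h : ℝ} (hN : 3 ≤ N) (hβ : 0 < β) (hh : 0 < h) (hh1 : h < 1 / 1000)
    {ν : Measure (E N)} (hν : IsNoise h ν) {q : E N × E N} (h1 : q.1 ≠ 0) (h2 : q.2 ≠ 0) :
    ∫⁻ ξ, ENNReal.ofReal (sA (hat2 β h q ξ)) ∂ν ≤
      ENNReal.ofReal (1 - h / 2) * ENNReal.ofReal (sA q) := by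
  have hprob := hν.prob
  obtain ⟨f, hf, hef, hcos⟩ := rotQ_cos_le2 (by omega) (uni_norm h1) (uni_norm h2)
  set e := uni q.1 with he'
  have he : ‖e‖ = 1 := uni_norm h1
  have hc0 : 0 ≤ sA q := (sA_nonneg q).1
  set G : E N → ℝ := fun ξ => sA q * (1 - 100 / 121 * (h * (‖ξ‖ ^ 2 - (inner ℝ e ξ) ^ 2 - (inner ℝ f ξ) ^ 2))) with hG
  have hpt : ∀ᵐ ξ ∂ν, sA (hat2 β h q ξ) ≤ G ξ ∧ 0 ≤ G ξ := by
    filter_upwards [noise_ae hh hh1 hν] with ξ hξ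
    have hb := hξ.2 e he
    have := Ang_pt hβ hh h1 h2 hf hef hcos hb.1 hb.2
    exact ⟨this.1, mul_nonneg hc0 this.2⟩
  have i1 : Integrable (fun ξ : E N => ‖ξ‖ ^ 2) ν := Ang_int hh hν (by fun_prop)
  have i2 : Integrable (fun ξ : E N => (inner ℝ e ξ : ℝ) ^ 2) ν := Ang_int hh hν (by fun_prop)
  have i3 : Integrable (fun ξ : E N => (inner ℝ f ξ : ℝ) ^ 2) ν := Ang_int hh hν (by fun_prop)
  have hGc : Continuous G := by
    simp only [hG]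
    fun_prop
  have iG : Integrable G ν := Ang_int hh hν hGc
  have hstep1 : ∫⁻ ξ, ENNReal.ofReal (sA (hat2 β h q ξ)) ∂ν ≤ ∫⁻ ξ, ENNReal.ofReal (G ξ) ∂ν := by
    refine lintegral_mono_ae ?_
    filter_upwards [hpt] with ξ hξ
    exact ENNReal.ofReal_le_ofReal hξ.1
  refine hstep1.trans ?_
  rw [← ofReal_integral_eq_lintegral_ofReal iG (by filter_upwards [hpt] with ξ hξ using hξ.2),
    ← ENNReal.ofReal_mul (by linarith)]
  refine ENNReal.ofReal_le_ofReal ?_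
  have hN1 : 1 ≤ N := by omega
  have hN0 : (0 : ℝ) < N := by exact_mod_cast (by omega : 0 < N)
  have hN3 : (3 : ℝ) ≤ N := by exact_mod_cast hN
  have m2 := noise_sq hh hN1 hν e
  have m3 := noise_sq hh hN1 hν f
  have hint : ∫ ξ, G ξ ∂ν = sA q * (1 - 100 / 121 * (h * ((∫ ξ, ‖ξ‖ ^ 2 ∂ν) - (∫ ξ, (inner ℝ e ξ) ^ 2 ∂ν) -
      (∫ ξ, (inner ℝ f ξ) ^ 2 ∂ν)))) := by
    have iB : Integrable (fun ξ : E N => ‖ξ‖ ^ 2 - (inner ℝ e ξ) ^ 2 - (inner ℝ f ξ) ^ 2) ν := (i1.sub i2).sub i3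
    simp only [hG]
    rw [integral_const_mul, integral_sub (integrable_const _) ((iB.const_mul h).const_mul _),
      integral_const_mul, integral_const_mul]
    have : ∫ ξ, (‖ξ‖ ^ 2 - (inner ℝ e ξ) ^ 2 - (inner ℝ f ξ) ^ 2) ∂ν =
        (∫ ξ, ‖ξ‖ ^ 2 ∂ν) - (∫ ξ, (inner ℝ e ξ) ^ 2 ∂ν) - (∫ ξ, (inner ℝ f ξ) ^ 2 ∂ν) := by
      have i12 : Integrable (fun ξ : E N => ‖ξ‖ ^ 2 - (inner ℝ e ξ) ^ 2) ν := i1.sub i2
      rw [integral_sub i12 i3, integral_sub i1 i2]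
    rw [this]
    simp
  rw [hint, m2, m3, he, hf, mul_comm (1 - h / 2)]
  refine mul_le_mul_of_nonneg_left ?_ hc0
  set M := ∫ ξ, ‖ξ‖ ^ 2 ∂ν with hM
  have hM1 : (N : ℝ) * (1 - h) ≤ M := hν.le_mom
  have hMN : 1 - h ≤ M / N := by
    rw [le_div_iff₀ hN0]; linarith
  have hkey : 1 - h ≤ M - 1 ^ 2 * (M / N) - 1 ^ 2 * (M / N) := by
    have e1 : M = N * (M / N) := by field_simp
    have e2 : M - 1 ^ 2 * (M / N) - 1 ^ 2 * (M / N) = (N - 2) * (M / N) := by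
      rw [one_pow, one_mul]
      linear_combination e1
    rw [e2]
    have : (1 : ℝ) - h ≤ 1 * (M / N) := by linarith
    refine this.trans ?_
    refine mul_le_mul_of_nonneg_right (by linarith) ?_
    linarith
  have : h * (1 - h) ≤ h * (M - 1 ^ 2 * (M / N) - 1 ^ 2 * (M / N)) := mul_le_mul_of_nonneg_left hkey hh.le
  nlinarith

end

end DynS
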