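import Pool.Agent.Lib_MP_36b788s.DLA

/-!
# DL, part B: the potential `dL·(1+B‖q.1‖^{-1/2})` contracts for `N ≥ 3`

PROOF. `u = ‖q.1‖`, `c1 = β/(2+β)`, `c2 = e^{-βD0}4^{-β}`, `u⁺ = ‖(hat2).1‖`. `zeta_pow N (-1/2)`: `E ζ^{-1/2} ≤ 1-(1/4)(N-5/2)h+Ch^{9/8} ≤ 1-h/9` for `h < h0`
(`N ≥ 3`, `Ch^{1/8} ≤ 1/72`). `u⁺(1+h(u⁺)^β) = uζ`, `u⁺ ≤ uζ ≤ 2u`: `(u⁺)^{-1/2} = (uζ)^{-1/2}(1+h(u⁺)^β)^{1/2} ≤ u^{-1/2}ζ^{-1/2}(1+2^{β-1}hu^β)`, so
`E(u⁺)^{-1/2} ≤ u^{-1/2}(1-h/9)(1+2^{β-1}hu^β)`. `dl_det`: `dL⁺ ≤ (1-c1c2hu^β)dL` (a.e.).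
Constants: `r > 0` with `r^β = 2^{-β}/36` (`r = (2^{-β}/36)^{1/β}`), `b0 = c1c2/2^β`, `B = b0 r^{1/2}`.
Case `u ≤ r`: `2^{β-1}hu^β ≤ h/72`, `(1-h/9)(1+h/72) ≤ 1-h/12`, `E V⁺ ≤ dL(1+Bu^{-1/2}(1-h/12)) = V - (h/12)dL Bu^{-1/2} ≤ (1-(h/12)b0/(1+b0))V` because
`Bu^{-1/2} ≥ Br^{-1/2} = b0`.
Case `u > r`: `Bu^{-1/2} ≤ b0`, so `Bu^{-1/2}2^{β-1}hu^β ≤ (c1c2/2)hu^β` and `E V⁺ ≤ dL[(1-c1c2hu^β)(1+Bu^{-1/2})+(c1c2/2)hu^β] ≤ (1-(c1c2/2)hu^β)V ≤ (1-(c1c2/2)r^βh)V`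
(`(1-c1c2hu^β)(1+b(1+y)) ≤ (1-c1c2hu^β)(1+b)+by`, `1-c1c2hu^β ∈ [0,1]`).
`c = min((1/12)b0/(1+b0), (c1c2/2)r^β)`. For `D0 < 0` the set is empty. `h0 ≤ 1/1000` and `c h0 ≤ 1`.
-/

open MeasureTheory ProbabilityTheory Dyn
open scoped ENNReal

namespace DynS

private theorem DLB_case1 {α b y h c b0 : ℝ} (hα0 : 0 ≤ α) (hb : b0 ≤ b)
    (hb0 : 0 < b0) (hy : 0 ≤ y) (hy1 : y ≤ h / 72) (hh : 0 ≤ h) (hh1 : h ≤ 1)
    (hc : c ≤ 1 / 12 * (b0 / (1 + b0))) :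
    (1 - α) * (1 + b * (1 + y) * (1 - h / 9)) ≤ (1 - c * h) * (1 + b) := by
  have hbp : 0 < b := lt_of_lt_of_le hb0 hb
  have h1 : (1 + y) * (1 - h / 9) ≤ 1 - h / 12 := by nlinarith
  have h2 : 0 ≤ (1 + y) * (1 - h / 9) := mul_nonneg (by linarith) (by linarith)
  have h4 : b0 / (1 + b0) * (1 + b) ≤ b := by
    rw [div_mul_eq_mul_div, div_le_iff₀ (by positivity)]
    nlinarith
  have h3 : c * (1 + b) ≤ b / 12 := by
    have h5 : c * (1 + b) ≤ 1 / 12 * (b0 / (1 + b0)) * (1 + b) :=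
      mul_le_mul_of_nonneg_right hc (by linarith)
    nlinarith
  have h6 : b * ((1 + y) * (1 - h / 9)) ≤ b * (1 - h / 12) :=
    mul_le_mul_of_nonneg_left h1 hbp.le
  have h7 : 0 ≤ b * ((1 + y) * (1 - h / 9)) := mul_nonneg hbp.le h2
  have h8 : (1 - α) * (1 + b * ((1 + y) * (1 - h / 9))) ≤
      1 * (1 + b * ((1 + y) * (1 - h / 9))) :=
    mul_le_mul_of_nonneg_right (by linarith) (by linarith)
  have h9 : h * (c * (1 + b)) ≤ h * (b / 12) := mul_le_mul_of_nonneg_left h3 hh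
  calc (1 - α) * (1 + b * (1 + y) * (1 - h / 9))
      = (1 - α) * (1 + b * ((1 + y) * (1 - h / 9))) := by ring
    _ ≤ 1 * (1 + b * ((1 + y) * (1 - h / 9))) := h8
    _ ≤ (1 - c * h) * (1 + b) := by nlinarith

private theorem DLB_case2 {α b y h c : ℝ} (hα0 : 0 ≤ α) (hα1 : α ≤ 1) (hb : 0 ≤ b)
    (hy : 0 ≤ y) (hby : b * y ≤ α / 2) (hh : 0 ≤ h) (hc : c * h ≤ α / 2) :
    (1 - α) * (1 + b * (1 + y) * (1 - h / 9)) ≤ (1 - c * h) * (1 + b) := by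
  have h2 : b * (1 + y) * (1 - h / 9) ≤ b * (1 + y) * 1 :=
    mul_le_mul_of_nonneg_left (by linarith) (mul_nonneg hb (by linarith))
  have h3 : (1 - α) * (1 + b * (1 + y) * (1 - h / 9)) ≤ (1 - α) * (1 + b * (1 + y) * 1) :=
    mul_le_mul_of_nonneg_left (by linarith) (by linarith)
  have h4 : (1 - α) * (b * y) ≤ 1 * (b * y) :=
    mul_le_mul_of_nonneg_right (by linarith) (mul_nonneg hb hy)
  have h5 : c * h * (1 + b) ≤ α / 2 * (1 + b) := mul_le_mul_of_nonneg_right hc (by linarith)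
  nlinarith [mul_nonneg hα0 hb]

private theorem DLB_pow {u Z p x : ℝ} (hu : 0 < u) (hZ : 0 < Z) (hp : 0 < p) (hx : 0 ≤ x)
    (he : p * (1 + x) = u * Z) :
    p ^ (-(1 / 2) : ℝ) ≤ u ^ (-(1 / 2) : ℝ) * Z ^ (-(1 / 2) : ℝ) * (1 + x / 2) := by
  have h1 : (p * (1 + x)) ^ (-(1 / 2) : ℝ) = p ^ (-(1 / 2) : ℝ) * (1 + x) ^ (-(1 / 2) : ℝ) :=
    Real.mul_rpow hp.le (by linarith)
  have h2 : (u * Z) ^ (-(1 / 2) : ℝ) = u ^ (-(1 / 2) : ℝ) * Z ^ (-(1 / 2) : ℝ) :=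
    Real.mul_rpow hu.le hZ.le
  have h3 : (1 + x) ^ (-(1 / 2) : ℝ) * (1 + x) ^ ((1 / 2) : ℝ) = 1 := by
    rw [← Real.rpow_add (by linarith)]
    norm_num
  have h4 : (1 + x) ^ ((1 / 2) : ℝ) ≤ 1 + 1 / 2 * x :=
    _root_.rpow_one_add_le_one_add_mul_self (by linarith) (by norm_num) (by norm_num)
  have h5 : p ^ (-(1 / 2) : ℝ) =
      u ^ (-(1 / 2) : ℝ) * Z ^ (-(1 / 2) : ℝ) * (1 + x) ^ ((1 / 2) : ℝ) := by
    rw [← h2, ← he, h1, mul_assoc, h3, mul_one]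
  rw [h5]
  refine mul_le_mul_of_nonneg_left (by linarith) ?_
  rw [← h2]
  exact Real.rpow_nonneg (mul_pos hu hZ).le _

private theorem DLB_neg {N : ℕ} {β D0 h : ℝ} (hD : D0 < 0) (q : E N × E N)
    (hq : q ∈ dlA N β h D0) : False := by
  have h1 : dL q ≤ D0 := hq.2.2.2.2
  have h2 : 0 ≤ dL q := abs_nonneg _
  linarith

/-- pointwise bound of the potential after one step -/
private theorem DLB_pt {N : ℕ} {β D0 h B : ℝ} (hβ : 0 < β) (hB : 0 ≤ B) (hh : 0 < h)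
    {q : E N × E N} (hq : q ∈ dlA N β h D0) {ξ : E N}
    (hζ : 9 / 10 ≤ ‖uni q.1 + Real.sqrt h • ξ‖)
    (hζ1 : ‖uni q.1 + Real.sqrt h • ξ‖ ≤ 11 / 10) :
    dL (hat2 β h q ξ) * (1 + B * ‖(hat2 β h q ξ).1‖ ^ (-(1 / 2) : ℝ)) ≤
      ((1 - β / (2 + β) * (Real.exp (-(β * D0)) * (4 : ℝ) ^ (-β)) * (h * ‖q.1‖ ^ β)) * dL q) *
      (1 + B * ‖q.1‖ ^ (-(1 / 2) : ℝ) * (1 + (2 : ℝ) ^ β / 2 * (h * ‖q.1‖ ^ β)) *
        ‖uni q.1 + Real.sqrt h • ξ‖ ^ (-(1 / 2) : ℝ)) := by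
  have hu : 0 < ‖q.1‖ := norm_pos_iff.2 hq.1
  have hZ : 0 < ‖uni q.1 + Real.sqrt h • ξ‖ := by linarith
  have h1 := dl_det hβ hh hq hζ hζ1
  have h2 := hat_step hβ hh.le hq.1 hZ
  have h3 := hat_half hβ hh hq.1 hZ hζ1 hq.2.2.1
  have hpe : (hat2 β h q ξ).1 = hat β h q.1 ξ := rfl
  rw [hpe]
  have hp : 0 < ‖hat β h q.1 ξ‖ := norm_pos_iff.2 h2.1
  have hx : 0 ≤ h * ‖hat β h q.1 ξ‖ ^ β := mul_nonneg hh.le (Real.rpow_nonneg hp.le _)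
  have h4 := DLB_pow hu hZ hp hx h2.2
  have h5 : ‖hat β h q.1 ξ‖ ≤ 2 * ‖q.1‖ := by nlinarith [h3.2]
  have h6 : ‖hat β h q.1 ξ‖ ^ β ≤ (2 : ℝ) ^ β * ‖q.1‖ ^ β := by
    rw [← Real.mul_rpow (by norm_num) hu.le]
    exact Real.rpow_le_rpow hp.le h5 hβ.le
  have h7 : h * ‖hat β h q.1 ξ‖ ^ β / 2 ≤ (2 : ℝ) ^ β / 2 * (h * ‖q.1‖ ^ β) := by
    nlinarith [mul_le_mul_of_nonneg_left h6 hh.le]
  have hU : 0 < ‖q.1‖ ^ (-(1 / 2) : ℝ) := Real.rpow_pos_of_pos hu _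
  have hZZ : 0 < ‖uni q.1 + Real.sqrt h • ξ‖ ^ (-(1 / 2) : ℝ) := Real.rpow_pos_of_pos hZ _
  have h8 : ‖hat β h q.1 ξ‖ ^ (-(1 / 2) : ℝ) ≤ ‖q.1‖ ^ (-(1 / 2) : ℝ) *
      ‖uni q.1 + Real.sqrt h • ξ‖ ^ (-(1 / 2) : ℝ) *
      (1 + (2 : ℝ) ^ β / 2 * (h * ‖q.1‖ ^ β)) :=
    h4.trans (mul_le_mul_of_nonneg_left (by linarith) (mul_pos hU hZZ).le)
  have h9 : 1 + B * ‖hat β h q.1 ξ‖ ^ (-(1 / 2) : ℝ) ≤
      1 + B * ‖q.1‖ ^ (-(1 / 2) : ℝ) * (1 + (2 : ℝ) ^ β / 2 * (h * ‖q.1‖ ^ β)) *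
        ‖uni q.1 + Real.sqrt h • ξ‖ ^ (-(1 / 2) : ℝ) := by
    have := mul_le_mul_of_nonneg_left h8 hB
    nlinarith
  have h10 : 0 ≤ dL (hat2 β h q ξ) := abs_nonneg _
  have h11 : 0 ≤ 1 + B * ‖hat β h q.1 ξ‖ ^ (-(1 / 2) : ℝ) := by
    have := mul_nonneg hB (Real.rpow_nonneg hp.le (-(1 / 2) : ℝ))
    linarith
  exact mul_le_mul h1 h9 h11 (h10.trans h1)

theorem dl_drift {N : ℕ} (hN : 3 ≤ N) {β : ℝ} (hβ : 0 < β) (D0 : ℝ) : ∃ c B h0 : ℝ, 0 < c ∧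
    0 < B ∧ 0 < h0 ∧ h0 ≤ 1 / 1000 ∧ c * h0 ≤ 1 ∧
    ∀ (h : ℝ) (ν : Measure (E N)), 0 < h → h < h0 → IsNoise h ν → ∀ q ∈ dlA N β h D0,
      ∫⁻ ξ, ENNReal.ofReal (dL (hat2 β h q ξ) *
          (1 + B * ‖(hat2 β h q ξ).1‖ ^ (-(1 / 2) : ℝ))) ∂ν ≤
        ENNReal.ofReal (1 - c * h) *
          ENNReal.ofReal (dL q * (1 + B * ‖q.1‖ ^ (-(1 / 2) : ℝ))) := by
  rcases lt_or_ge D0 0 with hD | hD
  · exact ⟨1 / 12, 1, 1 / 1000, by norm_num, by norm_num, by norm_num, le_rfl, by norm_num,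
      fun h ν _ _ _ q hq => (DLB_neg hD q hq).elim⟩
  obtain ⟨C, h1, hC, hh1, hz⟩ := zeta_pow N (by omega) (-(1 / 2) : ℝ)
  -- constants
  set cc : ℝ := β / (2 + β) * (Real.exp (-(β * D0)) * (4 : ℝ) ^ (-β)) with hcc
  have h2b : 0 < (2 : ℝ) ^ β := Real.rpow_pos_of_pos (by norm_num) _
  have hcc0 : 0 < cc := by
    have : 0 < (4 : ℝ) ^ (-β) := Real.rpow_pos_of_pos (by norm_num) _
    rw [hcc]
    positivity
  have hcc1 : cc ≤ 1 := by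
    have e1 : β / (2 + β) ≤ 1 := by
      rw [div_le_one (by linarith)]
      linarith
    have e2 : Real.exp (-(β * D0)) ≤ 1 := Real.exp_le_one_iff.2 (by nlinarith)
    have e3 : (4 : ℝ) ^ (-β) ≤ 1 :=
      Real.rpow_le_one_of_one_le_of_nonpos (by norm_num) (by linarith)
    have e4 : 0 < (4 : ℝ) ^ (-β) := Real.rpow_pos_of_pos (by norm_num) _
    have e5 : Real.exp (-(β * D0)) * (4 : ℝ) ^ (-β) ≤ 1 * 1 :=
      mul_le_mul e2 e3 e4.le (by norm_num)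
    have e6 : cc ≤ 1 * 1 := by
      rw [hcc]
      exact mul_le_mul e1 (by linarith) (by positivity) (by norm_num)
    linarith
  set rb : ℝ := ((2 : ℝ) ^ β)⁻¹ / 36 with hrb
  have hrb0 : 0 < rb := by
    rw [hrb]
    positivity
  set r : ℝ := rb ^ (1 / β) with hr
  have hr0 : 0 < r := Real.rpow_pos_of_pos hrb0 _
  have hrβ : r ^ β = rb := by
    rw [hr, ← Real.rpow_mul hrb0.le, one_div, inv_mul_cancel₀ hβ.ne', Real.rpow_one]
  set b0 : ℝ := cc / (2 : ℝ) ^ β with hb0d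
  have hb0 : 0 < b0 := div_pos hcc0 h2b
  set B : ℝ := b0 * r ^ (1 / 2 : ℝ) with hBd
  have hB : 0 < B := mul_pos hb0 (Real.rpow_pos_of_pos hr0 _)
  have hBr : B * r ^ (-(1 / 2) : ℝ) = b0 := by
    rw [hBd, mul_assoc, ← Real.rpow_add hr0]
    norm_num
  set c : ℝ := min (1 / 12 * (b0 / (1 + b0))) (cc / 2 * rb) with hcd
  have hc0 : 0 < c := lt_min (by positivity) (by positivity)
  have hc1 : c ≤ 1 / 12 * (b0 / (1 + b0)) := min_le_left _ _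
  have hc2 : c ≤ cc / 2 * rb := min_le_right _ _
  have hc12 : c ≤ 1 / 12 := by
    have : b0 / (1 + b0) ≤ 1 := by
      rw [div_le_one (by linarith)]
      linarith
    linarith
  set h2 : ℝ := (1 / (72 * C)) ^ (8 : ℝ) with hh2d
  have hh2 : 0 < h2 := Real.rpow_pos_of_pos (by positivity) _
  refine ⟨c, B, min (1 / 1000) (min h1 h2), hc0, hB, lt_min (by norm_num) (lt_min hh1 hh2),
    min_le_left _ _, ?_, ?_⟩
  · have : min (1 / 1000) (min h1 h2) ≤ 1 / 1000 := min_le_left _ _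
    have h0 : 0 < min (1 / 1000 : ℝ) (min h1 h2) := lt_min (by norm_num) (lt_min hh1 hh2)
    nlinarith
  intro h ν hh hhlt hν q hq
  have hlt1 : h < 1 / 1000 := hhlt.trans_le (min_le_left _ _)
  have hlt2 : h < h1 := hhlt.trans_le ((min_le_right _ _).trans (min_le_left _ _))
  have hlt3 : h < h2 := hhlt.trans_le ((min_le_right _ _).trans (min_le_right _ _))
  have hu : 0 < ‖q.1‖ := norm_pos_iff.2 hq.1
  have hun : ‖uni q.1‖ = 1 := uni_norm hq.1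
  have := hν.prob
  -- moment bound
  set Em : ℝ := ∫ ξ, ‖uni q.1 + Real.sqrt h • ξ‖ ^ (-(1 / 2) : ℝ) ∂ν with hEm
  have hEm1 : Em ≤ 1 - h / 9 := by
    have e1 := hz h ν hh hlt2 hν (uni q.1) hun
    have e2 : C * h ^ (9 / 8 : ℝ) ≤ h / 72 := by
      have e3 : h ^ (9 / 8 : ℝ) = h * h ^ (1 / 8 : ℝ) := by
        rw [show (9 / 8 : ℝ) = 1 + 1 / 8 by norm_num, Real.rpow_add hh, Real.rpow_one]
      have e4 : h ^ (1 / 8 : ℝ) ≤ 1 / (72 * C) := by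
        have e5 : h ^ (1 / 8 : ℝ) ≤ h2 ^ (1 / 8 : ℝ) :=
          Real.rpow_le_rpow hh.le hlt3.le (by norm_num)
        have e6 : h2 ^ (1 / 8 : ℝ) = 1 / (72 * C) := by
          rw [hh2d, ← Real.rpow_mul (by positivity)]
          norm_num
        rw [← e6]
        exact e5
      rw [e3]
      have e7 : C * h ^ (1 / 8 : ℝ) ≤ 1 / 72 := by
        have e8 := mul_le_mul_of_nonneg_left e4 hC.le
        have e9 : C * (1 / (72 * C)) = 1 / 72 := by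
          field_simp
        linarith
      have e10 := mul_le_mul_of_nonneg_left e7 hh.le
      linarith
    have e11 := (abs_le.1 e1).2
    have e12 : (3 : ℝ) ≤ N := by exact_mod_cast hN
    have e13 : (-(1 / 2) : ℝ) / 2 * (N + -(1 / 2) - 2) * h ≤ -(1 / 8) * h := by
      refine mul_le_mul_of_nonneg_right ?_ hh.le
      linarith
    linarith
  -- notation
  set s : ℝ := h * ‖q.1‖ ^ β with hs
  have hs0 : 0 ≤ s := mul_nonneg hh.le (Real.rpow_nonneg hu.le _)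
  have hs1 : s ≤ 1 := hq.2.2.1
  set b : ℝ := B * ‖q.1‖ ^ (-(1 / 2) : ℝ) with hb
  have hbp : 0 < b := mul_pos hB (Real.rpow_pos_of_pos hu _)
  set y : ℝ := (2 : ℝ) ^ β / 2 * s with hy
  have hy0 : 0 ≤ y := by positivity
  have hα0 : 0 ≤ cc * s := mul_nonneg hcc0.le hs0
  have hα1 : cc * s ≤ 1 := by nlinarith
  -- core inequality
  have hcore : (1 - cc * s) * (1 + b * (1 + y) * (1 - h / 9)) ≤ (1 - c * h) * (1 + b) := by
    rcases le_or_gt ‖q.1‖ r with hur | hur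
    · have e1 : ‖q.1‖ ^ β ≤ rb := by
        rw [← hrβ]
        exact Real.rpow_le_rpow hu.le hur hβ.le
      have e2 : y ≤ h / 72 := by
        have e3 : s ≤ h * rb := mul_le_mul_of_nonneg_left e1 hh.le
        have e4 : y ≤ (2 : ℝ) ^ β / 2 * (h * rb) :=
          mul_le_mul_of_nonneg_left e3 (by positivity)
        have e5 : (2 : ℝ) ^ β / 2 * (h * rb) = h / 72 := by
          rw [hrb]
          field_simp
          norm_num
        linarith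
      have e6 : b0 ≤ b := by
        rw [← hBr, hb]
        exact mul_le_mul_of_nonneg_left
          (Real.rpow_le_rpow_of_nonpos hu hur (by norm_num)) hB.le
      exact DLB_case1 hα0 e6 hb0 hy0 e2 hh.le (by linarith) hc1
    · have e1 : rb ≤ ‖q.1‖ ^ β := by
        rw [← hrβ]
        exact Real.rpow_le_rpow hr0.le hur.le hβ.le
      have e2 : b ≤ b0 := by
        rw [← hBr, hb]
        exact mul_le_mul_of_nonneg_left
          (Real.rpow_le_rpow_of_nonpos hr0 hur.le (by norm_num)) hB.le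
      have e3 : b * y ≤ cc * s / 2 := by
        have e4 : b * y ≤ b0 * y := mul_le_mul_of_nonneg_right e2 hy0
        have e5 : b0 * y = cc * s / 2 := by
          rw [hb0d, hy]
          field_simp
        linarith
      have e6 : c * h ≤ cc * s / 2 := by
        have e7 : h * rb ≤ s := mul_le_mul_of_nonneg_left e1 hh.le
        have e8 := mul_le_mul_of_nonneg_right hc2 hh.le
        have e9 := mul_le_mul_of_nonneg_left e7 (half_pos hcc0).le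
        nlinarith
      exact DLB_case2 hα0 hα1 hbp.le hy0 e3 hh.le e6
  -- integrate
  have hdL0 : 0 ≤ dL q := abs_nonneg _
  have hint := zeta_pow_int hh hlt1 hν (-(1 / 2) : ℝ) hun
  have hint2 : Integrable (fun ξ => ((1 - cc * s) * dL q) *
      (1 + b * (1 + y) * ‖uni q.1 + Real.sqrt h • ξ‖ ^ (-(1 / 2) : ℝ))) ν :=
    ((integrable_const (1 : ℝ)).add (hint.const_mul (b * (1 + y)))).const_mul _
  have hval : ∫ ξ, ((1 - cc * s) * dL q) *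
      (1 + b * (1 + y) * ‖uni q.1 + Real.sqrt h • ξ‖ ^ (-(1 / 2) : ℝ)) ∂ν =
      ((1 - cc * s) * dL q) * (1 + b * (1 + y) * Em) := by
    rw [integral_const_mul, integral_add (integrable_const _) (hint.const_mul _),
      integral_const_mul, integral_const]
    simp [hEm]
  have hpt : ∀ᵐ ξ ∂ν, ENNReal.ofReal (dL (hat2 β h q ξ) *
      (1 + B * ‖(hat2 β h q ξ).1‖ ^ (-(1 / 2) : ℝ))) ≤
      ENNReal.ofReal (((1 - cc * s) * dL q) *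
      (1 + b * (1 + y) * ‖uni q.1 + Real.sqrt h • ξ‖ ^ (-(1 / 2) : ℝ))) := by
    filter_upwards [noise_ae hh hlt1 hν] with ξ hξ
    obtain ⟨z1, z2⟩ := hξ.2 (uni q.1) hun
    exact ENNReal.ofReal_le_ofReal (DLB_pt hβ hB.le hh hq z1 z2)
  have hnn : 0 ≤ᵐ[ν] fun ξ => ((1 - cc * s) * dL q) *
      (1 + b * (1 + y) * ‖uni q.1 + Real.sqrt h • ξ‖ ^ (-(1 / 2) : ℝ)) := by
    refine Filter.Eventually.of_forall fun ξ => ?_
    have e1 : 0 ≤ ‖uni q.1 + Real.sqrt h • ξ‖ ^ (-(1 / 2) : ℝ) :=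
      Real.rpow_nonneg (norm_nonneg _) _
    have e2 : 0 ≤ b * (1 + y) := mul_nonneg hbp.le (by linarith)
    have e3 : 0 ≤ 1 - cc * s := by linarith
    exact mul_nonneg (mul_nonneg e3 hdL0) (by nlinarith [mul_nonneg e2 e1])
  calc ∫⁻ ξ, ENNReal.ofReal (dL (hat2 β h q ξ) *
          (1 + B * ‖(hat2 β h q ξ).1‖ ^ (-(1 / 2) : ℝ))) ∂ν
      ≤ ∫⁻ ξ, ENNReal.ofReal (((1 - cc * s) * dL q) *
      (1 + b * (1 + y) * ‖uni q.1 + Real.sqrt h • ξ‖ ^ (-(1 / 2) : ℝ))) ∂ν :=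
        lintegral_mono_ae hpt
    _ = ENNReal.ofReal (((1 - cc * s) * dL q) * (1 + b * (1 + y) * Em)) := by
        rw [← ofReal_integral_eq_lintegral_ofReal hint2 hnn, hval]
    _ ≤ ENNReal.ofReal ((1 - c * h) * (dL q * (1 + b))) := by
        refine ENNReal.ofReal_le_ofReal ?_
        have e2 : 0 ≤ b * (1 + y) := mul_nonneg hbp.le (by linarith)
        have e3 : 0 ≤ 1 - cc * s := by linarith
        have e4 : 1 + b * (1 + y) * Em ≤ 1 + b * (1 + y) * (1 - h / 9) := by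
          have := mul_le_mul_of_nonneg_left hEm1 e2
          linarith
        have e5 : (1 - cc * s) * (1 + b * (1 + y) * Em) ≤ (1 - c * h) * (1 + b) :=
          (mul_le_mul_of_nonneg_left e4 e3).trans hcore
        have e6 := mul_le_mul_of_nonneg_left e5 hdL0
        calc (1 - cc * s) * dL q * (1 + b * (1 + y) * Em)
            = dL q * ((1 - cc * s) * (1 + b * (1 + y) * Em)) := by ring
          _ ≤ dL q * ((1 - c * h) * (1 + b)) := e6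
          _ = (1 - c * h) * (dL q * (1 + b)) := by ring
    _ = ENNReal.ofReal (1 - c * h) * ENNReal.ofReal (dL q * (1 + b)) := by
        refine ENNReal.ofReal_mul ?_
        nlinarith

end DynS
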