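import Pool.Agent.Lib_MP_36b788.Trunc
import Pool.Agent.Lib_MP_36b788.BoxNet
import Pool.Agent.Lib_MP_36b788.LogZ

/-!
# Chapter S (small cases of the cell dynamo): definitions

* `ev f μ φ n x`: expectation of `φ` after `n` steps of the chain `x ↦ f x ξ`, started at `x` (lower integrals, `φ ≥ 0`).
* `law f μ m0 n`: law after `n` steps; `chainLaw` is the special case `f = stp`.
* `rotQ e e'`: isometry which takes the unit vector `e` to the unit vector `e'` (product of two reflections: the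
  rotation in the plane of `e, e'`; for `e' = -e` the reflection `v ↦ v - 2⟪e,v⟫e`).
* `stp2`, `hat2`: rotated pair step on a net and on one site.
* `CMix`: the statement `ChainMix` for a family of noises (`ChainMix N d β k` is `CMix N d β k (fun _ => stdGaussian _)`
  by `Iff.rfl`).
-/

open MeasureTheory ProbabilityTheory Dyn
open scoped ENNReal

namespace DynS

noncomputable section

section

variable {X Ξ : Type} [MeasurableSpace X] [MeasurableSpace Ξ]

/-- expectation of `φ` after `n` steps of the chain `x ↦ f x ξ` -/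
def ev (f : X → Ξ → X) (μ : Measure Ξ) (φ : X → ℝ≥0∞) : ℕ → X → ℝ≥0∞
  | 0, x => φ x
  | n + 1, x => ∫⁻ ξ, ev f μ φ n (f x ξ) ∂μ

/-- law after `n` steps, initial law `m0` -/
def law (f : X → Ξ → X) (μ : Measure Ξ) (m0 : Measure X) : ℕ → Measure X
  | 0 => m0
  | n + 1 => ((law f μ m0 n).prod μ).map (fun q => f q.1 q.2)

end

variable {N d : ℕ} {ι : Type} [Fintype ι]

/-- reflection in the hyperplane orthogonal to `a` (identity for `a = 0`) -/
def rfl1 (a : E N) : E N ≃ₗᵢ[ℝ] E N := Submodule.reflection (ℝ ∙ a)ᗮ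

/-- isometry which takes the unit vector `e` to the unit vector `e'` -/
def rotQ (e e' : E N) : E N ≃ₗᵢ[ℝ] E N := (rfl1 e).trans (rfl1 (e + e'))

/-- rotated noise on a net -/
def rotN (G G' ξ : ι → E N) : ι → E N := fun x => rotQ (uni (G x)) (uni (G' x)) (ξ x)

/-- rotated pair step on a net -/
def stp2 (net : Net ι d) (β h k : ℝ) (p : (ι → E N) × (ι → E N)) (ξ : ι → E N) :
    (ι → E N) × (ι → E N) :=
  (stp net β h k p.1 ξ, stp net β h k p.2 (rotN p.1 p.2 ξ))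

/-- rotated pair step on one site -/
def hat2 (β h : ℝ) (q : E N × E N) (ξ : E N) : E N × E N :=
  (hat β h q.1 ξ, hat β h q.2 (rotQ (uni q.1) (uni q.2) ξ))

/-- the statement `ChainMix` for the noises `νf h` -/
def CMix (N d : ℕ) (β k : ℝ) (νf : ℝ → Measure (E N)) : Prop :=
    ∀ (ρ1 ρ2 : Measure (E N)) [IsProbabilityMeasure ρ1] [IsProbabilityMeasure ρ2],
      ρ1 {0} = 0 → ρ2 {0} = 0 → Integrable (fun x : E N => ‖x‖ ^ 2) ρ1 →
      Integrable (fun x : E N => ‖x‖ ^ 2) ρ2 →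
    ∀ (R J : ℕ) (CF δ : ℝ), 0 ≤ CF → 0 < δ →
    ∃ (T0 : ℝ) (L0 : ℕ), 0 ≤ T0 ∧ R ≤ L0 ∧ (k = 0 → L0 = R) ∧
    ∀ L : ℕ, (k = 0 → L = R) → L0 ≤ L →
    ∀ Sm : ℝ, 0 ≤ Sm → ∃ h0 : ℝ, 0 < h0 ∧ ∀ h, 0 < h → h < h0 →
    ∀ n1 n2 M : ℕ, n1 * h ≤ Sm → n2 * h ≤ Sm → M * h ≤ Sm →
    ∀ (F : ℕ → (boxS d L → E N) → ℂ) (I : Finset ℕ), I.card ≤ J →
      (∀ i, Measurable (F i)) → (∀ i G, ‖F i G‖ ≤ 1) → (∀ i, i ∉ I → F i = fun _ => 1) →
      (∀ i ∈ I, T0 ≤ i * h ∧ ∀ G G' : boxS d L → E N, ‖F i G - F i G'‖ ≤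
        CF * ∑ x : boxS d L, (if l1 (x : Fin d → ℤ) 0 ≤ R then min 1 ‖G x - G' x‖ else 0)) →
      ∫ G, ∫ G', ‖pathE (boxNet d L) β h k (νf h) ((List.range M).map F) G
          - pathE (boxNet d L) β h k (νf h) ((List.range M).map F) G'‖
        ∂(chainLaw (boxNet d L) β h k (νf h) (Measure.pi (fun _ => ρ2)) n2)
        ∂(chainLaw (boxNet d L) β h k (νf h) (Measure.pi (fun _ => ρ1)) n1) ≤ δ

end

end DynS
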