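import Pool.Agent.Lib_MP_36b788s.Defs

/-!
# Abstract Markov chains `x ↦ f x ξ`, `ξ ~ μ` i.i.d.

PROOF. Everything by induction on `n` (for all `x`), `f` jointly measurable, `μ` a probability measure.
* `ev_meas`: `Measurable.lintegral_prod_right'` (composition with `q ↦ f q.1 q.2`).
* `ev_mono`, `ev_add`, `ev_cmul`, `ev_const`, `ev_time`: `ev (n+1) x = ∫⁻ ev n (f x ξ)`.
* `ev_mono_on`: if `A` is invariant for a.e. `ξ` and `φ ≤ ψ` on `A` then `ev φ n ≤ ev ψ n` on `A`.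
* `ev_drift`: claim `ev φ n x ≤ ρ^n φ x` if `∫⁻ φ(f x ξ) ≤ ρ φ x` on the invariant set `A`:
  `ev φ (n+1) x = ∫⁻ ev φ n (f x ξ) ≤ ρ^n ∫⁻ φ(f x ξ) ≤ ρ^{n+1} φ x`.
* `ev_drift_add`: `∫⁻ φ(f x ξ) ≤ (1-a) φ x + aK` (`0 ≤ a ≤ 1`) gives `ev φ n x ≤ (1-a)^n φ x + (1-(1-a)^n) K ≤ φ x + K`:
  `(1-a)^n((1-a)φ+aK) + (1-(1-a)^n)K = (1-a)^{n+1}φ + (1-(1-a)^{n+1})K`.
* `ev_pair_fst`: if `g : Y → X` intertwines the chains in law (`∫⁻ φ(g (F y ξ)) = ∫⁻ φ(f (g y) ξ)` for all measurable `φ`)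
  then `ev F μ' (φ ∘ g) n y = ev f μ φ n (g y)`.
* `law_prob`, `law_ev`: `∫⁻ φ d law n = ∫⁻ ev φ n dm0`: induction on `n` for all `φ`:
  `∫⁻ φ d law (n+1) = ∫⁻∫⁻ φ(f x ξ) dμ d law n = ∫⁻ ev (ev φ 1) n dm0 = ∫⁻ ev φ (n+1) dm0` (`lintegral_map`, Tonelli, `ev_time`).
* `law_time`: `∫⁻ ev φ i d law n = ∫⁻ φ d law (n+i)`.
-/

open MeasureTheory ProbabilityTheory Dyn
open scoped ENNReal

namespace DynS

variable {X Ξ : Type} [MeasurableSpace X] [MeasurableSpace Ξ] {f : X → Ξ → X} {μ : Measure Ξ}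
  [IsProbabilityMeasure μ]

theorem ev_meas (hf : Measurable (fun q : X × Ξ => f q.1 q.2)) {φ : X → ℝ≥0∞} (hφ : Measurable φ)
    (n : ℕ) : Measurable (ev f μ φ n) := by
  induction n with
  | zero => exact hφ
  | succ n ih =>
    have h1 : Measurable (fun q : X × Ξ => ev f μ φ n (f q.1 q.2)) := ih.comp hf
    exact h1.lintegral_prod_right'

private theorem Mk_meas_sec {X Ξ Y : Type} [MeasurableSpace X] [MeasurableSpace Ξ]
    [MeasurableSpace Y] {f : X → Ξ → X} (hf : Measurable (fun q : X × Ξ => f q.1 q.2)) {φ : X → Y}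
    (hφ : Measurable φ) (x : X) : Measurable (fun ξ => φ (f x ξ)) :=
  hφ.comp (hf.comp (measurable_const.prodMk measurable_id))

theorem ev_mono_on (A : Set X) (hA : ∀ x ∈ A, ∀ᵐ ξ ∂μ, f x ξ ∈ A) {φ ψ : X → ℝ≥0∞}
    (h : ∀ x ∈ A, φ x ≤ ψ x) (n : ℕ) : ∀ x ∈ A, ev f μ φ n x ≤ ev f μ ψ n x := by
  induction n with
  | zero => exact h
  | succ n ih =>
    intro x hx
    exact lintegral_mono_ae ((hA x hx).mono fun ξ hξ => ih _ hξ)

theorem ev_mono {φ ψ : X → ℝ≥0∞} (h : ∀ x, φ x ≤ ψ x) (n : ℕ) (x : X) :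
    ev f μ φ n x ≤ ev f μ ψ n x := by
  exact ev_mono_on Set.univ (fun _ _ => Filter.Eventually.of_forall fun _ => Set.mem_univ _)
    (fun x _ => h x) n x (Set.mem_univ x)

theorem ev_const (c : ℝ≥0∞) (n : ℕ) (x : X) : ev f μ (fun _ => c) n x = c := by
  induction n generalizing x with
  | zero => rfl
  | succ n ih =>
    change ∫⁻ ξ, ev f μ (fun _ => c) n (f x ξ) ∂μ = c
    rw [lintegral_congr (fun ξ => ih (f x ξ)), lintegral_const, measure_univ, mul_one]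

theorem ev_add (hf : Measurable (fun q : X × Ξ => f q.1 q.2)) {φ ψ : X → ℝ≥0∞} (hφ : Measurable φ)
    (hψ : Measurable ψ) (n : ℕ) (x : X) :
    ev f μ (fun y => φ y + ψ y) n x = ev f μ φ n x + ev f μ ψ n x := by
  induction n generalizing x with
  | zero => rfl
  | succ n ih =>
    change ∫⁻ ξ, ev f μ (fun y => φ y + ψ y) n (f x ξ) ∂μ =
      ∫⁻ ξ, ev f μ φ n (f x ξ) ∂μ + ∫⁻ ξ, ev f μ ψ n (f x ξ) ∂μ
    rw [lintegral_congr (fun ξ => ih (f x ξ)),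
      lintegral_add_left (Mk_meas_sec hf (ev_meas hf hφ n) x)]

theorem ev_cmul (hf : Measurable (fun q : X × Ξ => f q.1 q.2)) {φ : X → ℝ≥0∞} (hφ : Measurable φ)
    (c : ℝ≥0∞) (n : ℕ) (x : X) : ev f μ (fun y => c * φ y) n x = c * ev f μ φ n x := by
  induction n generalizing x with
  | zero => rfl
  | succ n ih =>
    change ∫⁻ ξ, ev f μ (fun y => c * φ y) n (f x ξ) ∂μ = c * ∫⁻ ξ, ev f μ φ n (f x ξ) ∂μ
    rw [lintegral_congr (fun ξ => ih (f x ξ)),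
      lintegral_const_mul c (Mk_meas_sec hf (ev_meas hf hφ n) x)]

theorem ev_sum (hf : Measurable (fun q : X × Ξ => f q.1 q.2)) {J : Type} (s : Finset J)
    {φ : J → X → ℝ≥0∞} (hφ : ∀ j, Measurable (φ j)) (n : ℕ) (x : X) :
    ev f μ (fun y => ∑ j ∈ s, φ j y) n x = ∑ j ∈ s, ev f μ (φ j) n x := by
  classical
  induction s using Finset.induction_on with
  | empty =>
    simp only [Finset.sum_empty]
    exact ev_const 0 n x
  | insert j s hj ih =>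
    simp only [Finset.sum_insert hj]
    rw [ev_add hf (hφ j) (Finset.measurable_sum s fun i _ => hφ i) n x, ih]

theorem ev_time (φ : X → ℝ≥0∞) (n m : ℕ) (x : X) :
    ev f μ (ev f μ φ m) n x = ev f μ φ (n + m) x := by
  induction n generalizing x with
  | zero =>
    rw [Nat.zero_add]
    rfl
  | succ n ih =>
    have h1 : n + 1 + m = (n + m) + 1 := by omega
    rw [h1]
    exact lintegral_congr fun ξ => ih (f x ξ)

theorem ev_drift (hf : Measurable (fun q : X × Ξ => f q.1 q.2)) (A : Set X)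
    (hA : ∀ x ∈ A, ∀ᵐ ξ ∂μ, f x ξ ∈ A) {φ : X → ℝ≥0∞} (hφ : Measurable φ) (ρ : ℝ≥0∞)
    (h : ∀ x ∈ A, ∫⁻ ξ, φ (f x ξ) ∂μ ≤ ρ * φ x) (n : ℕ) :
    ∀ x ∈ A, ev f μ φ n x ≤ ρ ^ n * φ x := by
  induction n with
  | zero =>
    intro x _
    rw [pow_zero, one_mul]
    exact le_rfl
  | succ n ih =>
    intro x hx
    calc ev f μ φ (n + 1) x = ∫⁻ ξ, ev f μ φ n (f x ξ) ∂μ := rfl
      _ ≤ ∫⁻ ξ, ρ ^ n * φ (f x ξ) ∂μ :=
        lintegral_mono_ae ((hA x hx).mono fun ξ hξ => ih _ hξ)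
      _ = ρ ^ n * ∫⁻ ξ, φ (f x ξ) ∂μ := lintegral_const_mul _ (Mk_meas_sec hf hφ x)
      _ ≤ ρ ^ n * (ρ * φ x) := mul_le_mul' le_rfl (h x hx)
      _ = ρ ^ (n + 1) * φ x := by rw [pow_succ, mul_assoc]

theorem ev_drift_add (hf : Measurable (fun q : X × Ξ => f q.1 q.2)) (A : Set X)
    (hA : ∀ x ∈ A, ∀ᵐ ξ ∂μ, f x ξ ∈ A) {φ : X → ℝ≥0∞} (hφ : Measurable φ) (a K : ℝ) (ha : 0 ≤ a)
    (ha1 : a ≤ 1) (hK : 0 ≤ K)
    (h : ∀ x ∈ A, ∫⁻ ξ, φ (f x ξ) ∂μ ≤ ENNReal.ofReal (1 - a) * φ x + ENNReal.ofReal (a * K))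
    (n : ℕ) : ∀ x ∈ A, ev f μ φ n x ≤ ENNReal.ofReal ((1 - a) ^ n) * φ x + ENNReal.ofReal K := by
  have h1a : 0 ≤ 1 - a := by linarith
  have key : ∀ n : ℕ, ∀ x ∈ A, ev f μ φ n x ≤ ENNReal.ofReal ((1 - a) ^ n) * φ x +
      ENNReal.ofReal ((1 - (1 - a) ^ n) * K) := by
    intro n
    induction n with
    | zero =>
      intro x _
      rw [pow_zero, ENNReal.ofReal_one, one_mul, sub_self, zero_mul, ENNReal.ofReal_zero, add_zero]
      exact le_rfl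
    | succ n ih =>
      intro x hx
      have hp : 0 ≤ (1 - a) ^ n := pow_nonneg h1a n
      have hp1 : (1 - a) ^ n ≤ 1 := pow_le_one₀ h1a (by linarith)
      calc ev f μ φ (n + 1) x = ∫⁻ ξ, ev f μ φ n (f x ξ) ∂μ := rfl
        _ ≤ ∫⁻ ξ, (ENNReal.ofReal ((1 - a) ^ n) * φ (f x ξ) +
              ENNReal.ofReal ((1 - (1 - a) ^ n) * K)) ∂μ :=
          lintegral_mono_ae ((hA x hx).mono fun ξ hξ => ih _ hξ)
        _ = ENNReal.ofReal ((1 - a) ^ n) * ∫⁻ ξ, φ (f x ξ) ∂μ +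
              ENNReal.ofReal ((1 - (1 - a) ^ n) * K) := by
          rw [lintegral_add_right _ measurable_const,
            lintegral_const_mul _ (Mk_meas_sec hf hφ x), lintegral_const, measure_univ, mul_one]
        _ ≤ ENNReal.ofReal ((1 - a) ^ n) *
              (ENNReal.ofReal (1 - a) * φ x + ENNReal.ofReal (a * K)) +
              ENNReal.ofReal ((1 - (1 - a) ^ n) * K) :=
          add_le_add (mul_le_mul' le_rfl (h x hx)) le_rfl
        _ = ENNReal.ofReal ((1 - a) ^ (n + 1)) * φ x +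
              ENNReal.ofReal ((1 - (1 - a) ^ (n + 1)) * K) := by
          rw [mul_add, ← mul_assoc, ← ENNReal.ofReal_mul hp, ← ENNReal.ofReal_mul hp, add_assoc,
            ← ENNReal.ofReal_add (mul_nonneg hp (mul_nonneg ha hK))
              (mul_nonneg (by linarith) hK), ← pow_succ]
          congr 2
          ring
  intro x hx
  refine (key n x hx).trans (add_le_add le_rfl (ENNReal.ofReal_le_ofReal ?_))
  have hp : 0 ≤ (1 - a) ^ n := pow_nonneg h1a n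
  nlinarith

/-- intertwined chains -/
theorem ev_twine {Y Ξ' : Type} [MeasurableSpace Y] [MeasurableSpace Ξ'] {F : Y → Ξ' → Y}
    {μ' : Measure Ξ'} (g : Y → X) (hf : Measurable (fun q : X × Ξ => f q.1 q.2))
    (h : ∀ (φ : X → ℝ≥0∞), Measurable φ → ∀ y,
      ∫⁻ ξ, φ (g (F y ξ)) ∂μ' = ∫⁻ ξ, φ (f (g y) ξ) ∂μ)
    {φ : X → ℝ≥0∞} (hφ : Measurable φ) (n : ℕ) (y : Y) :
    ev F μ' (fun y => φ (g y)) n y = ev f μ φ n (g y) := by
  induction n generalizing y with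
  | zero => rfl
  | succ n ih =>
    change ∫⁻ ξ, ev F μ' (fun y => φ (g y)) n (F y ξ) ∂μ' = ∫⁻ ξ, ev f μ φ n (f (g y) ξ) ∂μ
    rw [lintegral_congr (fun ξ => ih (F y ξ))]
    exact h (ev f μ φ n) (ev_meas hf hφ n) y

theorem law_prob (hf : Measurable (fun q : X × Ξ => f q.1 q.2)) (m0 : Measure X)
    [IsProbabilityMeasure m0] (n : ℕ) : IsProbabilityMeasure (law f μ m0 n) := by
  induction n with
  | zero => exact inferInstanceAs (IsProbabilityMeasure m0)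
  | succ n ih =>
    change IsProbabilityMeasure (((law f μ m0 n).prod μ).map (fun q => f q.1 q.2))
    exact Measure.isProbabilityMeasure_map hf.aemeasurable

theorem law_ev (hf : Measurable (fun q : X × Ξ => f q.1 q.2)) (m0 : Measure X)
    [IsProbabilityMeasure m0] {φ : X → ℝ≥0∞} (hφ : Measurable φ) (n : ℕ) :
    ∫⁻ x, φ x ∂(law f μ m0 n) = ∫⁻ x, ev f μ φ n x ∂m0 := by
  induction n generalizing φ with
  | zero => rfl
  | succ n ih =>
    have hp := law_prob (μ := μ) hf m0 n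
    change ∫⁻ x, φ x ∂(((law f μ m0 n).prod μ).map (fun q => f q.1 q.2)) =
      ∫⁻ x, ev f μ φ (n + 1) x ∂m0
    have hm : Measurable (fun q : X × Ξ => φ (f q.1 q.2)) := hφ.comp hf
    rw [lintegral_map hφ hf, lintegral_prod _ hm.aemeasurable]
    have h1 := ih (ev_meas (μ := μ) hf hφ 1)
    refine Eq.trans ?_ (h1.trans ?_)
    · rfl
    · exact lintegral_congr fun x => ev_time φ n 1 x

theorem law_time (hf : Measurable (fun q : X × Ξ => f q.1 q.2)) (m0 : Measure X)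
    [IsProbabilityMeasure m0] {φ : X → ℝ≥0∞} (hφ : Measurable φ) (n i : ℕ) :
    ∫⁻ x, ev f μ φ i x ∂(law f μ m0 n) = ∫⁻ x, φ x ∂(law f μ m0 (n + i)) := by
  rw [law_ev hf m0 (ev_meas hf hφ i) n, law_ev hf m0 hφ (n + i)]
  exact lintegral_congr fun x => ev_time φ n i x

end DynS
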