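import Pool.Agent.Lib_MP_36b788s.Zpow
import Pool.Agent.Lib_MP_36b788s.Site

/-!
# MOM, part A: second moment of a site, uniformly in time

PROOF. `K0 > 0` with `K0^β = N+1`. For `y = psi β h v ≥ 0` (`v ≥ 0`, `y+hy^{1+β} = v`), `h(N+1) ≤ 1/2`: `y² ≤ (1-hK0^β)v²+hK0^{β+2}`.
If `y ≤ K0`: `y² = (1-hK0^β)y²+hK0^βy² ≤ (1-hK0^β)v²+hK0^{β+2}`. If `y > K0`: `v = y(1+hy^β) ≥ y(1+x)`, `x = hK0^β ≤ 1/2`, `y² ≤ v²/(1+x)² ≤ (1-x)v²` as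
`(1+x)²(1-x) = 1+x-x²-x³ ≥ 1`.
`v = ‖g+√h‖g‖ξ‖`, `E v² = ‖g‖²(1+hE‖ξ‖²) ≤ ‖g‖²(1+Nh)` (`noise_mean`; `IsNoise.mom_le`). `(1-h(N+1))(1+Nh) ≤ 1-h`. So
`E‖hat g ξ‖² ≤ (1-h)‖g‖²+hK`, `K = K0^{β+2}`. (`g = 0`: both zero.)
`mom_ev`: `ev_drift_add` with `φ = ofReal‖·‖²`, `a = h`.
-/

open MeasureTheory ProbabilityTheory Dyn
open scoped ENNReal

namespace DynS

private theorem MomA_scalar {β h c K0 v : ℝ} (hβ : 0 < β) (hh : 0 < h) (hc : 0 < c)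
    (hK0 : 0 < K0) (hKc : K0 ^ β = c) (hx : h * c ≤ 1 / 2) (hv : 0 ≤ v) :
    psi β h v ^ 2 ≤ (1 - h * c) * v ^ 2 + h * (c * K0 ^ 2) := by
  have hy := psi_nonneg β h v
  have hyv := psi_le hβ hh.le hv
  have heq := psi_eq hβ hh.le hv
  set y := psi β h v with hydef
  have hx0 : 0 < h * c := mul_pos hh hc
  rcases le_or_gt y K0 with h1 | h1
  · have h2 : y ^ 2 ≤ v ^ 2 := by gcongr
    have h3 : y ^ 2 ≤ K0 ^ 2 := by gcongr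
    have h4 : (1 - h * c) * y ^ 2 ≤ (1 - h * c) * v ^ 2 :=
      mul_le_mul_of_nonneg_left h2 (by linarith)
    have h5 : h * c * y ^ 2 ≤ h * c * K0 ^ 2 := mul_le_mul_of_nonneg_left h3 hx0.le
    nlinarith
  · have hy0 : 0 < y := hK0.trans h1
    have h2 : c ≤ y ^ β := by
      rw [← hKc]
      exact Real.rpow_le_rpow hK0.le h1.le hβ.le
    have h3 : y ^ (1 + β) = y * y ^ β := by rw [Real.rpow_add hy0, Real.rpow_one]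
    have h4 : y * (1 + h * c) ≤ v := by
      rw [← heq, h3]
      have := mul_le_mul_of_nonneg_left h2 (mul_nonneg hh.le hy0.le)
      nlinarith
    have h5 : (y * (1 + h * c)) ^ 2 ≤ v ^ 2 := by
      have : 0 ≤ y * (1 + h * c) := by positivity
      gcongr
    have h6 : (1 - h * c) * (y * (1 + h * c)) ^ 2 ≤ (1 - h * c) * v ^ 2 :=
      mul_le_mul_of_nonneg_left h5 (by linarith)
    have h7 : y ^ 2 ≤ (1 - h * c) * (y * (1 + h * c)) ^ 2 := by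
      have h8 : (1 : ℝ) ≤ (1 - h * c) * (1 + h * c) ^ 2 := by
        nlinarith [mul_pos hx0 hx0, mul_nonneg hx0.le (sub_nonneg.2 hx)]
      calc y ^ 2 = 1 * y ^ 2 := by ring
        _ ≤ ((1 - h * c) * (1 + h * c) ^ 2) * y ^ 2 :=
          mul_le_mul_of_nonneg_right h8 (sq_nonneg y)
        _ = (1 - h * c) * (y * (1 + h * c)) ^ 2 := by ring
    have h9 : 0 ≤ h * (c * K0 ^ 2) := by positivity
    linarith

private theorem MomA_int {N : ℕ} {h : ℝ} {ν : Measure (E N)} (hh : 0 < h) (hν : IsNoise h ν)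
    {f : E N → ℝ} (hf : Continuous f) : Integrable f ν := by
  have := hν.prob
  obtain ⟨C, hC⟩ := (isCompact_closedBall (0 : E N)
    (h ^ (3 / 8 : ℝ) / Real.sqrt h)).exists_bound_of_continuousOn hf.continuousOn
  refine Integrable.of_bound hf.aestronglyMeasurable C ?_
  filter_upwards [hν.bdd] with ξ hξ
  refine hC ξ ?_
  rw [mem_closedBall_zero_iff, le_div_iff₀ (Real.sqrt_pos.mpr hh), mul_comm]
  exact hξ

theorem mom_step {N : ℕ} (hN : 1 ≤ N) {β : ℝ} (hβ : 0 < β) : ∃ K h0 : ℝ, 0 < K ∧ 0 < h0 ∧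
    h0 ≤ 1 / 1000 ∧ ∀ (h : ℝ) (ν : Measure (E N)), 0 < h → h < h0 → IsNoise h ν → ∀ g : E N,
      ∫⁻ ξ, ENNReal.ofReal (‖hat β h g ξ‖ ^ 2) ∂ν ≤
        ENNReal.ofReal (1 - h) * ENNReal.ofReal (‖g‖ ^ 2) + ENNReal.ofReal (h * K) := by
  have hc : (0 : ℝ) < (N : ℝ) + 1 := by positivity
  set c : ℝ := (N : ℝ) + 1 with hcdef
  set K0 : ℝ := c ^ (1 / β) with hK0def
  have hK0 : 0 < K0 := Real.rpow_pos_of_pos hc _
  have hKc : K0 ^ β = c := by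
    rw [hK0def, ← Real.rpow_mul hc.le, one_div_mul_cancel hβ.ne', Real.rpow_one]
  refine ⟨c * K0 ^ 2, min (1 / 1000) (1 / (2 * c)), by positivity, by positivity,
    min_le_left _ _, ?_⟩
  intro h ν hh hlt hν g
  have hpr := hν.prob
  have hx : h * c ≤ 1 / 2 := by
    have h1 : h < 1 / (2 * c) := hlt.trans_le (min_le_right _ _)
    rw [lt_div_iff₀ (by positivity)] at h1
    linarith
  -- the square of the input
  have hsq : ∀ ξ : E N, ‖g + (Real.sqrt h * ‖g‖) • ξ‖ ^ 2 =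
      ‖g‖ ^ 2 + 2 * (Real.sqrt h * ‖g‖) * inner ℝ g ξ + h * ‖g‖ ^ 2 * ‖ξ‖ ^ 2 := by
    intro ξ
    rw [norm_add_sq_real, inner_smul_right, norm_smul, Real.norm_eq_abs, mul_pow, sq_abs, mul_pow,
      Real.sq_sqrt hh.le]
    ring
  have hpt : ∀ ξ : E N, ‖hat β h g ξ‖ ^ 2 ≤
      (1 - h * c) * (‖g‖ ^ 2 + 2 * (Real.sqrt h * ‖g‖) * inner ℝ g ξ + h * ‖g‖ ^ 2 * ‖ξ‖ ^ 2)
        + h * (c * K0 ^ 2) := by
    intro ξ
    rw [hat, norm_J hβ hh.le, ← hsq ξ]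
    exact MomA_scalar hβ hh hc hK0 hKc hx (norm_nonneg _)
  have hcont : Continuous (fun ξ : E N => (1 - h * c) * (‖g‖ ^ 2 +
      2 * (Real.sqrt h * ‖g‖) * inner ℝ g ξ + h * ‖g‖ ^ 2 * ‖ξ‖ ^ 2) + h * (c * K0 ^ 2)) := by
    fun_prop
  have hint := MomA_int hh hν hcont
  have hI1 : Integrable (fun ξ : E N => (inner ℝ g ξ : ℝ)) ν :=
    MomA_int hh hν (by fun_prop)
  have hI2 : Integrable (fun ξ : E N => ‖ξ‖ ^ 2) ν := MomA_int hh hν (by fun_prop)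
  have hval : ∫ ξ, ((1 - h * c) * (‖g‖ ^ 2 +
      2 * (Real.sqrt h * ‖g‖) * inner ℝ g ξ + h * ‖g‖ ^ 2 * ‖ξ‖ ^ 2) + h * (c * K0 ^ 2)) ∂ν =
      (1 - h * c) * (‖g‖ ^ 2 + h * ‖g‖ ^ 2 * ∫ ξ, ‖ξ‖ ^ 2 ∂ν) + h * (c * K0 ^ 2) := by
    have e1 : Integrable (fun ξ : E N => ‖g‖ ^ 2 + 2 * (Real.sqrt h * ‖g‖) * inner ℝ g ξ) ν :=
      (integrable_const _).add (hI1.const_mul _)
    have e2 : Integrable (fun ξ : E N => h * ‖g‖ ^ 2 * ‖ξ‖ ^ 2) ν := hI2.const_mul _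
    have e3 : Integrable (fun ξ : E N => (1 - h * c) * (‖g‖ ^ 2 +
      2 * (Real.sqrt h * ‖g‖) * inner ℝ g ξ + h * ‖g‖ ^ 2 * ‖ξ‖ ^ 2)) ν :=
      MomA_int hh hν (by fun_prop)
    rw [integral_add e3 (integrable_const _), integral_const_mul,
      integral_add e1 e2, integral_add (integrable_const _) (hI1.const_mul _),
      integral_const_mul, integral_const_mul, noise_mean hh hν g]
    simp
  have hnn : 0 ≤ ‖g‖ ^ 2 := sq_nonneg _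
  have hfin : ∫ ξ, ((1 - h * c) * (‖g‖ ^ 2 +
      2 * (Real.sqrt h * ‖g‖) * inner ℝ g ξ + h * ‖g‖ ^ 2 * ‖ξ‖ ^ 2) + h * (c * K0 ^ 2)) ∂ν ≤
      (1 - h) * ‖g‖ ^ 2 + h * (c * K0 ^ 2) := by
    rw [hval]
    have h1 := hν.mom_le
    have h2 : h * ‖g‖ ^ 2 * ∫ ξ, ‖ξ‖ ^ 2 ∂ν ≤ h * ‖g‖ ^ 2 * N :=
      mul_le_mul_of_nonneg_left h1 (mul_nonneg hh.le hnn)
    have h3 : (1 - h * c) * (‖g‖ ^ 2 + h * ‖g‖ ^ 2 * ∫ ξ, ‖ξ‖ ^ 2 ∂ν) ≤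
        (1 - h * c) * (‖g‖ ^ 2 + h * ‖g‖ ^ 2 * N) :=
      mul_le_mul_of_nonneg_left (by linarith) (by linarith)
    have h4 : (1 - h * c) * (‖g‖ ^ 2 + h * ‖g‖ ^ 2 * N) =
        (1 - h) * ‖g‖ ^ 2 - h * h * (c * N) * ‖g‖ ^ 2 := by
      rw [hcdef]; ring
    have h5 : 0 ≤ h * h * (c * N) * ‖g‖ ^ 2 := by positivity
    linarith
  have hpos : 0 ≤ᵐ[ν] fun ξ : E N => (1 - h * c) * (‖g‖ ^ 2 +
      2 * (Real.sqrt h * ‖g‖) * inner ℝ g ξ + h * ‖g‖ ^ 2 * ‖ξ‖ ^ 2) + h * (c * K0 ^ 2) :=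
    Filter.Eventually.of_forall (fun ξ => (sq_nonneg _).trans (hpt ξ))
  have hh1 : h ≤ 1 := by
    have h1 : h < 1 / 1000 := hlt.trans_le (min_le_left _ _)
    linarith
  calc ∫⁻ ξ, ENNReal.ofReal (‖hat β h g ξ‖ ^ 2) ∂ν
      ≤ ∫⁻ ξ, ENNReal.ofReal ((1 - h * c) * (‖g‖ ^ 2 +
        2 * (Real.sqrt h * ‖g‖) * inner ℝ g ξ + h * ‖g‖ ^ 2 * ‖ξ‖ ^ 2) + h * (c * K0 ^ 2)) ∂ν :=
        lintegral_mono (fun ξ => ENNReal.ofReal_le_ofReal (hpt ξ))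
    _ = ENNReal.ofReal (∫ ξ, ((1 - h * c) * (‖g‖ ^ 2 +
        2 * (Real.sqrt h * ‖g‖) * inner ℝ g ξ + h * ‖g‖ ^ 2 * ‖ξ‖ ^ 2) + h * (c * K0 ^ 2)) ∂ν) :=
        (ofReal_integral_eq_lintegral_ofReal hint hpos).symm
    _ ≤ ENNReal.ofReal ((1 - h) * ‖g‖ ^ 2 + h * (c * K0 ^ 2)) := ENNReal.ofReal_le_ofReal hfin
    _ = ENNReal.ofReal (1 - h) * ENNReal.ofReal (‖g‖ ^ 2) + ENNReal.ofReal (h * (c * K0 ^ 2)) := by
        rw [ENNReal.ofReal_add (mul_nonneg (by linarith) hnn) (by positivity),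
          ENNReal.ofReal_mul (by linarith)]

theorem mom_ev {N : ℕ} (hN : 1 ≤ N) {β : ℝ} (hβ : 0 < β) : ∃ K h0 : ℝ, 0 < K ∧ 0 < h0 ∧
    h0 ≤ 1 / 1000 ∧ ∀ (h : ℝ) (ν : Measure (E N)), 0 < h → h < h0 → IsNoise h ν →
      ∀ (n : ℕ) (g : E N), ev (hat β h) ν (fun g => ENNReal.ofReal (‖g‖ ^ 2)) n g ≤
        ENNReal.ofReal (‖g‖ ^ 2 + K) := by
  obtain ⟨K, h0, hK, hh0, hle, H⟩ := mom_step hN hβ
  refine ⟨K, h0, hK, hh0, hle, ?_⟩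
  intro h ν hh hlt hν n g
  have hpr := hν.prob
  have hh1 : h ≤ 1 := by linarith
  have h1 := ev_drift_add (f := hat β h) (μ := ν) (measurable_hat hβ hh.le) Set.univ
    (fun x _ => Filter.Eventually.of_forall (fun _ => Set.mem_univ _))
    (φ := fun g : E N => ENNReal.ofReal (‖g‖ ^ 2)) (by fun_prop) h K hh.le hh1 hK.le
    (fun x _ => H h ν hh hlt hν x) n g (Set.mem_univ _)
  refine h1.trans ?_
  rw [ENNReal.ofReal_add (sq_nonneg _) hK.le]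
  gcongr
  have h2 : ENNReal.ofReal ((1 - h) ^ n) ≤ 1 := by
    rw [ENNReal.ofReal_le_one]
    exact pow_le_one₀ (by linarith) (by linarith)
  calc ENNReal.ofReal ((1 - h) ^ n) * ENNReal.ofReal (‖g‖ ^ 2)
      ≤ 1 * ENNReal.ofReal (‖g‖ ^ 2) := by gcongr
    _ = ENNReal.ofReal (‖g‖ ^ 2) := one_mul _

end DynS
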