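import Pool.Agent.Lib_MP_36b788s.MomA

/-!
# MOM, part B: a site does not come close to zero, `N ≥ 3`, uniformly in time

PROOF. `γ = min(1/2, 1/(2β))`, `Z = u^{-β}`, `W = (1+Z)^γ`. `a = ζ^{-β}`, `ζ = ‖uni g+√hξ‖`.
* `Z⁺ ≤ aZ+βh` on `hu^β ≤ 1`: `Z⁺-aZ = (h/s)(1-(1+s)^{-β})`, `s = h(u⁺)^β` (`hat_step`, as in `two_step`), `1-(1+s)^{-β} ≤ βs` (Bernoulli
  `(1+s)^{-β} ≥ 1-βs`; `Real.one_add_mul_self_le_rpow_one_add` type inequality or the mean value theorem).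
* `W⁺ ≤ (1+aZ+βh)^γ ≤ (1+aZ)^γ+γβh` (`1+aZ ≥ 1`, `γ ≤ 1`).
* `θ = Z/(1+Z) ∈ (0,1)`: `(1+aZ)^γ = (1+Z)^γ(1+θ(a-1))^γ` and, by concavity of `x ↦ x^γ` at `x = a`,
  `(1+θ(a-1))^γ = (a+(1-θ)(1-a))^γ ≤ a^γ+γ(1-θ)(1-a)a^{γ-1} = a^γ+γ(1-θ)(a^{γ-1}-a^γ)`.
  Expectations (`zeta_pow`): `E a^γ = E ζ^{-βγ} = 1-(βγ/2)(N-2-βγ)h+O(h^{9/8})`, `βγ ≤ 1/2`, `N ≥ 3`: `1-C₁h ≤ E a^γ ≤ 1-c'h`, `c' = βγ/8`; `E a^{γ-1} = E ζ^{β(1-γ)} ≤ 1+C₂h`.
  So `E(1+θ(a-1))^γ ≤ 1-c'h+(1-θ)γ(C₁+C₂)h` and `(1-θ)W = (1+Z)^{γ-1} ≤ 1`: `E W⁺ ≤ (1-c'h)W+Ch`.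
* `w_ev`: `ev_drift_add` on `A = {g ≠ 0, h‖g‖^β ≤ 1}` (invariant: `hat_step`, `hat_inv`, `noise_ae`) with `a = c'h`, `K = C/c'`.
-/

open MeasureTheory ProbabilityTheory Dyn
open scoped ENNReal

namespace DynS

private theorem momb_bern {s β : ℝ} (hs : 0 ≤ s) (hβ : 0 < β) : 1 - β * s ≤ (1 + s) ^ (-β) := by
  have h1 : 0 < 1 + s := by linarith
  rw [Real.rpow_def_of_pos h1]
  have h2 : Real.log (1 + s) ≤ s := by
    have := Real.log_le_sub_one_of_pos h1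
    linarith
  have h3 := Real.add_one_le_exp (Real.log (1 + s) * -β)
  nlinarith

/-- `(x+y)^γ ≤ x^γ + γ y` -/
private theorem momb_add {x y γ : ℝ} (hx : 1 ≤ x) (hy : 0 ≤ y) (hγ : 0 ≤ γ) (hγ1 : γ ≤ 1) :
    (x + y) ^ γ ≤ x ^ γ + γ * y := by
  have hx0 : 0 < x := by linarith
  have h1 : x + y = x * (1 + y / x) := by field_simp
  have h2 : 0 ≤ y / x := by positivity
  have h3 : (1 + y / x) ^ γ ≤ 1 + γ * (y / x) :=
    rpow_one_add_le_one_add_mul_self (by linarith) hγ hγ1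
  have h4 : x ^ γ ≤ x := by
    calc x ^ γ ≤ x ^ (1 : ℝ) := Real.rpow_le_rpow_of_exponent_le hx hγ1
      _ = x := Real.rpow_one x
  have h5 : 0 ≤ x ^ γ := by positivity
  rw [h1, Real.mul_rpow hx0.le (by positivity)]
  calc x ^ γ * (1 + y / x) ^ γ ≤ x ^ γ * (1 + γ * (y / x)) := mul_le_mul_of_nonneg_left h3 h5
    _ = x ^ γ + γ * y * (x ^ γ / x) := by ring
    _ ≤ x ^ γ + γ * y * 1 := by
        have h6 : x ^ γ / x ≤ 1 := by rw [div_le_one hx0]; exact h4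
        have h7 : 0 ≤ γ * y := by positivity
        have := mul_le_mul_of_nonneg_left h6 h7
        linarith
    _ = x ^ γ + γ * y := by ring

/-- `(1+aZ)^γ ≤ (1+Z)^γ a^γ + γ (1+Z)^(γ-1) (a^(γ-1) - a^γ)` -/
private theorem momb_conc {a Z γ : ℝ} (ha : 0 < a) (hZ : 0 < Z) (hγ : 0 ≤ γ) (hγ1 : γ ≤ 1) :
    (1 + a * Z) ^ γ ≤
      (1 + Z) ^ γ * a ^ γ + γ * (1 + Z) ^ (γ - 1) * (a ^ (γ - 1) - a ^ γ) := by
  have hZ1 : 0 < 1 + Z := by linarith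
  set s : ℝ := (1 - a) / ((1 + Z) * a) with hs
  have h1 : 1 + a * Z = (1 + Z) * a * (1 + s) := by
    rw [hs]; field_simp; ring
  have h1' : 0 < 1 + s := by
    have h0 : 0 < 1 + a * Z := by positivity
    rw [h1] at h0
    exact (pos_iff_pos_of_mul_pos h0).1 (by positivity)
  have h3 : (1 + s) ^ γ ≤ 1 + γ * s := rpow_one_add_le_one_add_mul_self (by linarith) hγ hγ1
  have h4 : (1 + Z) ^ (γ - 1) = (1 + Z) ^ γ / (1 + Z) := Real.rpow_sub_one hZ1.ne' γ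
  have h5 : a ^ (γ - 1) = a ^ γ / a := Real.rpow_sub_one ha.ne' γ
  rw [h1, Real.mul_rpow (by positivity) h1'.le, Real.mul_rpow hZ1.le ha.le]
  calc (1 + Z) ^ γ * a ^ γ * (1 + s) ^ γ ≤ (1 + Z) ^ γ * a ^ γ * (1 + γ * s) :=
        mul_le_mul_of_nonneg_left h3 (by positivity)
    _ = (1 + Z) ^ γ * a ^ γ + γ * (1 + Z) ^ (γ - 1) * (a ^ (γ - 1) - a ^ γ) := by
        rw [h4, h5, hs]
        field_simp

/-- one step of `‖g‖^(-β)` -/
private theorem momb_one {N : ℕ} {β h : ℝ} (hβ : 0 < β) (hh : 0 < h) {g : E N} (hg : g ≠ 0)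
    {ξ : E N} (hζ : 0 < ‖uni g + Real.sqrt h • ξ‖) :
    ‖hat β h g ξ‖ ^ (-β) ≤ ‖uni g + Real.sqrt h • ξ‖ ^ (-β) * ‖g‖ ^ (-β) + β * h := by
  obtain ⟨h1, h2⟩ := hat_step hβ hh.le hg hζ
  set t := ‖hat β h g ξ‖ with ht
  set z := ‖uni g + Real.sqrt h • ξ‖ with hz
  have ht0 : 0 < t := norm_pos_iff.2 h1
  have hg0 : 0 < ‖g‖ := norm_pos_iff.2 hg
  have hs0 : 0 ≤ h * t ^ β := by positivity
  have h3 : z ^ (-β) * ‖g‖ ^ (-β) = t ^ (-β) * (1 + h * t ^ β) ^ (-β) := by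
    rw [← Real.mul_rpow hζ.le hg0.le, ← Real.mul_rpow ht0.le (by positivity), h2, mul_comm]
  rw [h3]
  have h4 := momb_bern hs0 hβ
  have h5 : t ^ (-β) * t ^ β = 1 := by
    rw [← Real.rpow_add ht0]; simp
  have h6 : 0 ≤ t ^ (-β) := by positivity
  have h7 := mul_le_mul_of_nonneg_left h4 h6
  have h8 : t ^ (-β) * (1 - β * (h * t ^ β)) = t ^ (-β) - β * h := by
    calc t ^ (-β) * (1 - β * (h * t ^ β)) = t ^ (-β) - β * h * (t ^ (-β) * t ^ β) := by ring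
      _ = t ^ (-β) - β * h := by rw [h5, mul_one]
  linarith

/-- one step of the weight -/
private theorem momb_two {N : ℕ} {β h γ : ℝ} (hβ : 0 < β) (hh : 0 < h) (hγ : 0 < γ) (hγ1 : γ ≤ 1)
    {g : E N} (hg : g ≠ 0) {ξ : E N} (hζ : 0 < ‖uni g + Real.sqrt h • ξ‖) :
    (1 + ‖hat β h g ξ‖ ^ (-β)) ^ γ ≤
      (1 + ‖g‖ ^ (-β)) ^ γ * ‖uni g + Real.sqrt h • ξ‖ ^ (-(β * γ)) +
        γ * (1 + ‖g‖ ^ (-β)) ^ (γ - 1) *
          (‖uni g + Real.sqrt h • ξ‖ ^ (β * (1 - γ)) - ‖uni g + Real.sqrt h • ξ‖ ^ (-(β * γ))) +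
        γ * (β * h) := by
  have h1 := momb_one hβ hh hg hζ
  set z := ‖uni g + Real.sqrt h • ξ‖ with hz
  have hg0 : 0 < ‖g‖ := norm_pos_iff.2 hg
  have hZ : 0 < ‖g‖ ^ (-β) := by positivity
  have ha : 0 < z ^ (-β) := by positivity
  have h2 : (z ^ (-β)) ^ γ = z ^ (-(β * γ)) := by
    rw [← Real.rpow_mul hζ.le]; congr 1; ring
  have h3 : (z ^ (-β)) ^ (γ - 1) = z ^ (β * (1 - γ)) := by
    rw [← Real.rpow_mul hζ.le]; congr 1; ring
  have h4 : 0 ≤ ‖hat β h g ξ‖ ^ (-β) := by positivity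
  calc (1 + ‖hat β h g ξ‖ ^ (-β)) ^ γ ≤ (1 + z ^ (-β) * ‖g‖ ^ (-β) + β * h) ^ γ :=
        Real.rpow_le_rpow (by positivity) (by linarith) hγ.le
    _ ≤ (1 + z ^ (-β) * ‖g‖ ^ (-β)) ^ γ + γ * (β * h) :=
        momb_add (by nlinarith [mul_pos ha hZ]) (by positivity) hγ.le hγ1
    _ ≤ _ := by
        have := momb_conc ha hZ hγ.le hγ1
        rw [h2, h3] at this
        linarith

theorem w_step {N : ℕ} (hN : 3 ≤ N) {β : ℝ} (hβ : 0 < β) : ∃ γ c C h0 : ℝ, 0 < γ ∧ γ ≤ 1 / 2 ∧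
    0 < c ∧ 0 < C ∧ 0 < h0 ∧ h0 ≤ 1 / 1000 ∧ c * h0 ≤ 1 ∧
    ∀ (h : ℝ) (ν : Measure (E N)), 0 < h → h < h0 → IsNoise h ν → ∀ g : E N, g ≠ 0 →
      h * ‖g‖ ^ β ≤ 1 →
      ∫⁻ ξ, ENNReal.ofReal ((1 + ‖hat β h g ξ‖ ^ (-β)) ^ γ) ∂ν ≤
        ENNReal.ofReal (1 - c * h) * ENNReal.ofReal ((1 + ‖g‖ ^ (-β)) ^ γ) +
          ENNReal.ofReal (C * h) := by
  obtain ⟨γ, hγ0, hγ2, hβγ⟩ : ∃ γ : ℝ, 0 < γ ∧ γ ≤ 1 / 2 ∧ β * γ ≤ 1 / 2 := by
    refine ⟨min (1 / 2) (1 / (2 * β)), by positivity, min_le_left _ _, ?_⟩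
    calc β * min (1 / 2) (1 / (2 * β)) ≤ β * (1 / (2 * β)) :=
          mul_le_mul_of_nonneg_left (min_le_right _ _) hβ.le
      _ = 1 / 2 := by field_simp
  have hN1 : 1 ≤ N := by omega
  have hN3 : (3 : ℝ) ≤ N := by exact_mod_cast hN
  have hβγ0 : 0 < β * γ := by positivity
  obtain ⟨C1, h1, hC1, hh1, H1⟩ := zeta_pow N hN1 (-(β * γ))
  obtain ⟨C2, h2, hC2, hh2, H2⟩ := zeta_pow N hN1 (β * (1 - γ))
  set b1 : ℝ := β * γ / 2 * (N - 2 - β * γ) with hb1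
  set b2 : ℝ := β * (1 - γ) / 2 * (N + β * (1 - γ) - 2) with hb2
  have hb1' : β * γ / 4 ≤ b1 := by
    rw [hb1]
    have : (1 : ℝ) / 2 ≤ N - 2 - β * γ := by linarith
    nlinarith
  have hb1'' : 0 ≤ b1 := by linarith
  set x0 : ℝ := (β * γ / (8 * C1)) ^ 8 with hx0
  have hx0p : 0 < x0 := by positivity
  refine ⟨γ, β * γ / 8, |b2| + C2 + b1 + C1 + β, min (min h1 h2) (min (1 / 1000) x0), hγ0, hγ2,
    by positivity, by positivity, by positivity, ?_, ?_, ?_⟩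
  · exact (min_le_right _ _).trans (min_le_left _ _)
  · have h3 : min (min h1 h2) (min (1 / 1000) x0) ≤ 1 / 1000 :=
      (min_le_right _ _).trans (min_le_left _ _)
    have h4 : 0 < min (min h1 h2) (min (1 / 1000) x0) := by positivity
    nlinarith
  · intro h ν hh hh0 hν g hg _
    have hhh1 : h < h1 := hh0.trans_le ((min_le_left _ _).trans (min_le_left _ _))
    have hhh2 : h < h2 := hh0.trans_le ((min_le_left _ _).trans (min_le_right _ _))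
    have hh3 : h < 1 / 1000 := hh0.trans_le ((min_le_right _ _).trans (min_le_left _ _))
    have hh4 : h < x0 := hh0.trans_le ((min_le_right _ _).trans (min_le_right _ _))
    have hprob := hν.prob
    have hg0 : 0 < ‖g‖ := norm_pos_iff.2 hg
    have hu : ‖uni g‖ = 1 := by
      unfold uni
      rw [norm_smul, norm_div, norm_one, norm_norm]
      field_simp
    have hE1 := H1 h ν hh hhh1 hν (uni g) hu
    have hE2 := H2 h ν hh hhh2 hν (uni g) hu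
    have hI1 := zeta_pow_int hh hh3 hν (-(β * γ)) hu
    have hI2 := zeta_pow_int hh hh3 hν (β * (1 - γ)) hu
    set e1 := ∫ ξ, ‖uni g + Real.sqrt h • ξ‖ ^ (-(β * γ)) ∂ν with he1
    set e2 := ∫ ξ, ‖uni g + Real.sqrt h • ξ‖ ^ (β * (1 - γ)) ∂ν with he2
    -- powers of `h`
    have hp1 : h ^ (9 / 8 : ℝ) = h * h ^ (1 / 8 : ℝ) := by
      rw [show (9 / 8 : ℝ) = 1 + 1 / 8 by norm_num, Real.rpow_add hh, Real.rpow_one]
    have hp2 : h ^ (1 / 8 : ℝ) ≤ 1 := Real.rpow_le_one hh.le (by linarith) (by norm_num)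
    have hp3 : C1 * h ^ (1 / 8 : ℝ) ≤ β * γ / 8 := by
      have h5 : h ^ (1 / 8 : ℝ) ≤ x0 ^ (1 / 8 : ℝ) := Real.rpow_le_rpow hh.le hh4.le (by norm_num)
      have h6 : x0 ^ (1 / 8 : ℝ) = β * γ / (8 * C1) := by
        rw [hx0, ← Real.rpow_natCast, ← Real.rpow_mul (by positivity)]
        norm_num
      rw [h6] at h5
      calc C1 * h ^ (1 / 8 : ℝ) ≤ C1 * (β * γ / (8 * C1)) := mul_le_mul_of_nonneg_left h5 hC1.le
        _ = β * γ / 8 := by field_simp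
    have hp4 : 0 ≤ h ^ (1 / 8 : ℝ) := by positivity
    rw [abs_le] at hE1 hE2
    have hq1 : -(β * γ) / 2 * (N + -(β * γ) - 2) = -b1 := by rw [hb1]; ring
    rw [hq1, hp1] at hE1
    rw [hp1] at hE2
    have hE1u : e1 ≤ 1 - β * γ / 8 * h := by
      have h5 : C1 * (h * h ^ (1 / 8 : ℝ)) ≤ β * γ / 8 * h := by
        calc C1 * (h * h ^ (1 / 8 : ℝ)) = (C1 * h ^ (1 / 8 : ℝ)) * h := by ring
          _ ≤ β * γ / 8 * h := mul_le_mul_of_nonneg_right hp3 hh.le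
      have h6 : β * γ / 4 * h ≤ b1 * h := mul_le_mul_of_nonneg_right hb1' hh.le
      linarith [hE1.2]
    have hE1l : 1 - (b1 + C1) * h ≤ e1 := by
      have h5 : C1 * (h * h ^ (1 / 8 : ℝ)) ≤ C1 * h := by
        have : h * h ^ (1 / 8 : ℝ) ≤ h * 1 := mul_le_mul_of_nonneg_left hp2 hh.le
        have := mul_le_mul_of_nonneg_left this hC1.le
        linarith
      linarith [hE1.1]
    have hE2u : e2 ≤ 1 + (|b2| + C2) * h := by
      have h5 : C2 * (h * h ^ (1 / 8 : ℝ)) ≤ C2 * h := by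
        have : h * h ^ (1 / 8 : ℝ) ≤ h * 1 := mul_le_mul_of_nonneg_left hp2 hh.le
        have := mul_le_mul_of_nonneg_left this hC2.le
        linarith
      have h6 : b2 * h ≤ |b2| * h := mul_le_mul_of_nonneg_right (le_abs_self _) hh.le
      linarith [hE2.2]
    set W := (1 + ‖g‖ ^ (-β)) ^ γ with hW
    set κ := (1 + ‖g‖ ^ (-β)) ^ (γ - 1) with hκ
    have hZ : 0 < ‖g‖ ^ (-β) := by positivity
    have hW0 : 0 ≤ W := by positivity
    have hκ0 : 0 ≤ κ := by positivity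
    have hκ1 : κ ≤ 1 := Real.rpow_le_one_of_one_le_of_nonpos (by linarith) (by linarith)
    set F : E N → ℝ := fun ξ => W * ‖uni g + Real.sqrt h • ξ‖ ^ (-(β * γ)) +
        γ * κ * (‖uni g + Real.sqrt h • ξ‖ ^ (β * (1 - γ)) -
          ‖uni g + Real.sqrt h • ξ‖ ^ (-(β * γ))) + γ * (β * h) with hF
    have hpt : ∀ᵐ ξ ∂ν, (1 + ‖hat β h g ξ‖ ^ (-β)) ^ γ ≤ F ξ := by
      filter_upwards [noise_ae hh hh3 hν] with ξ hξ
      have h5 := (hξ.2 (uni g) hu).1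
      exact momb_two hβ hh hγ0 (by linarith) hg (by linarith)
    have hFint : Integrable F ν := by
      rw [hF]
      exact ((hI1.const_mul W).add ((hI2.sub hI1).const_mul (γ * κ))).add (integrable_const _)
    have hFnn : 0 ≤ᵐ[ν] F := by
      filter_upwards [hpt] with ξ hξ
      exact le_trans (by positivity) hξ
    have hFval : ∫ ξ, F ξ ∂ν = W * e1 + γ * κ * (e2 - e1) + γ * (β * h) := by
      have i1 : Integrable (fun ξ => W * ‖uni g + Real.sqrt h • ξ‖ ^ (-(β * γ))) ν := hI1.const_mul W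
      have i2 : Integrable (fun ξ => γ * κ * (‖uni g + Real.sqrt h • ξ‖ ^ (β * (1 - γ)) -
          ‖uni g + Real.sqrt h • ξ‖ ^ (-(β * γ)))) ν := (hI2.sub hI1).const_mul (γ * κ)
      have i3 : Integrable (fun ξ => W * ‖uni g + Real.sqrt h • ξ‖ ^ (-(β * γ)) + γ * κ *
          (‖uni g + Real.sqrt h • ξ‖ ^ (β * (1 - γ)) -
          ‖uni g + Real.sqrt h • ξ‖ ^ (-(β * γ)))) ν := i1.add i2
      have j1 := integral_add i3 (integrable_const (γ * (β * h)) (μ := ν))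
      have j2 := integral_add i1 i2
      have j3 := integral_sub hI2 hI1
      rw [j2, integral_const_mul, integral_const_mul, j3] at j1
      simpa [hF] using j1
    have hbd : W * e1 + γ * κ * (e2 - e1) + γ * (β * h) ≤
        (1 - β * γ / 8 * h) * W + (|b2| + C2 + b1 + C1 + β) * h := by
      have h5 : W * e1 ≤ W * (1 - β * γ / 8 * h) := mul_le_mul_of_nonneg_left hE1u hW0
      have h6 : e2 - e1 ≤ (|b2| + C2 + b1 + C1) * h := by linarith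
      have h7 : 0 ≤ (|b2| + C2 + b1 + C1) * h := by positivity
      have h8 : γ * κ * (e2 - e1) ≤ γ * κ * ((|b2| + C2 + b1 + C1) * h) :=
        mul_le_mul_of_nonneg_left h6 (by positivity)
      have h9 : γ * κ ≤ 1 := by nlinarith
      have h10 : γ * κ * ((|b2| + C2 + b1 + C1) * h) ≤ 1 * ((|b2| + C2 + b1 + C1) * h) :=
        mul_le_mul_of_nonneg_right h9 h7
      have h11 : γ * (β * h) ≤ 1 * (β * h) :=
        mul_le_mul_of_nonneg_right (by linarith) (by positivity)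
      linarith
    have hc1 : 0 ≤ 1 - β * γ / 8 * h := by nlinarith
    calc ∫⁻ ξ, ENNReal.ofReal ((1 + ‖hat β h g ξ‖ ^ (-β)) ^ γ) ∂ν
        ≤ ∫⁻ ξ, ENNReal.ofReal (F ξ) ∂ν := by
          refine lintegral_mono_ae ?_
          filter_upwards [hpt] with ξ hξ
          exact ENNReal.ofReal_le_ofReal hξ
      _ = ENNReal.ofReal (∫ ξ, F ξ ∂ν) := (ofReal_integral_eq_lintegral_ofReal hFint hFnn).symm
      _ ≤ ENNReal.ofReal ((1 - β * γ / 8 * h) * W + (|b2| + C2 + b1 + C1 + β) * h) := by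
          rw [hFval]
          exact ENNReal.ofReal_le_ofReal hbd
      _ ≤ ENNReal.ofReal ((1 - β * γ / 8 * h) * W) +
            ENNReal.ofReal ((|b2| + C2 + b1 + C1 + β) * h) := ENNReal.ofReal_add_le
      _ = _ := by rw [ENNReal.ofReal_mul hc1]

theorem w_ev {N : ℕ} (hN : 3 ≤ N) {β : ℝ} (hβ : 0 < β) : ∃ γ K h0 : ℝ, 0 < γ ∧ 0 < K ∧
    0 < h0 ∧ h0 ≤ 1 / 1000 ∧
    ∀ (h : ℝ) (ν : Measure (E N)), 0 < h → h < h0 → IsNoise h ν → ∀ (n : ℕ) (g : E N), g ≠ 0 →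
      h * ‖g‖ ^ β ≤ 1 →
      ev (hat β h) ν (fun g => ENNReal.ofReal ((1 + ‖g‖ ^ (-β)) ^ γ)) n g ≤
        ENNReal.ofReal ((1 + ‖g‖ ^ (-β)) ^ γ + K) := by
  obtain ⟨γ, c, C, h0, hγ, _, hc, hC, hh0, hh1, hch, H⟩ := w_step hN hβ
  refine ⟨γ, C / c, h0, hγ, by positivity, hh0, hh1, fun h ν hh hlt hν n g hg hs => ?_⟩
  have hprob := hν.prob
  have hh3 : h < 1 / 1000 := hlt.trans_le hh1
  have hch1 : c * h ≤ 1 := (mul_le_mul_of_nonneg_left hlt.le hc.le).trans hch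
  have hch0 : 0 ≤ c * h := by positivity
  have hmeas : Measurable fun g : E N => ENNReal.ofReal ((1 + ‖g‖ ^ (-β)) ^ γ) := by
    fun_prop
  have hA : ∀ x ∈ {g : E N | g ≠ 0 ∧ h * ‖g‖ ^ β ≤ 1}, ∀ᵐ ξ ∂ν,
      hat β h x ξ ∈ {g : E N | g ≠ 0 ∧ h * ‖g‖ ^ β ≤ 1} := by
    intro x hx
    have hx0 : 0 < ‖x‖ := norm_pos_iff.2 hx.1
    have hu : ‖uni x‖ = 1 := by
      unfold uni
      rw [norm_smul, norm_div, norm_one, norm_norm]
      field_simp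
    filter_upwards [noise_ae hh hh3 hν] with ξ hξ
    have h5 := hξ.2 (uni x) hu
    have h6 : 0 < ‖uni x + Real.sqrt h • ξ‖ := by linarith [h5.1]
    exact ⟨(hat_step hβ hh.le hx.1 h6).1, hat_inv hβ hh hx.1 h6 h5.2 hx.2⟩
  have h7 := ev_drift_add (f := hat β h) (μ := ν) (measurable_hat hβ hh.le)
    {g : E N | g ≠ 0 ∧ h * ‖g‖ ^ β ≤ 1} hA hmeas (c * h) (C / c) hch0 hch1 (by positivity)
    (fun x hx => by
      have h8 := H h ν hh hlt hν x hx.1 hx.2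
      have h9 : c * h * (C / c) = C * h := by field_simp
      rw [h9]
      exact h8) n g ⟨hg, hs⟩
  refine h7.trans ?_
  rw [ENNReal.ofReal_add (by positivity) (by positivity)]
  gcongr
  calc ENNReal.ofReal ((1 - c * h) ^ n) * ENNReal.ofReal ((1 + ‖g‖ ^ (-β)) ^ γ)
      ≤ 1 * ENNReal.ofReal ((1 + ‖g‖ ^ (-β)) ^ γ) := by
        gcongr
        rw [ENNReal.ofReal_le_one]
        exact pow_le_one₀ (by linarith) (by linarith)
    _ = _ := one_mul _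

end DynS
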