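import Pool.Agent.Lib_MP_36b788s.Pth
import Pool.Agent.Lib_MP_36b788.Psi
import Pool.Agent.Lib_MP_36b788.JMap

/-!
# ONE, part A: deterministic estimates for `N = 1`

`S1 x = Σ_y κ^{|x-y|}‖G y‖`, `Ph1 = Σ_x 2^{-|x0-x|}√(S1 x)`.

PROOF.
* `one_coup` (any `N`): `‖coup G y‖ ≤ Σ_{z∈nb y}‖G z‖ + 2d‖G y‖`. `Σ_yκ^{|x-y|}kΣ_{z∈nb y}‖G z‖ = Σ_z‖G z‖Σ_{y∈nb z}kκ^{|x-y|}` (`nb_symm`), and
  `kκ^{|x-y|} = κ^{|x-y|+1}/A ≤ κ^{|x-z|}/A` (`κ ≤ 1`, `|x-z| ≤ |x-y|+1`), at most `2d` neighbours: `≤ (2d/A)S1 x`. Second part: `k = κ/A ≤ 1/A`: `≤ (2d/A)S1 x`.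
* `one_det`: `‖stp y‖ ≤ ‖hat (G y)(ξ y)‖ + kh‖coup G y‖`, `‖hat g ξ‖ ≤ ‖g+√h‖g‖ξ‖ = ‖g‖‖e+√hξ‖` (`e = uni g`, `g ≠ 0`), and for `N = 1`, `ξ = ⟪e,ξ⟫e`:
  `‖e+√hξ‖ = |1+√h⟪e,ξ⟫| = 1+√h⟪e,ξ⟫`. For `g = 0` both sides are zero. Then `one_coup`.
* `one_sqrt`: square; `1/4-2a-at+a²t² ≥ 0` for `a = 9/80`, `|t| ≤ 1/5`: `1/40 ≥ (9/80)(1/5)`.
* `one_bad`: if `‖G x‖ < S_x/2` then `S_x ≤ 2Σ_{y≠x}κ^{|x-y|}‖G y‖ ≤ 2Σ_{y≠x}κ^{|x-y|}S_y`, so `√S_x ≤ √2Σ_{y≠x}(√κ)^{|x-y|}√S_y` (`√(Σa_i) ≤ Σ√a_i`).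
  `2^{-|x0-x|} ≤ 2^{-|x0-y|}2^{|x-y|}`. Hence the sum over bad `x` is `≤ √2Σ_y2^{-|x0-y|}√S_yΣ_{x≠y}(2√κ)^{|x-y|}` and, for `n ≥ 1`,
  `(2√κ)^n = (4√κ)^n2^{-n} ≤ 4√κ2^{-n}` (`4√κ ≤ 1`), `Σ_x2^{-|x-y|} ≤ 3^d`: total `≤ 4√2√κ3^d Ph1 ≤ Ph1/2` since `128·9^dκ ≤ 1`.
-/

open MeasureTheory ProbabilityTheory Dyn
open scoped ENNReal

namespace DynS

noncomputable section

variable {N d : ℕ} {ι : Type} [Fintype ι]

def S1 (net : Net ι d) (κ : ℝ) (G : ι → E N) (x : ι) : ℝ := ∑ y, κ ^ net.dist x y * ‖G y‖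

def Ph1 (net : Net ι d) (κ : ℝ) (x0 : ι) (G : ι → E N) : ℝ :=
  ∑ x, (1 / 2 : ℝ) ^ net.dist x0 x * Real.sqrt (S1 net κ G x)

private theorem OneA_coup (net : Net ι d) (G : ι → E N) (y : ι) :
    ‖coup net G y‖ ≤ ∑ z ∈ net.nb y, ‖G z‖ + 2 * d * ‖G y‖ := by
  unfold coup
  refine (norm_sub_le _ _).trans (add_le_add (norm_sum_le _ _) (le_of_eq ?_))
  rw [norm_smul, Real.norm_of_nonneg (Nat.cast_nonneg _)]
  push_cast
  ring

theorem one_coup (net : Net ι d) {κ k A : ℝ} (hA : 0 < A) (hk : 0 ≤ k) (hκ : κ = A * k)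
    (hκ1 : κ ≤ 1) (G : ι → E N) (x : ι) :
    ∑ y, κ ^ net.dist x y * (k * ‖coup net G y‖) ≤ 4 * d / A * S1 net κ G x := by
  have hκ0 : 0 ≤ κ := by rw [hκ]; positivity
  have hkA : k = κ / A := by rw [hκ]; field_simp
  have h1 : ∑ y, κ ^ net.dist x y * (k * ‖coup net G y‖) ≤
      ∑ y, ∑ z ∈ net.nb y, κ ^ net.dist x y * k * ‖G z‖ +
      ∑ y, κ ^ net.dist x y * k * (2 * d * ‖G y‖) := by
    rw [← Finset.sum_add_distrib]
    refine Finset.sum_le_sum fun y _ => ?_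
    rw [← Finset.mul_sum, ← mul_add, ← mul_assoc]
    exact mul_le_mul_of_nonneg_left (OneA_coup net G y) (by positivity)
  have h2 : ∑ y, ∑ z ∈ net.nb y, κ ^ net.dist x y * k * ‖G z‖ =
      ∑ z, ∑ y ∈ net.nb z, κ ^ net.dist x y * k * ‖G z‖ := by
    refine Finset.sum_comm' fun a b => ?_
    simp only [Finset.mem_univ, true_and, and_true]
    exact ⟨fun h => net.nb_symm _ _ h, fun h => net.nb_symm _ _ h⟩
  have h3 : ∑ z, ∑ y ∈ net.nb z, κ ^ net.dist x y * k * ‖G z‖ ≤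
      ∑ z, 2 * d / A * (κ ^ net.dist x z * ‖G z‖) := by
    refine Finset.sum_le_sum fun z _ => ?_
    have h4 : ∑ y ∈ net.nb z, κ ^ net.dist x y * k * ‖G z‖ ≤
        ∑ _y ∈ net.nb z, κ ^ net.dist x z / A * ‖G z‖ := by
      refine Finset.sum_le_sum fun y hy => ?_
      refine mul_le_mul_of_nonneg_right ?_ (norm_nonneg _)
      have h5 : net.dist x z ≤ net.dist x y + 1 := by
        have h6 := net.dist_tri x y z
        have h7 := net.dist_nb y z (net.nb_symm _ _ hy)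
        omega
      have h8 : κ ^ net.dist x y * k = κ ^ (net.dist x y + 1) / A := by
        rw [hkA, pow_succ]
        ring
      rw [h8]
      exact div_le_div_of_nonneg_right (pow_le_pow_of_le_one hκ0 hκ1 h5) hA.le
    refine h4.trans ?_
    rw [Finset.sum_const, nsmul_eq_mul]
    have h9 : ((net.nb z).card : ℝ) ≤ 2 * d := by exact_mod_cast net.nb_card z
    have h10 : 0 ≤ κ ^ net.dist x z / A * ‖G z‖ := by positivity
    calc ((net.nb z).card : ℝ) * (κ ^ net.dist x z / A * ‖G z‖)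
        ≤ 2 * d * (κ ^ net.dist x z / A * ‖G z‖) := mul_le_mul_of_nonneg_right h9 h10
      _ = 2 * d / A * (κ ^ net.dist x z * ‖G z‖) := by ring
  have h4 : ∑ y, κ ^ net.dist x y * k * (2 * d * ‖G y‖) ≤
      ∑ y, 2 * d / A * (κ ^ net.dist x y * ‖G y‖) := by
    refine Finset.sum_le_sum fun y _ => ?_
    have h5 : k ≤ 1 / A := by
      rw [hkA]
      exact div_le_div_of_nonneg_right hκ1 hA.le
    calc κ ^ net.dist x y * k * (2 * d * ‖G y‖)
        = k * (κ ^ net.dist x y * (2 * d * ‖G y‖)) := by ring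
      _ ≤ 1 / A * (κ ^ net.dist x y * (2 * d * ‖G y‖)) :=
        mul_le_mul_of_nonneg_right h5 (by positivity)
      _ = 2 * d / A * (κ ^ net.dist x y * ‖G y‖) := by ring
  rw [← Finset.mul_sum] at h3 h4
  have h5 : ∑ y, κ ^ net.dist x y * ‖G y‖ = S1 net κ G x := rfl
  rw [h5] at h3 h4
  rw [h2] at h1
  calc ∑ y, κ ^ net.dist x y * (k * ‖coup net G y‖)
      ≤ 2 * d / A * S1 net κ G x + 2 * d / A * S1 net κ G x := h1.trans (add_le_add h3 h4)
    _ = 4 * d / A * S1 net κ G x := by ring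

private theorem OneA_vec {h : ℝ} (g ξ : E 1) (hg : g ≠ 0) :
    g + (Real.sqrt h * ‖g‖) • ξ = (1 + Real.sqrt h * inner ℝ (uni g) ξ) • g := by
  have hn : 0 < ‖g‖ := norm_pos_iff.2 hg
  have h1 : ‖g‖ ^ 2 = g 0 ^ 2 := by
    rw [EuclideanSpace.norm_sq_eq]
    simp
  have h2 : inner ℝ (uni g) ξ = 1 / ‖g‖ * (g 0 * ξ 0) := by
    unfold uni
    rw [real_inner_smul_left, PiLp.inner_apply]
    simp [mul_comm]
  rw [h2]
  ext i
  have hi : i = 0 := Subsingleton.elim _ _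
  subst hi
  simp only [PiLp.add_apply, PiLp.smul_apply, smul_eq_mul]
  have h3 : (1 + Real.sqrt h * (1 / ‖g‖ * (g 0 * ξ 0))) * g 0 =
      g 0 + Real.sqrt h * (1 / ‖g‖ * (g 0 ^ 2 * ξ 0)) := by ring
  rw [h3, ← h1]
  field_simp

private theorem OneA_hat {β h : ℝ} (hβ : 0 < β) (hh : 0 < h) (g ξ : E 1)
    (hξ : Real.sqrt h * ‖ξ‖ ≤ 1 / 10) :
    ‖hat β h g ξ‖ ≤ ‖g‖ + Real.sqrt h * (‖g‖ * inner ℝ (uni g) ξ) := by
  rcases eq_or_ne g 0 with hg | hg
  · rw [hg, hat_zero]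
    simp
  · have h1 : ‖hat β h g ξ‖ ≤ ‖g + (Real.sqrt h * ‖g‖) • ξ‖ := by
      unfold hat
      rw [norm_J hβ hh.le]
      exact psi_le hβ hh.le (norm_nonneg _)
    refine h1.trans (le_of_eq ?_)
    have hu : ‖uni g‖ = 1 := by
      unfold uni
      rw [norm_smul, Real.norm_of_nonneg (by positivity)]
      have : ‖g‖ ≠ 0 := norm_ne_zero_iff.2 hg
      field_simp
    have h2 : |Real.sqrt h * inner ℝ (uni g) ξ| ≤ 1 / 10 := by
      rw [abs_mul, abs_of_nonneg (Real.sqrt_nonneg h)]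
      refine le_trans (mul_le_mul_of_nonneg_left ?_ (Real.sqrt_nonneg h)) hξ
      have := abs_real_inner_le_norm (uni g) ξ
      rwa [hu, one_mul] at this
    have h3 : 0 ≤ 1 + Real.sqrt h * inner ℝ (uni g) ξ := by
      have := (abs_le.1 h2).1
      linarith
    rw [OneA_vec g ξ hg, norm_smul, Real.norm_of_nonneg h3]
    ring

theorem one_det (net : Net ι d) {β h κ k A : ℝ} (hβ : 0 < β) (hh : 0 < h) (hA : 0 < A)
    (hk : 0 ≤ k) (hκ : κ = A * k) (hκ1 : κ ≤ 1) (G ξ : ι → E 1)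
    (hξ : ∀ y, Real.sqrt h * ‖ξ y‖ ≤ 1 / 10) (x : ι) :
    S1 net κ (stp net β h k G ξ) x ≤ S1 net κ G x +
      Real.sqrt h * ∑ y, κ ^ net.dist x y * ‖G y‖ * inner ℝ (uni (G y)) (ξ y) +
      h * (4 * d / A * S1 net κ G x) := by
  have hκ0 : 0 ≤ κ := by rw [hκ]; positivity
  have h1 : ∀ y, ‖stp net β h k G ξ y‖ ≤ ‖G y‖ +
      Real.sqrt h * (‖G y‖ * inner ℝ (uni (G y)) (ξ y)) + h * (k * ‖coup net G y‖) := by
    intro y
    unfold stp
    refine (norm_add_le _ _).trans (add_le_add (OneA_hat hβ hh (G y) (ξ y) (hξ y)) ?_)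
    rw [norm_smul, Real.norm_of_nonneg (mul_nonneg hk hh.le)]
    exact le_of_eq (by ring)
  have h2 := one_coup net hA hk hκ hκ1 G x
  calc S1 net κ (stp net β h k G ξ) x
      ≤ ∑ y, κ ^ net.dist x y * (‖G y‖ + Real.sqrt h * (‖G y‖ * inner ℝ (uni (G y)) (ξ y)) +
          h * (k * ‖coup net G y‖)) := by
        unfold S1
        exact Finset.sum_le_sum fun y _ =>
          mul_le_mul_of_nonneg_left (h1 y) (pow_nonneg hκ0 _)
    _ = S1 net κ G x + Real.sqrt h * ∑ y, κ ^ net.dist x y * ‖G y‖ *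
          inner ℝ (uni (G y)) (ξ y) + h * ∑ y, κ ^ net.dist x y * (k * ‖coup net G y‖) := by
        unfold S1
        rw [Finset.mul_sum, Finset.mul_sum, ← Finset.sum_add_distrib, ← Finset.sum_add_distrib]
        exact Finset.sum_congr rfl fun y _ => by ring
    _ ≤ _ := by
        have := mul_le_mul_of_nonneg_left h2 hh.le
        linarith

theorem one_sqrt {t : ℝ} (ht : |t| ≤ 1 / 5) : Real.sqrt (1 + t) ≤ 1 + t / 2 - 9 / 80 * t ^ 2 := by
  obtain ⟨h1, h2⟩ := abs_le.1 ht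
  have h3 : 0 ≤ 1 + t / 2 - 9 / 80 * t ^ 2 := by nlinarith
  refine Real.sqrt_le_iff.2 ⟨h3, ?_⟩
  have h4 : (1 + t / 2 - 9 / 80 * t ^ 2) ^ 2 =
      1 + t + t ^ 2 * (1 / 40 - 9 / 80 * t + (9 / 80 * t) ^ 2) := by ring
  rw [h4]
  have h5 : 0 ≤ 1 / 40 - 9 / 80 * t + (9 / 80 * t) ^ 2 := by nlinarith [sq_nonneg (9 / 80 * t)]
  nlinarith [mul_nonneg (sq_nonneg t) h5]

private theorem OneA_sqrt_sum {α : Type} (s : Finset α) (f : α → ℝ) (hf : ∀ i ∈ s, 0 ≤ f i) :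
    Real.sqrt (∑ i ∈ s, f i) ≤ ∑ i ∈ s, Real.sqrt (f i) := by
  classical
  induction s using Finset.induction_on with
  | empty => simp
  | insert a s ha ih =>
    rw [Finset.sum_insert ha, Finset.sum_insert ha]
    have h1 := ih fun i hi => hf i (Finset.mem_insert_of_mem hi)
    have h2 := hf a (Finset.mem_insert_self a s)
    have h3 : 0 ≤ ∑ i ∈ s, f i := Finset.sum_nonneg fun i hi => hf i (Finset.mem_insert_of_mem hi)
    refine le_trans ?_ (add_le_add le_rfl h1)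
    refine Real.sqrt_le_iff.2 ⟨by positivity, ?_⟩
    have h4 := Real.sq_sqrt h2
    have h5 := Real.sq_sqrt h3
    have h6 : 0 ≤ Real.sqrt (f a) * Real.sqrt (∑ i ∈ s, f i) := by positivity
    nlinarith

private theorem OneA_pow {κ : ℝ} (hκ : 0 ≤ κ) (h4 : 4 * Real.sqrt κ ≤ 1) {n : ℕ} (hn : 1 ≤ n) :
    (2 : ℝ) ^ n * Real.sqrt (κ ^ n) ≤ 4 * Real.sqrt κ * (1 / 2) ^ n := by
  have h1 : Real.sqrt (κ ^ n) = Real.sqrt κ ^ n := Real.sqrt_eq_iff_mul_self_eq (by positivity)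
    (by positivity) |>.2 (by rw [← mul_pow, Real.mul_self_sqrt hκ])
  have h2 : (2 : ℝ) ^ n * Real.sqrt κ ^ n = (4 * Real.sqrt κ) ^ n * (1 / 2) ^ n := by
    rw [← mul_pow, ← mul_pow]
    congr 1
    ring
  rw [h1, h2]
  refine mul_le_mul_of_nonneg_right ?_ (by positivity)
  calc (4 * Real.sqrt κ) ^ n ≤ (4 * Real.sqrt κ) ^ 1 :=
        pow_le_pow_of_le_one (by positivity) h4 hn
    _ = 4 * Real.sqrt κ := pow_one _

private theorem OneA_S1_nonneg (net : Net ι d) {κ : ℝ} (hκ : 0 ≤ κ) (G : ι → E N) (x : ι) :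
    0 ≤ S1 net κ G x := Finset.sum_nonneg fun y _ => by positivity

private theorem OneA_le_S1 (net : Net ι d) {κ : ℝ} (hκ : 0 ≤ κ) (G : ι → E N) (x : ι) :
    ‖G x‖ ≤ S1 net κ G x := by
  unfold S1
  have h1 : κ ^ net.dist x x * ‖G x‖ = ‖G x‖ := by rw [net.dist_self, pow_zero, one_mul]
  rw [← h1]
  exact Finset.single_le_sum (f := fun y => κ ^ net.dist x y * ‖G y‖)
    (fun y _ => by positivity) (Finset.mem_univ x)

open Classical in
private theorem OneA_badx (net : Net ι d) {κ : ℝ} (hκ : 0 ≤ κ) (G : ι → E N) (x : ι)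
    (hb : ‖G x‖ < S1 net κ G x / 2) :
    Real.sqrt (S1 net κ G x) ≤ Real.sqrt 2 * ∑ y ∈ Finset.univ.erase x,
      Real.sqrt (κ ^ net.dist x y) * Real.sqrt (S1 net κ G y) := by
  have h1 : S1 net κ G x = ‖G x‖ + ∑ y ∈ Finset.univ.erase x, κ ^ net.dist x y * ‖G y‖ := by
    unfold S1
    rw [← Finset.add_sum_erase _ _ (Finset.mem_univ x), net.dist_self, pow_zero, one_mul]
  have h2 : S1 net κ G x ≤ 2 * ∑ y ∈ Finset.univ.erase x, κ ^ net.dist x y * S1 net κ G y := by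
    have h3 : ∑ y ∈ Finset.univ.erase x, κ ^ net.dist x y * ‖G y‖ ≤
        ∑ y ∈ Finset.univ.erase x, κ ^ net.dist x y * S1 net κ G y :=
      Finset.sum_le_sum fun y _ =>
        mul_le_mul_of_nonneg_left (OneA_le_S1 net hκ G y) (by positivity)
    linarith
  refine (Real.sqrt_le_sqrt h2).trans ?_
  rw [Real.sqrt_mul (by norm_num)]
  refine mul_le_mul_of_nonneg_left ?_ (Real.sqrt_nonneg 2)
  refine (OneA_sqrt_sum _ _ fun y _ => ?_).trans (le_of_eq ?_)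
  · have := OneA_S1_nonneg net hκ G y
    positivity
  · exact Finset.sum_congr rfl fun y _ => Real.sqrt_mul (pow_nonneg hκ _) _

open Classical in
theorem one_bad (net : Net ι d) {κ : ℝ} (hκ : 0 ≤ κ) (hκ1 : 128 * 9 ^ d * κ ≤ 1) (x0 : ι)
    (G : ι → E N) :
    ∑ x, (if ‖G x‖ < S1 net κ G x / 2 then
      (1 / 2 : ℝ) ^ net.dist x0 x * Real.sqrt (S1 net κ G x) else 0) ≤
      1 / 2 * Ph1 net κ x0 G := by
  have h9 : (1 : ℝ) ≤ 9 ^ d := one_le_pow₀ (by norm_num)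
  have hκs : κ ≤ 1 / 16 := by nlinarith
  have h4 : 4 * Real.sqrt κ ≤ 1 := by
    have : Real.sqrt κ ≤ 1 / 4 := Real.sqrt_le_iff.2 ⟨by norm_num, by linarith⟩
    linarith
  have hS := fun y => OneA_S1_nonneg net hκ G y
  -- pointwise
  have h5 : ∀ x, (if ‖G x‖ < S1 net κ G x / 2 then
      (1 / 2 : ℝ) ^ net.dist x0 x * Real.sqrt (S1 net κ G x) else 0) ≤
      ∑ y, Real.sqrt 2 * (4 * Real.sqrt κ) * ((1 / 2) ^ net.dist y x *
        ((1 / 2) ^ net.dist x0 y * Real.sqrt (S1 net κ G y))) := by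
    intro x
    split_ifs with hb
    · have h6 := OneA_badx net hκ G x hb
      calc (1 / 2 : ℝ) ^ net.dist x0 x * Real.sqrt (S1 net κ G x)
          ≤ (1 / 2 : ℝ) ^ net.dist x0 x * (Real.sqrt 2 * ∑ y ∈ Finset.univ.erase x,
            Real.sqrt (κ ^ net.dist x y) * Real.sqrt (S1 net κ G y)) :=
            mul_le_mul_of_nonneg_left h6 (by positivity)
        _ = ∑ y ∈ Finset.univ.erase x, Real.sqrt 2 * ((1 / 2 : ℝ) ^ net.dist x0 x *
            Real.sqrt (κ ^ net.dist x y)) * Real.sqrt (S1 net κ G y) := by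
            rw [Finset.mul_sum, Finset.mul_sum]
            exact Finset.sum_congr rfl fun y _ => by ring
        _ ≤ ∑ y ∈ Finset.univ.erase x, Real.sqrt 2 * (4 * Real.sqrt κ) *
            ((1 / 2) ^ net.dist y x * ((1 / 2) ^ net.dist x0 y * Real.sqrt (S1 net κ G y))) := by
            refine Finset.sum_le_sum fun y hy => ?_
            have hyx : y ≠ x := Finset.ne_of_mem_erase hy
            have h7 : (1 / 2 : ℝ) ^ net.dist x0 x ≤ (1 / 2) ^ net.dist x0 y * 2 ^ net.dist x y := by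
              have h8 : net.dist x0 y ≤ net.dist x0 x + net.dist x y := net.dist_tri _ _ _
              have h10 : (1 / 2 : ℝ) ^ (net.dist x0 x + net.dist x y) ≤
                  (1 / 2) ^ net.dist x0 y :=
                pow_le_pow_of_le_one (by norm_num) (by norm_num) h8
              have h11 : (1 / 2 : ℝ) ^ net.dist x0 x =
                  (1 / 2) ^ (net.dist x0 x + net.dist x y) * 2 ^ net.dist x y := by
                rw [pow_add, mul_assoc, ← mul_pow]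
                norm_num
              rw [h11]
              exact mul_le_mul_of_nonneg_right h10 (by positivity)
            have h12 : 1 ≤ net.dist x y := net.dist_pos x y hyx.symm
            have h13 := OneA_pow hκ h4 h12
            have h14 : (1 / 2 : ℝ) ^ net.dist x0 x * Real.sqrt (κ ^ net.dist x y) ≤
                (1 / 2) ^ net.dist x0 y * (4 * Real.sqrt κ * (1 / 2) ^ net.dist x y) := by
              calc (1 / 2 : ℝ) ^ net.dist x0 x * Real.sqrt (κ ^ net.dist x y)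
                  ≤ ((1 / 2) ^ net.dist x0 y * 2 ^ net.dist x y) *
                    Real.sqrt (κ ^ net.dist x y) :=
                    mul_le_mul_of_nonneg_right h7 (Real.sqrt_nonneg _)
                _ = (1 / 2) ^ net.dist x0 y * (2 ^ net.dist x y *
                    Real.sqrt (κ ^ net.dist x y)) := by ring
                _ ≤ _ := mul_le_mul_of_nonneg_left h13 (by positivity)
            rw [net.dist_comm y x]
            calc Real.sqrt 2 * ((1 / 2 : ℝ) ^ net.dist x0 x * Real.sqrt (κ ^ net.dist x y)) *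
                  Real.sqrt (S1 net κ G y)
                ≤ Real.sqrt 2 * ((1 / 2) ^ net.dist x0 y *
                  (4 * Real.sqrt κ * (1 / 2) ^ net.dist x y)) * Real.sqrt (S1 net κ G y) := by
                  refine mul_le_mul_of_nonneg_right ?_ (Real.sqrt_nonneg _)
                  exact mul_le_mul_of_nonneg_left h14 (Real.sqrt_nonneg _)
              _ = _ := by ring
        _ ≤ _ := by
            refine Finset.sum_le_sum_of_subset_of_nonneg (Finset.erase_subset _ _) fun y _ _ => ?_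
            positivity
    · exact Finset.sum_nonneg fun y _ => by positivity
  have h6 : ∑ x, ∑ y, Real.sqrt 2 * (4 * Real.sqrt κ) * ((1 / 2) ^ net.dist y x *
        ((1 / 2) ^ net.dist x0 y * Real.sqrt (S1 net κ G y))) ≤
      Real.sqrt 2 * (4 * Real.sqrt κ) * 3 ^ d * Ph1 net κ x0 G := by
    rw [Finset.sum_comm]
    unfold Ph1
    rw [Finset.mul_sum]
    refine Finset.sum_le_sum fun y _ => ?_
    rw [← Finset.mul_sum, ← Finset.sum_mul]
    have h7 := net.sum_half y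
    have h8 : 0 ≤ (1 / 2 : ℝ) ^ net.dist x0 y * Real.sqrt (S1 net κ G y) := by positivity
    calc Real.sqrt 2 * (4 * Real.sqrt κ) * ((∑ x, (1 / 2 : ℝ) ^ net.dist y x) *
          ((1 / 2) ^ net.dist x0 y * Real.sqrt (S1 net κ G y)))
        ≤ Real.sqrt 2 * (4 * Real.sqrt κ) * (3 ^ d *
          ((1 / 2) ^ net.dist x0 y * Real.sqrt (S1 net κ G y))) := by
          refine mul_le_mul_of_nonneg_left ?_ (by positivity)
          exact mul_le_mul_of_nonneg_right h7 h8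
      _ = _ := by ring
  have h7 : Real.sqrt 2 * (4 * Real.sqrt κ) * 3 ^ d ≤ 1 / 2 := by
    refine abs_le_of_sq_le_sq' ?_ (by norm_num) |>.2
    have h8 : (Real.sqrt 2 * (4 * Real.sqrt κ) * 3 ^ d) ^ 2 =
        Real.sqrt 2 ^ 2 * (16 * Real.sqrt κ ^ 2) * (3 ^ 2) ^ d := by
      rw [mul_pow, mul_pow, mul_pow, ← pow_mul, ← pow_mul, mul_comm d 2]
      norm_num
    rw [h8, Real.sq_sqrt (by norm_num : (0 : ℝ) ≤ 2), Real.sq_sqrt hκ]
    norm_num
    linarith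
  have h8 : 0 ≤ Ph1 net κ x0 G := by
    unfold Ph1
    exact Finset.sum_nonneg fun x _ => by positivity
  calc _ ≤ _ := Finset.sum_le_sum fun x _ => h5 x
    _ ≤ _ := h6
    _ ≤ _ := mul_le_mul_of_nonneg_right h7 h8

end

end DynS
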