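import Pool.Agent.Lib_MP_36b788s.OneA
import Pool.Agent.Lib_MP_36b788.NMom

/-!
# ONE, part B: expectation of `√S_x` after one step, `N = 1`

PROOF.
* `lin_mean`, `lin_sq` (any `N ≥ 1`): `X = Σ_y⟪b_y,ξ_y⟫` under `pim ι ν = Measure.pi`. Each term is bounded a.e. (`√h‖ξ_y‖ ≤ h^{3/8}`), so integrable;
  `E X = 0` (`noise_mean`, marginal `measurePreserving_eval`). `E X² = Σ_{y,z}E⟪b_y,ξ_y⟫⟪b_z,ξ_z⟫`; off-diagonal terms vanish by independence
  (`iIndepFun_pi` / `integral_prod_mul` for two coordinates; or `MeasureTheory.integral_fintype_prod_eq_prod` for the product of two coordinate functions);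
  diagonal terms `E⟪b,ξ⟫² = ‖b‖²E‖ξ‖²/N ≥ (1-h)‖b‖²` (`noise_sq`, `IsNoise.le_mom`).
* `one_site`: `S = S1 x`. If `S = 0` then by `one_det` all terms `κ^{|x-y|}‖G y‖` vanish and `S1 (stp) x ≤ 0`. If `S > 0`: `b_y = (κ^{|x-y|}‖G y‖/S) uni (G y)`,
  `‖b_y‖ = π_y`, `Σπ_y = 1`, `X = Σ⟪b_y,ξ_y⟫`, `|√hX| ≤ 1/10` a.e. (`h^{3/8} ≤ 1/10` for `h < 1/1000`: `LogZ_ell`), `t = √hX + h c`, `c = 4d/A ≤ 1/512`, `|t| ≤ 1/5`.
  `√S1(stp) ≤ √S√(1+t) ≤ √S(1+t/2-(9/80)t²)`. `E t = hc`, `E t² = hE X² + h²c² ≥ h(1-h)Σπ_y²`. So `E√S1(stp) ≤ √S(1+h/1024-(9/80)h(1-h)Σπ²)`.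
  First claim: drop the square. Second: `π_x = ‖G x‖/S ≥ 1/2` (`dist x x = 0`) so `Σπ² ≥ 1/4`, `(9/320)(1-h) - 1/1024 ≥ 1/40` for `h ≤ 1/1000`.
  Pass to `∫⁻` by `ofReal_integral_eq_lintegral_ofReal` for the bounded majorant `√S(1+t/2-(9/80)t²) ≥ 0`.
-/

open MeasureTheory ProbabilityTheory Dyn
open scoped ENNReal

namespace DynS

variable {N d : ℕ} {ι : Type} [Fintype ι]

private theorem OneB_int {h : ℝ} (hh : 0 < h) {ν : Measure (E N)} (hν : IsNoise h ν) {f : E N → ℝ}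
    (hf : Continuous f) : Integrable f ν := by
  have := hν.prob
  obtain ⟨C, hC⟩ := (isCompact_closedBall (0 : E N) (h ^ (3 / 8 : ℝ) / Real.sqrt h)).exists_bound_of_continuousOn
    hf.continuousOn
  refine Integrable.of_bound hf.aestronglyMeasurable C ?_
  filter_upwards [hν.bdd] with ξ hξ
  refine hC ξ ?_
  rw [mem_closedBall_zero_iff, le_div_iff₀ (Real.sqrt_pos.2 hh), mul_comm]
  exact hξ

private theorem OneB_prob {h : ℝ} {ν : Measure (E N)} (hν : IsNoise h ν) :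
    IsProbabilityMeasure (pim ι ν) := by
  have := hν.prob
  unfold pim
  infer_instance

private theorem OneB_mp {h : ℝ} {ν : Measure (E N)} (hν : IsNoise h ν) (y : ι) :
    MeasurePreserving (Function.eval y) (pim ι ν) ν := by
  have := hν.prob
  exact measurePreserving_eval (fun _ : ι => ν) y

private theorem OneB_one {h : ℝ} (hh : 0 < h) {ν : Measure (E N)} (hν : IsNoise h ν) (y : ι) {f : E N → ℝ}
    (hf : Continuous f) : Integrable (fun ξ : ι → E N => f (ξ y)) (pim ι ν) ∧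
      ∫ ξ, f (ξ y) ∂(pim ι ν) = ∫ ξ, f ξ ∂ν := by
  have hm := OneB_mp (ι := ι) hν y
  refine ⟨hm.integrable_comp_of_integrable (OneB_int hh hν hf), ?_⟩
  have h6 := integral_map (μ := pim ι ν) hm.measurable.aemeasurable (f := f)
    (Continuous.aestronglyMeasurable hf)
  rw [hm.map_eq] at h6
  exact h6.symm

private theorem OneB_bdd {h : ℝ} {ν : Measure (E N)} (hν : IsNoise h ν) :
    ∀ᵐ ξ ∂(pim ι ν), ∀ y, Real.sqrt h * ‖ξ y‖ ≤ h ^ (3 / 8 : ℝ) := by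
  rw [ae_all_iff]
  intro y
  exact (OneB_mp (ι := ι) hν y).quasiMeasurePreserving.ae hν.bdd

theorem lin_mean {h : ℝ} (hh : 0 < h) {ν : Measure (E N)} (hν : IsNoise h ν) (b : ι → E N) :
    Integrable (fun ξ : ι → E N => ∑ y, inner ℝ (b y) (ξ y)) (pim ι ν) ∧
      ∫ ξ, (∑ y, inner ℝ (b y) (ξ y)) ∂(pim ι ν) = 0 := by
  have h1 : ∀ y, Continuous fun ξ : E N => inner ℝ (b y) ξ := fun y => by fun_prop
  refine ⟨integrable_finsetSum _ fun y _ => (OneB_one hh hν y (h1 y)).1, ?_⟩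
  rw [integral_finsetSum _ fun y _ => (OneB_one hh hν y (h1 y)).1]
  refine Finset.sum_eq_zero fun y _ => ?_
  rw [(OneB_one hh hν y (h1 y)).2]
  exact noise_mean hh hν (b y)

private theorem OneB_prod {h : ℝ} (hh : 0 < h) {ν : Measure (E N)} (hν : IsNoise h ν)
    (b : ι → E N) (y z : ι) :
    Integrable (fun ξ : ι → E N => inner ℝ (b y) (ξ y) * inner ℝ (b z) (ξ z)) (pim ι ν) := by
  have := OneB_prob (ι := ι) hν
  set C : ℝ := h ^ (3 / 8 : ℝ) / Real.sqrt h with hC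
  have hC0 : 0 ≤ C := by positivity
  refine Integrable.of_bound (Continuous.aestronglyMeasurable (by fun_prop)) ((‖b y‖ * C) * (‖b z‖ * C)) ?_
  filter_upwards [OneB_bdd (ι := ι) hν] with ξ hξ
  have h1 : ∀ w, ‖(inner ℝ (b w) (ξ w) : ℝ)‖ ≤ ‖b w‖ * C := by
    intro w
    refine (norm_inner_le_norm _ _).trans (mul_le_mul_of_nonneg_left ?_ (norm_nonneg _))
    rw [hC, le_div_iff₀ (Real.sqrt_pos.2 hh), mul_comm]
    exact hξ w
  rw [norm_mul]
  exact mul_le_mul (h1 y) (h1 z) (norm_nonneg _) (by positivity)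

private theorem OneB_off {h : ℝ} (hh : 0 < h) {ν : Measure (E N)} (hν : IsNoise h ν)
    (b : ι → E N) {y z : ι} (hyz : y ≠ z) :
    ∫ ξ, inner ℝ (b y) (ξ y) * inner ℝ (b z) (ξ z) ∂(pim ι ν) = 0 := by
  classical
  have := hν.prob
  have h1 : ∀ ξ : ι → E N, (inner ℝ (b y) (ξ y) * inner ℝ (b z) (ξ z) : ℝ) =
      ∏ i, (fun (i : ι) (v : E N) => (if i = y then (inner ℝ (b y) v : ℝ) else 1) *
        (if i = z then (inner ℝ (b z) v : ℝ) else 1)) i (ξ i) := by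
    intro ξ
    simp only [Finset.prod_mul_distrib, Finset.prod_ite_eq', Finset.mem_univ, if_true]
  have h2 : ∫ ξ, inner ℝ (b y) (ξ y) * inner ℝ (b z) (ξ z) ∂(pim ι ν) =
      ∏ i, ∫ v, (fun (i : ι) (v : E N) => (if i = y then (inner ℝ (b y) v : ℝ) else 1) *
        (if i = z then (inner ℝ (b z) v : ℝ) else 1)) i v ∂ν := by
    rw [← integral_fintype_prod_eq_prod (μ := fun _ : ι => ν)]
    exact integral_congr_ae (Filter.Eventually.of_forall h1)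
  rw [h2]
  refine Finset.prod_eq_zero (Finset.mem_univ y) ?_
  simp only [if_true, if_neg hyz, mul_one]
  exact noise_mean hh hν (b y)

theorem lin_sq {h : ℝ} (hh : 0 < h) (hN : 1 ≤ N) {ν : Measure (E N)} (hν : IsNoise h ν)
    (b : ι → E N) :
    Integrable (fun ξ : ι → E N => (∑ y, inner ℝ (b y) (ξ y)) ^ 2) (pim ι ν) ∧
      (1 - h) * ∑ y, ‖b y‖ ^ 2 ≤ ∫ ξ, (∑ y, inner ℝ (b y) (ξ y)) ^ 2 ∂(pim ι ν) := by
  classical
  have h1 : (fun ξ : ι → E N => (∑ y, inner ℝ (b y) (ξ y)) ^ 2) =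
      fun ξ => ∑ y, ∑ z, inner ℝ (b y) (ξ y) * inner ℝ (b z) (ξ z) := by
    funext ξ
    rw [sq, Finset.sum_mul_sum]
  have hN0 : (0 : ℝ) < N := by exact_mod_cast hN
  rw [h1]
  refine ⟨integrable_finsetSum _ fun y _ => integrable_finsetSum _ fun z _ => OneB_prod hh hν b y z, ?_⟩
  rw [integral_finsetSum _ fun y _ => integrable_finsetSum _ fun z _ => OneB_prod hh hν b y z, Finset.mul_sum]
  refine Finset.sum_le_sum fun y _ => ?_
  rw [integral_finsetSum _ fun z _ => OneB_prod hh hν b y z]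
  have h2 : ∑ z, ∫ ξ, inner ℝ (b y) (ξ y) * inner ℝ (b z) (ξ z) ∂(pim ι ν) =
      ∫ ξ, inner ℝ (b y) (ξ y) * inner ℝ (b y) (ξ y) ∂(pim ι ν) := by
    refine Finset.sum_eq_single y (fun z _ hz => OneB_off hh hν b (Ne.symm hz)) ?_
    intro hy
    exact absurd (Finset.mem_univ y) hy
  rw [h2]
  have h3 : Continuous fun ξ : E N => (inner ℝ (b y) ξ * inner ℝ (b y) ξ : ℝ) := by fun_prop
  rw [(OneB_one hh hν y h3).2]
  have h4 := noise_sq hh hN hν (b y)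
  have h5 : ∫ ξ, (inner ℝ (b y) ξ * inner ℝ (b y) ξ : ℝ) ∂ν = ∫ ξ, (inner ℝ (b y) ξ) ^ 2 ∂ν := by
    refine integral_congr_ae (Filter.Eventually.of_forall fun ξ => ?_)
    show (inner ℝ (b y) ξ * inner ℝ (b y) ξ : ℝ) = (inner ℝ (b y) ξ) ^ 2
    rw [sq]
  rw [h5, h4]
  have h6 : 1 - h ≤ (∫ ξ, ‖ξ‖ ^ 2 ∂ν) / N := by
    rw [le_div_iff₀ hN0]
    have := hν.le_mom
    linarith
  rw [mul_comm]
  exact mul_le_mul_of_nonneg_left h6 (by positivity)

theorem one_site (net : Net ι d) {β h κ k A : ℝ} (hβ : 0 < β) (hh : 0 < h) (hh1 : h < 1 / 1000)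
    (hA : 0 < A) (hdA : 4 * d / A ≤ 1 / 512) (hk : 0 ≤ k) (hκ : κ = A * k) (hκ1 : κ ≤ 1)
    {ν : Measure (E 1)} (hν : IsNoise h ν) (G : ι → E 1) (x : ι) :
    ∫⁻ ξ, ENNReal.ofReal (Real.sqrt (S1 net κ (stp net β h k G ξ) x)) ∂(pim ι ν) ≤
        ENNReal.ofReal (Real.sqrt (S1 net κ G x) * (1 + h / 1024)) ∧
      (S1 net κ G x / 2 ≤ ‖G x‖ →
        ∫⁻ ξ, ENNReal.ofReal (Real.sqrt (S1 net κ (stp net β h k G ξ) x)) ∂(pim ι ν) ≤
          ENNReal.ofReal (Real.sqrt (S1 net κ G x) * (1 - h / 40))) := by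
  have hprob := OneB_prob (ι := ι) hν
  have hκ0 : 0 ≤ κ := by rw [hκ]; positivity
  obtain ⟨a, ha⟩ : ∃ a : ι → ℝ, a = fun y => κ ^ net.dist x y * ‖G y‖ := ⟨_, rfl⟩
  have ha0 : ∀ y, 0 ≤ a y := by
    intro y
    rw [ha]
    positivity
  obtain ⟨S, hS⟩ : ∃ S : ℝ, S = S1 net κ G x := ⟨_, rfl⟩
  have hSa : S = ∑ y, a y := by
    rw [hS, ha]
    rfl
  have hS0 : 0 ≤ S := by
    rw [hSa]
    exact Finset.sum_nonneg fun y _ => ha0 y
  obtain ⟨w, hw⟩ : ∃ w : ι → ℝ, w = fun y => a y / S := ⟨_, rfl⟩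
  have hw0 : ∀ y, 0 ≤ w y := by
    intro y
    rw [hw]
    exact div_nonneg (ha0 y) hS0
  have hSw : ∀ y, S * w y = a y := by
    intro y
    rw [hw]
    show S * (a y / S) = a y
    rcases eq_or_ne S 0 with h0 | h0
    · have h1 : a y = 0 := by
        have h2 : ∑ y, a y = 0 := by rw [← hSa, h0]
        exact (Finset.sum_eq_zero_iff_of_nonneg fun y _ => ha0 y).1 h2 y (Finset.mem_univ y)
      rw [h1, h0, zero_mul]
    · field_simp
  have hw1 : ∑ y, w y ≤ 1 := by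
    rw [hw]
    show ∑ y, a y / S ≤ 1
    rw [← Finset.sum_div, ← hSa]
    exact div_self_le_one S
  obtain ⟨b, hb⟩ : ∃ b : ι → E 1, b = fun y => w y • uni (G y) := ⟨_, rfl⟩
  have hbi : ∀ (ξ : ι → E 1) (y : ι), (inner ℝ (b y) (ξ y) : ℝ) = w y * inner ℝ (uni (G y)) (ξ y) := by
    intro ξ y
    rw [hb]
    show inner ℝ (w y • uni (G y)) (ξ y) = _
    rw [real_inner_smul_left]
  have hbn : ∀ y, ‖b y‖ = w y := by
    intro y
    rw [hb]
    show ‖w y • uni (G y)‖ = w y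
    rw [norm_smul, Real.norm_eq_abs, abs_of_nonneg (hw0 y)]
    rcases eq_or_ne (G y) 0 with h0 | h0
    · have h1 : w y = 0 := by
        rw [hw, ha]
        show κ ^ net.dist x y * ‖G y‖ / S = 0
        rw [h0, norm_zero, mul_zero, zero_div]
      rw [h1, zero_mul]
    · have h1 : ‖uni (G y)‖ = 1 := by
        unfold uni
        rw [norm_smul, Real.norm_eq_abs, abs_of_nonneg (by positivity)]
        have : ‖G y‖ ≠ 0 := norm_ne_zero_iff.2 h0
        field_simp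
      rw [h1, mul_one]
  obtain ⟨X, hX⟩ : ∃ X : (ι → E 1) → ℝ, X = fun ξ => ∑ y, inner ℝ (b y) (ξ y) := ⟨_, rfl⟩
  obtain ⟨c, hc⟩ : ∃ c : ℝ, c = 4 * d / A := ⟨_, rfl⟩
  have hc0 : 0 ≤ c := by rw [hc]; positivity
  have hc1 : c ≤ 1 / 512 := by rw [hc]; exact hdA
  obtain ⟨t, ht⟩ : ∃ t : (ι → E 1) → ℝ, t = fun ξ => Real.sqrt h * X ξ + h * c := ⟨_, rfl⟩
  obtain ⟨hl0, hl1, -, -, -⟩ := LogZ_ell hh hh1
  have hae : ∀ᵐ ξ ∂(pim ι ν), Real.sqrt (S1 net κ (stp net β h k G ξ) x) ≤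
      Real.sqrt S * (1 + t ξ / 2 - 9 / 80 * t ξ ^ 2) := by
    filter_upwards [OneB_bdd (ι := ι) hν] with ξ hξ
    have h1 : ∀ y, Real.sqrt h * ‖ξ y‖ ≤ 1 / 10 := fun y => (hξ y).trans hl1
    have h2 := one_det net hβ hh hA hk hκ hκ1 G ξ h1 x
    have h3 : Real.sqrt h * ∑ y, κ ^ net.dist x y * ‖G y‖ * inner ℝ (uni (G y)) (ξ y) =
        S * (Real.sqrt h * X ξ) := by
      rw [hX]
      show _ = S * (Real.sqrt h * ∑ y, inner ℝ (b y) (ξ y))
      have : ∑ y, κ ^ net.dist x y * ‖G y‖ * inner ℝ (uni (G y)) (ξ y) = S * ∑ y, inner ℝ (b y) (ξ y) := by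
        rw [Finset.mul_sum]
        refine Finset.sum_congr rfl fun y _ => ?_
        rw [hbi, ← mul_assoc, hSw, ha]
      rw [this]
      ring
    have h4 : S1 net κ (stp net β h k G ξ) x ≤ S * (1 + t ξ) := by
      rw [h3, ← hS, ← hc] at h2
      refine h2.trans (le_of_eq ?_)
      rw [ht]
      ring
    have h5 : |Real.sqrt h * X ξ| ≤ 1 / 10 := by
      rw [abs_mul, abs_of_nonneg (Real.sqrt_nonneg h), hX]
      show Real.sqrt h * |∑ y, (inner ℝ (b y) (ξ y) : ℝ)| ≤ 1 / 10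
      calc Real.sqrt h * |∑ y, (inner ℝ (b y) (ξ y) : ℝ)|
          ≤ Real.sqrt h * ∑ y, w y * ‖ξ y‖ := by
            refine mul_le_mul_of_nonneg_left ?_ (Real.sqrt_nonneg h)
            refine (Finset.abs_sum_le_sum_abs _ _).trans (Finset.sum_le_sum fun y _ => ?_)
            refine (abs_real_inner_le_norm _ _).trans ?_
            rw [hbn]
        _ = ∑ y, w y * (Real.sqrt h * ‖ξ y‖) := by
            rw [Finset.mul_sum]
            exact Finset.sum_congr rfl fun y _ => by ring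
        _ ≤ ∑ y, w y * (1 / 10) := Finset.sum_le_sum fun y _ => mul_le_mul_of_nonneg_left (h1 y) (hw0 y)
        _ = (∑ y, w y) * (1 / 10) := by rw [Finset.sum_mul]
        _ ≤ 1 / 10 := by linarith
    have h6 : |t ξ| ≤ 1 / 5 := by
      rw [ht]
      show |Real.sqrt h * X ξ + h * c| ≤ 1 / 5
      rw [abs_le] at h5 ⊢
      have h7 : 0 ≤ h * c := by positivity
      have h8 : h * c ≤ 1 / 10 := by nlinarith
      constructor <;> linarith [h5.1, h5.2]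
    have h7 := one_sqrt h6
    calc Real.sqrt (S1 net κ (stp net β h k G ξ) x) ≤ Real.sqrt (S * (1 + t ξ)) := Real.sqrt_le_sqrt h4
      _ = Real.sqrt S * Real.sqrt (1 + t ξ) := Real.sqrt_mul hS0 _
      _ ≤ _ := mul_le_mul_of_nonneg_left h7 (Real.sqrt_nonneg S)
  obtain ⟨hXi, hX0⟩ := lin_mean (ι := ι) hh hν b
  obtain ⟨hXi2, hX2⟩ := lin_sq (ι := ι) hh le_rfl hν b
  have hXi' : Integrable X (pim ι ν) := by rw [hX]; exact hXi
  have hXi2' : Integrable (fun ξ => X ξ ^ 2) (pim ι ν) := by rw [hX]; exact hXi2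
  have hX0' : ∫ ξ, X ξ ∂(pim ι ν) = 0 := by rw [hX]; exact hX0
  have hX2' : (1 - h) * ∑ y, w y ^ 2 ≤ ∫ ξ, X ξ ^ 2 ∂(pim ι ν) := by
    rw [hX]
    refine le_trans (le_of_eq ?_) hX2
    have : ∑ y, w y ^ 2 = ∑ y, ‖b y‖ ^ 2 := Finset.sum_congr rfl fun y _ => by rw [hbn y]
    rw [this]
  -- the majorant
  have hR : ∀ ξ, Real.sqrt S * (1 + t ξ / 2 - 9 / 80 * t ξ ^ 2) =
      Real.sqrt S * (1 + h * c / 2 - 9 / 80 * (h * c) ^ 2) +
        (Real.sqrt S * (Real.sqrt h / 2 - 9 / 80 * (2 * Real.sqrt h * (h * c)))) * X ξ -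
        (Real.sqrt S * (9 / 80 * h)) * X ξ ^ 2 := by
    intro ξ
    rw [ht]
    have : Real.sqrt h ^ 2 = h := Real.sq_sqrt hh.le
    show Real.sqrt S * (1 + (Real.sqrt h * X ξ + h * c) / 2 - 9 / 80 * (Real.sqrt h * X ξ + h * c) ^ 2) = _
    calc Real.sqrt S * (1 + (Real.sqrt h * X ξ + h * c) / 2 - 9 / 80 * (Real.sqrt h * X ξ + h * c) ^ 2)
        = Real.sqrt S * (1 + h * c / 2 - 9 / 80 * (h * c) ^ 2) +
        (Real.sqrt S * (Real.sqrt h / 2 - 9 / 80 * (2 * Real.sqrt h * (h * c)))) * X ξ -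
        (Real.sqrt S * (9 / 80 * Real.sqrt h ^ 2)) * X ξ ^ 2 := by ring
      _ = _ := by rw [this]
  have hi1 : Integrable (fun _ : ι → E 1 => Real.sqrt S * (1 + h * c / 2 - 9 / 80 * (h * c) ^ 2)) (pim ι ν) :=
    integrable_const _
  have hi2 : Integrable (fun ξ => (Real.sqrt S * (Real.sqrt h / 2 - 9 / 80 * (2 * Real.sqrt h * (h * c)))) * X ξ)
      (pim ι ν) := hXi'.const_mul _
  have hi3 : Integrable (fun ξ => (Real.sqrt S * (9 / 80 * h)) * X ξ ^ 2) (pim ι ν) := hXi2'.const_mul _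
  have hRi : Integrable (fun ξ => Real.sqrt S * (1 + t ξ / 2 - 9 / 80 * t ξ ^ 2)) (pim ι ν) := by
    have : (fun ξ => Real.sqrt S * (1 + t ξ / 2 - 9 / 80 * t ξ ^ 2)) = fun ξ =>
      Real.sqrt S * (1 + h * c / 2 - 9 / 80 * (h * c) ^ 2) +
        (Real.sqrt S * (Real.sqrt h / 2 - 9 / 80 * (2 * Real.sqrt h * (h * c)))) * X ξ -
        (Real.sqrt S * (9 / 80 * h)) * X ξ ^ 2 := funext hR
    rw [this]
    exact (hi1.add hi2).sub hi3
  have hRI : ∫ ξ, Real.sqrt S * (1 + t ξ / 2 - 9 / 80 * t ξ ^ 2) ∂(pim ι ν) =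
      Real.sqrt S * (1 + h * c / 2 - 9 / 80 * (h * c) ^ 2) -
        (Real.sqrt S * (9 / 80 * h)) * ∫ ξ, X ξ ^ 2 ∂(pim ι ν) := by
    rw [integral_congr_ae (Filter.Eventually.of_forall hR)]
    have e1 := integral_sub (hi1.add hi2) hi3
    have e2 := integral_add hi1 hi2
    have e3 : ∫ ξ, (Real.sqrt S * (1 + h * c / 2 - 9 / 80 * (h * c) ^ 2) +
        (Real.sqrt S * (Real.sqrt h / 2 - 9 / 80 * (2 * Real.sqrt h * (h * c)))) * X ξ -
        (Real.sqrt S * (9 / 80 * h)) * X ξ ^ 2) ∂(pim ι ν) =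
        ∫ ξ, (Real.sqrt S * (1 + h * c / 2 - 9 / 80 * (h * c) ^ 2) +
        (Real.sqrt S * (Real.sqrt h / 2 - 9 / 80 * (2 * Real.sqrt h * (h * c)))) * X ξ) ∂(pim ι ν) -
        ∫ ξ, (Real.sqrt S * (9 / 80 * h)) * X ξ ^ 2 ∂(pim ι ν) := e1
    have e4 := integral_const_mul (μ := pim ι ν)
      (Real.sqrt S * (Real.sqrt h / 2 - 9 / 80 * (2 * Real.sqrt h * (h * c)))) X
    have e5 := integral_const_mul (μ := pim ι ν) (Real.sqrt S * (9 / 80 * h)) fun ξ => X ξ ^ 2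
    rw [e3, e2, e4, e5, hX0']
    simp only [integral_const, probReal_univ, one_smul, mul_zero, add_zero]
  have hkey : ∫ ξ, Real.sqrt S * (1 + t ξ / 2 - 9 / 80 * t ξ ^ 2) ∂(pim ι ν) ≤
      Real.sqrt S * (1 + h / 1024 - 9 / 80 * h * ((1 - h) * ∑ y, w y ^ 2)) := by
    rw [hRI]
    have h1 : Real.sqrt S * (9 / 80 * h) * ((1 - h) * ∑ y, w y ^ 2) ≤
        Real.sqrt S * (9 / 80 * h) * ∫ ξ, X ξ ^ 2 ∂(pim ι ν) :=
      mul_le_mul_of_nonneg_left hX2' (by positivity)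
    have h2 : Real.sqrt S * (1 + h * c / 2 - 9 / 80 * (h * c) ^ 2) ≤ Real.sqrt S * (1 + h / 1024) := by
      refine mul_le_mul_of_nonneg_left ?_ (Real.sqrt_nonneg S)
      have h3 : h * c ≤ h * (1 / 512) := mul_le_mul_of_nonneg_left hc1 hh.le
      nlinarith [sq_nonneg (h * c)]
    linarith
  have hlin : ∫⁻ ξ, ENNReal.ofReal (Real.sqrt (S1 net κ (stp net β h k G ξ) x)) ∂(pim ι ν) ≤
      ENNReal.ofReal (Real.sqrt S * (1 + h / 1024 - 9 / 80 * h * ((1 - h) * ∑ y, w y ^ 2))) := by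
    calc ∫⁻ ξ, ENNReal.ofReal (Real.sqrt (S1 net κ (stp net β h k G ξ) x)) ∂(pim ι ν)
        ≤ ∫⁻ ξ, ENNReal.ofReal (Real.sqrt S * (1 + t ξ / 2 - 9 / 80 * t ξ ^ 2)) ∂(pim ι ν) := by
          refine lintegral_mono_ae ?_
          filter_upwards [hae] with ξ hξ
          exact ENNReal.ofReal_le_ofReal hξ
      _ = ENNReal.ofReal (∫ ξ, Real.sqrt S * (1 + t ξ / 2 - 9 / 80 * t ξ ^ 2) ∂(pim ι ν)) := by
          refine (ofReal_integral_eq_lintegral_ofReal hRi ?_).symm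
          filter_upwards [hae] with ξ hξ
          exact (Real.sqrt_nonneg _).trans hξ
      _ ≤ _ := ENNReal.ofReal_le_ofReal hkey
  have hsq : 0 ≤ ∑ y, w y ^ 2 := Finset.sum_nonneg fun y _ => sq_nonneg _
  rw [← hS]
  refine ⟨hlin.trans (ENNReal.ofReal_le_ofReal (mul_le_mul_of_nonneg_left ?_ (Real.sqrt_nonneg S))), ?_⟩
  · have h1 : 0 ≤ 9 / 80 * h * ((1 - h) * ∑ y, w y ^ 2) := by
      have : 0 ≤ 1 - h := by linarith
      positivity
    linarith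
  · intro hx
    rcases hS0.eq_or_lt with h0 | h0
    · rw [← h0, Real.sqrt_zero, zero_mul]
      rw [← h0, Real.sqrt_zero, zero_mul] at hlin
      exact hlin
    · refine hlin.trans (ENNReal.ofReal_le_ofReal (mul_le_mul_of_nonneg_left ?_ (Real.sqrt_nonneg S)))
      have h1 : 1 / 2 ≤ w x := by
        rw [hw, ha]
        show 1 / 2 ≤ κ ^ net.dist x x * ‖G x‖ / S
        rw [net.dist_self, pow_zero, one_mul, le_div_iff₀ h0]
        linarith
      have h2 : 1 / 4 ≤ ∑ y, w y ^ 2 := by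
        have h3 : w x ^ 2 ≤ ∑ y, w y ^ 2 :=
          Finset.single_le_sum (f := fun y => w y ^ 2) (fun y _ => sq_nonneg (w y)) (Finset.mem_univ x)
        nlinarith
      have h3 : (1 - h) * (1 / 4) ≤ (1 - h) * ∑ y, w y ^ 2 :=
        mul_le_mul_of_nonneg_left h2 (by linarith)
      have h4 : 9 / 80 * h * ((1 - h) * (1 / 4)) ≤ 9 / 80 * h * ((1 - h) * ∑ y, w y ^ 2) :=
        mul_le_mul_of_nonneg_left h3 (by positivity)
      nlinarith

end DynS
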