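import Pool.Agent.Lib_MP_36b788s.OneB
import Pool.Agent.Lib_MP_36b788s.Van

/-!
# ONE, part C: the field dies out for `N = 1` and small `k`

PROOF.
* `one_drift`: `w_x = 2^{-|x0-x|}`. `∫⁻ofReal(Ph1(stp)) = Σ_xw_x∫⁻ofReal√S1(stp) x ≤ Σ_{good}w_x√S_x(1-h/40)+Σ_{bad}w_x√S_x(1+h/1024)`
  (good: `‖G x‖ ≥ S_x/2`, `one_site`) `= Ph1 - (h/40)Ph1 + h(1/40+1/1024)Φ_bad ≤ Ph1(1-h/80+h/2048) ≤ (1-h/512)Ph1` by `Φ_bad ≤ Ph1/2` (`one_bad`).
* `one_vanish`: `A = 2048(d+1)`, `k1 = 1/(A·128·9^d)`, `κ = A k`. `ev_drift` (`A = univ`): `ev (ofReal Ph1) n G ≤ ofReal(1-h/512)^n ofReal(Ph1 G)`.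
  `min 1 ‖G x0‖ ≤ √‖G x0‖ ≤ √(S1 x0) ≤ Ph1` (term `x = x0`, `dist x0 x0 = 0`). Initial: `√S_x ≤ 1+S_x`, so
  `∫⁻ofReal(Ph1)d(pi ρ) ≤ Σ_xw_x(1+Σ_yκ^{|x-y|}m) ≤ 3^d(1+3^d m) =: Cρ`, `m = ∫‖x‖dρ` (`κ ≤ 1/2`, `sum_half`; marginals `measurePreserving_eval`; `‖x‖ ≤ 1+‖x‖²`).
  `chainLaw_law`, `law_ev`: `∫⁻ofReal(min 1‖G x‖)dchainLaw n ≤ ofReal((1-h/512)^nCρ) ≤ ofReal(e^{-nh/512}Cρ) ≤ ofReal ε` for `nh ≥ T0 = 512 log(Cρ/ε+1)`
  (`e^{-T0/512} = 1/(Cρ/ε+1) ≤ ε/Cρ`). `h0` from `nuT_noise 1` and `1/1000`.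
* `small_one`: `cmix_of_vanish`.
-/

open MeasureTheory ProbabilityTheory Dyn
open scoped ENNReal

namespace DynS

variable {N d : ℕ} {ι : Type} [Fintype ι]

private theorem OneC_S1_nonneg (net : Net ι d) {κ : ℝ} (hκ : 0 ≤ κ) (G : ι → E N) (x : ι) :
    0 ≤ S1 net κ G x :=
  Finset.sum_nonneg fun _ _ => mul_nonneg (pow_nonneg hκ _) (norm_nonneg _)

private theorem OneC_Ph1_nonneg (net : Net ι d) (κ : ℝ) (x0 : ι) (G : ι → E N) :
    0 ≤ Ph1 net κ x0 G :=
  Finset.sum_nonneg fun _ _ => mul_nonneg (by positivity) (Real.sqrt_nonneg _)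

private theorem OneC_S1_cont (net : Net ι d) (κ : ℝ) (x : ι) :
    Continuous (fun G : ι → E N => S1 net κ G x) := by
  unfold S1
  refine continuous_finsetSum _ fun y _ => ?_
  exact continuous_const.mul (continuous_apply y).norm

private theorem OneC_Ph1_cont (net : Net ι d) (κ : ℝ) (x0 : ι) :
    Continuous (fun G : ι → E N => Ph1 net κ x0 G) := by
  unfold Ph1
  refine continuous_finsetSum _ fun x _ => ?_
  exact continuous_const.mul (OneC_S1_cont net κ x).sqrt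

theorem one_drift (net : Net ι d) {β h κ k A : ℝ} (hβ : 0 < β) (hh : 0 < h) (hh1 : h < 1 / 1000)
    (hA : 0 < A) (hdA : 4 * d / A ≤ 1 / 512) (hk : 0 ≤ k) (hκ : κ = A * k)
    (hκ1 : 128 * 9 ^ d * κ ≤ 1) {ν : Measure (E 1)} (hν : IsNoise h ν) (x0 : ι) (G : ι → E 1) :
    ∫⁻ ξ, ENNReal.ofReal (Ph1 net κ x0 (stp net β h k G ξ)) ∂(pim ι ν) ≤
      ENNReal.ofReal (1 - h / 512) * ENNReal.ofReal (Ph1 net κ x0 G) := by
  classical
  have hκ0 : 0 ≤ κ := by rw [hκ]; positivity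
  have h9 : (1 : ℝ) ≤ 9 ^ d := one_le_pow₀ (by norm_num)
  have hκle : κ ≤ 1 := by nlinarith
  have hw0 : ∀ x, (0 : ℝ) ≤ (1 / 2 : ℝ) ^ net.dist x0 x := fun x => by positivity
  have hstp : Measurable (fun ξ : ι → E 1 => stp net β h k G ξ) :=
    ((stp_continuous hβ hh.le k net).comp (continuous_const.prodMk continuous_id)).measurable
  let c : ι → ℝ := fun x => if ‖G x‖ < S1 net κ G x / 2 then 1 + h / 1024 else 1 - h / 40
  have hc0 : ∀ x, 0 ≤ c x := by
    intro x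
    simp only [c]
    split_ifs <;> linarith
  have hsite : ∀ x, ∫⁻ ξ, ENNReal.ofReal (Real.sqrt (S1 net κ (stp net β h k G ξ) x)) ∂(pim ι ν) ≤
      ENNReal.ofReal (Real.sqrt (S1 net κ G x) * c x) := by
    intro x
    have h1 := one_site net hβ hh hh1 hA hdA hk hκ hκle hν G x
    by_cases hx : ‖G x‖ < S1 net κ G x / 2
    · simp only [c, if_pos hx]
      exact h1.1
    · simp only [c, if_neg hx]
      exact h1.2 (not_lt.mp hx)
  have h1 : ∀ ξ : ι → E 1, ENNReal.ofReal (Ph1 net κ x0 (stp net β h k G ξ)) =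
      ∑ x, ENNReal.ofReal ((1 / 2 : ℝ) ^ net.dist x0 x) *
        ENNReal.ofReal (Real.sqrt (S1 net κ (stp net β h k G ξ) x)) := by
    intro ξ
    unfold Ph1
    rw [ENNReal.ofReal_sum_of_nonneg fun x _ => mul_nonneg (hw0 x) (Real.sqrt_nonneg _)]
    exact Finset.sum_congr rfl fun x _ => ENNReal.ofReal_mul (hw0 x)
  have hm : ∀ x, Measurable (fun ξ : ι → E 1 =>
      ENNReal.ofReal (Real.sqrt (S1 net κ (stp net β h k G ξ) x))) := fun x =>
    (((OneC_S1_cont net κ x).sqrt.measurable).comp hstp).ennreal_ofReal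
  have h2 : ∫⁻ ξ, ENNReal.ofReal (Ph1 net κ x0 (stp net β h k G ξ)) ∂(pim ι ν) =
      ∑ x, ENNReal.ofReal ((1 / 2 : ℝ) ^ net.dist x0 x) *
        ∫⁻ ξ, ENNReal.ofReal (Real.sqrt (S1 net κ (stp net β h k G ξ) x)) ∂(pim ι ν) := by
    simp only [h1]
    rw [lintegral_finsetSum _ fun x _ => (hm x).const_mul _]
    exact Finset.sum_congr rfl fun x _ => lintegral_const_mul _ (hm x)
  rw [h2, ← ENNReal.ofReal_mul (by linarith : (0 : ℝ) ≤ 1 - h / 512)]
  have h3 : ∑ x, ENNReal.ofReal ((1 / 2 : ℝ) ^ net.dist x0 x) *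
        ∫⁻ ξ, ENNReal.ofReal (Real.sqrt (S1 net κ (stp net β h k G ξ) x)) ∂(pim ι ν) ≤
      ENNReal.ofReal (∑ x, (1 / 2 : ℝ) ^ net.dist x0 x * (Real.sqrt (S1 net κ G x) * c x)) := by
    rw [ENNReal.ofReal_sum_of_nonneg fun x _ =>
      mul_nonneg (hw0 x) (mul_nonneg (Real.sqrt_nonneg _) (hc0 x))]
    refine Finset.sum_le_sum fun x _ => ?_
    rw [ENNReal.ofReal_mul (hw0 x)]
    gcongr
    exact hsite x
  refine h3.trans (ENNReal.ofReal_le_ofReal ?_)
  have h4 : ∑ x, (1 / 2 : ℝ) ^ net.dist x0 x * (Real.sqrt (S1 net κ G x) * c x) =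
      (1 - h / 40) * Ph1 net κ x0 G + (h / 40 + h / 1024) *
        ∑ x, (if ‖G x‖ < S1 net κ G x / 2 then
          (1 / 2 : ℝ) ^ net.dist x0 x * Real.sqrt (S1 net κ G x) else 0) := by
    unfold Ph1
    rw [Finset.mul_sum, Finset.mul_sum, ← Finset.sum_add_distrib]
    refine Finset.sum_congr rfl fun x _ => ?_
    by_cases hx : ‖G x‖ < S1 net κ G x / 2
    · simp only [c, if_pos hx]
      ring
    · simp only [c, if_neg hx]
      ring
  have h5 : ∑ x, (if ‖G x‖ < S1 net κ G x / 2 then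
          (1 / 2 : ℝ) ^ net.dist x0 x * Real.sqrt (S1 net κ G x) else 0) ≤
      1 / 2 * Ph1 net κ x0 G := by
    refine le_trans (le_of_eq ?_) (one_bad net hκ0 hκ1 x0 G)
    refine Finset.sum_congr rfl fun x _ => ?_
    congr
  have h6 := OneC_Ph1_nonneg net κ x0 G
  rw [h4]
  have h7 : (h / 40 + h / 1024) *
        ∑ x, (if ‖G x‖ < S1 net κ G x / 2 then
          (1 / 2 : ℝ) ^ net.dist x0 x * Real.sqrt (S1 net κ G x) else 0) ≤
      (h / 40 + h / 1024) * (1 / 2 * Ph1 net κ x0 G) :=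
    mul_le_mul_of_nonneg_left h5 (by positivity)
  have h8 : 0 ≤ h * Ph1 net κ x0 G := mul_nonneg hh.le h6
  nlinarith

/-- bound of the field by the potential -/
private theorem OneC_min (net : Net ι d) {κ : ℝ} (hκ : 0 ≤ κ) (x0 : ι) (G : ι → E N) :
    min 1 ‖G x0‖ ≤ Ph1 net κ x0 G := by
  have h1 : min 1 ‖G x0‖ ≤ Real.sqrt ‖G x0‖ := by
    refine Real.le_sqrt_of_sq_le ?_
    have h2 : 0 ≤ min 1 ‖G x0‖ := le_min zero_le_one (norm_nonneg _)
    calc (min 1 ‖G x0‖) ^ 2 = min 1 ‖G x0‖ * min 1 ‖G x0‖ := sq _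
      _ ≤ 1 * ‖G x0‖ := mul_le_mul (min_le_left _ _) (min_le_right _ _) h2 zero_le_one
      _ = ‖G x0‖ := one_mul _
  have h3 : ‖G x0‖ ≤ S1 net κ G x0 := by
    have h4 := Finset.single_le_sum (f := fun y => κ ^ net.dist x0 y * ‖G y‖)
      (fun y _ => mul_nonneg (pow_nonneg hκ _) (norm_nonneg _)) (Finset.mem_univ x0)
    simp only [net.dist_self, pow_zero, one_mul] at h4
    exact h4
  have h5 : Real.sqrt (S1 net κ G x0) ≤ Ph1 net κ x0 G := by
    have h6 := Finset.single_le_sum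
      (f := fun x => (1 / 2 : ℝ) ^ net.dist x0 x * Real.sqrt (S1 net κ G x))
      (fun y _ => mul_nonneg (by positivity) (Real.sqrt_nonneg _)) (Finset.mem_univ x0)
    simp only [net.dist_self, pow_zero, one_mul] at h6
    exact h6
  exact h1.trans ((Real.sqrt_le_sqrt h3).trans h5)

/-- the potential under the initial law -/
private theorem OneC_init (net : Net ι d) {κ : ℝ} (hκ : 0 ≤ κ) (hκ2 : κ ≤ 1 / 2) (x0 : ι)
    (ρ : Measure (E N)) [IsProbabilityMeasure ρ] (hρ : Integrable (fun x : E N => ‖x‖) ρ) :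
    ∫⁻ G, ENNReal.ofReal (Ph1 net κ x0 G) ∂(Measure.pi (fun _ : ι => ρ)) ≤
      ENNReal.ofReal (3 ^ d * (1 + 3 ^ d * ∫ x, ‖x‖ ∂ρ)) := by
  have hm0 : 0 ≤ ∫ x, ‖x‖ ∂ρ := integral_nonneg fun x => norm_nonneg x
  have hint : ∀ y : ι, Integrable (fun G : ι → E N => ‖G y‖) (Measure.pi (fun _ : ι => ρ)) :=
    fun y => integrable_comp_eval (μ := fun _ : ι => ρ) (i := y) (f := fun x : E N => ‖x‖) hρ
  have hval : ∀ y : ι, ∫ G : ι → E N, ‖G y‖ ∂(Measure.pi (fun _ : ι => ρ)) = ∫ x, ‖x‖ ∂ρ :=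
    fun y => integral_comp_eval (μ := fun _ : ι => ρ) (i := y) (f := fun x : E N => ‖x‖)
      hρ.aestronglyMeasurable
  have hS : ∀ x : ι, Integrable (fun G : ι → E N => S1 net κ G x)
      (Measure.pi (fun _ : ι => ρ)) := fun x =>
    integrable_finsetSum _ fun y _ => (hint y).const_mul _
  have hSv : ∀ x : ι, ∫ G : ι → E N, S1 net κ G x ∂(Measure.pi (fun _ : ι => ρ)) ≤
      3 ^ d * ∫ x, ‖x‖ ∂ρ := by
    intro x
    unfold S1
    rw [integral_finsetSum _ fun y _ => (hint y).const_mul _]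
    simp only [integral_const_mul, hval]
    rw [← Finset.sum_mul]
    refine mul_le_mul_of_nonneg_right ?_ hm0
    refine le_trans (Finset.sum_le_sum fun y _ => ?_) (net.sum_half x)
    exact pow_le_pow_left₀ hκ hκ2 _
  have hT : ∀ x : ι, Integrable (fun G : ι → E N =>
      (1 / 2 : ℝ) ^ net.dist x0 x * (1 + S1 net κ G x)) (Measure.pi (fun _ : ι => ρ)) :=
    fun x => ((integrable_const (1 : ℝ)).add (hS x)).const_mul _
  have hI : Integrable (fun G : ι → E N =>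
      ∑ x, (1 / 2 : ℝ) ^ net.dist x0 x * (1 + S1 net κ G x)) (Measure.pi (fun _ : ι => ρ)) :=
    integrable_finsetSum _ fun x _ => hT x
  have hle : ∀ G : ι → E N, Ph1 net κ x0 G ≤
      ∑ x, (1 / 2 : ℝ) ^ net.dist x0 x * (1 + S1 net κ G x) := by
    intro G
    refine Finset.sum_le_sum fun x _ => mul_le_mul_of_nonneg_left ?_ (by positivity)
    have h1 := OneC_S1_nonneg net hκ G x
    refine Real.sqrt_le_iff.mpr ⟨by linarith, by nlinarith⟩
  calc ∫⁻ G, ENNReal.ofReal (Ph1 net κ x0 G) ∂(Measure.pi (fun _ : ι => ρ))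
      ≤ ∫⁻ G, ENNReal.ofReal (∑ x, (1 / 2 : ℝ) ^ net.dist x0 x * (1 + S1 net κ G x))
          ∂(Measure.pi (fun _ : ι => ρ)) :=
        lintegral_mono fun G => ENNReal.ofReal_le_ofReal (hle G)
    _ = ENNReal.ofReal (∫ G, (∑ x, (1 / 2 : ℝ) ^ net.dist x0 x * (1 + S1 net κ G x))
          ∂(Measure.pi (fun _ : ι => ρ))) := by
        refine (ofReal_integral_eq_lintegral_ofReal hI ?_).symm
        exact Filter.Eventually.of_forall fun G => (OneC_Ph1_nonneg net κ x0 G).trans (hle G)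
    _ ≤ ENNReal.ofReal (3 ^ d * (1 + 3 ^ d * ∫ x, ‖x‖ ∂ρ)) := by
        refine ENNReal.ofReal_le_ofReal ?_
        rw [integral_finsetSum _ fun x _ => hT x]
        have h1 : ∀ x ∈ (Finset.univ : Finset ι),
            ∫ G, (1 / 2 : ℝ) ^ net.dist x0 x * (1 + S1 net κ G x)
              ∂(Measure.pi (fun _ : ι => ρ)) ≤
            (1 / 2 : ℝ) ^ net.dist x0 x * (1 + 3 ^ d * ∫ x, ‖x‖ ∂ρ) := by
          intro x _
          rw [integral_const_mul, integral_add (integrable_const _) (hS x)]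
          refine mul_le_mul_of_nonneg_left ?_ (by positivity)
          simp only [integral_const, probReal_univ, smul_eq_mul, mul_one]
          linarith [hSv x]
        refine (Finset.sum_le_sum h1).trans ?_
        rw [← Finset.sum_mul]
        exact mul_le_mul_of_nonneg_right (net.sum_half x0) (by positivity)

theorem small_one (d : ℕ) (β : ℝ) (hβ : 0 < β) : ∃ k1 : ℝ, 0 < k1 ∧ ∀ k : ℝ, 0 ≤ k → k ≤ k1 →
    CMix 1 d β k (fun h => nuT 1 h) := by
  have hd0 : (0 : ℝ) ≤ d := Nat.cast_nonneg d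
  have h9 : (1 : ℝ) ≤ 9 ^ d := one_le_pow₀ (by norm_num)
  set A : ℝ := 2048 * (d + 1) with hAdef
  have hA : 0 < A := by positivity
  have hdA : 4 * d / A ≤ 1 / 512 := by
    rw [div_le_div_iff₀ hA (by norm_num)]
    rw [hAdef]
    linarith
  refine ⟨1 / (A * 128 * 9 ^ d), by positivity, fun k hk hk1 => ?_⟩
  have hκ1 : 128 * 9 ^ d * (A * k) ≤ 1 := by
    have h1 : k * (A * 128 * 9 ^ d) ≤ 1 := (le_div_iff₀ (by positivity)).mp hk1
    linarith
  have hκ0 : 0 ≤ A * k := by positivity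
  have hκ2 : A * k ≤ 1 / 2 := by nlinarith
  refine cmix_of_vanish 1 d β k le_rfl hβ fun ρ _ _ hρ2 ε hε => ?_
  have hρ : Integrable (fun x : E 1 => ‖x‖) ρ := by
    refine ((integrable_const (1 : ℝ)).add hρ2).mono' continuous_norm.aestronglyMeasurable
      (Filter.Eventually.of_forall fun x => ?_)
    rw [Real.norm_eq_abs, abs_of_nonneg (norm_nonneg _)]
    show ‖x‖ ≤ 1 + ‖x‖ ^ 2
    nlinarith [sq_nonneg (‖x‖ - 1), norm_nonneg x]
  have hm0 : 0 ≤ ∫ x, ‖x‖ ∂ρ := integral_nonneg fun x => norm_nonneg x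
  set C : ℝ := 3 ^ d * (1 + 3 ^ d * ∫ x, ‖x‖ ∂ρ) with hC
  have hC0 : 0 < C := by positivity
  have hq : 0 ≤ C / ε := by positivity
  refine ⟨512 * Real.log (C / ε + 1), ?_, fun L Sm _ => ?_⟩
  · have := Real.log_nonneg (by linarith : (1 : ℝ) ≤ C / ε + 1)
    positivity
  obtain ⟨h1, h1pos, hnoise⟩ := nuT_noise 1 le_rfl
  refine ⟨min h1 (1 / 1000), lt_min h1pos (by norm_num), fun h hh hlt n hn _ x => ?_⟩
  have hν := hnoise h hh (hlt.trans_le (min_le_left _ _))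
  have hh1 : h < 1 / 1000 := hlt.trans_le (min_le_right _ _)
  have hp := hν.prob
  have hpm : IsProbabilityMeasure (pim (boxS d L) (nuT 1 h)) := by
    unfold pim
    infer_instance
  have hf := (stp_continuous (N := 1) hβ hh.le k (boxNet d L)).measurable
  have hφ : Measurable (fun G : boxS d L → E 1 =>
      ENNReal.ofReal (Ph1 (boxNet d L) (A * k) x G)) :=
    (OneC_Ph1_cont (boxNet d L) (A * k) x).measurable.ennreal_ofReal
  have hr : (0 : ℝ) ≤ 1 - h / 512 := by linarith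
  have hev : ∀ G : boxS d L → E 1, ev (stp (boxNet d L) β h k) (pim (boxS d L) (nuT 1 h))
      (fun G => ENNReal.ofReal (Ph1 (boxNet d L) (A * k) x G)) n G ≤
        (ENNReal.ofReal (1 - h / 512)) ^ n *
          ENNReal.ofReal (Ph1 (boxNet d L) (A * k) x G) := fun G =>
    ev_drift (f := stp (boxNet d L) β h k) hf Set.univ (fun _ _ => Filter.Eventually.of_forall
      fun _ => Set.mem_univ _) hφ _
      (fun G _ => one_drift (boxNet d L) hβ hh hh1 hA hdA hk rfl hκ1 hν x G) n G (Set.mem_univ G)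
  have hexp : (1 - h / 512) ^ n * C ≤ ε := by
    have h2 : (1 - h / 512) ^ n ≤ Real.exp (-(n * h) / 512) := by
      have h3 : 1 - h / 512 ≤ Real.exp (-(h / 512)) := by
        have := Real.add_one_le_exp (-(h / 512))
        linarith
      calc (1 - h / 512) ^ n ≤ (Real.exp (-(h / 512))) ^ n := pow_le_pow_left₀ hr h3 n
        _ = Real.exp (-(n * h) / 512) := by
          rw [← Real.exp_nat_mul]
          congr 1
          ring
    have h4 : Real.exp (-(n * h) / 512) ≤ Real.exp (-Real.log (C / ε + 1)) := by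
      refine Real.exp_le_exp.mpr ?_
      linarith
    have h5 : Real.exp (-Real.log (C / ε + 1)) = 1 / (C / ε + 1) := by
      rw [Real.exp_neg, Real.exp_log (by linarith), one_div]
    have h6 : (1 - h / 512) ^ n ≤ 1 / (C / ε + 1) := (h2.trans h4).trans (le_of_eq h5)
    calc (1 - h / 512) ^ n * C ≤ 1 / (C / ε + 1) * C := mul_le_mul_of_nonneg_right h6 hC0.le
      _ ≤ ε := by
        rw [one_div, inv_mul_le_iff₀ (by linarith), add_mul, div_mul_cancel₀ _ hε.ne']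
        linarith
  calc ∫⁻ G, ENNReal.ofReal (min 1 ‖G x‖)
        ∂(chainLaw (boxNet d L) β h k (nuT 1 h) (Measure.pi (fun _ => ρ)) n)
      ≤ ∫⁻ G, ENNReal.ofReal (Ph1 (boxNet d L) (A * k) x G)
        ∂(chainLaw (boxNet d L) β h k (nuT 1 h) (Measure.pi (fun _ => ρ)) n) :=
        lintegral_mono fun G => ENNReal.ofReal_le_ofReal (OneC_min (boxNet d L) hκ0 x G)
    _ = ∫⁻ G, ev (stp (boxNet d L) β h k) (pim (boxS d L) (nuT 1 h))
          (fun G => ENNReal.ofReal (Ph1 (boxNet d L) (A * k) x G)) n G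
          ∂(Measure.pi (fun _ => ρ)) := by
        rw [chainLaw_law]
        exact law_ev hf _ hφ n
    _ ≤ ∫⁻ G, (ENNReal.ofReal (1 - h / 512)) ^ n *
          ENNReal.ofReal (Ph1 (boxNet d L) (A * k) x G) ∂(Measure.pi (fun _ => ρ)) :=
        lintegral_mono fun G => hev G
    _ = (ENNReal.ofReal (1 - h / 512)) ^ n *
          ∫⁻ G, ENNReal.ofReal (Ph1 (boxNet d L) (A * k) x G) ∂(Measure.pi (fun _ => ρ)) :=
        lintegral_const_mul _ hφ
    _ ≤ (ENNReal.ofReal (1 - h / 512)) ^ n * ENNReal.ofReal C := by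
        gcongr
        exact OneC_init (boxNet d L) hκ0 hκ2 x ρ hρ
    _ = ENNReal.ofReal ((1 - h / 512) ^ n * C) := by
        rw [ENNReal.ofReal_mul (pow_nonneg hr n), ENNReal.ofReal_pow hr]
    _ ≤ ENNReal.ofReal ε := ENNReal.ofReal_le_ofReal hexp

end DynS
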