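import Pool.Agent.Lib_MP_36b788s.Rot2

/-!
# Path functionals: comparison with constants and with a coupled copy

PROOF.
* `chainLaw_law`: induction on `n`, `rfl` after rewriting.
* `pathE_tele`: induction on `M` for all `F, c, G`. `List.range_succ_eq_map`, so `pathE (F 0 :: map (F ∘ succ) (range M)) G = F 0 G * A`,
  `A = ∫ P(stp G ξ)`, and `Finset.prod_range_succ'`: `∏_{i<M+1} c i = c 0 * B`. `F 0 G * A - c 0 * B = (F 0 G - c 0)B + F 0 G (A-B)`, `‖B‖,‖F 0 G‖ ≤ 1`,
  `‖A-B‖ₑ ≤ ∫⁻‖P(stp G ξ)-B‖ₑ` (`enorm_integral_le_lintegral_enorm`, `integral_sub` with the constant `B`, `P` bounded measurable: `pathE_facts`)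
  `≤ ∫⁻ Σ_{i<M} ev … i (stp G ξ) = Σ_{i<M} ev … (i+1) G` (`lintegral_finset_sum`, `ev_meas`).
* `pathE_pair`: the same with `A' = ∫ P(stp G' ξ) = ∫ P(stp G' (rotN G G' ξ))` (`rotN_preserving`), `F 0 G A - F 0 G' A' = (F 0 G - F 0 G')A + F 0 G'(A-A')`.
-/

open MeasureTheory ProbabilityTheory Dyn
open scoped ENNReal

namespace DynS

variable {N d : ℕ} {ι : Type} [Fintype ι]

theorem chainLaw_law (net : Net ι d) (β h k : ℝ) (ν : Measure (E N)) (m0 : Measure (ι → E N))
    (n : ℕ) : chainLaw net β h k ν m0 n = law (stp net β h k) (pim ι ν) m0 n := by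
  induction n with
  | zero => rfl
  | succ n ih =>
    change ((chainLaw net β h k ν m0 n).prod (pim ι ν)).map (fun q => stp net β h k q.1 q.2) =
      ((law (stp net β h k) (pim ι ν) m0 n).prod (pim ι ν)).map (fun q => stp net β h k q.1 q.2)
    rw [ih]

private theorem Pth_prob {ν : Measure (E N)} [IsProbabilityMeasure ν] :
    IsProbabilityMeasure (pim ι ν) := by
  unfold pim
  infer_instance

private theorem Pth_sec (net : Net ι d) {β h k : ℝ} (hβ : 0 < β) (hh : 0 ≤ h) (G : ι → E N) :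
    Measurable (fun ξ : ι → E N => stp net β h k G ξ) := by
  have hs := (stp_continuous (N := N) hβ hh k net).measurable
  have h0 : Measurable fun ξ : ι → E N => (G, ξ) := measurable_const.prodMk measurable_id
  have h1 := hs.comp h0
  exact h1

private theorem Pth_le_one {z : ℂ} (hz : ‖z‖ ≤ 1) : ‖z‖ₑ ≤ 1 := by
  rw [← ofReal_norm, ← ENNReal.ofReal_one]
  exact ENNReal.ofReal_le_ofReal hz

omit [Fintype ι] in
private theorem Pth_list (F : ℕ → (ι → E N) → ℂ) (M : ℕ) :
    (List.range (M + 1)).map F = F 0 :: (List.range M).map (fun i => F (i + 1)) := by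
  rw [List.range_succ_eq_map, List.map_cons, List.map_map]
  rfl

private theorem Pth_split (a b A B : ℂ) (hb : ‖b‖ ≤ 1) (hA : ‖A‖ ≤ 1) :
    ‖a * A - b * B‖ₑ ≤ ‖a - b‖ₑ + ‖A - B‖ₑ := by
  have h1 : a * A - b * B = (a - b) * A + b * (A - B) := by ring
  rw [h1]
  refine (enorm_add_le _ _).trans (add_le_add ?_ ?_)
  · rw [enorm_mul]
    exact mul_le_of_le_one_right' (Pth_le_one hA)
  · rw [enorm_mul]
    exact mul_le_of_le_one_left' (Pth_le_one hb)

private theorem Pth_int {ν : Measure (E N)} [IsProbabilityMeasure ν] {g : (ι → E N) → ℂ}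
    (hg : Measurable g) (hb : ∀ ξ, ‖g ξ‖ ≤ 1) : Integrable g (pim ι ν) ∧ ‖∫ ξ, g ξ ∂(pim ι ν)‖ ≤ 1 := by
  have := Pth_prob (ι := ι) (ν := ν)
  refine ⟨Integrable.of_bound (C := 1) hg.aestronglyMeasurable (Filter.Eventually.of_forall hb), ?_⟩
  have h1 := norm_integral_le_of_norm_le_const (μ := pim ι ν) (f := g) (C := 1)
    (Filter.Eventually.of_forall hb)
  simpa using h1

theorem pathE_tele (net : Net ι d) {β h k : ℝ} (hβ : 0 < β) (hh : 0 ≤ h) {ν : Measure (E N)}
    [IsProbabilityMeasure ν] (M : ℕ) (F : ℕ → (ι → E N) → ℂ) (c : ℕ → ℂ)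
    (hm : ∀ i, Measurable (F i)) (hb : ∀ i G, ‖F i G‖ ≤ 1) (hc : ∀ i, ‖c i‖ ≤ 1) (G : ι → E N) :
    ‖pathE net β h k ν ((List.range M).map F) G - ∏ i ∈ Finset.range M, c i‖ₑ ≤
      ∑ i ∈ Finset.range M, ev (stp net β h k) (pim ι ν) (fun G => ‖F i G - c i‖ₑ) i G := by
  have := Pth_prob (ι := ι) (ν := ν)
  have hs := (stp_continuous (N := N) hβ hh k net).measurable
  induction M generalizing F c G with
  | zero =>
    change ‖(1 : ℂ) - ∏ i ∈ Finset.range 0, c i‖ₑ ≤ _
    simp
  | succ M ih =>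
    set F' : ℕ → (ι → E N) → ℂ := fun i => F (i + 1) with hF'
    set c' : ℕ → ℂ := fun i => c (i + 1) with hc'
    have hfacts := pathE_facts (net := net) (k := k) (ν := ν) hβ hh ((List.range M).map F')
      (by
        intro f hf
        obtain ⟨i, _, rfl⟩ := List.mem_map.1 hf
        exact hm _)
      (by
        intro f hf
        obtain ⟨i, _, rfl⟩ := List.mem_map.1 hf
        exact hb _)
    set P : (ι → E N) → ℂ := pathE net β h k ν ((List.range M).map F') with hP
    have hsec := Pth_sec (N := N) (k := k) net hβ hh G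
    have hPm : Measurable (fun ξ => P (stp net β h k G ξ)) := hfacts.1.comp hsec
    obtain ⟨hPi, hPn⟩ := Pth_int (ν := ν) hPm (fun ξ => hfacts.2 _)
    have h1 : pathE net β h k ν ((List.range (M + 1)).map F) G =
        F 0 G * ∫ ξ, P (stp net β h k G ξ) ∂(pim ι ν) := by
      rw [Pth_list]
      rfl
    set B : ℂ := ∏ i ∈ Finset.range M, c' i with hB
    have h2 : ∏ i ∈ Finset.range (M + 1), c i = c 0 * B := by
      rw [Finset.prod_range_succ', mul_comm]
    have h3 : ‖(∫ ξ, P (stp net β h k G ξ) ∂(pim ι ν)) - B‖ₑ ≤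
        ∑ i ∈ Finset.range M,
          ev (stp net β h k) (pim ι ν) (fun G => ‖F (i + 1) G - c (i + 1)‖ₑ) (i + 1) G := by
      have h4 : (∫ ξ, P (stp net β h k G ξ) ∂(pim ι ν)) - B =
          ∫ ξ, (P (stp net β h k G ξ) - B) ∂(pim ι ν) := by
        rw [integral_sub hPi (integrable_const B)]
        simp
      rw [h4]
      refine (enorm_integral_le_lintegral_enorm _).trans ?_
      have h5 : ∀ ξ, ‖P (stp net β h k G ξ) - B‖ₑ ≤ ∑ i ∈ Finset.range M,
          ev (stp net β h k) (pim ι ν) (fun G => ‖F' i G - c' i‖ₑ) i (stp net β h k G ξ) :=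
        fun ξ => ih F' c' (fun i => hm _) (fun i => hb _) (fun i => hc _) _
      refine (lintegral_mono h5).trans (le_of_eq ?_)
      rw [lintegral_finsetSum]
      · rfl
      · intro i _
        exact (ev_meas hs (((hm (i + 1)).sub measurable_const).enorm) i).comp hsec
    rw [h1, h2, Finset.sum_range_succ', add_comm]
    refine (Pth_split (F 0 G) (c 0) _ B (hc 0) hPn).trans ?_
    exact add_le_add le_rfl h3

theorem pathE_pair (net : Net ι d) {β h k : ℝ} (hβ : 0 < β) (hh : 0 ≤ h) {ν : Measure (E N)}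
    [IsProbabilityMeasure ν] (hiso : ∀ L : E N ≃ₗᵢ[ℝ] E N, ν.map L = ν) (M : ℕ)
    (F : ℕ → (ι → E N) → ℂ) (hm : ∀ i, Measurable (F i)) (hb : ∀ i G, ‖F i G‖ ≤ 1)
    (G G' : ι → E N) :
    ‖pathE net β h k ν ((List.range M).map F) G -
        pathE net β h k ν ((List.range M).map F) G'‖ₑ ≤
      ∑ i ∈ Finset.range M,
        ev (stp2 net β h k) (pim ι ν) (fun p => ‖F i p.1 - F i p.2‖ₑ) i (G, G') := by
  have := Pth_prob (ι := ι) (ν := ν)
  have hs := (stp_continuous (N := N) hβ hh k net).measurable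
  have hs2 := measurable_stp2 (N := N) net hβ hh k
  induction M generalizing F G G' with
  | zero =>
    change ‖(1 : ℂ) - 1‖ₑ ≤ _
    simp
  | succ M ih =>
    set F' : ℕ → (ι → E N) → ℂ := fun i => F (i + 1) with hF'
    have hfacts := pathE_facts (net := net) (k := k) (ν := ν) hβ hh ((List.range M).map F')
      (by
        intro f hf
        obtain ⟨i, _, rfl⟩ := List.mem_map.1 hf
        exact hm _)
      (by
        intro f hf
        obtain ⟨i, _, rfl⟩ := List.mem_map.1 hf
        exact hb _)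
    set P : (ι → E N) → ℂ := pathE net β h k ν ((List.range M).map F') with hP
    have hsec := Pth_sec (N := N) (k := k) net hβ hh G
    have hsec' := Pth_sec (N := N) (k := k) net hβ hh G'
    have hrot := rotN_preserving (N := N) (ι := ι) hiso G G'
    have hPm : Measurable (fun ξ => P (stp net β h k G ξ)) := hfacts.1.comp hsec
    have hPm' : Measurable (fun ξ => P (stp net β h k G' ξ)) := hfacts.1.comp hsec'
    have hPr : Measurable (fun ξ => P (stp net β h k G' (rotN G G' ξ))) :=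
      hPm'.comp hrot.measurable
    obtain ⟨hPi, hPn⟩ := Pth_int (ν := ν) hPm (fun ξ => hfacts.2 _)
    obtain ⟨hPi', _⟩ := Pth_int (ν := ν) hPr (fun ξ => hfacts.2 _)
    have hA' : ∫ ξ, P (stp net β h k G' ξ) ∂(pim ι ν) =
        ∫ ξ, P (stp net β h k G' (rotN G G' ξ)) ∂(pim ι ν) := by
      conv_lhs => rw [← hrot.map_eq]
      exact integral_map hrot.measurable.aemeasurable
        (by rw [hrot.map_eq]; exact hPm'.aestronglyMeasurable)
    have h1 : ∀ H : ι → E N, pathE net β h k ν ((List.range (M + 1)).map F) H =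
        F 0 H * ∫ ξ, P (stp net β h k H ξ) ∂(pim ι ν) := by
      intro H
      rw [Pth_list]
      rfl
    have h3 : ‖(∫ ξ, P (stp net β h k G ξ) ∂(pim ι ν)) -
        ∫ ξ, P (stp net β h k G' ξ) ∂(pim ι ν)‖ₑ ≤
        ∑ i ∈ Finset.range M,
          ev (stp2 net β h k) (pim ι ν) (fun p => ‖F (i + 1) p.1 - F (i + 1) p.2‖ₑ) (i + 1)
            (G, G') := by
      rw [hA', ← integral_sub hPi hPi']
      refine (enorm_integral_le_lintegral_enorm _).trans ?_
      have h5 : ∀ ξ, ‖P (stp net β h k G ξ) - P (stp net β h k G' (rotN G G' ξ))‖ₑ ≤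
          ∑ i ∈ Finset.range M,
            ev (stp2 net β h k) (pim ι ν) (fun p => ‖F' i p.1 - F' i p.2‖ₑ) i
              (stp net β h k G ξ, stp net β h k G' (rotN G G' ξ)) :=
        fun ξ => ih F' (fun i => hm _) (fun i => hb _) _ _
      refine (lintegral_mono h5).trans (le_of_eq ?_)
      rw [lintegral_finsetSum]
      · rfl
      · intro i _
        have h6 : Measurable (fun p : (ι → E N) × (ι → E N) => ‖F' i p.1 - F' i p.2‖ₑ) :=
          (((hm (i + 1)).comp measurable_fst).sub ((hm (i + 1)).comp measurable_snd)).enorm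
        exact (ev_meas hs2 h6 i).comp (hsec.prodMk (hsec'.comp hrot.measurable))
    rw [h1 G, h1 G', Finset.sum_range_succ', add_comm]
    refine (Pth_split (F 0 G) (F 0 G') _ _ (hb 0 G') hPn).trans ?_
    exact add_le_add le_rfl h3

end DynS
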