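import Pool.Agent.Lib_MP_36b788s.DLB
import Pool.Agent.Lib_MP_36b788s.MomB

/-!
# SMIX, part A (`N ≥ 3`): tightness of one site, coupling from an annulus

PROOF.
* `site_tight`: given `ρ, ε`: choose `0 < r0 ≤ 1 ≤ R0` with `ρ{‖g‖ < r0} ≤ ε/4`, `ρ{‖g‖ > R0} ≤ ε/4` (`ρ{0} = 0`, continuity of measures). For `hR0^β ≤ 1` and `g` with
  `r0 ≤ ‖g‖ ≤ R0`: `ev ofReal‖·‖² n g ≤ ofReal(R0²+K)`, `ev W n g ≤ ofReal((1+r0^{-β})^γ+K')`. Markov: `P(‖g_n‖ > R) ≤ (R0²+K)/R² ≤ ε/4`,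
  `P(‖g_n‖ < r, g_n ≠ 0) ≤ ((1+r0^{-β})^γ+K')/(1+r^{-β})^γ ≤ ε/4` (`ev` of the indicator is at most `ev` of `W/W(r)`; write the bad set as
  `{‖g‖ < r ∨ R < ‖g‖}`; the point `0` has no mass: `ev 1_{g=0} n g = 0` for `g ≠ 0` by invariance, `ev_mono_on`). `law_ev`:
  `law n (bad) = ∫⁻ev 1_bad n dρ ≤ ε/4+ε/4+ε/4+ε/4`.
* `ann_couple`: `r ≤ ‖g‖,‖g'‖ ≤ R`. `D0 = log(R/r)`, `dL (g,g') ≤ D0`; `hR^β ≤ 1` puts `(g,g')` in `dlA`. `dist_le`: for nonzero `g,g'`,
  `‖g-g'‖ ≤ max(u,u')(dL+√(2sA))`: `‖g-g'‖ ≤ |u-u'|+min(u,u')‖e-e'‖`, `|u-u'| ≤ max·|log u-log u'|`, `‖e-e'‖² = 2sA`. With `√(2s) ≤ s/η+η/2` and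
  `min(1,Mx) ≤ R1x+1_{M>R1}` (`x ≥ 0`): `min 1 ‖g-g'‖ ≤ R1(dL+sA/η+η/2)+1_{‖q.1‖>R1}+1_{‖q.2‖>R1}` on `dlA`. Take `ev (hat2) n` (`ev_mono_on` with `dl_inv`):
  `ev dL n ≤ ev V n ≤ (1-ch)^nV(q) ≤ e^{-cnh}D0(1+Br^{-1/2})` (`dl_drift`, `ev_drift`); `ev sA n ≤ (1-h/2)^n·2 ≤ 2e^{-nh/2}` (`ang_drift`);
  `ev 1_{‖q.i‖>R1} n ≤ (R²+K)/R1²` (`hat2_ev_fst`, `hat2_ev_snd`, `mom_ev`). First `R1`, then `η`, then `T0`.
-/

open MeasureTheory ProbabilityTheory Dyn
open scoped ENNReal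

namespace DynS

private theorem SMixA_smul_uni {N : ℕ} {v : E N} (hv : v ≠ 0) : ‖v‖ • uni v = v := by
  have hv' : ‖v‖ ≠ 0 := norm_ne_zero_iff.mpr hv
  unfold uni
  rw [smul_smul, mul_one_div_cancel hv', one_smul]

private theorem SMixA_tail {N : ℕ} (ρ : Measure (E N)) [IsProbabilityMeasure ρ] {ε : ℝ≥0∞}
    (hε : 0 < ε) : ∃ R0 : ℝ, 1 ≤ R0 ∧ ρ {g | R0 < ‖g‖} ≤ ε := by
  have ht : Filter.Tendsto (ρ ∘ fun n : ℕ => {g : E N | (n : ℝ) < ‖g‖}) Filter.atTop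
      (nhds (ρ (⋂ n : ℕ, {g : E N | (n : ℝ) < ‖g‖}))) := by
    refine tendsto_measure_iInter_atTop ?_ ?_ ⟨0, measure_ne_top _ _⟩
    · intro n
      exact (measurableSet_lt measurable_const measurable_norm).nullMeasurableSet
    · intro a b hab x hx
      have h1 : ((a : ℕ) : ℝ) ≤ (b : ℝ) := by exact_mod_cast hab
      exact lt_of_le_of_lt h1 hx
  have hemp : (⋂ n : ℕ, {g : E N | (n : ℝ) < ‖g‖}) = ∅ := by
    ext g
    simp only [Set.mem_iInter, Set.mem_ofPred_eq, Set.mem_empty_iff_false, iff_false, not_forall,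
      not_lt]
    exact exists_nat_ge ‖g‖
  rw [hemp, measure_empty] at ht
  obtain ⟨n, hn⟩ := Filter.eventually_atTop.1 (ht.eventually (gt_mem_nhds hε))
  refine ⟨((max n 1 : ℕ) : ℝ), by exact_mod_cast le_max_right n 1, ?_⟩
  exact (hn (max n 1) (le_max_left n 1)).le

private theorem SMixA_near {N : ℕ} (ρ : Measure (E N)) [IsProbabilityMeasure ρ] (h0 : ρ {0} = 0)
    {ε : ℝ≥0∞} (hε : 0 < ε) : ∃ r0 : ℝ, 0 < r0 ∧ r0 ≤ 1 ∧ ρ {g | ‖g‖ < r0} ≤ ε := by
  have ht : Filter.Tendsto (ρ ∘ fun n : ℕ => {g : E N | ‖g‖ < 1 / ((n : ℝ) + 1)}) Filter.atTop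
      (nhds (ρ (⋂ n : ℕ, {g : E N | ‖g‖ < 1 / ((n : ℝ) + 1)}))) := by
    refine tendsto_measure_iInter_atTop ?_ ?_ ⟨0, measure_ne_top _ _⟩
    · intro n
      exact (measurableSet_lt measurable_norm measurable_const).nullMeasurableSet
    · intro a b hab x hx
      have h1 : ((a : ℕ) : ℝ) ≤ (b : ℝ) := by exact_mod_cast hab
      have h2 : (1 : ℝ) / ((b : ℝ) + 1) ≤ 1 / ((a : ℝ) + 1) :=
        one_div_le_one_div_of_le (by positivity) (by linarith)
      exact lt_of_lt_of_le hx h2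
  have hemp : (⋂ n : ℕ, {g : E N | ‖g‖ < 1 / ((n : ℝ) + 1)}) = {0} := by
    ext g
    simp only [Set.mem_iInter, Set.mem_ofPred_eq, Set.mem_singleton_iff]
    constructor
    · intro hg
      by_contra hne
      have hp : 0 < ‖g‖ := norm_pos_iff.mpr hne
      obtain ⟨n, hn⟩ := exists_nat_one_div_lt hp
      exact absurd (hg n) (not_lt.mpr hn.le)
    · intro hg n
      rw [hg, norm_zero]
      positivity
  rw [hemp, h0] at ht
  obtain ⟨n, hn⟩ := Filter.eventually_atTop.1 (ht.eventually (gt_mem_nhds hε))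
  refine ⟨1 / ((n : ℝ) + 1), by positivity, ?_, (hn n le_rfl).le⟩
  rw [div_le_one (by positivity)]
  have : (0 : ℝ) ≤ (n : ℝ) := Nat.cast_nonneg n
  linarith

private theorem SMixA_ne {N : ℕ} {β h : ℝ} (hβ : 0 < β) (hh : 0 < h) (hh1 : h < 1 / 1000)
    {ν : Measure (E N)} (hν : IsNoise h ν) :
    ∀ g ∈ {g : E N | g ≠ 0}, ∀ᵐ ξ ∂ν, hat β h g ξ ∈ {g : E N | g ≠ 0} := by
  intro g hg
  filter_upwards [noise_ae hh hh1 hν] with ξ hξ
  have hz := (hξ.2 (uni g) (uni_norm hg)).1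
  exact (hat_step hβ hh.le hg (lt_of_lt_of_le (by norm_num) hz)).1

private theorem SMixA_exp {c h A ε T0 : ℝ} {n : ℕ} (hc : 0 ≤ c) (h1 : c * h ≤ 1)
    (hε : 0 ≤ ε) (hA : A ≤ ε * (1 + c * T0)) (hn : T0 ≤ n * h) :
    (1 - c * h) ^ n * A ≤ ε := by
  have h2 : (1 - c * h) ^ n ≤ Real.exp (-(c * (n * h))) := by
    have h3 : 1 - c * h ≤ Real.exp (-(c * h)) := by
      have := Real.add_one_le_exp (-(c * h))
      linarith
    calc (1 - c * h) ^ n ≤ (Real.exp (-(c * h))) ^ n := pow_le_pow_left₀ (by linarith) h3 n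
      _ = Real.exp (-(c * (n * h))) := by
        rw [← Real.exp_nat_mul]
        congr 1
        ring
  have h4 : 1 + c * T0 ≤ Real.exp (c * (n * h)) := by
    have h5 := Real.add_one_le_exp (c * (n * h))
    have h6 : c * T0 ≤ c * (n * h) := mul_le_mul_of_nonneg_left hn hc
    linarith
  have h7 : 0 ≤ (1 - c * h) ^ n := pow_nonneg (by linarith) n
  calc (1 - c * h) ^ n * A ≤ (1 - c * h) ^ n * (ε * (1 + c * T0)) :=
        mul_le_mul_of_nonneg_left hA h7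
    _ ≤ (1 - c * h) ^ n * (ε * Real.exp (c * (n * h))) :=
        mul_le_mul_of_nonneg_left (mul_le_mul_of_nonneg_left h4 hε) h7
    _ ≤ Real.exp (-(c * (n * h))) * (ε * Real.exp (c * (n * h))) :=
        mul_le_mul_of_nonneg_right h2 (mul_nonneg hε (Real.exp_pos _).le)
    _ = ε * (Real.exp (-(c * (n * h))) * Real.exp (c * (n * h))) := by ring
    _ = ε := by
        rw [← Real.exp_add, neg_add_cancel, Real.exp_zero, mul_one]

theorem site_tight {N : ℕ} (hN : 3 ≤ N) {β : ℝ} (hβ : 0 < β) (ρ : Measure (E N))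
    [IsProbabilityMeasure ρ] (h0 : ρ {0} = 0) {ε : ℝ} (hε : 0 < ε) :
    ∃ r R h0 : ℝ, 0 < r ∧ r ≤ R ∧ 0 < h0 ∧ ∀ (h : ℝ) (ν : Measure (E N)), 0 < h → h < h0 →
      IsNoise h ν → ∀ n : ℕ,
        (law (hat β h) ν ρ n) {g | ‖g‖ < r ∨ R < ‖g‖} ≤ ENNReal.ofReal ε := by
  have hε4 : 0 < ENNReal.ofReal (ε / 4) := ENNReal.ofReal_pos.mpr (by positivity)
  obtain ⟨R0, hR0, hρR⟩ := SMixA_tail ρ hε4
  obtain ⟨r0, hr0, hr01, hρr⟩ := SMixA_near ρ h0 hε4
  obtain ⟨K, h1, hK, hh1, hh1', hM⟩ := mom_ev (N := N) (by omega) hβ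
  obtain ⟨γ, K', h2, hγ, hK', hh2, hh2', hW⟩ := w_ev hN hβ
  have hR0p : (0 : ℝ) < R0 := lt_of_lt_of_le one_pos hR0
  set W0 : ℝ := (1 + r0 ^ (-β)) ^ γ + K' with hW0
  have hW0p : 0 < W0 := by
    have : 0 ≤ (1 + r0 ^ (-β)) ^ γ := by positivity
    linarith
  set Q : ℝ := max 1 (4 * W0 / ε) with hQ
  have hQ1 : 1 ≤ Q := le_max_left _ _
  have hQp : 0 < Q := lt_of_lt_of_le one_pos hQ1
  have hQ2 : W0 / Q ≤ ε / 4 := by
    rw [div_le_iff₀ hQp]
    have h3 : 4 * W0 / ε ≤ Q := le_max_right _ _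
    rw [div_le_iff₀ hε] at h3
    linarith
  set X : ℝ := Q ^ (1 / γ) with hX
  have hX1 : 1 ≤ X := Real.one_le_rpow hQ1 (by positivity)
  have hXp : 0 < X := lt_of_lt_of_le one_pos hX1
  have hXγ : X ^ γ = Q := by
    rw [hX, ← Real.rpow_mul hQp.le, one_div_mul_cancel hγ.ne', Real.rpow_one]
  set r : ℝ := X ^ (-(1 / β)) with hr
  have hrp : 0 < r := Real.rpow_pos_of_pos hXp _
  have hr1 : r ≤ 1 := Real.rpow_le_one_of_one_le_of_nonpos hX1 (by
    have : 0 < 1 / β := by positivity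
    linarith)
  have hrX : r ^ (-β) = X := by
    rw [hr, ← Real.rpow_mul hXp.le]
    have : -(1 / β) * -β = 1 := by
      field_simp
    rw [this, Real.rpow_one]
  set R : ℝ := max 1 (4 * (R0 ^ 2 + K) / ε) with hR
  have hR1 : 1 ≤ R := le_max_left _ _
  have hRp : 0 < R := lt_of_lt_of_le one_pos hR1
  have hR2 : (R0 ^ 2 + K) / R ^ 2 ≤ ε / 4 := by
    rw [div_le_iff₀ (by positivity)]
    have h3 : 4 * (R0 ^ 2 + K) / ε ≤ R := le_max_right _ _
    rw [div_le_iff₀ hε] at h3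
    have h4 : R ≤ R ^ 2 := by nlinarith
    have h5 : R * ε ≤ R ^ 2 * ε := mul_le_mul_of_nonneg_right h4 hε.le
    linarith
  set h3 : ℝ := R0 ^ (-β) with hh3
  have hh3p : 0 < h3 := Real.rpow_pos_of_pos hR0p _
  refine ⟨r, R, min (min h1 h2) h3, hrp, le_trans hr1 hR1, lt_min (lt_min hh1 hh2) hh3p, ?_⟩
  intro h ν hh hlt hν n
  have := hν.prob
  have hlt1 : h < h1 := lt_of_lt_of_le hlt (le_trans (min_le_left _ _) (min_le_left _ _))
  have hlt2 : h < h2 := lt_of_lt_of_le hlt (le_trans (min_le_left _ _) (min_le_right _ _))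
  have hlt3 : h < h3 := lt_of_lt_of_le hlt (min_le_right _ _)
  have hlt4 : h < 1 / 1000 := lt_of_lt_of_le hlt1 hh1'
  have hmeas := measurable_hat (N := N) hβ hh.le
  set S : Set (E N) := {g | ‖g‖ < r ∨ R < ‖g‖} with hS
  have hSm : MeasurableSet S := by
    have e1 : MeasurableSet {g : E N | ‖g‖ < r} :=
      measurableSet_lt measurable_norm measurable_const
    have e2 : MeasurableSet {g : E N | R < ‖g‖} :=
      measurableSet_lt measurable_const measurable_norm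
    exact e1.union e2
  have hm1 : Measurable (fun g : E N => ENNReal.ofReal (‖g‖ ^ 2)) :=
    (measurable_norm.pow_const 2).ennreal_ofReal
  have hm2 : Measurable (fun g : E N => ENNReal.ofReal ((1 + ‖g‖ ^ (-β)) ^ γ)) :=
    (((measurable_norm.pow_const (-β)).const_add 1).pow_const γ).ennreal_ofReal
  have hind : Measurable (S.indicator (fun _ => (1 : ℝ≥0∞))) := measurable_const.indicator hSm
  -- the indicator on the set of nonzero vectors
  have hle : ∀ g ∈ {g : E N | g ≠ 0}, S.indicator (fun _ => (1 : ℝ≥0∞)) g ≤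
      ENNReal.ofReal (1 / R ^ 2) * ENNReal.ofReal (‖g‖ ^ 2) +
        ENNReal.ofReal (1 / Q) * ENNReal.ofReal ((1 + ‖g‖ ^ (-β)) ^ γ) := by
    intro g hg
    have hgp : 0 < ‖g‖ := norm_pos_iff.mpr hg
    by_cases hgS : g ∈ S
    · rw [Set.indicator_of_mem hgS]
      rcases hgS with hg1 | hg2
      · have e1 : X ≤ ‖g‖ ^ (-β) := by
          rw [← hrX]
          exact Real.rpow_le_rpow_of_nonpos hgp hg1.le (by linarith)
        have e2 : Q ≤ (1 + ‖g‖ ^ (-β)) ^ γ := by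
          rw [← hXγ]
          exact Real.rpow_le_rpow hXp.le (by linarith) hγ.le
        refine le_trans ?_ le_add_self
        rw [← ENNReal.ofReal_mul (by positivity), ← ENNReal.ofReal_one]
        apply ENNReal.ofReal_le_ofReal
        rw [one_div, inv_mul_eq_div, le_div_iff₀ hQp]
        linarith
      · refine le_trans ?_ le_self_add
        rw [← ENNReal.ofReal_mul (by positivity), ← ENNReal.ofReal_one]
        apply ENNReal.ofReal_le_ofReal
        rw [one_div, inv_mul_eq_div, le_div_iff₀ (by positivity), one_mul]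
        exact pow_le_pow_left₀ hRp.le hg2.le 2
    · rw [Set.indicator_of_notMem hgS]
      exact zero_le
  have hev : ∀ g : E N, ev (hat β h) ν (S.indicator (fun _ => (1 : ℝ≥0∞))) n g ≤
      {g : E N | ‖g‖ < r0}.indicator (fun _ => (1 : ℝ≥0∞)) g +
        {g : E N | R0 < ‖g‖}.indicator (fun _ => (1 : ℝ≥0∞)) g + ENNReal.ofReal (ε / 2) := by
    intro g
    have hev1 : ev (hat β h) ν (S.indicator (fun _ => (1 : ℝ≥0∞))) n g ≤ 1 := by
      calc ev (hat β h) ν (S.indicator (fun _ => (1 : ℝ≥0∞))) n g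
          ≤ ev (hat β h) ν (fun _ => (1 : ℝ≥0∞)) n g :=
            ev_mono (fun x => Set.indicator_le_self' (fun _ _ => zero_le) x) n g
        _ = 1 := ev_const 1 n g
    by_cases hg1 : ‖g‖ < r0
    · have e1 : {g : E N | ‖g‖ < r0}.indicator (fun _ => (1 : ℝ≥0∞)) g = 1 :=
        Set.indicator_of_mem (s := {g : E N | ‖g‖ < r0}) hg1 _
      rw [e1]
      exact le_trans hev1 (le_trans le_self_add le_self_add)
    by_cases hg2 : R0 < ‖g‖
    · have e1 : {g : E N | R0 < ‖g‖}.indicator (fun _ => (1 : ℝ≥0∞)) g = 1 :=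
        Set.indicator_of_mem (s := {g : E N | R0 < ‖g‖}) hg2 _
      rw [e1]
      exact le_trans hev1 (le_trans le_add_self le_self_add)
    push Not at hg1 hg2
    have hgp : 0 < ‖g‖ := lt_of_lt_of_le hr0 hg1
    have hg : g ≠ 0 := norm_pos_iff.mp hgp
    have hhg : h * ‖g‖ ^ β ≤ 1 := by
      have e1 : ‖g‖ ^ β ≤ R0 ^ β := Real.rpow_le_rpow hgp.le hg2 hβ.le
      have e2 : h * R0 ^ β ≤ h3 * R0 ^ β :=
        mul_le_mul_of_nonneg_right hlt3.le (by positivity)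
      have e3 : h3 * R0 ^ β = 1 := by
        rw [hh3, ← Real.rpow_add hR0p, neg_add_cancel, Real.rpow_zero]
      have e4 : h * ‖g‖ ^ β ≤ h * R0 ^ β := mul_le_mul_of_nonneg_left e1 hh.le
      linarith
    refine le_trans ?_ le_add_self
    calc ev (hat β h) ν (S.indicator (fun _ => (1 : ℝ≥0∞))) n g
        ≤ ev (hat β h) ν (fun g => ENNReal.ofReal (1 / R ^ 2) * ENNReal.ofReal (‖g‖ ^ 2) +
            ENNReal.ofReal (1 / Q) * ENNReal.ofReal ((1 + ‖g‖ ^ (-β)) ^ γ)) n g :=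
          ev_mono_on {g : E N | g ≠ 0} (SMixA_ne hβ hh hlt4 hν) hle n g hg
      _ = ENNReal.ofReal (1 / R ^ 2) *
            ev (hat β h) ν (fun g => ENNReal.ofReal (‖g‖ ^ 2)) n g +
          ENNReal.ofReal (1 / Q) *
            ev (hat β h) ν (fun g => ENNReal.ofReal ((1 + ‖g‖ ^ (-β)) ^ γ)) n g := by
          rw [ev_add hmeas (hm1.const_mul _) (hm2.const_mul _), ev_cmul hmeas hm1,
            ev_cmul hmeas hm2]
      _ ≤ ENNReal.ofReal (1 / R ^ 2) * ENNReal.ofReal (R0 ^ 2 + K) +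
          ENNReal.ofReal (1 / Q) * ENNReal.ofReal W0 := by
          gcongr
          · refine le_trans (hM h ν hh hlt1 hν n g) (ENNReal.ofReal_le_ofReal ?_)
            have := pow_le_pow_left₀ hgp.le hg2 2
            linarith
          · refine le_trans (hW h ν hh hlt2 hν n g hg hhg) (ENNReal.ofReal_le_ofReal ?_)
            have e1 : ‖g‖ ^ (-β) ≤ r0 ^ (-β) :=
              Real.rpow_le_rpow_of_nonpos hr0 hg1 (by linarith)
            have e2 : (1 + ‖g‖ ^ (-β)) ^ γ ≤ (1 + r0 ^ (-β)) ^ γ :=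
              Real.rpow_le_rpow (by positivity) (by linarith) hγ.le
            rw [hW0]
            linarith
      _ ≤ ENNReal.ofReal (ε / 2) := by
          rw [← ENNReal.ofReal_mul (by positivity), ← ENNReal.ofReal_mul (by positivity),
            ← ENNReal.ofReal_add (by positivity) (by positivity)]
          apply ENNReal.ofReal_le_ofReal
          have e1 : 1 / R ^ 2 * (R0 ^ 2 + K) = (R0 ^ 2 + K) / R ^ 2 := by ring
          have e2 : 1 / Q * W0 = W0 / Q := by ring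
          rw [e1, e2]
          linarith
  have hm3 : MeasurableSet {g : E N | ‖g‖ < r0} :=
    measurableSet_lt measurable_norm measurable_const
  have hm4 : MeasurableSet {g : E N | R0 < ‖g‖} :=
    measurableSet_lt measurable_const measurable_norm
  calc (law (hat β h) ν ρ n) S
      = ∫⁻ g, S.indicator (fun _ => (1 : ℝ≥0∞)) g ∂(law (hat β h) ν ρ n) := by
        rw [lintegral_indicator hSm, setLIntegral_const, one_mul]
    _ = ∫⁻ g, ev (hat β h) ν (S.indicator (fun _ => (1 : ℝ≥0∞))) n g ∂ρ :=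
        law_ev hmeas ρ hind n
    _ ≤ ∫⁻ g, ({g : E N | ‖g‖ < r0}.indicator (fun _ => (1 : ℝ≥0∞)) g +
        {g : E N | R0 < ‖g‖}.indicator (fun _ => (1 : ℝ≥0∞)) g + ENNReal.ofReal (ε / 2)) ∂ρ :=
        lintegral_mono hev
    _ = ρ {g : E N | ‖g‖ < r0} + ρ {g : E N | R0 < ‖g‖} + ENNReal.ofReal (ε / 2) := by
        rw [lintegral_add_right _ measurable_const,
          lintegral_add_right _ (measurable_const.indicator hm4),
          lintegral_indicator hm3, lintegral_indicator hm4, setLIntegral_const,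
          setLIntegral_const, one_mul, one_mul, lintegral_const, measure_univ, mul_one]
    _ ≤ ENNReal.ofReal (ε / 4) + ENNReal.ofReal (ε / 4) + ENNReal.ofReal (ε / 2) := by
        gcongr
    _ = ENNReal.ofReal ε := by
        rw [← ENNReal.ofReal_add (by positivity) (by positivity),
          ← ENNReal.ofReal_add (by positivity) (by positivity)]
        congr 1
        ring

private theorem SMixA_uni_sub {N : ℕ} {q : E N × E N} (h1 : q.1 ≠ 0) (h2 : q.2 ≠ 0) :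
    ‖uni q.1 - uni q.2‖ = Real.sqrt (2 * sA q) := by
  have e1 : ‖uni q.1‖ = 1 := uni_norm h1
  have e2 : ‖uni q.2‖ = 1 := uni_norm h2
  have e3 : ‖uni q.1 - uni q.2‖ ^ 2 = 2 * sA q := by
    rw [norm_sub_sq_real, e1, e2]
    unfold sA
    ring
  rw [← e3, Real.sqrt_sq (norm_nonneg _)]

private theorem SMixA_logd {a b : ℝ} (ha : 0 < a) (hb : 0 < b) :
    a - b ≤ a * |Real.log a - Real.log b| := by
  have h1 : Real.log (b / a) ≤ b / a - 1 := Real.log_le_sub_one_of_pos (by positivity)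
  rw [Real.log_div hb.ne' ha.ne'] at h1
  have h2 : 1 - b / a ≤ Real.log a - Real.log b := by linarith
  have h3 : a * (1 - b / a) = a - b := by
    field_simp
  calc a - b = a * (1 - b / a) := h3.symm
    _ ≤ a * (Real.log a - Real.log b) := mul_le_mul_of_nonneg_left h2 ha.le
    _ ≤ a * |Real.log a - Real.log b| := mul_le_mul_of_nonneg_left (le_abs_self _) ha.le

theorem dist_le {N : ℕ} {q : E N × E N} (h1 : q.1 ≠ 0) (h2 : q.2 ≠ 0) :
    ‖q.1 - q.2‖ ≤ max ‖q.1‖ ‖q.2‖ * (dL q + Real.sqrt (2 * sA q)) := by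
  have ha : 0 < ‖q.1‖ := norm_pos_iff.mpr h1
  have hb : 0 < ‖q.2‖ := norm_pos_iff.mpr h2
  have e1 : ‖uni q.1‖ = 1 := uni_norm h1
  have e2 : ‖uni q.2‖ = 1 := uni_norm h2
  have q1 : ‖q.1‖ • uni q.1 = q.1 := SMixA_smul_uni h1
  have q2 : ‖q.2‖ • uni q.2 = q.2 := SMixA_smul_uni h2
  rw [← SMixA_uni_sub h1 h2]
  rcases le_total ‖q.2‖ ‖q.1‖ with hle | hle
  · have e3 : q.1 - q.2 = (‖q.1‖ - ‖q.2‖) • uni q.1 + ‖q.2‖ • (uni q.1 - uni q.2) := by
      rw [sub_smul, smul_sub, q1, q2]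
      abel
    have e4 : ‖q.1‖ - ‖q.2‖ ≤ ‖q.1‖ * dL q := SMixA_logd ha hb
    calc ‖q.1 - q.2‖ = ‖(‖q.1‖ - ‖q.2‖) • uni q.1 + ‖q.2‖ • (uni q.1 - uni q.2)‖ := by rw [← e3]
      _ ≤ ‖(‖q.1‖ - ‖q.2‖) • uni q.1‖ + ‖‖q.2‖ • (uni q.1 - uni q.2)‖ := norm_add_le _ _
      _ = (‖q.1‖ - ‖q.2‖) + ‖q.2‖ * ‖uni q.1 - uni q.2‖ := by
          rw [norm_smul, norm_smul, e1, mul_one, Real.norm_eq_abs, Real.norm_eq_abs,
            abs_of_nonneg (sub_nonneg.mpr hle), abs_of_pos hb]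
      _ ≤ ‖q.1‖ * dL q + ‖q.1‖ * ‖uni q.1 - uni q.2‖ :=
          add_le_add e4 (mul_le_mul_of_nonneg_right hle (norm_nonneg _))
      _ = max ‖q.1‖ ‖q.2‖ * (dL q + ‖uni q.1 - uni q.2‖) := by
          rw [max_eq_left hle]
          ring
  · have e3 : q.1 - q.2 = (-(‖q.2‖ - ‖q.1‖)) • uni q.2 + ‖q.1‖ • (uni q.1 - uni q.2) := by
      rw [neg_smul, sub_smul, smul_sub, q1, q2]
      abel
    have e4 : ‖q.2‖ - ‖q.1‖ ≤ ‖q.2‖ * dL q := by
      have := SMixA_logd hb ha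
      unfold dL
      rw [abs_sub_comm]
      exact this
    calc ‖q.1 - q.2‖
        = ‖(-(‖q.2‖ - ‖q.1‖)) • uni q.2 + ‖q.1‖ • (uni q.1 - uni q.2)‖ := by rw [← e3]
      _ ≤ ‖(-(‖q.2‖ - ‖q.1‖)) • uni q.2‖ + ‖‖q.1‖ • (uni q.1 - uni q.2)‖ := norm_add_le _ _
      _ = (‖q.2‖ - ‖q.1‖) + ‖q.1‖ * ‖uni q.1 - uni q.2‖ := by
          rw [norm_smul, norm_smul, e2, mul_one, Real.norm_eq_abs, Real.norm_eq_abs, abs_neg,
            abs_of_nonneg (sub_nonneg.mpr hle), abs_of_pos ha]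
      _ ≤ ‖q.2‖ * dL q + ‖q.2‖ * ‖uni q.1 - uni q.2‖ :=
          add_le_add e4 (mul_le_mul_of_nonneg_right hle (norm_nonneg _))
      _ = max ‖q.1‖ ‖q.2‖ * (dL q + ‖uni q.1 - uni q.2‖) := by
          rw [max_eq_right hle]
          ring

private theorem SMixA_sqrt {s η : ℝ} (hs : 0 ≤ s) (hη : 0 < η) :
    Real.sqrt (2 * s) ≤ s / η + η / 2 := by
  apply Real.sqrt_le_iff.mpr
  constructor
  · positivity
  · have h1 : (s / η + η / 2) ^ 2 = (s / η - η / 2) ^ 2 + 2 * s := by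
      field_simp
      ring
    rw [h1]
    have := sq_nonneg (s / η - η / 2)
    linarith

private theorem SMixA_lin {X Ξ : Type} [MeasurableSpace X] [MeasurableSpace Ξ] {f : X → Ξ → X}
    {μ : Measure Ξ} [IsProbabilityMeasure μ] (hf : Measurable (fun q : X × Ξ => f q.1 q.2))
    {φ1 φ2 φ3 φ4 : X → ℝ≥0∞} (h1 : Measurable φ1) (h2 : Measurable φ2) (h3 : Measurable φ3)
    (h4 : Measurable φ4) (a b c d e : ℝ≥0∞) (n : ℕ) (x : X) :
    ev f μ (fun q => (((a * φ1 q + b * φ2 q) + c) + d * φ3 q) + e * φ4 q) n x =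
      (((a * ev f μ φ1 n x + b * ev f μ φ2 n x) + c) + d * ev f μ φ3 n x) +
        e * ev f μ φ4 n x := by
  have m1 : Measurable (fun q => a * φ1 q) := h1.const_mul a
  have m2 : Measurable (fun q => b * φ2 q) := h2.const_mul b
  have m3 : Measurable (fun q => d * φ3 q) := h3.const_mul d
  have m4 : Measurable (fun q => e * φ4 q) := h4.const_mul e
  have m5 : Measurable (fun q => a * φ1 q + b * φ2 q) := m1.add m2
  have m6 : Measurable (fun q => (a * φ1 q + b * φ2 q) + c) := m5.add measurable_const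
  have m7 : Measurable (fun q => ((a * φ1 q + b * φ2 q) + c) + d * φ3 q) := m6.add m3
  rw [ev_add hf m7 m4, ev_add hf m6 m3, ev_add hf m5 measurable_const, ev_add hf m1 m2,
    ev_cmul hf h1, ev_cmul hf h2, ev_cmul hf h3, ev_cmul hf h4, ev_const]

theorem ann_couple {N : ℕ} (hN : 3 ≤ N) {β : ℝ} (hβ : 0 < β) {r R : ℝ} (hr : 0 < r) (hrR : r ≤ R)
    {ε : ℝ} (hε : 0 < ε) : ∃ T0 h0 : ℝ, 0 ≤ T0 ∧ 0 < h0 ∧ ∀ (h : ℝ) (ν : Measure (E N)), 0 < h →
      h < h0 → IsNoise h ν → ∀ (n : ℕ) (g g' : E N), T0 ≤ n * h → r ≤ ‖g‖ → ‖g‖ ≤ R → r ≤ ‖g'‖ →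
        ‖g'‖ ≤ R →
        ev (hat2 β h) ν (fun q => ENNReal.ofReal (min 1 ‖q.1 - q.2‖)) n (g, g') ≤
          ENNReal.ofReal ε := by
  have hRp : 0 < R := lt_of_lt_of_le hr hrR
  set D0 : ℝ := Real.log R - Real.log r with hD0
  have hD0n : 0 ≤ D0 := sub_nonneg.mpr (Real.log_le_log hr hrR)
  obtain ⟨c, B, h1, hc, hB, hh1, hh1', hch1, hV⟩ := dl_drift hN hβ D0
  obtain ⟨K, h2, hK, hh2, hh2', hM⟩ := mom_ev (N := N) (by omega) hβ
  set V0 : ℝ := D0 * (1 + B * r ^ (-(1 / 2) : ℝ)) with hV0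
  have hV0n : 0 ≤ V0 := by positivity
  set R1 : ℝ := 1 + 8 * (R ^ 2 + K) / ε with hR1
  have hR1a : 1 ≤ R1 := by
    have : 0 ≤ 8 * (R ^ 2 + K) / ε := by positivity
    linarith
  have hR1p : 0 < R1 := lt_of_lt_of_le one_pos hR1a
  have hR1b : (R ^ 2 + K) / R1 ^ 2 ≤ ε / 8 := by
    rw [div_le_iff₀ (by positivity)]
    have h3 : 8 * (R ^ 2 + K) / ε ≤ R1 := by linarith
    rw [div_le_iff₀ hε] at h3
    have h4 : R1 ≤ R1 ^ 2 := by nlinarith
    have h5 : R1 * ε ≤ R1 ^ 2 * ε := mul_le_mul_of_nonneg_right h4 hε.le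
    linarith
  set η : ℝ := ε / (2 * R1) with hη
  have hηp : 0 < η := by positivity
  have hη1 : R1 * (η / 2) = ε / 4 := by
    rw [hη]
    field_simp
    ring
  set Ta : ℝ := 4 * (R1 * V0) / (ε * c) with hTa
  set Tb : ℝ := 16 * (R1 / η) / ε with hTb
  have hTan : 0 ≤ Ta := by positivity
  have hTbn : 0 ≤ Tb := by positivity
  set h3 : ℝ := R ^ (-β) with hh3
  have hh3p : 0 < h3 := Real.rpow_pos_of_pos hRp _
  refine ⟨Ta + Tb, min (min h1 h2) h3, add_nonneg hTan hTbn, lt_min (lt_min hh1 hh2) hh3p, ?_⟩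
  intro h ν hh hlt hν n g g' hT hg1 hg2 hg1' hg2'
  have := hν.prob
  have hlt1 : h < h1 := lt_of_lt_of_le hlt (le_trans (min_le_left _ _) (min_le_left _ _))
  have hlt2 : h < h2 := lt_of_lt_of_le hlt (le_trans (min_le_left _ _) (min_le_right _ _))
  have hlt3 : h < h3 := lt_of_lt_of_le hlt (min_le_right _ _)
  have hlt4 : h < 1 / 1000 := lt_of_lt_of_le hlt1 hh1'
  have hmeas2 := measurable_hat2 (N := N) hβ hh.le
  have hmeas := measurable_hat (N := N) hβ hh.le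
  have hgp : 0 < ‖g‖ := lt_of_lt_of_le hr hg1
  have hgp' : 0 < ‖g'‖ := lt_of_lt_of_le hr hg1'
  have hg : g ≠ 0 := norm_pos_iff.mp hgp
  have hg' : g' ≠ 0 := norm_pos_iff.mp hgp'
  have hinv : ∀ u : ℝ, 0 < u → u ≤ R → h * u ^ β ≤ 1 := by
    intro u hu huR
    have e1 : u ^ β ≤ R ^ β := Real.rpow_le_rpow hu.le huR hβ.le
    have e2 : h * R ^ β ≤ h3 * R ^ β :=
      mul_le_mul_of_nonneg_right hlt3.le (by positivity)
    have e3 : h3 * R ^ β = 1 := by
      rw [hh3, ← Real.rpow_add hRp, neg_add_cancel, Real.rpow_zero]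
    have e4 : h * u ^ β ≤ h * R ^ β := mul_le_mul_of_nonneg_left e1 hh.le
    linarith
  have hdL : dL (g, g') ≤ D0 := by
    unfold dL
    have a1 := Real.log_le_log hr hg1
    have a2 := Real.log_le_log hgp hg2
    have a3 := Real.log_le_log hr hg1'
    have a4 := Real.log_le_log hgp' hg2'
    rw [abs_le]
    constructor
    · simp only
      linarith
    · simp only
      linarith
  have hmem : ((g, g') : E N × E N) ∈ dlA N β h D0 :=
    ⟨hg, hg', hinv _ hgp hg2, hinv _ hgp' hg2', hdL⟩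
  -- the functions
  have hmV : Measurable (fun q : E N × E N =>
      ENNReal.ofReal (dL q * (1 + B * ‖q.1‖ ^ (-(1 / 2) : ℝ)))) := by
    apply Measurable.ennreal_ofReal
    exact measurable_dL.mul (((measurable_norm.comp measurable_fst).pow_const _).const_mul B
      |>.const_add 1)
  have hmS : Measurable (fun q : E N × E N => ENNReal.ofReal (sA q)) :=
    measurable_sA.ennreal_ofReal
  have hmN : Measurable (fun g : E N => ENNReal.ofReal (‖g‖ ^ 2)) :=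
    (measurable_norm.pow_const 2).ennreal_ofReal
  have hm1 : Measurable (fun q : E N × E N => ENNReal.ofReal (‖q.1‖ ^ 2)) :=
    hmN.comp measurable_fst
  have hm2 : Measurable (fun q : E N × E N => ENNReal.ofReal (‖q.2‖ ^ 2)) :=
    hmN.comp measurable_snd
  have hle : ∀ q ∈ dlA N β h D0, ENNReal.ofReal (min 1 ‖q.1 - q.2‖) ≤
      (((ENNReal.ofReal R1 * ENNReal.ofReal (dL q * (1 + B * ‖q.1‖ ^ (-(1 / 2) : ℝ))) +
        ENNReal.ofReal (R1 / η) * ENNReal.ofReal (sA q)) + ENNReal.ofReal (ε / 4)) +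
        ENNReal.ofReal (1 / R1 ^ 2) * ENNReal.ofReal (‖q.1‖ ^ 2)) +
        ENNReal.ofReal (1 / R1 ^ 2) * ENNReal.ofReal (‖q.2‖ ^ 2) := by
    intro q hq
    obtain ⟨hq1, hq2, -, -, -⟩ := hq
    have hdn : 0 ≤ dL q := abs_nonneg _
    have hVn : 0 ≤ dL q * (1 + B * ‖q.1‖ ^ (-(1 / 2) : ℝ)) := by positivity
    have hsn : 0 ≤ sA q := (sA_nonneg q).1
    rw [← ENNReal.ofReal_mul hR1p.le, ← ENNReal.ofReal_mul (by positivity),
      ← ENNReal.ofReal_mul (by positivity), ← ENNReal.ofReal_mul (by positivity),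
      ← ENNReal.ofReal_add (by positivity) (by positivity),
      ← ENNReal.ofReal_add (by positivity) (by positivity),
      ← ENNReal.ofReal_add (by positivity) (by positivity),
      ← ENNReal.ofReal_add (by positivity) (by positivity)]
    apply ENNReal.ofReal_le_ofReal
    have t1 : 0 ≤ R1 * (dL q * (1 + B * ‖q.1‖ ^ (-(1 / 2) : ℝ))) := by positivity
    have t2 : 0 ≤ R1 / η * sA q := by positivity
    have t3 : 0 ≤ 1 / R1 ^ 2 * ‖q.1‖ ^ 2 := by positivity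
    have t4 : 0 ≤ 1 / R1 ^ 2 * ‖q.2‖ ^ 2 := by positivity
    by_cases hc1 : R1 ≤ ‖q.1‖
    · have t5 : 1 ≤ 1 / R1 ^ 2 * ‖q.1‖ ^ 2 := by
        rw [one_div, inv_mul_eq_div, le_div_iff₀ (by positivity), one_mul]
        exact pow_le_pow_left₀ hR1p.le hc1 2
      have t6 : min 1 ‖q.1 - q.2‖ ≤ 1 := min_le_left _ _
      linarith
    by_cases hc2 : R1 ≤ ‖q.2‖
    · have t5 : 1 ≤ 1 / R1 ^ 2 * ‖q.2‖ ^ 2 := by
        rw [one_div, inv_mul_eq_div, le_div_iff₀ (by positivity), one_mul]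
        exact pow_le_pow_left₀ hR1p.le hc2 2
      have t6 : min 1 ‖q.1 - q.2‖ ≤ 1 := min_le_left _ _
      linarith
    push Not at hc1 hc2
    have t5 := dist_le hq1 hq2
    have t6 : max ‖q.1‖ ‖q.2‖ ≤ R1 := max_le hc1.le hc2.le
    have t7 : Real.sqrt (2 * sA q) ≤ sA q / η + η / 2 := SMixA_sqrt hsn hηp
    have t8 : dL q ≤ dL q * (1 + B * ‖q.1‖ ^ (-(1 / 2) : ℝ)) := by
      apply le_mul_of_one_le_right hdn
      have : 0 ≤ B * ‖q.1‖ ^ (-(1 / 2) : ℝ) := by positivity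
      linarith
    have t9 : ‖q.1 - q.2‖ ≤
        R1 * (dL q * (1 + B * ‖q.1‖ ^ (-(1 / 2) : ℝ)) + (sA q / η + η / 2)) := by
      refine le_trans t5 ?_
      apply mul_le_mul t6 (add_le_add t8 t7)
      · have := Real.sqrt_nonneg (2 * sA q)
        linarith
      · exact hR1p.le
    have t10 : min 1 ‖q.1 - q.2‖ ≤ ‖q.1 - q.2‖ := min_le_right _ _
    have t11 : R1 * (dL q * (1 + B * ‖q.1‖ ^ (-(1 / 2) : ℝ)) + (sA q / η + η / 2)) =
        R1 * (dL q * (1 + B * ‖q.1‖ ^ (-(1 / 2) : ℝ))) + R1 / η * sA q + R1 * (η / 2) := by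
      ring
    rw [t11, hη1] at t9
    linarith
  -- the four expectations
  have hEV : ev (hat2 β h) ν (fun q : E N × E N =>
      ENNReal.ofReal (dL q * (1 + B * ‖q.1‖ ^ (-(1 / 2) : ℝ)))) n (g, g') ≤
      ENNReal.ofReal ((1 - c * h) ^ n * V0) := by
    have hch : c * h ≤ 1 := le_trans (mul_le_mul_of_nonneg_left hlt1.le hc.le) hch1
    refine le_trans (ev_drift hmeas2 (dlA N β h D0) (dl_inv hβ hh hlt4 hν) hmV
      (ENNReal.ofReal (1 - c * h)) (fun q hq => hV h ν hh hlt1 hν q hq) n (g, g') hmem) ?_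
    rw [← ENNReal.ofReal_pow (by linarith), ← ENNReal.ofReal_mul (pow_nonneg (by linarith) _)]
    apply ENNReal.ofReal_le_ofReal
    apply mul_le_mul_of_nonneg_left _ (pow_nonneg (by linarith) _)
    rw [hV0]
    apply mul_le_mul hdL _ _ hD0n
    · have e1 : ‖g‖ ^ (-(1 / 2) : ℝ) ≤ r ^ (-(1 / 2) : ℝ) :=
        Real.rpow_le_rpow_of_nonpos hr hg1 (by norm_num)
      have e2 : B * ‖g‖ ^ (-(1 / 2) : ℝ) ≤ B * r ^ (-(1 / 2) : ℝ) :=
        mul_le_mul_of_nonneg_left e1 hB.le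
      simp only
      linarith
    · positivity
  have hES : ev (hat2 β h) ν (fun q : E N × E N => ENNReal.ofReal (sA q)) n (g, g') ≤
      ENNReal.ofReal ((1 - 1 / 2 * h) ^ n * 2) := by
    refine le_trans (ev_drift hmeas2 {q : E N × E N | q.1 ≠ 0 ∧ q.2 ≠ 0}
      (fun q hq => hat2_ne hβ hh hlt4 hν hq.1 hq.2) hmS
      (ENNReal.ofReal (1 - h / 2)) (fun q hq => ang_drift hN hβ hh hlt4 hν hq.1 hq.2) n
      (g, g') ⟨hg, hg'⟩) ?_
    have e0 : 1 - h / 2 = 1 - 1 / 2 * h := by ring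
    rw [e0, ← ENNReal.ofReal_pow (by linarith), ← ENNReal.ofReal_mul (pow_nonneg (by linarith) _)]
    apply ENNReal.ofReal_le_ofReal
    exact mul_le_mul_of_nonneg_left (sA_nonneg _).2 (pow_nonneg (by linarith) _)
  have hE1 : ev (hat2 β h) ν (fun q : E N × E N => ENNReal.ofReal (‖q.1‖ ^ 2)) n (g, g') ≤
      ENNReal.ofReal (R ^ 2 + K) := by
    have e1 := hat2_ev_fst (ν := ν) hβ hh.le hmN n (g, g')
    rw [e1]
    refine le_trans (hM h ν hh hlt2 hν n g) (ENNReal.ofReal_le_ofReal ?_)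
    have := pow_le_pow_left₀ hgp.le hg2 2
    linarith
  have hE2 : ev (hat2 β h) ν (fun q : E N × E N => ENNReal.ofReal (‖q.2‖ ^ 2)) n (g, g') ≤
      ENNReal.ofReal (R ^ 2 + K) := by
    have e1 := hat2_ev_snd (ν := ν) hβ hh.le hν.iso hmN n (g, g')
    rw [e1]
    refine le_trans (hM h ν hh hlt2 hν n g') (ENNReal.ofReal_le_ofReal ?_)
    have := pow_le_pow_left₀ hgp'.le hg2' 2
    linarith
  have hch : c * h ≤ 1 := le_trans (mul_le_mul_of_nonneg_left hlt1.le hc.le) hch1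
  have hTn1 : Ta ≤ n * h := by linarith
  have hTn2 : Tb ≤ n * h := by linarith
  have hfin1 : R1 * ((1 - c * h) ^ n * V0) ≤ ε / 4 := by
    have e1 : R1 * ((1 - c * h) ^ n * V0) = (1 - c * h) ^ n * (R1 * V0) := by ring
    rw [e1]
    refine SMixA_exp hc.le hch (by positivity) ?_ hTn1
    have e2 : ε / 4 * (1 + c * Ta) = ε / 4 + R1 * V0 := by
      rw [hTa]
      field_simp
    rw [e2]
    linarith
  have hfin2 : R1 / η * ((1 - 1 / 2 * h) ^ n * 2) ≤ ε / 4 := by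
    have e1 : R1 / η * ((1 - 1 / 2 * h) ^ n * 2) = (1 - 1 / 2 * h) ^ n * (2 * (R1 / η)) := by ring
    rw [e1]
    refine SMixA_exp (by norm_num) (by linarith) (by positivity) ?_ hTn2
    have e2 : ε / 4 * (1 + 1 / 2 * Tb) = ε / 4 + 2 * (R1 / η) := by
      rw [hTb]
      field_simp
      ring
    rw [e2]
    linarith
  calc ev (hat2 β h) ν (fun q => ENNReal.ofReal (min 1 ‖q.1 - q.2‖)) n (g, g')
      ≤ ev (hat2 β h) ν (fun q : E N × E N =>
        (((ENNReal.ofReal R1 * ENNReal.ofReal (dL q * (1 + B * ‖q.1‖ ^ (-(1 / 2) : ℝ))) +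
        ENNReal.ofReal (R1 / η) * ENNReal.ofReal (sA q)) + ENNReal.ofReal (ε / 4)) +
        ENNReal.ofReal (1 / R1 ^ 2) * ENNReal.ofReal (‖q.1‖ ^ 2)) +
        ENNReal.ofReal (1 / R1 ^ 2) * ENNReal.ofReal (‖q.2‖ ^ 2)) n (g, g') :=
        ev_mono_on (dlA N β h D0) (dl_inv hβ hh hlt4 hν) hle n (g, g') hmem
    _ = (((ENNReal.ofReal R1 * ev (hat2 β h) ν (fun q : E N × E N =>
          ENNReal.ofReal (dL q * (1 + B * ‖q.1‖ ^ (-(1 / 2) : ℝ)))) n (g, g') +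
        ENNReal.ofReal (R1 / η) *
          ev (hat2 β h) ν (fun q : E N × E N => ENNReal.ofReal (sA q)) n (g, g')) +
          ENNReal.ofReal (ε / 4)) +
        ENNReal.ofReal (1 / R1 ^ 2) *
          ev (hat2 β h) ν (fun q : E N × E N => ENNReal.ofReal (‖q.1‖ ^ 2)) n (g, g')) +
        ENNReal.ofReal (1 / R1 ^ 2) *
          ev (hat2 β h) ν (fun q : E N × E N => ENNReal.ofReal (‖q.2‖ ^ 2)) n (g, g') := by
        exact SMixA_lin hmeas2 hmV hmS hm1 hm2 _ _ _ _ _ n (g, g')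
    _ ≤ (((ENNReal.ofReal R1 * ENNReal.ofReal ((1 - c * h) ^ n * V0) +
        ENNReal.ofReal (R1 / η) * ENNReal.ofReal ((1 - 1 / 2 * h) ^ n * 2)) +
          ENNReal.ofReal (ε / 4)) +
        ENNReal.ofReal (1 / R1 ^ 2) * ENNReal.ofReal (R ^ 2 + K)) +
        ENNReal.ofReal (1 / R1 ^ 2) * ENNReal.ofReal (R ^ 2 + K) := by
        gcongr
    _ ≤ ENNReal.ofReal ε := by
        have p1 : 0 ≤ (1 - c * h) ^ n * V0 := mul_nonneg (pow_nonneg (by linarith) _) hV0n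
        have p2 : 0 ≤ (1 - 1 / 2 * h) ^ n * 2 :=
          mul_nonneg (pow_nonneg (by linarith) _) (by norm_num)
        rw [← ENNReal.ofReal_mul hR1p.le, ← ENNReal.ofReal_mul (by positivity),
          ← ENNReal.ofReal_mul (by positivity),
          ← ENNReal.ofReal_add (by positivity) (by positivity),
          ← ENNReal.ofReal_add (by positivity) (by positivity),
          ← ENNReal.ofReal_add (by positivity) (by positivity),
          ← ENNReal.ofReal_add (by positivity) (by positivity)]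
        apply ENNReal.ofReal_le_ofReal
        have e1 : 1 / R1 ^ 2 * (R ^ 2 + K) = (R ^ 2 + K) / R1 ^ 2 := by ring
        rw [e1]
        linarith

end DynS
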