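import Pool.Agent.Lib_MP_36b788s.Zpow

/-!
# YCH, part A (`N = 2`): the chain `Y ↦ ζ^{-β}Y + h`, one step

Notation `a = ζ^{-β}`, `ζ = ‖e+√hξ‖ ∈ [9/10, 11/10]` a.e., `|log ζ| ≤ 2h^{3/8}` (`zeta_ae`), `p = y/(1+y) ∈ [0,1)`, `f(y) = log(1+y)`.
`N = 2`: `E log ζ = O(h^{9/8})`, `E log²ζ = h+O(h^{9/8})` (`logz`), `E a = 1+β²h/2+O(h^{9/8})`, `E a² = 1+2β²h+O(h^{9/8})` (`zeta_pow` with `q = -β, -2β`).

PROOF of `ych_log`: `log(1+ay) = f(y)+log((1-p)+pa) ≥ f(y)+p log a` (concavity of `log`), `p E log a = -βp E log ζ ≥ -βC₁h^{9/8}`.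
`log(1+ay+h)-log(1+ay) ≥ h/(1+ay+h)`; for small `h`, `a ≤ 3/2`, `h ≤ 1/2`: `1+ay+h ≤ 2(1+y)`; for `y < K` this is `≥ h/(2(1+K))`. So
`f(y)+h/(2(1+K))1_{y<K} ≤ E f(ay+h)+βC₁h^{9/8}`. (`a ≤ 3/2`: `a = e^{-β log ζ} ≤ e^{2βh^{3/8}}`.) For `K < 0` the indicator is `0` (`y ≥ 0`).
Pass to `∫⁻` (`ofReal_integral_eq_lintegral_ofReal`, everything bounded a.e. for fixed `y`).

PROOF of `ych_sq`: `Δ = log(1+ay+h)-log(1+y) = log(1+p(a-1)+s)`, `s = h/(1+y)`.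
`Δ ≤ log(1+p(a-1))+s/(1+p(a-1)) ≤ log(1+p(a-1))+2s` (`1+p(a-1) ≥ 1/2`), `log(1+x) ≤ x-x²/2+x³/3 ` (`x = p(a-1)`, `|x| ≤ 1/2`), so
`E Δ ≤ p E(a-1) - (p²/2)E(a-1)² + E|a-1|³+2s ≤ p(1-p)(β²/2)h+Ch^{9/8}+2h/(1+y) ≤ (β²/2+2)h/(1+y)+Ch^{9/8}` since `E(a-1)² = E a²-2E a+1 = β²h+O(h^{9/8})`,
`E|a-1|³ ≤ Ch^{3/8}E(a-1)²` (`|a-1| ≤ C h^{3/8}`), `1-p = 1/(1+y)`.
`|Δ| ≤ |log a|+h` (`min(1,a) ≤ 1+p(a-1)+s ≤ max(1,a)(1+h)`), so `E Δ² ≤ 2β²E log²ζ+2h² ≤ Ch`.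
`E f(ay+h)² = f²+2fEΔ+EΔ² ≤ f²+2f(C h/(1+y)+Ch^{9/8})+Ch ≤ (1+Ch^{9/8})f²+C'h` as `f ≥ 0`, `f/(1+y) ≤ 1`, `2f ≤ 1+f²`, `h^{9/8} ≤ h`.
(If `E Δ` is negative the upper bound is still valid because `f ≥ 0`.)
-/

open MeasureTheory ProbabilityTheory Dyn
open scoped ENNReal

namespace DynS

noncomputable section

/-- chain `Y ↦ ζ^{-β} Y + h` -/
def ych (β h : ℝ) (e : E 2) (y : ℝ) (ξ : E 2) : ℝ := ‖e + Real.sqrt h • ξ‖ ^ (-β) * y + h

theorem measurable_ych (β h : ℝ) (e : E 2) :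
    Measurable (fun q : ℝ × E 2 => ych β h e q.1 q.2) := by
  unfold ych
  have h1 : Measurable (fun q : ℝ × E 2 => ‖e + Real.sqrt h • q.2‖) := by fun_prop
  exact ((h1.pow_const (-β)).mul measurable_fst).add_const h

private theorem YchA_small (c : ℝ) (hc : 0 < c) : ∃ h0 : ℝ, 0 < h0 ∧ ∀ h : ℝ, 0 < h → h < h0 →
    h ^ (3 / 8 : ℝ) ≤ c := by
  refine ⟨c ^ (8 / 3 : ℝ), Real.rpow_pos_of_pos hc _, fun h hh hlt => ?_⟩
  have h1 := Real.rpow_le_rpow hh.le hlt.le (show (0 : ℝ) ≤ 3 / 8 by norm_num)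
  rw [← Real.rpow_mul hc.le] at h1
  norm_num at h1
  exact h1

/-- pointwise facts on `a = ζ^{-β}` -/
private theorem YchA_pt {β ℓ ζ : ℝ} (hβ : 0 < β) (hβℓ : 2 * β * ℓ ≤ 1 / 4)
    (hζ : 0 < ζ) (hL : |Real.log ζ| ≤ 2 * ℓ) :
    3 / 4 ≤ ζ ^ (-β) ∧ ζ ^ (-β) ≤ 3 / 2 ∧ |ζ ^ (-β) - 1| ≤ 4 * β * ℓ ∧
      Real.log (ζ ^ (-β)) = -β * Real.log ζ := by
  have hlog : Real.log (ζ ^ (-β)) = -β * Real.log ζ := Real.log_rpow hζ _
  have ha : ζ ^ (-β) = Real.exp (-β * Real.log ζ) := by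
    rw [Real.rpow_def_of_pos hζ]; ring_nf
  set t := -β * Real.log ζ with ht
  have htb : |t| ≤ 2 * β * ℓ := by
    rw [ht, abs_mul, abs_neg, abs_of_pos hβ]
    nlinarith [abs_nonneg (Real.log ζ)]
  have ht4 : |t| ≤ 1 / 4 := htb.trans hβℓ
  rw [abs_le] at ht4
  refine ⟨?_, ?_, ?_, hlog⟩
  · rw [ha]
    have := Real.add_one_le_exp t
    linarith [ht4.1]
  · rw [ha]
    have h1 := Real.exp_bound_div_one_sub_of_interval (x := |t|) (abs_nonneg _)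
      (by have := abs_le.mpr ht4; linarith)
    have h2 : Real.exp t ≤ Real.exp |t| := Real.exp_le_exp.mpr (le_abs_self t)
    have h3 : 1 / (1 - |t|) ≤ 3 / 2 := by
      have := abs_le.mpr ht4
      rw [div_le_iff₀ (by linarith)]
      linarith
    linarith
  · rw [ha]
    have h1 := Real.abs_exp_sub_one_le (x := t) (by rw [abs_le]; constructor <;> linarith [ht4.1, ht4.2])
    calc |Real.exp t - 1| ≤ 2 * |t| := h1
      _ ≤ 4 * β * ℓ := by linarith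

private theorem YchA_ae {β : ℝ} (hβ : 0 < β) : ∃ h0 : ℝ, 0 < h0 ∧ h0 ≤ 1 / 1000 ∧
    ∀ (h : ℝ) (ν : Measure (E 2)), 0 < h → h < h0 → IsNoise h ν → ∀ e : E 2, ‖e‖ = 1 →
      ∀ᵐ ξ ∂ν, 0 < ‖e + Real.sqrt h • ξ‖ ∧
        |Real.log ‖e + Real.sqrt h • ξ‖| ≤ 2 * h ^ (3 / 8 : ℝ) ∧
        3 / 4 ≤ ‖e + Real.sqrt h • ξ‖ ^ (-β) ∧ ‖e + Real.sqrt h • ξ‖ ^ (-β) ≤ 3 / 2 ∧
        |‖e + Real.sqrt h • ξ‖ ^ (-β) - 1| ≤ 4 * β * h ^ (3 / 8 : ℝ) ∧
        Real.log (‖e + Real.sqrt h • ξ‖ ^ (-β)) = -β * Real.log ‖e + Real.sqrt h • ξ‖ := by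
  obtain ⟨h1, hh1, hle, H⟩ := zeta_ae 2
  obtain ⟨h2, hh2, H2⟩ := YchA_small (1 / (8 * β)) (by positivity)
  refine ⟨min h1 h2, lt_min hh1 hh2, (min_le_left _ _).trans hle, ?_⟩
  intro h ν hh hlt hν e he
  filter_upwards [H h ν hh (lt_of_lt_of_le hlt (min_le_left _ _)) hν e he] with ξ hξ
  obtain ⟨ha, hb, hc⟩ := hξ
  rw [abs_le] at ha
  have hζ : 0 < ‖e + Real.sqrt h • ξ‖ := by linarith [ha.1]
  have h3 := H2 h hh (lt_of_lt_of_le hlt (min_le_right _ _))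
  have h4 : 2 * β * h ^ (3 / 8 : ℝ) ≤ 1 / 4 := by
    rw [le_div_iff₀ (by positivity)] at h3
    linarith
  obtain ⟨p1, p2, p3, p4⟩ := YchA_pt hβ h4 hζ hb
  exact ⟨hζ, hb, p1, p2, p3, p4⟩

private theorem YchA_meas (h : ℝ) (e : E 2) : Measurable (fun ξ : E 2 => ‖e + Real.sqrt h • ξ‖) := by
  fun_prop

open Classical in
theorem ych_log (β : ℝ) (hβ : 0 < β) : ∃ C h0 : ℝ, 0 < C ∧ 0 < h0 ∧
    ∀ (h : ℝ) (ν : Measure (E 2)), 0 < h → h < h0 → IsNoise h ν → ∀ e : E 2, ‖e‖ = 1 →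
      ∀ K y : ℝ, 0 ≤ y →
        ENNReal.ofReal (Real.log (1 + y)) +
            ENNReal.ofReal (h / (2 * (1 + K))) * (if y < K then 1 else 0) ≤
          ∫⁻ ξ, ENNReal.ofReal (Real.log (1 + ych β h e y ξ)) ∂ν +
            ENNReal.ofReal (C * h ^ (9 / 8 : ℝ)) := by
  obtain ⟨h1, hh1, hle1, H1⟩ := YchA_ae hβ
  obtain ⟨C2, h2, hC2, hh2, H2⟩ := logz 2 (by norm_num)
  refine ⟨β * C2, min h1 h2, by positivity, lt_min hh1 hh2, ?_⟩
  intro h ν hh hlt hν e he K y hy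
  have hlt1 := lt_of_lt_of_le hlt (min_le_left _ _)
  have hlt2 := lt_of_lt_of_le hlt (min_le_right _ _)
  have hprob := hν.prob
  have hae := H1 h ν hh hlt1 hν e he
  have hm := (H2 h ν hh hlt2 hν e he).1
  have hh3 : h < 1 / 1000 := lt_of_lt_of_le hlt1 hle1
  have hH0 : 0 ≤ h ^ (9 / 8 : ℝ) := (Real.rpow_pos_of_pos hh _).le
  set p : ℝ := y / (1 + y) with hp
  have hy1 : 0 < 1 + y := by linarith
  have hp0 : 0 ≤ p := by positivity
  have hp1 : p ≤ 1 := by rw [hp, div_le_one hy1]; linarith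
  set G : ℝ := if y < K then h / (2 * (1 + K)) else 0 with hG
  have hG0 : 0 ≤ G := by
    rw [hG]; split_ifs with hK
    · have : 0 < 1 + K := by linarith
      positivity
    · exact le_rfl
  have hfm : Measurable (fun ξ => Real.log (1 + ych β h e y ξ)) := by
    have h5 := (measurable_ych β h e).comp (measurable_const.prodMk measurable_id : Measurable (fun ξ : E 2 => (y, ξ)))
    exact Real.measurable_log.comp (h5.const_add 1)
  -- bounds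
  have hbd : ∀ᵐ ξ ∂ν, 0 ≤ Real.log (1 + ych β h e y ξ) ∧
      Real.log (1 + ych β h e y ξ) ≤ 2 + 2 * y := by
    filter_upwards [hae] with ξ hξ
    obtain ⟨_, _, p1, p2, _, _⟩ := hξ
    unfold ych
    have h6 : 0 ≤ ‖e + Real.sqrt h • ξ‖ ^ (-β) * y := mul_nonneg (by linarith) hy
    have h7 : ‖e + Real.sqrt h • ξ‖ ^ (-β) * y ≤ 3 / 2 * y := mul_le_mul_of_nonneg_right p2 hy
    constructor
    · exact Real.log_nonneg (by linarith)
    · refine (Real.log_le_sub_one_of_pos (by linarith)).trans ?_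
      linarith
  have hint : Integrable (fun ξ => Real.log (1 + ych β h e y ξ)) ν := by
    refine Integrable.of_bound (C := 2 + 2 * y) hfm.aestronglyMeasurable ?_
    filter_upwards [hbd] with ξ hξ
    rw [Real.norm_eq_abs, abs_of_nonneg hξ.1]
    exact hξ.2
  have hlint : Integrable (fun ξ : E 2 => Real.log ‖e + Real.sqrt h • ξ‖) ν := by
    refine Integrable.of_bound (C := 2 * h ^ (3 / 8 : ℝ))
      (Real.measurable_log.comp (YchA_meas h e)).aestronglyMeasurable ?_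
    filter_upwards [hae] with ξ hξ
    exact hξ.2.1
  rw [← ofReal_integral_eq_lintegral_ofReal hint (hbd.mono fun ξ hξ => hξ.1)]
  -- pointwise lower bound
  have hlow : ∀ᵐ ξ ∂ν, Real.log (1 + y) + p * (-β * Real.log ‖e + Real.sqrt h • ξ‖) + G ≤
      Real.log (1 + ych β h e y ξ) := by
    filter_upwards [hae] with ξ hξ
    obtain ⟨hζ, _, p1, p2, _, p4⟩ := hξ
    rw [← p4]
    unfold ych
    set a := ‖e + Real.sqrt h • ξ‖ ^ (-β) with ha
    have ha0 : 0 < a := by linarith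
    have hay : 0 < 1 + a * y := by positivity
    -- concavity
    have hc1 : Real.log (1 + y) + p * Real.log a ≤ Real.log (1 + a * y) := by
      have h8 : (1 + a * y) = (1 + y) * ((1 - p) * 1 + p * a) := by
        rw [hp]; field_simp; ring
      have h9 : 0 < (1 - p) * 1 + p * a := by
        by_contra hneg
        push Not at hneg
        have : (1 + y) * ((1 - p) * 1 + p * a) ≤ 0 := mul_nonpos_of_nonneg_of_nonpos hy1.le hneg
        linarith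
      rw [h8, Real.log_mul hy1.ne' h9.ne']
      have h10 := strictConcaveOn_log_Ioi.concaveOn.2 (Set.mem_Ioi.mpr (zero_lt_one' ℝ))
        (Set.mem_Ioi.mpr ha0) (by linarith : (0 : ℝ) ≤ 1 - p) hp0 (by ring)
      simp only [smul_eq_mul, Real.log_one, mul_zero, zero_add] at h10
      linarith
    -- gain
    have hc2 : G ≤ Real.log (1 + (a * y + h)) - Real.log (1 + a * y) := by
      have h11 : 0 < 1 + (a * y + h) := by linarith
      have h12 : h / (1 + (a * y + h)) ≤ Real.log (1 + (a * y + h)) - Real.log (1 + a * y) := by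
        rw [← Real.log_div h11.ne' hay.ne']
        have h13 := Real.one_sub_inv_le_log_of_pos (x := (1 + (a * y + h)) / (1 + a * y)) (by positivity)
        have h14 : 1 - ((1 + (a * y + h)) / (1 + a * y))⁻¹ = h / (1 + (a * y + h)) := by
          field_simp; ring
        linarith
      refine le_trans ?_ h12
      rw [hG]
      split_ifs with hK
      · have hay2 : a * y ≤ 3 / 2 * y := mul_le_mul_of_nonneg_right p2 hy
        apply div_le_div_of_nonneg_left hh.le h11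
        linarith
      · positivity
    linarith
  have hlb : Real.log (1 + y) + p * (-β * ∫ ξ, Real.log ‖e + Real.sqrt h • ξ‖ ∂ν) + G ≤
      ∫ ξ, Real.log (1 + ych β h e y ξ) ∂ν := by
    have h15 : ∫ ξ, (Real.log (1 + y) + p * (-β * Real.log ‖e + Real.sqrt h • ξ‖) + G) ∂ν =
        Real.log (1 + y) + p * (-β * ∫ ξ, Real.log ‖e + Real.sqrt h • ξ‖ ∂ν) + G := by
      have i1 : Integrable (fun ξ : E 2 => p * (-β * Real.log ‖e + Real.sqrt h • ξ‖)) ν :=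
        (hlint.const_mul (-β)).const_mul p
      have i2 : Integrable (fun ξ : E 2 => Real.log (1 + y) + p * (-β * Real.log ‖e + Real.sqrt h • ξ‖)) ν :=
        (integrable_const _).add i1
      rw [integral_add i2 (integrable_const _), integral_add (integrable_const _) i1,
        integral_const_mul, integral_const_mul]
      simp
    rw [← h15]
    refine integral_mono_ae ?_ hint hlow
    exact ((integrable_const _).add ((hlint.const_mul (-β)).const_mul p)).add (integrable_const _)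
  have hm' : ∫ ξ, Real.log ‖e + Real.sqrt h • ξ‖ ∂ν ≤ C2 * h ^ (9 / 8 : ℝ) := by
    have := (abs_le.mp hm).2
    push_cast at this
    linarith
  have hfin : Real.log (1 + y) + G ≤ ∫ ξ, Real.log (1 + ych β h e y ξ) ∂ν +
      β * C2 * h ^ (9 / 8 : ℝ) := by
    have h16 : -(β * C2 * h ^ (9 / 8 : ℝ)) ≤ p * (-β * ∫ ξ, Real.log ‖e + Real.sqrt h • ξ‖ ∂ν) := by
      have h17 : p * (β * ∫ ξ, Real.log ‖e + Real.sqrt h • ξ‖ ∂ν) ≤ β * C2 * h ^ (9 / 8 : ℝ) := by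
        calc p * (β * ∫ ξ, Real.log ‖e + Real.sqrt h • ξ‖ ∂ν)
            ≤ p * (β * (C2 * h ^ (9 / 8 : ℝ))) := by gcongr
          _ ≤ 1 * (β * (C2 * h ^ (9 / 8 : ℝ))) := by gcongr
          _ = _ := by ring
      linarith
    linarith
  have hleft : ENNReal.ofReal (Real.log (1 + y)) +
      ENNReal.ofReal (h / (2 * (1 + K))) * (if y < K then 1 else 0) =
      ENNReal.ofReal (Real.log (1 + y) + G) := by
    rw [ENNReal.ofReal_add (Real.log_nonneg (by linarith)) hG0]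
    congr 1
    rw [hG]
    split_ifs <;> simp
  rw [hleft, ← ENNReal.ofReal_add (integral_nonneg_of_ae (hbd.mono fun ξ hξ => hξ.1)) (by positivity)]
  exact ENNReal.ofReal_le_ofReal hfin

/-- pointwise upper bound for the square -/
private theorem YchA_up {β h ℓ y ζ a p s : ℝ} (hβ : 0 < β) (hh : 0 < h) (hβℓ : 4 * β * ℓ ≤ 1 / 2) (hy : 0 ≤ y) (ha0 : 3 / 4 ≤ a)
    (ha3 : |a - 1| ≤ 4 * β * ℓ) (hla : Real.log a = -β * Real.log ζ)
    (hp : p = y / (1 + y)) (hs : s = h / (1 + y)) :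
    (Real.log (1 + (a * y + h))) ^ 2 ≤ (Real.log (1 + y)) ^ 2 +
      2 * Real.log (1 + y) * (p * (a - 1) - p ^ 2 / 2 * (a - 1) ^ 2 +
        8 * β * ℓ * (a - 1) ^ 2 + 2 * s) + (2 * β ^ 2 * (Real.log ζ) ^ 2 + 2 * h ^ 2) := by
  have hy1 : 0 < 1 + y := by linarith
  have hp0 : 0 ≤ p := by rw [hp]; positivity
  have hp1 : p ≤ 1 := by rw [hp, div_le_one hy1]; linarith
  have hs0 : 0 ≤ s := by rw [hs]; positivity
  have hsh : s ≤ h := by rw [hs]; exact div_le_self hh.le (by linarith)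
  have hf0 : 0 ≤ Real.log (1 + y) := Real.log_nonneg (by linarith)
  set x := p * (a - 1) with hx
  have hxa : |x| ≤ |a - 1| := by
    rw [hx, abs_mul, abs_of_nonneg hp0]
    exact mul_le_of_le_one_left (abs_nonneg _) hp1
  have hx2 : |x| ≤ 1 / 2 := hxa.trans (ha3.trans hβℓ)
  have hx2' := abs_le.mp hx2
  have h1x : 0 < 1 + x := by linarith [hx2'.1]
  have hfac : 1 + (a * y + h) = (1 + y) * (1 + x + s) := by
    rw [hx, hp, hs]; field_simp; ring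
  have hpos : 0 < 1 + x + s := by linarith
  have hΔ : Real.log (1 + (a * y + h)) = Real.log (1 + y) + Real.log (1 + x + s) := by
    rw [hfac, Real.log_mul hy1.ne' hpos.ne']
  set D := Real.log (1 + x + s) with hD
  -- upper bound of D
  have hD1 : D ≤ x - x ^ 2 / 2 + 2 * |x| ^ 3 + 2 * s := by
    have h1 : D ≤ Real.log (1 + x) + 2 * s := by
      have h2 : Real.log (1 + x + s) - Real.log (1 + x) ≤ s / (1 + x) := by
        rw [← Real.log_div hpos.ne' h1x.ne']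
        refine (Real.log_le_sub_one_of_pos (by positivity)).trans (le_of_eq ?_)
        field_simp; ring
      have h3 : s / (1 + x) ≤ 2 * s := by
        rw [div_le_iff₀ h1x]
        nlinarith [hx2'.1]
      linarith
    have h4 := (abs_le.mp (LogZ_r1 hx2)).2
    linarith
  have hD2 : D ≤ x - p ^ 2 / 2 * (a - 1) ^ 2 + 8 * β * ℓ * (a - 1) ^ 2 + 2 * s := by
    have h5 : x ^ 2 / 2 = p ^ 2 / 2 * (a - 1) ^ 2 := by rw [hx]; ring
    have h6 : |x| ^ 3 ≤ 4 * β * ℓ * (a - 1) ^ 2 := by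
      calc |x| ^ 3 ≤ |a - 1| ^ 3 := pow_le_pow_left₀ (abs_nonneg _) hxa 3
        _ = |a - 1| * (a - 1) ^ 2 := by rw [← sq_abs (a - 1)]; ring
        _ ≤ 4 * β * ℓ * (a - 1) ^ 2 := mul_le_mul_of_nonneg_right ha3 (sq_nonneg _)
    rw [h5] at hD1
    linarith
  -- absolute value of D
  have ha00 : 0 < a := by linarith
  have hD3 : |D| ≤ β * |Real.log ζ| + h := by
    have hla' : |Real.log a| = β * |Real.log ζ| := by
      rw [hla, abs_mul, abs_neg, abs_of_pos hβ]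
    rw [← hla', abs_le]
    constructor
    · have h7 : min 1 a ≤ 1 + x + s := by
        rcases le_total 1 a with h8 | h8
        · rw [min_eq_left h8]
          have : 0 ≤ x := mul_nonneg hp0 (by linarith)
          linarith
        · rw [min_eq_right h8]
          have : a - 1 ≤ x := by
            rw [hx]; nlinarith
          linarith
      have h9 : Real.log (min 1 a) ≤ D := Real.log_le_log (lt_min one_pos ha00) h7
      have h10 : -|Real.log a| ≤ Real.log (min 1 a) := by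
        rcases le_total 1 a with h8 | h8
        · rw [min_eq_left h8, Real.log_one]
          linarith [abs_nonneg (Real.log a)]
        · rw [min_eq_right h8]
          exact neg_abs_le _
      linarith
    · have h7 : 1 + x + s ≤ max 1 a * (1 + h) := by
        have h11 : 1 + x ≤ max 1 a := by
          rcases le_total 1 a with h8 | h8
          · rw [max_eq_right h8, hx]; nlinarith
          · rw [max_eq_left h8, hx]; nlinarith
        have h12 : 1 ≤ max 1 a := le_max_left _ _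
        nlinarith
      have h9 : D ≤ Real.log (max 1 a * (1 + h)) := Real.log_le_log hpos h7
      rw [Real.log_mul (by positivity) (by positivity)] at h9
      have h13 : Real.log (1 + h) ≤ h := by
        have := Real.log_le_sub_one_of_pos (x := 1 + h) (by linarith)
        linarith
      have h14 : Real.log (max 1 a) ≤ |Real.log a| := by
        rcases le_total 1 a with h8 | h8
        · rw [max_eq_right h8]; exact le_abs_self _
        · rw [max_eq_left h8, Real.log_one]; exact abs_nonneg _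
      linarith
  have hD4 : D ^ 2 ≤ 2 * β ^ 2 * (Real.log ζ) ^ 2 + 2 * h ^ 2 := by
    rw [← sq_abs D, ← sq_abs (Real.log ζ)]
    have h15 := pow_le_pow_left₀ (abs_nonneg D) hD3 2
    nlinarith [sq_nonneg (β * |Real.log ζ| - h)]
  rw [hΔ]
  have h16 : 2 * Real.log (1 + y) * D ≤ 2 * Real.log (1 + y) *
      (x - p ^ 2 / 2 * (a - 1) ^ 2 + 8 * β * ℓ * (a - 1) ^ 2 + 2 * s) :=
    mul_le_mul_of_nonneg_left hD2 (by positivity)
  nlinarith

/-- the numerical inequality -/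
private theorem YchA_num {β h H ℓ y f p s A1 A2 L2 C1 C2 C3 : ℝ} (hβ : 0 < β) (hh : 0 < h)
    (hh1 : h ≤ 1) (hℓ : 0 ≤ ℓ) (hH0 : 0 ≤ H) (hHh : H ≤ h) (hℓh : ℓ * h ≤ H) (hℓH : ℓ * H ≤ H)
    (hy : 0 ≤ y) (hf0 : 0 ≤ f) (hfy : f ≤ 1 + y) (hp : p = y / (1 + y)) (hs : s = h / (1 + y))
    (hC1 : 0 < C1) (hC2 : 0 < C2) (hC3 : 0 < C3)
    (hA1 : |A1 - 1 - β ^ 2 / 2 * h| ≤ C2 * H) (hA2 : |A2 - 1 - 2 * β ^ 2 * h| ≤ C3 * H)
    (hL2 : |L2 - h| ≤ C1 * H) :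
    f ^ 2 + 2 * f * (p * (A1 - 1) - p ^ 2 / 2 * (A2 - 2 * A1 + 1) +
        8 * β * ℓ * (A2 - 2 * A1 + 1) + 2 * s) + (2 * β ^ 2 * L2 + 2 * h ^ 2) ≤
      (1 + (C2 + (C3 + 2 * C2) / 2 + 8 * β * (β ^ 2 + C3 + 2 * C2) + (3 * β ^ 2 + 6 + 2 * β ^ 2 * C1)) * H) * f ^ 2 +
        (C2 + (C3 + 2 * C2) / 2 + 8 * β * (β ^ 2 + C3 + 2 * C2) + (3 * β ^ 2 + 6 + 2 * β ^ 2 * C1)) * h := by
  have hy1 : 0 < 1 + y := by linarith
  have hp0 : 0 ≤ p := by rw [hp]; positivity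
  have hp1 : p ≤ 1 := by rw [hp, div_le_one hy1]; linarith
  have h1p : 1 - p = 1 / (1 + y) := by rw [hp]; field_simp; ring
  rw [abs_le] at hA1 hA2 hL2
  set C4 := C2 + (C3 + 2 * C2) / 2 + 8 * β * (β ^ 2 + C3 + 2 * C2) with hC4
  have hC40 : 0 ≤ C4 := by positivity
  set v := A2 - 2 * A1 + 1 with hv
  have hv1 : v ≤ β ^ 2 * h + (C3 + 2 * C2) * H := by
    rw [hv]; nlinarith [hA1.1, hA2.2]
  have hv2 : β ^ 2 * h - (C3 + 2 * C2) * H ≤ v := by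
    rw [hv]; nlinarith [hA1.2, hA2.1]
  have t1 : p * (A1 - 1) ≤ p * (β ^ 2 / 2 * h) + C2 * H := by
    have := mul_le_mul_of_nonneg_left (show A1 - 1 ≤ β ^ 2 / 2 * h + C2 * H by linarith [hA1.2]) hp0
    have h2 : p * (C2 * H) ≤ C2 * H := mul_le_of_le_one_left (by positivity) hp1
    linarith
  have hpp : p ^ 2 ≤ 1 := pow_le_one₀ hp0 hp1
  have t2 : -(p ^ 2 / 2 * v) ≤ -(p ^ 2 / 2 * (β ^ 2 * h)) + (C3 + 2 * C2) / 2 * H := by
    have h3 := mul_le_mul_of_nonneg_left hv2 (show 0 ≤ p ^ 2 / 2 by positivity)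
    have h4 : p ^ 2 / 2 * ((C3 + 2 * C2) * H) ≤ 1 / 2 * ((C3 + 2 * C2) * H) :=
      mul_le_mul_of_nonneg_right (by linarith) (by positivity)
    linarith
  have t3 : 8 * β * ℓ * v ≤ 8 * β * (β ^ 2 + C3 + 2 * C2) * H := by
    have h5 := mul_le_mul_of_nonneg_left hv1 (show 0 ≤ 8 * β * ℓ by positivity)
    have h6 : 8 * β * ℓ * (β ^ 2 * h + (C3 + 2 * C2) * H) =
      8 * β * (β ^ 2 * (ℓ * h) + (C3 + 2 * C2) * (ℓ * H)) := by ring
    have h7 : β ^ 2 * (ℓ * h) ≤ β ^ 2 * H := mul_le_mul_of_nonneg_left hℓh (sq_nonneg _)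
    have h8 : (C3 + 2 * C2) * (ℓ * H) ≤ (C3 + 2 * C2) * H :=
      mul_le_mul_of_nonneg_left hℓH (by positivity)
    have h9 : 8 * β * (β ^ 2 * (ℓ * h) + (C3 + 2 * C2) * (ℓ * H)) ≤
        8 * β * (β ^ 2 * H + (C3 + 2 * C2) * H) :=
      mul_le_mul_of_nonneg_left (by linarith) (by positivity)
    calc 8 * β * ℓ * v ≤ 8 * β * (β ^ 2 * H + (C3 + 2 * C2) * H) := by linarith
      _ = _ := by ring
  have t4 : p * (β ^ 2 / 2 * h) - p ^ 2 / 2 * (β ^ 2 * h) ≤ β ^ 2 / 2 * h * (1 / (1 + y)) := by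
    rw [← h1p]
    have h10 : p * (β ^ 2 / 2 * h) - p ^ 2 / 2 * (β ^ 2 * h) = p * (β ^ 2 / 2 * h * (1 - p)) := by ring
    rw [h10]
    exact mul_le_of_le_one_left (by
      have : 0 ≤ 1 - p := by linarith
      positivity) hp1
  have t5 : p * (A1 - 1) - p ^ 2 / 2 * v + 8 * β * ℓ * v + 2 * s ≤
      (β ^ 2 / 2 + 2) * h * (1 / (1 + y)) + C4 * H := by
    have : s = h * (1 / (1 + y)) := by rw [hs]; ring
    rw [hC4, this]
    nlinarith
  have t6 : 2 * f * (p * (A1 - 1) - p ^ 2 / 2 * v + 8 * β * ℓ * v + 2 * s) ≤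
      2 * f * ((β ^ 2 / 2 + 2) * h * (1 / (1 + y)) + C4 * H) :=
    mul_le_mul_of_nonneg_left t5 (by positivity)
  have t7 : f * (1 / (1 + y)) ≤ 1 := by
    rw [mul_one_div, div_le_one hy1]; exact hfy
  have t8 : 2 * f * ((β ^ 2 / 2 + 2) * h * (1 / (1 + y))) ≤ (β ^ 2 + 4) * h := by
    calc 2 * f * ((β ^ 2 / 2 + 2) * h * (1 / (1 + y))) = (β ^ 2 + 4) * h * (f * (1 / (1 + y))) := by ring
      _ ≤ (β ^ 2 + 4) * h * 1 := mul_le_mul_of_nonneg_left t7 (by positivity)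
      _ = _ := by ring
  have t9 : 2 * f * (C4 * H) ≤ C4 * H * f ^ 2 + C4 * h := by
    have h11 : 2 * f ≤ 1 + f ^ 2 := by nlinarith [sq_nonneg (f - 1)]
    have h12 : 2 * f * (C4 * H) ≤ (1 + f ^ 2) * (C4 * H) :=
      mul_le_mul_of_nonneg_right h11 (by positivity)
    have h13 : C4 * H ≤ C4 * h := mul_le_mul_of_nonneg_left hHh hC40
    nlinarith
  have t10 : 2 * β ^ 2 * L2 ≤ 2 * β ^ 2 * (1 + C1) * h := by
    have h14 : L2 ≤ (1 + C1) * h := by nlinarith [hL2.2]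
    calc 2 * β ^ 2 * L2 ≤ 2 * β ^ 2 * ((1 + C1) * h) := mul_le_mul_of_nonneg_left h14 (by positivity)
      _ = _ := by ring
  have t11 : h ^ 2 ≤ h := by nlinarith
  have t12 : 0 ≤ (3 * β ^ 2 + 6 + 2 * β ^ 2 * C1) * H * f ^ 2 := by positivity
  nlinarith

theorem ych_sq (β : ℝ) (hβ : 0 < β) : ∃ C h0 : ℝ, 0 < C ∧ 0 < h0 ∧
    ∀ (h : ℝ) (ν : Measure (E 2)), 0 < h → h < h0 → IsNoise h ν → ∀ e : E 2, ‖e‖ = 1 →
      ∀ y : ℝ, 0 ≤ y →
        ∫⁻ ξ, ENNReal.ofReal ((Real.log (1 + ych β h e y ξ)) ^ 2) ∂ν ≤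
          ENNReal.ofReal (1 + C * h ^ (9 / 8 : ℝ)) * ENNReal.ofReal ((Real.log (1 + y)) ^ 2) +
            ENNReal.ofReal (C * h) := by
  obtain ⟨h1, hh1, hle1, H1⟩ := YchA_ae hβ
  obtain ⟨C1, h2, hC1, hh2, H2⟩ := logz 2 (by norm_num)
  obtain ⟨C2, h3, hC2, hh3, H3⟩ := zeta_pow 2 (by norm_num) (-β)
  obtain ⟨C3, h4, hC3, hh4, H4⟩ := zeta_pow 2 (by norm_num) (-(2 * β))
  obtain ⟨h5, hh5, H5⟩ := YchA_small (1 / (8 * β)) (by positivity)
  refine ⟨C2 + (C3 + 2 * C2) / 2 + 8 * β * (β ^ 2 + C3 + 2 * C2) + (3 * β ^ 2 + 6 + 2 * β ^ 2 * C1),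
    min h1 (min h2 (min h3 (min h4 h5))), by positivity,
    lt_min hh1 (lt_min hh2 (lt_min hh3 (lt_min hh4 hh5))), ?_⟩
  intro h ν hh hlt hν e he y hy
  have hprob := hν.prob
  obtain ⟨l1, l2⟩ := lt_min_iff.mp hlt
  obtain ⟨l2, l3⟩ := lt_min_iff.mp l2
  obtain ⟨l3, l4⟩ := lt_min_iff.mp l3
  obtain ⟨l4, l5⟩ := lt_min_iff.mp l4
  have hae := H1 h ν hh l1 hν e he
  have hm1 := (H2 h ν hh l2 hν e he).2.1
  have hm2 := H3 h ν hh l3 hν e he
  have hm3 := H4 h ν hh l4 hν e he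
  have hm5 := H5 h hh l5
  have hh0 : h < 1 / 1000 := lt_of_lt_of_le l1 hle1
  obtain ⟨e1, e2, e3, e4, e5⟩ := LogZ_ell hh hh0
  set ℓ := h ^ (3 / 8 : ℝ) with hℓ
  set H := h ^ (9 / 8 : ℝ) with hHd
  have hH0 : 0 ≤ H := (Real.rpow_pos_of_pos hh _).le
  have hHh : H ≤ h := by
    rw [hHd]
    have := Real.rpow_le_rpow_of_exponent_ge hh (by linarith) (show (1 : ℝ) ≤ 9 / 8 by norm_num)
    rwa [Real.rpow_one] at this
  have hℓh : ℓ * h ≤ H := by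
    have h6 : ℓ * h = h ^ (11 / 8 : ℝ) := by
      rw [hℓ, show (11 / 8 : ℝ) = 3 / 8 + 1 by norm_num, Real.rpow_add hh, Real.rpow_one]
    rw [h6, hHd]
    exact Real.rpow_le_rpow_of_exponent_ge hh (by linarith) (by norm_num)
  have hℓH : ℓ * H ≤ H := mul_le_of_le_one_left hH0 (by linarith)
  have h4βℓ : 4 * β * ℓ ≤ 1 / 2 := by
    rw [le_div_iff₀ (by positivity)] at hm5
    linarith
  have hi1 := zeta_pow_int hh hh0 hν (-β) he
  have hi2 := zeta_pow_int hh hh0 hν (-(2 * β)) he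
  have hi3 : Integrable (fun ξ : E 2 => (Real.log ‖e + Real.sqrt h • ξ‖) ^ 2) ν := by
    refine Integrable.of_bound (C := (2 * ℓ) ^ 2)
      ((Real.measurable_log.comp (YchA_meas h e)).pow_const 2).aestronglyMeasurable ?_
    filter_upwards [hae] with ξ hξ
    rw [Real.norm_eq_abs, abs_pow]
    exact pow_le_pow_left₀ (abs_nonneg _) hξ.2.1 2
  have hsq : ∀ᵐ ξ ∂ν, ‖e + Real.sqrt h • ξ‖ ^ (-(2 * β)) = (‖e + Real.sqrt h • ξ‖ ^ (-β)) ^ 2 := by
    filter_upwards [hae] with ξ hξ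
    rw [← Real.rpow_natCast, ← Real.rpow_mul hξ.1.le]
    congr 1
    push_cast; ring
  set f := Real.log (1 + y) with hf
  set p := y / (1 + y) with hp
  set s := h / (1 + y) with hs
  set A1 := ∫ ξ, ‖e + Real.sqrt h • ξ‖ ^ (-β) ∂ν with hA1
  set A2 := ∫ ξ, ‖e + Real.sqrt h • ξ‖ ^ (-(2 * β)) ∂ν with hA2
  set L2 := ∫ ξ, (Real.log ‖e + Real.sqrt h • ξ‖) ^ 2 ∂ν with hL2
  -- majorant
  set U : E 2 → ℝ := fun ξ => f ^ 2 + 2 * f * (p * (‖e + Real.sqrt h • ξ‖ ^ (-β) - 1) -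
      p ^ 2 / 2 * (‖e + Real.sqrt h • ξ‖ ^ (-(2 * β)) - 2 * ‖e + Real.sqrt h • ξ‖ ^ (-β) + 1) +
      8 * β * ℓ * (‖e + Real.sqrt h • ξ‖ ^ (-(2 * β)) - 2 * ‖e + Real.sqrt h • ξ‖ ^ (-β) + 1) +
      2 * s) + (2 * β ^ 2 * (Real.log ‖e + Real.sqrt h • ξ‖) ^ 2 + 2 * h ^ 2) with hU
  have hUae : ∀ᵐ ξ ∂ν, (Real.log (1 + ych β h e y ξ)) ^ 2 ≤ U ξ := by
    filter_upwards [hae, hsq] with ξ hξ hξ2
    obtain ⟨_, _, p1, _, p3, p4⟩ := hξ
    have := YchA_up (y := y) (p := p) (s := s) hβ hh h4βℓ hy p1 p3 p4 rfl rfl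
    unfold ych
    rw [hU]
    simp only [hξ2]
    refine this.trans (le_of_eq ?_)
    ring
  have j1 : Integrable (fun ξ : E 2 => ‖e + Real.sqrt h • ξ‖ ^ (-β) - 1) ν := hi1.sub (integrable_const _)
  have j2 : Integrable (fun ξ : E 2 => ‖e + Real.sqrt h • ξ‖ ^ (-(2 * β)) - 2 * ‖e + Real.sqrt h • ξ‖ ^ (-β) + 1) ν :=
    (hi2.sub (hi1.const_mul 2)).add (integrable_const _)
  have hUeq : U = fun ξ => (f ^ 2 + 2 * f * (2 * s) + 2 * h ^ 2) +
      (2 * f * p * (‖e + Real.sqrt h • ξ‖ ^ (-β) - 1) +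
      (2 * f * (8 * β * ℓ - p ^ 2 / 2) *
        (‖e + Real.sqrt h • ξ‖ ^ (-(2 * β)) - 2 * ‖e + Real.sqrt h • ξ‖ ^ (-β) + 1) +
      2 * β ^ 2 * (Real.log ‖e + Real.sqrt h • ξ‖) ^ 2)) := by
    rw [hU]; funext ξ; ring
  have j4 : Integrable (fun ξ : E 2 => 2 * f * (8 * β * ℓ - p ^ 2 / 2) *
        (‖e + Real.sqrt h • ξ‖ ^ (-(2 * β)) - 2 * ‖e + Real.sqrt h • ξ‖ ^ (-β) + 1) +
      2 * β ^ 2 * (Real.log ‖e + Real.sqrt h • ξ‖) ^ 2) ν := (j2.const_mul _).add (hi3.const_mul _)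
  have j5 : Integrable (fun ξ : E 2 => 2 * f * p * (‖e + Real.sqrt h • ξ‖ ^ (-β) - 1) +
      (2 * f * (8 * β * ℓ - p ^ 2 / 2) *
        (‖e + Real.sqrt h • ξ‖ ^ (-(2 * β)) - 2 * ‖e + Real.sqrt h • ξ‖ ^ (-β) + 1) +
      2 * β ^ 2 * (Real.log ‖e + Real.sqrt h • ξ‖) ^ 2)) ν := (j1.const_mul _).add j4
  have hUi : Integrable U ν := by
    rw [hUeq]
    exact (integrable_const _).add j5
  have hv1 : ∫ ξ, (‖e + Real.sqrt h • ξ‖ ^ (-β) - 1) ∂ν = A1 - 1 := by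
    rw [integral_sub hi1 (integrable_const _)]; simp [hA1]
  have hv2 : ∫ ξ, (‖e + Real.sqrt h • ξ‖ ^ (-(2 * β)) - 2 * ‖e + Real.sqrt h • ξ‖ ^ (-β) + 1) ∂ν =
      A2 - 2 * A1 + 1 := by
    have j0 : Integrable (fun ξ : E 2 => ‖e + Real.sqrt h • ξ‖ ^ (-(2 * β)) -
        2 * ‖e + Real.sqrt h • ξ‖ ^ (-β)) ν := hi2.sub (hi1.const_mul 2)
    rw [integral_add j0 (integrable_const _),
      integral_sub hi2 (hi1.const_mul 2), integral_const_mul]
    simp [hA1, hA2]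
  have hUint : ∫ ξ, U ξ ∂ν = f ^ 2 + 2 * f * (p * (A1 - 1) - p ^ 2 / 2 * (A2 - 2 * A1 + 1) +
        8 * β * ℓ * (A2 - 2 * A1 + 1) + 2 * s) + (2 * β ^ 2 * L2 + 2 * h ^ 2) := by
    rw [hUeq, integral_add (integrable_const _) j5, integral_add (j1.const_mul _) j4,
      integral_add (j2.const_mul _) (hi3.const_mul _), integral_const_mul, integral_const_mul,
      integral_const_mul, hv1, hv2]
    simp only [integral_const, probReal_univ, smul_eq_mul, one_mul]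
    ring
  have hnum := YchA_num (y := y) (f := f) (p := p) (s := s) (A1 := A1) (A2 := A2) (L2 := L2)
    hβ hh (by linarith : h ≤ 1) e1.le hH0 hHh hℓh hℓH hy (Real.log_nonneg (by linarith))
    (by have := Real.log_le_sub_one_of_pos (x := 1 + y) (by linarith); rw [hf]; linarith) rfl rfl
    hC1 hC2 hC3 (by
      have : A1 - 1 - β ^ 2 / 2 * h = A1 - 1 - -β / 2 * (((2 : ℕ) : ℝ) + -β - 2) * h := by
        push_cast; ring
      rw [this]; exact hm2)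
    (by
      have : A2 - 1 - 2 * β ^ 2 * h = A2 - 1 - -(2 * β) / 2 * (((2 : ℕ) : ℝ) + -(2 * β) - 2) * h := by
        push_cast; ring
      rw [this]; exact hm3) hm1
  calc ∫⁻ ξ, ENNReal.ofReal ((Real.log (1 + ych β h e y ξ)) ^ 2) ∂ν
      ≤ ∫⁻ ξ, ENNReal.ofReal (U ξ) ∂ν :=
        lintegral_mono_ae (hUae.mono fun ξ hξ => ENNReal.ofReal_le_ofReal hξ)
    _ = ENNReal.ofReal (∫ ξ, U ξ ∂ν) := by
        rw [ofReal_integral_eq_lintegral_ofReal hUi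
          (hUae.mono fun ξ hξ => le_trans (sq_nonneg _) hξ)]
    _ ≤ _ := by
        rw [hUint, ← ENNReal.ofReal_mul (by positivity), ← ENNReal.ofReal_add (by positivity) (by positivity)]
        exact ENNReal.ofReal_le_ofReal hnum

end

end DynS
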