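import Pool.Agent.Lib_MP_36b788s.YchA

/-!
# YCH, part B: the chain started at `0` is large at large times

PROOF. `q_n(y) = ev (ych β h e) ν 1_{y<K} n y`.
* `ych_anti`: `q_n` is antitone (induction: `y ↦ ych y ξ` is monotone since `ζ^{-β} ≥ 0`; `lintegral_mono`).
* `q_{n+1}(0) = ∫⁻q_n(ych 0 ξ) = q_n(h) ≤ q_n(0)` (`h > 0`, probability measure): `q_n(0)` is antitone in `n`.
* `f(y) = ofReal log(1+y)`; `c = h/(2(1+K))` (WLOG `K ≥ 0`, else replace `K` by `max K 0`, `1_{y<K} ≤ 1_{y<max K 0}`). Let `A = {y ≥ 0}` (invariant). `ych_log`,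
  `ev_mono_on`, `ev_add`, `ev_cmul`, `ev_const`, `ev_time`: `ev f n 0 + ofReal c q_n(0) ≤ ev f (n+1) 0 + ofReal(Ch^{9/8})`. Sum over `i < n`
  (`ev f 0 0 = 0`): `Σ_{i<n}ofReal c q_i(0) ≤ ev f n 0 + n ofReal(Ch^{9/8})`, and `q_i(0) ≥ q_n(0)`: `ofReal(n c) q_n(0) ≤ ev f n 0+ofReal(nCh^{9/8})`.
  (All terms finite.)
* `g(y) = ofReal (log(1+y))²`: `ych_sq`: `ev g (n+1) x ≤ ofReal(1+Ch^{9/8}) ev g n x + ofReal(Ch)` on `A` (`ev g (n+1) = ev (P g) n` by `ev_time`), so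
  `ev g n 0 ≤ ofReal((1+Ch^{9/8})^n n C h) ≤ ofReal(e^{Cnh^{9/8}}Cnh)`.
* `f ≤ g/(2λ)+λ/2` for every `λ > 0`: `ev f n 0 ≤ ofReal(1/(2λ)) ev g n 0+ofReal(λ/2)`.
* `n0 = ⌈T0/h⌉₊`, `T0 ≥ 1`: `T0 ≤ n0h ≤ T0+1 ≤ 2T0` (`h ≤ 1`), `Cn0h^{9/8} ≤ 2CT0h^{1/8} ≤ 1` for `h < h0(T0)`: `ev g n0 0 ≤ 6CT0`, `λ = √T0`:
  `ev f n0 0 ≤ (3C+1/2)√T0`; `q_{n0}(0) ≤ 2(1+K)[(3C+1/2)√T0+2CT0h^{1/8}]/T0 ≤ ε` for `T0` large, then `h0` small. `q_n(0) ≤ q_{n0}(0)` for `n ≥ n0`, and `T0 ≤ nh`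
  gives `n ≥ n0` (`Nat.ceil_le`).
-/

open MeasureTheory ProbabilityTheory Dyn
open scoped ENNReal

namespace DynS

open Classical in
theorem ych_anti (β h K : ℝ) (e : E 2) (ν : Measure (E 2)) (n : ℕ) {y y' : ℝ} (hyy : y ≤ y') :
    ev (ych β h e) ν (fun y => if y < K then 1 else 0) n y' ≤
      ev (ych β h e) ν (fun y => if y < K then 1 else 0) n y := by
  induction n generalizing y y' with
  | zero =>
    simp only [ev]
    by_cases h1 : y' < K
    · have h2 : y < K := lt_of_le_of_lt hyy h1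
      simp [h1, h2]
    · simp [h1]
  | succ n ih =>
    simp only [ev]
    refine lintegral_mono fun ξ => ih ?_
    unfold ych
    have h1 : 0 ≤ ‖e + Real.sqrt h • ξ‖ ^ (-β) := Real.rpow_nonneg (norm_nonneg _) _
    have := mul_le_mul_of_nonneg_left hyy h1
    linarith

private theorem YchB_inv (β h : ℝ) (hh : 0 ≤ h) (e : E 2) (ν : Measure (E 2)) :
    ∀ x ∈ {y : ℝ | 0 ≤ y}, ∀ᵐ ξ ∂ν, ych β h e x ξ ∈ {y : ℝ | 0 ≤ y} := by
  intro x hx
  refine Filter.Eventually.of_forall fun ξ => ?_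
  have h1 : 0 ≤ ‖e + Real.sqrt h • ξ‖ ^ (-β) := Real.rpow_nonneg (norm_nonneg _) _
  have : 0 ≤ ‖e + Real.sqrt h • ξ‖ ^ (-β) * x := mul_nonneg h1 hx
  show 0 ≤ ych β h e x ξ
  unfold ych
  linarith

open Classical in
private theorem YchB_q_anti (β h K : ℝ) (hh : 0 < h) (e : E 2) (ν : Measure (E 2))
    [IsProbabilityMeasure ν] :
    Antitone fun n : ℕ => ev (ych β h e) ν (fun y => if y < K then 1 else 0) n 0 := by
  refine antitone_nat_of_succ_le fun n => ?_
  have h1 : ev (ych β h e) ν (fun y => if y < K then 1 else 0) (n + 1) 0 =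
      ev (ych β h e) ν (fun y => if y < K then 1 else 0) n h := by
    simp only [ev]
    have : ∀ ξ : E 2, ych β h e 0 ξ = h := fun ξ => by simp [ych]
    simp only [this]
    rw [lintegral_const, measure_univ, mul_one]
  rw [h1]
  exact ych_anti β h K e ν n hh.le

private theorem YchB_mf : Measurable fun y : ℝ => ENNReal.ofReal (Real.log (1 + y)) :=
  (Real.measurable_log.comp (measurable_const.add measurable_id)).ennreal_ofReal

private theorem YchB_mg : Measurable fun y : ℝ => ENNReal.ofReal ((Real.log (1 + y)) ^ 2) :=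
  ((Real.measurable_log.comp (measurable_const.add measurable_id)).pow_const 2).ennreal_ofReal

open Classical in
private theorem YchB_mi (K : ℝ) : Measurable fun y : ℝ => if y < K then (1 : ℝ≥0∞) else 0 :=
  Measurable.ite measurableSet_Iio measurable_const measurable_const

open Classical in
/-- linear drift, summed -/
private theorem YchB_sum (β h K : ℝ) (hh : 0 < h) (e : E 2) (ν : Measure (E 2))
    [IsProbabilityMeasure ν] (c η : ℝ≥0∞)
    (H : ∀ y : ℝ, 0 ≤ y → ENNReal.ofReal (Real.log (1 + y)) + c * (if y < K then 1 else 0) ≤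
      ∫⁻ ξ, ENNReal.ofReal (Real.log (1 + ych β h e y ξ)) ∂ν + η) (n : ℕ) :
    n * (c * ev (ych β h e) ν (fun y => if y < K then 1 else 0) n 0) ≤
      ev (ych β h e) ν (fun y => ENNReal.ofReal (Real.log (1 + y))) n 0 + n * η := by
  have hm := measurable_ych β h e
  set a : ℕ → ℝ≥0∞ := fun n => ev (ych β h e) ν (fun y => ENNReal.ofReal (Real.log (1 + y))) n 0 with ha
  set q : ℕ → ℝ≥0∞ := fun n => ev (ych β h e) ν (fun y => if y < K then 1 else 0) n 0 with hq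
  have hst : ∀ n, a n + c * q n ≤ a (n + 1) + η := by
    intro n
    have h1 := ev_mono_on (f := ych β h e) (μ := ν) {y : ℝ | 0 ≤ y} (YchB_inv β h hh.le e ν)
      (φ := fun y => ENNReal.ofReal (Real.log (1 + y)) + c * (if y < K then 1 else 0))
      (ψ := fun y => ev (ych β h e) ν (fun y => ENNReal.ofReal (Real.log (1 + y))) 1 y + η)
      (fun y hy => by simpa only [ev] using H y hy) n 0 (by simp)
    rw [ev_add hm YchB_mf ((YchB_mi K).const_mul c), ev_cmul hm (YchB_mi K),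
      ev_add hm (ev_meas hm YchB_mf 1) measurable_const, ev_time, ev_const] at h1
    exact h1
  have hsum : ∀ n, ∑ i ∈ Finset.range n, c * q i ≤ a n + n * η := by
    intro n
    induction n with
    | zero => simp
    | succ n ih =>
      rw [Finset.sum_range_succ]
      calc ∑ i ∈ Finset.range n, c * q i + c * q n ≤ (a n + n * η) + c * q n := by gcongr
        _ = (a n + c * q n) + n * η := by ring
        _ ≤ (a (n + 1) + η) + n * η := add_le_add (hst n) le_rfl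
        _ = a (n + 1) + ((n + 1 : ℕ) : ℝ≥0∞) * η := by push_cast; ring
  have hanti : Antitone q := YchB_q_anti β h K hh e ν
  calc (n : ℝ≥0∞) * (c * q n) = ∑ i ∈ Finset.range n, c * q n := by
        rw [Finset.sum_const, Finset.card_range, nsmul_eq_mul]
    _ ≤ ∑ i ∈ Finset.range n, c * q i := by
        refine Finset.sum_le_sum fun i hi => ?_
        gcongr
        exact hanti (Finset.mem_range.1 hi).le
    _ ≤ _ := hsum n

/-- quadratic drift, summed -/
private theorem YchB_sq (β h : ℝ) (hh : 0 < h) (e : E 2) (ν : Measure (E 2))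
    [IsProbabilityMeasure ν] (ρ κ : ℝ≥0∞) (hρ : 1 ≤ ρ)
    (H : ∀ y : ℝ, 0 ≤ y → ∫⁻ ξ, ENNReal.ofReal ((Real.log (1 + ych β h e y ξ)) ^ 2) ∂ν ≤
      ρ * ENNReal.ofReal ((Real.log (1 + y)) ^ 2) + κ) (n : ℕ) :
    ev (ych β h e) ν (fun y => ENNReal.ofReal ((Real.log (1 + y)) ^ 2)) n 0 ≤ ρ ^ n * (n * κ) := by
  have hm := measurable_ych β h e
  induction n with
  | zero => simp [ev]
  | succ n ih =>
    have h1 := ev_mono_on (f := ych β h e) (μ := ν) {y : ℝ | 0 ≤ y} (YchB_inv β h hh.le e ν)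
      (φ := fun y => ev (ych β h e) ν (fun y => ENNReal.ofReal ((Real.log (1 + y)) ^ 2)) 1 y)
      (ψ := fun y => ρ * ENNReal.ofReal ((Real.log (1 + y)) ^ 2) + κ)
      (fun y hy => by simpa only [ev] using H y hy) n 0 (by simp)
    rw [ev_add hm (YchB_mg.const_mul ρ) measurable_const, ev_cmul hm YchB_mg, ev_const] at h1
    have h2 : ev (ych β h e) ν (fun y => ENNReal.ofReal ((Real.log (1 + y)) ^ 2)) (n + 1) 0 =
        ev (ych β h e) ν (fun y => ev (ych β h e) ν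
          (fun y => ENNReal.ofReal ((Real.log (1 + y)) ^ 2)) 1 y) n 0 := (ev_time _ n 1 0).symm
    rw [h2]
    refine h1.trans ?_
    have h3 : κ ≤ ρ ^ (n + 1) * κ := le_mul_of_one_le_left zero_le (one_le_pow₀ hρ)
    calc ρ * ev (ych β h e) ν (fun y => ENNReal.ofReal ((Real.log (1 + y)) ^ 2)) n 0 + κ
        ≤ ρ * (ρ ^ n * (n * κ)) + ρ ^ (n + 1) * κ := by gcongr
      _ = ρ ^ (n + 1) * (((n + 1 : ℕ) : ℝ≥0∞) * κ) := by push_cast; ring

/-- `f ≤ g/(2λ) + λ/2` -/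
private theorem YchB_fg (β h : ℝ) (e : E 2) (ν : Measure (E 2))
    [IsProbabilityMeasure ν] (l : ℝ) (hl : 0 < l) (n : ℕ) :
    ev (ych β h e) ν (fun y => ENNReal.ofReal (Real.log (1 + y))) n 0 ≤
      ENNReal.ofReal (1 / (2 * l)) *
        ev (ych β h e) ν (fun y => ENNReal.ofReal ((Real.log (1 + y)) ^ 2)) n 0 +
      ENNReal.ofReal (l / 2) := by
  have hm := measurable_ych β h e
  have h1 := ev_mono (f := ych β h e) (μ := ν)
    (φ := fun y => ENNReal.ofReal (Real.log (1 + y)))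
    (ψ := fun y => ENNReal.ofReal (1 / (2 * l)) * ENNReal.ofReal ((Real.log (1 + y)) ^ 2) +
      ENNReal.ofReal (l / 2)) (fun y => ?_) n 0
  · rw [ev_add hm (YchB_mg.const_mul _) measurable_const, ev_cmul hm YchB_mg, ev_const] at h1
    exact h1
  · show ENNReal.ofReal (Real.log (1 + y)) ≤ ENNReal.ofReal (1 / (2 * l)) *
      ENNReal.ofReal ((Real.log (1 + y)) ^ 2) + ENNReal.ofReal (l / 2)
    rw [← ENNReal.ofReal_mul (by positivity), ← ENNReal.ofReal_add (by positivity) (by positivity)]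
    refine ENNReal.ofReal_le_ofReal ?_
    set u := Real.log (1 + y)
    have h2 : 0 ≤ (u - l) ^ 2 / (2 * l) := by positivity
    have h3 : (u - l) ^ 2 / (2 * l) = 1 / (2 * l) * u ^ 2 + l / 2 - u := by
      field_simp
      ring
    linarith

open Classical in
theorem ych_tail (β : ℝ) (hβ : 0 < β) (K ε : ℝ) (hε : 0 < ε) : ∃ T0 h0 : ℝ, 0 ≤ T0 ∧ 0 < h0 ∧
    ∀ (h : ℝ) (ν : Measure (E 2)), 0 < h → h < h0 → IsNoise h ν → ∀ e : E 2, ‖e‖ = 1 →
      ∀ n : ℕ, T0 ≤ n * h →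
        ev (ych β h e) ν (fun y => if y < K then 1 else 0) n 0 ≤ ENNReal.ofReal ε := by
  obtain ⟨C₁, h₁, hC₁, hh₁, H₁⟩ := ych_log β hβ
  obtain ⟨C₂, h₂, hC₂, hh₂, H₂⟩ := ych_sq β hβ
  set K' : ℝ := max K 0 with hK'
  have hK'0 : 0 ≤ K' := le_max_right _ _
  have hKK : K ≤ K' := le_max_left _ _
  set R : ℝ := max 1 ((3 * C₂ + 1 / 2) * (4 * (1 + K')) / ε) with hR
  have hR1 : 1 ≤ R := le_max_left _ _
  have hR2 : (3 * C₂ + 1 / 2) * (4 * (1 + K')) / ε ≤ R := le_max_right _ _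
  set T : ℝ := R ^ 2 with hT
  have hT1 : 1 ≤ T := one_le_pow₀ hR1
  have hTpos : 0 < T := by linarith
  set δ₁ : ℝ := 1 / (2 * C₂ * T) with hδ₁
  set δ₂ : ℝ := ε / (8 * C₁ * (1 + K')) with hδ₂
  have hδ₁p : 0 < δ₁ := by positivity
  have hδ₂p : 0 < δ₂ := by positivity
  refine ⟨T, min (min h₁ h₂) (min 1 (min (δ₁ ^ 8) (δ₂ ^ 8))), hTpos.le, by positivity, ?_⟩
  intro h ν hh hh0 hν e he n hn
  have := hν.prob
  have a1 : h < h₁ := lt_of_lt_of_le hh0 ((min_le_left _ _).trans (min_le_left _ _))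
  have a2 : h < h₂ := lt_of_lt_of_le hh0 ((min_le_left _ _).trans (min_le_right _ _))
  have a3 : h < 1 := lt_of_lt_of_le hh0 ((min_le_right _ _).trans (min_le_left _ _))
  have a4 : h < δ₁ ^ 8 :=
    lt_of_lt_of_le hh0 ((min_le_right _ _).trans ((min_le_right _ _).trans (min_le_left _ _)))
  have a5 : h < δ₂ ^ 8 :=
    lt_of_lt_of_le hh0 ((min_le_right _ _).trans ((min_le_right _ _).trans (min_le_right _ _)))
  set s : ℝ := h ^ (1 / 8 : ℝ) with hs
  have hs0 : 0 < s := Real.rpow_pos_of_pos hh _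
  have hs8 : s ^ 8 = h := by
    rw [hs, ← Real.rpow_natCast, ← Real.rpow_mul hh.le]
    norm_num
  have hs1 : s < δ₁ := by
    refine lt_of_pow_lt_pow_left₀ 8 hδ₁p.le ?_
    rw [hs8]; exact a4
  have hs2 : s < δ₂ := by
    refine lt_of_pow_lt_pow_left₀ 8 hδ₂p.le ?_
    rw [hs8]; exact a5
  have h98 : h ^ (9 / 8 : ℝ) = h * s := by
    rw [hs, show (9 / 8 : ℝ) = 1 + 1 / 8 by norm_num, Real.rpow_add hh, Real.rpow_one]
  set n0 : ℕ := ⌈T / h⌉₊ with hn0
  have hn0n : n0 ≤ n := by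
    rw [hn0, Nat.ceil_le, div_le_iff₀ hh]
    exact hn
  have hn0T : T ≤ n0 * h := by
    have := Nat.le_ceil (T / h)
    rw [div_le_iff₀ hh] at this
    exact this
  have hn0T2 : n0 * h ≤ 2 * T := by
    have := Nat.ceil_lt_add_one (a := T / h) (by positivity)
    have h1 : (n0 : ℝ) * h ≤ (T / h + 1) * h := mul_le_mul_of_nonneg_right this.le hh.le
    have h2 : (T / h + 1) * h = T + h := by field_simp
    linarith
  -- reduce to `n0` and `K'`
  have hred : ev (ych β h e) ν (fun y => if y < K then 1 else 0) n 0 ≤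
      ev (ych β h e) ν (fun y => if y < K' then 1 else 0) n0 0 := by
    refine (YchB_q_anti β h K hh e ν hn0n).trans ?_
    refine ev_mono (f := ych β h e) (μ := ν) (fun y => ?_) n0 0
    by_cases hy : y < K
    · simp [hy, lt_of_lt_of_le hy hKK]
    · simp [hy]
  refine hred.trans ?_
  set Q := ev (ych β h e) ν (fun y => if y < K' then 1 else 0) n0 0 with hQ
  have b1 := YchB_sum β h K' hh e ν (ENNReal.ofReal (h / (2 * (1 + K'))))
    (ENNReal.ofReal (C₁ * h ^ (9 / 8 : ℝ))) (fun y hy => H₁ h ν hh a1 hν e he K' y hy) n0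
  rw [← hQ] at b1
  have b2 := YchB_sq β h hh e ν (ENNReal.ofReal (1 + C₂ * h ^ (9 / 8 : ℝ))) (ENNReal.ofReal (C₂ * h))
    (by
      rw [ENNReal.one_le_ofReal]
      have : 0 ≤ C₂ * h ^ (9 / 8 : ℝ) := by positivity
      linarith) (fun y hy => H₂ h ν hh a2 hν e he y hy) n0
  have b3 := YchB_fg β h e ν R (by linarith) n0
  -- quadratic bound in reals
  have c1 : ENNReal.ofReal (1 + C₂ * h ^ (9 / 8 : ℝ)) ^ n0 * (n0 * ENNReal.ofReal (C₂ * h)) ≤
      ENNReal.ofReal (6 * C₂ * T) := by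
    rw [← ENNReal.ofReal_natCast n0, ← ENNReal.ofReal_mul (by positivity),
      ← ENNReal.ofReal_pow (by positivity), ← ENNReal.ofReal_mul (by positivity)]
    refine ENNReal.ofReal_le_ofReal ?_
    have d1 : (1 + C₂ * h ^ (9 / 8 : ℝ)) ^ n0 ≤ Real.exp 1 := by
      have e1 : 1 + C₂ * h ^ (9 / 8 : ℝ) ≤ Real.exp (C₂ * h ^ (9 / 8 : ℝ)) := by
        rw [add_comm]; exact Real.add_one_le_exp _
      calc (1 + C₂ * h ^ (9 / 8 : ℝ)) ^ n0 ≤ Real.exp (C₂ * h ^ (9 / 8 : ℝ)) ^ n0 :=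
            pow_le_pow_left₀ (by positivity) e1 _
        _ = Real.exp (n0 * (C₂ * h ^ (9 / 8 : ℝ))) := by rw [← Real.exp_nat_mul]
        _ ≤ Real.exp 1 := by
            refine Real.exp_le_exp.2 ?_
            rw [h98]
            have : (n0 : ℝ) * (C₂ * (h * s)) = (n0 * h) * (C₂ * s) := by ring
            rw [this]
            calc (n0 : ℝ) * h * (C₂ * s) ≤ (2 * T) * (C₂ * δ₁) := by
                  gcongr
              _ = 1 := by rw [hδ₁]; field_simp
    have d2 : Real.exp 1 ≤ 3 := by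
      have := Real.exp_one_lt_d9
      linarith
    have d3 : (n0 : ℝ) * (C₂ * h) ≤ 2 * T * C₂ := by
      have : (n0 : ℝ) * (C₂ * h) = (n0 * h) * C₂ := by ring
      rw [this]
      gcongr
    calc (1 + C₂ * h ^ (9 / 8 : ℝ)) ^ n0 * ((n0 : ℝ) * (C₂ * h)) ≤ 3 * (2 * T * C₂) := by
          refine mul_le_mul (d1.trans d2) d3 (by positivity) (by norm_num)
      _ = 6 * C₂ * T := by ring
  have c2 : ev (ych β h e) ν (fun y => ENNReal.ofReal (Real.log (1 + y))) n0 0 ≤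
      ENNReal.ofReal ((3 * C₂ + 1 / 2) * R) := by
    refine b3.trans ?_
    calc _ ≤ ENNReal.ofReal (1 / (2 * R)) * ENNReal.ofReal (6 * C₂ * T) + ENNReal.ofReal (R / 2) := by
          gcongr
          exact b2.trans c1
      _ = ENNReal.ofReal ((3 * C₂ + 1 / 2) * R) := by
          rw [← ENNReal.ofReal_mul (by positivity), ← ENNReal.ofReal_add (by positivity) (by positivity)]
          congr 1
          rw [hT]
          field_simp
          ring
  have c3 : (n0 : ℝ≥0∞) * ENNReal.ofReal (C₁ * h ^ (9 / 8 : ℝ)) ≤ ENNReal.ofReal (2 * T * (C₁ * s)) := by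
    rw [← ENNReal.ofReal_natCast n0, ← ENNReal.ofReal_mul (by positivity)]
    refine ENNReal.ofReal_le_ofReal ?_
    rw [h98]
    have : (n0 : ℝ) * (C₁ * (h * s)) = (n0 * h) * (C₁ * s) := by ring
    rw [this]
    gcongr
  have c4 : ENNReal.ofReal (T / (2 * (1 + K'))) * Q ≤
      (n0 : ℝ≥0∞) * (ENNReal.ofReal (h / (2 * (1 + K'))) * Q) := by
    rw [← mul_assoc, ← ENNReal.ofReal_natCast n0, ← ENNReal.ofReal_mul (by positivity)]
    gcongr
    rw [mul_div_assoc']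
    gcongr
  have c5 : ENNReal.ofReal (T / (2 * (1 + K'))) * Q ≤ ENNReal.ofReal (T / (2 * (1 + K')) * ε) := by
    refine (c4.trans (b1.trans (add_le_add c2 c3))).trans ?_
    rw [← ENNReal.ofReal_add (by positivity) (by positivity)]
    refine ENNReal.ofReal_le_ofReal ?_
    have d1 : (3 * C₂ + 1 / 2) * R ≤ T / (4 * (1 + K')) * ε := by
      have e1 : (3 * C₂ + 1 / 2) * (4 * (1 + K')) ≤ R * ε := by
        rwa [div_le_iff₀ hε] at hR2
      have e2 : (3 * C₂ + 1 / 2) ≤ R * ε / (4 * (1 + K')) := by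
        rw [le_div_iff₀ (by positivity)]; exact e1
      calc (3 * C₂ + 1 / 2) * R ≤ R * ε / (4 * (1 + K')) * R := by gcongr
        _ = _ := by rw [hT]; ring
    have d2 : 2 * T * (C₁ * s) ≤ T / (4 * (1 + K')) * ε := by
      calc 2 * T * (C₁ * s) ≤ 2 * T * (C₁ * δ₂) := by gcongr
        _ = _ := by rw [hδ₂]; field_simp; norm_num
    have d3 : T / (2 * (1 + K')) * ε = T / (4 * (1 + K')) * ε + T / (4 * (1 + K')) * ε := by
      field_simp
      norm_num
    linarith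
  rw [ENNReal.ofReal_mul (by positivity)] at c5
  have hne : ENNReal.ofReal (T / (2 * (1 + K'))) ≠ 0 := by
    rw [Ne, ENNReal.ofReal_eq_zero, not_le]
    positivity
  exact (ENNReal.mul_le_mul_iff_right hne ENNReal.ofReal_ne_top).1 c5

end DynS
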